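import Pool.Agent.H15.Sig.Main

/-!
# Rotation and the final inequalities
-/

open Complex Set Filter Topology MeasureTheory
open scoped ComplexConjugate Real

namespace Pool.Agent.H15.Sig

variable {F : ℂ → ℂ} {b : ℕ → ℂ}

theorem IsSig.rot (h : IsSig F b) {w : ℂ} (hw : ‖w‖ = 1) :
    IsSig (fun z => w⁻¹ * F (w * z)) (fun n => b n * (w⁻¹) ^ (n + 1)) where
  inj := by
    have hw0 : w ≠ 0 := by rw [← norm_pos_iff, hw]; norm_num
    intro z hz z' hz' he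
    have hz1 : 1 < ‖w * z‖ := by rw [norm_mul, hw, one_mul]; exact hz
    have hz2 : 1 < ‖w * z'‖ := by rw [norm_mul, hw, one_mul]; exact hz'
    have h1 : F (w * z) = F (w * z') := mul_left_cancel₀ (inv_ne_zero hw0) he
    exact mul_left_cancel₀ hw0 (h.inj hz1 hz2 h1)
  ser := by
    intro z hz
    have hw0 : w ≠ 0 := by rw [← norm_pos_iff, hw]; norm_num
    have hz1 : 1 < ‖w * z‖ := by rw [norm_mul, hw, one_mul]; exact hz
    have h1 := (h.ser _ hz1).mul_left w⁻¹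
    have e : w⁻¹ * F (w * z) - z = w⁻¹ * (F (w * z) - w * z) := by
      field_simp
    rw [e]
    refine h1.congr_fun ?_ |> fun h => h
    intro n
    rw [mul_inv, mul_pow, pow_succ]; ring
  b0 := by simp [h.b0]

theorem exists_rot (h : IsSig F b) : ∃ φ : ℝ,
    Nrm (fun z => (exp (φ * I))⁻¹ * F (exp (φ * I) * z))
      (fun n => b n * ((exp (φ * I))⁻¹) ^ (n + 1)) ‖b 1‖ := by
  refine ⟨arg (b 1) / 2, h.rot (norm_exp_ofReal_mul_I _), ?_, norm_nonneg _⟩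
  have h1 : (exp ((arg (b 1) / 2 : ℝ) * I))⁻¹ ^ (1 + 1) = (exp (arg (b 1) * I))⁻¹ := by
    rw [inv_pow, ← exp_nat_mul]
    congr 2
    push_cast; ring
  rw [h1]
  have h2 := norm_mul_exp_arg_mul_I (b 1)
  have h3 : exp (arg (b 1) * I) ≠ 0 := exp_ne_zero _
  rw [mul_inv_eq_iff_eq_mul₀ h3]
  exact h2.symm

theorem integral_rot {g : ℂ → ℂ} {r lam : ℝ} (φ : ℝ) :
    ∫ t in (-π)..π, ‖g (exp (φ * I) * (r * exp (t * I)))‖ ^ lam =
      ∫ t in (-π)..π, ‖g (r * exp (t * I))‖ ^ lam := by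
  have hp : Function.Periodic (fun t : ℝ => ‖g (r * exp (t * I))‖ ^ lam) (2 * π) := by
    intro t
    simp only
    have : exp (((t + 2 * π : ℝ) : ℂ) * I) = exp (t * I) := by
      rw [show (((t + 2 * π : ℝ) : ℂ) * I) = t * I + 2 * π * I by push_cast; ring,
        exp_add, exp_two_pi_mul_I, mul_one]
    rw [this]
  have h1 : ∀ t : ℝ, ‖g (exp (φ * I) * (r * exp (t * I)))‖ ^ lam =
      (fun t : ℝ => ‖g (r * exp (t * I))‖ ^ lam) (t + φ) := by
    intro t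
    simp only
    have : exp (φ * I) * (r * exp (t * I)) = r * exp (((t + φ : ℝ) : ℂ) * I) := by
      rw [show (((t + φ : ℝ) : ℂ) * I) = t * I + φ * I by push_cast; ring, exp_add]; ring
    rw [this]
  simp_rw [h1]
  rw [intervalIntegral.integral_comp_add_right (fun t : ℝ => ‖g (r * exp (t * I))‖ ^ lam) φ]
  have h2 := hp.intervalIntegral_add_eq (-π + φ) (-π)
  rw [show -π + φ + 2 * π = π + φ by ring, show -π + 2 * π = π by ring] at h2
  exact h2

/-- the moments of `F` for large radii -/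
theorem IsSig.le_J (h : IsSig F b) {lam r : ℝ} (hl : 0 < lam) (hr : 30000 ≤ r) :
    ∫ t in (-π)..π, ‖F (r * exp (t * I))‖ ^ lam ≤
      r ^ lam * Mo (lam / 2) ((r⁻¹) ^ 2) ∧ (‖b 1‖ < 1 →
    ∫ t in (-π)..π, ‖F (r * exp (t * I))‖ ^ lam <
      r ^ lam * Mo (lam / 2) ((r⁻¹) ^ 2)) := by
  obtain ⟨φ, hN⟩ := exists_rot h
  have hr0 : 0 < r := by linarith
  have hx0 : 0 < r⁻¹ := inv_pos.2 hr0
  have hx : r⁻¹ ≤ 1 / 30000 := by
    rw [one_div]; exact inv_anti₀ (by norm_num) hr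
  have h1 := hN.int_F (p := lam / 2) (by positivity) hx0 hx
  rw [show 2 * (lam / 2) = lam by ring] at h1
  have h2 : ∀ t : ℝ, ‖F (exp (φ * I) * (r * exp (t * I)))‖ ^ lam = r ^ lam *
      ‖1 + ((r⁻¹ : ℝ) * ec t) * pw (fun n => b n * ((exp (φ * I))⁻¹) ^ (n + 1))
        ((r⁻¹ : ℝ) * ec t)‖ ^ lam := by
    intro t
    have h3 := hN.sig.norm_circle hx0 (by linarith : r⁻¹ < 1) t
    rw [inv_inv] at h3
    have h4 : ‖(exp (φ * I))⁻¹ * F (exp (φ * I) * (r * exp (t * I)))‖ =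
        ‖F (exp (φ * I) * (r * exp (t * I)))‖ := by
      rw [norm_mul, norm_inv, norm_exp_ofReal_mul_I]; simp
    rw [← h4, h3, Real.mul_rpow hr0.le (norm_nonneg _)]
  rw [← integral_rot (g := F) φ]
  simp_rw [h2]
  rw [intervalIntegral.integral_const_mul]
  exact ⟨mul_le_mul_of_nonneg_left h1.1 (by positivity),
    fun hb => mul_lt_mul_of_pos_left (h1.2 hb) (by positivity)⟩

/-- the moments of the derivative for large radii -/
theorem IsSig.deriv_le_J (h : IsSig F b) {lam r : ℝ} (hl : 0 < lam) (hr : 30000 ≤ r)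
    (hlr : 180 * lam ≤ r ^ 4) :
    ∫ t in (-π)..π, ‖deriv F (r * exp (t * I))‖ ^ lam ≤ Mo (lam / 2) ((r⁻¹) ^ 2) ∧
    (‖b 1‖ < 1 →
      ∫ t in (-π)..π, ‖deriv F (r * exp (t * I))‖ ^ lam < Mo (lam / 2) ((r⁻¹) ^ 2)) := by
  obtain ⟨φ, hN⟩ := exists_rot h
  have hr0 : 0 < r := by linarith
  have hx0 : 0 < r⁻¹ := inv_pos.2 hr0
  have hx : r⁻¹ ≤ 1 / 30000 := by
    rw [one_div]; exact inv_anti₀ (by norm_num) hr
  have hpx : lam / 2 * (r⁻¹) ^ 4 ≤ 1 / 360 := by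
    rw [inv_pow, ← div_eq_mul_inv, div_le_iff₀ (by positivity)]
    linarith
  have h1 := hN.int_D (p := lam / 2) (by positivity) hx0 hx hpx
  rw [show 2 * (lam / 2) = lam by ring] at h1
  have h2 : ∀ t : ℝ, ‖deriv F (exp (φ * I) * (r * exp (t * I)))‖ ^ lam =
      ‖1 - ((r⁻¹ : ℝ) * ec t) * (deriv (pw (fun n => b n * ((exp (φ * I))⁻¹) ^ (n + 1)))
        ((r⁻¹ : ℝ) * ec t) * ((r⁻¹ : ℝ) * ec t))‖ ^ lam := by
    intro t
    set z : ℂ := r * exp (t * I) with hz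
    have hzn : ‖z‖ = r := by
      rw [hz, norm_mul, norm_exp_ofReal_mul_I, mul_one, norm_real, Real.norm_eq_abs,
        abs_of_pos hr0]
    have hz1 : 1 < ‖z‖ := by rw [hzn]; linarith
    have hzi : z⁻¹ = (r⁻¹ : ℝ) * ec t := by
      have := inv_ec r⁻¹ t
      rw [inv_inv] at this
      rw [hz, ← this, inv_inv]
    have h3 := (hN.sig.hasDerivAt hz1)
    have h4 : HasDerivAt (fun z => (exp (φ * I))⁻¹ * F (exp (φ * I) * z))
        (deriv F (exp (φ * I) * z)) z := by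
      have hz2 : 1 < ‖exp (φ * I) * z‖ := by
        rw [norm_mul, norm_exp_ofReal_mul_I, one_mul]; exact hz1
      have h5 : HasDerivAt (fun z : ℂ => exp (φ * I) * z) (exp (φ * I) * 1) z :=
        (hasDerivAt_id z).const_mul _
      have h6 := ((h.differentiableAt hz2).hasDerivAt.comp z h5).const_mul ((exp (φ * I))⁻¹)
      refine h6.congr_deriv ?_
      have : exp (φ * I) ≠ 0 := exp_ne_zero _
      field_simp
    rw [h4.unique h3, hzi]
    congr 2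
    have : (z ^ 2)⁻¹ = ((r⁻¹ : ℝ) * ec t) ^ 2 := by rw [← hzi, inv_pow]
    rw [this]; ring
  rw [← integral_rot (g := deriv F) φ]
  simp_rw [h2]
  exact h1

theorem J_moment {lam r : ℝ} (hr : 1 < r) :
    ∫ t in (-π)..π, ‖(fun z : ℂ => z + z⁻¹) (r * exp (t * I))‖ ^ lam =
      r ^ lam * Mo (lam / 2) ((r⁻¹) ^ 2) := by
  have hr0 : 0 < r := by linarith
  have hx0 : 0 < r⁻¹ := inv_pos.2 hr0
  have hx1 : r⁻¹ < 1 := inv_lt_one_of_one_lt₀ hr
  have hsq : (r⁻¹) ^ 2 < 1 := by nlinarith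
  have hDw := SF_sin.int_Dw (p := lam / 2) (y := (r⁻¹) ^ 2) (by positivity) hsq
  rw [← hDw, ← intervalIntegral.integral_const_mul]
  apply intervalIntegral.integral_congr
  intro t _
  simp only
  have hz : (r : ℂ) * exp (t * I) = ((r⁻¹ : ℝ) * ec t)⁻¹ := by
    rw [inv_ec, inv_inv]
  set u : ℂ := (r⁻¹ : ℝ) * ec t with hu
  have hun : ‖u‖ = r⁻¹ := norm_mul_ec hx0.le t
  have hu0 : u ≠ 0 := by rw [← norm_pos_iff, hun]; exact hx0
  rw [hz, inv_inv]
  have e : u⁻¹ + u = u⁻¹ * (1 + ((1:ℝ) : ℂ) * u ^ 2) := by push_cast; field_simp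
  have hS := S0_sin 1 r⁻¹ t
  rw [one_mul (r⁻¹ ^ 2), ← hu] at hS
  rw [e, norm_mul, norm_inv, hun, inv_inv, Real.mul_rpow hr0.le (norm_nonneg _), ← hS,
    ← Real.rpow_natCast, ← Real.rpow_mul (norm_nonneg _)]
  congr 2
  push_cast; ring

theorem deriv_J {z : ℂ} (hz : z ≠ 0) : deriv (fun z : ℂ => z + z⁻¹) z = 1 - (z ^ 2)⁻¹ := by
  have : HasDerivAt (fun z : ℂ => z + z⁻¹) (1 + -(z ^ 2)⁻¹) z :=
    (hasDerivAt_id z).add (hasDerivAt_inv hz)
  rw [this.deriv]; ring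

theorem J_deriv_moment {lam r : ℝ} (hr : 1 < r) :
    ∫ t in (-π)..π, ‖deriv (fun z : ℂ => z + z⁻¹) (r * exp (t * I))‖ ^ lam =
      Mo (lam / 2) ((r⁻¹) ^ 2) := by
  have hr0 : 0 < r := by linarith
  have hx0 : 0 < r⁻¹ := inv_pos.2 hr0
  have hx1 : r⁻¹ < 1 := inv_lt_one_of_one_lt₀ hr
  have hsq : (r⁻¹) ^ 2 < 1 := by nlinarith
  have hDw := SF_cos.int_Dw (p := lam / 2) (y := (r⁻¹) ^ 2) (by positivity) hsq
  rw [← hDw]
  apply intervalIntegral.integral_congr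
  intro t _
  simp only
  have hz : (r : ℂ) * exp (t * I) = ((r⁻¹ : ℝ) * ec t)⁻¹ := by
    rw [inv_ec, inv_inv]
  set u : ℂ := (r⁻¹ : ℝ) * ec t with hu
  have hun : ‖u‖ = r⁻¹ := norm_mul_ec hx0.le t
  have hu0 : u ≠ 0 := by rw [← norm_pos_iff, hun]; exact hx0
  rw [hz, deriv_J (inv_ne_zero hu0), inv_pow, inv_inv]
  have e : 1 - u ^ 2 = (1 + ((-1:ℝ) : ℂ) * u ^ 2) := by push_cast; ring
  have hS := S0_cos 1 r⁻¹ t
  rw [one_mul (r⁻¹ ^ 2), ← hu] at hS
  rw [e, ← hS, ← Real.rpow_natCast, ← Real.rpow_mul (norm_nonneg _)]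
  congr 1
  push_cast; ring

/-- a function of the class with `|b_1| = 1` -/
theorem IsSig.eq_of_norm_one (h : IsSig F b) (hb : ¬ ‖b 1‖ < 1) :
    ‖b 1‖ = 1 ∧ ∀ z : ℂ, 1 < ‖z‖ → F z = z + b 1 / z := by
  obtain ⟨φ, hN⟩ := exists_rot h
  have h1 := hN.beta_le
  have h2 : ‖b 1‖ = 1 := le_antisymm h1 (not_lt.1 hb)
  refine ⟨h2, fun z hz => ?_⟩
  have h3 : ∀ n, 2 ≤ n → b n = 0 := by
    intro n hn
    have h4 := hN.norm_le hn
    rw [h2, one_pow, sub_self, Real.sqrt_zero, norm_le_zero_iff] at h4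
    have h5 : exp ((φ : ℂ) * I) ≠ 0 := exp_ne_zero _
    exact (mul_eq_zero.1 h4).resolve_right (pow_ne_zero _ (inv_ne_zero h5))
  have h4 := h.ser z hz
  have h5 : HasSum (fun n : ℕ => b n * z⁻¹ ^ n) (b 1 * z⁻¹ ^ 1) := by
    apply hasSum_single
    intro n hn
    rcases n with _ | _ | n
    · rw [h.b0, zero_mul]
    · exact absurd rfl hn
    · rw [h3 (n + 2) (by omega), zero_mul]
  have h6 := h4.unique h5
  rw [pow_one] at h6
  rw [div_eq_mul_inv]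
  linear_combination h6

/-- rotations of `z + 1/z` -/
theorem integralMean_congr {lam r : ℝ} {g g' : ℂ → ℂ} (φ : ℝ)
    (h : ∀ t : ℝ, ‖g (exp (φ * I) * (r * exp (t * I)))‖ = ‖g' (r * exp (t * I))‖) :
    integralMean lam r g = integralMean lam r g' := by
  rw [integralMean_eq, integralMean_eq, ← integral_rot (g := g) φ]
  simp_rw [h]

theorem norm_circle_pt {r : ℝ} (hr : 1 < r) (t : ℝ) : 1 < ‖(r : ℂ) * exp (t * I)‖ := by
  rw [norm_mul, norm_exp_ofReal_mul_I, mul_one, norm_real, Real.norm_eq_abs,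
    abs_of_pos (by linarith)]
  exact hr

theorem integralMean_rotJ {F : ℂ → ℂ} {c : ℂ} (hc : ‖c‖ = 1)
    (hF : ∀ z : ℂ, 1 < ‖z‖ → F z = z + c / z) {lam r : ℝ} (hr : 1 < r) :
    integralMean lam r F = integralMean lam r (fun z => z + z⁻¹) := by
  apply integralMean_congr (arg c / 2)
  intro t
  set z : ℂ := r * exp (t * I) with hz
  have hz1 : 1 < ‖z‖ := norm_circle_pt hr t
  have hw : 1 < ‖exp ((arg c / 2 : ℝ) * I) * z‖ := by
    rw [norm_mul, norm_exp_ofReal_mul_I, one_mul]; exact hz1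
  rw [hF _ hw]
  have hc2 : c = exp ((arg c / 2 : ℝ) * I) * exp ((arg c / 2 : ℝ) * I) := by
    rw [← exp_add]
    have h2 := norm_mul_exp_arg_mul_I c
    rw [hc, ofReal_one, one_mul] at h2
    conv_lhs => rw [← h2]
    congr 1; push_cast; ring
  have e1 : exp ((arg c / 2 : ℝ) * I) * z + c / (exp ((arg c / 2 : ℝ) * I) * z) =
      exp ((arg c / 2 : ℝ) * I) * (z + z⁻¹) := by
    have h3 : exp ((arg c / 2 : ℝ) * I) ≠ 0 := exp_ne_zero _
    have h4 : z ≠ 0 := ne_zero_of_one_lt hz1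
    conv_lhs => rw [show c / (exp ((arg c / 2 : ℝ) * I) * z) =
      (exp ((arg c / 2 : ℝ) * I) * exp ((arg c / 2 : ℝ) * I)) / (exp ((arg c / 2 : ℝ) * I) * z)
        by rw [← hc2]]
    field_simp
  rw [e1, norm_mul, norm_exp_ofReal_mul_I, one_mul]

theorem deriv_rotJ {F : ℂ → ℂ} {c : ℂ} (hF : ∀ z : ℂ, 1 < ‖z‖ → F z = z + c / z) {z : ℂ}
    (hz : 1 < ‖z‖) : deriv F z = 1 - c * (z ^ 2)⁻¹ := by
  have h1 : HasDerivAt (fun z : ℂ => z + c * z⁻¹) (1 + c * -(z ^ 2)⁻¹) z :=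
    (hasDerivAt_id z).add ((hasDerivAt_inv (ne_zero_of_one_lt hz)).const_mul c)
  have h2 : HasDerivAt F (1 + c * -(z ^ 2)⁻¹) z := by
    refine h1.congr_of_eventuallyEq ?_
    filter_upwards [isOpen_ext.mem_nhds hz] with w hw
    rw [hF w hw, div_eq_mul_inv]
  rw [h2.deriv]; ring

theorem integralMean_deriv_rotJ {F : ℂ → ℂ} {c : ℂ} (hc : ‖c‖ = 1)
    (hF : ∀ z : ℂ, 1 < ‖z‖ → F z = z + c / z) {lam r : ℝ} (hr : 1 < r) :
    integralMean lam r (deriv F) = integralMean lam r (fun z => 1 - (z ^ 2)⁻¹) := by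
  apply integralMean_congr (arg c / 2)
  intro t
  set z : ℂ := r * exp (t * I) with hz
  have hz1 : 1 < ‖z‖ := norm_circle_pt hr t
  have hw : 1 < ‖exp ((arg c / 2 : ℝ) * I) * z‖ := by
    rw [norm_mul, norm_exp_ofReal_mul_I, one_mul]; exact hz1
  rw [deriv_rotJ hF hw]
  have hc2 : c = exp ((arg c / 2 : ℝ) * I) * exp ((arg c / 2 : ℝ) * I) := by
    rw [← exp_add]
    have h2 := norm_mul_exp_arg_mul_I c
    rw [hc, ofReal_one, one_mul] at h2
    conv_lhs => rw [← h2]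
    congr 1; push_cast; ring
  have h3 : exp ((arg c / 2 : ℝ) * I) ≠ 0 := exp_ne_zero _
  have e1 : c * ((exp ((arg c / 2 : ℝ) * I) * z) ^ 2)⁻¹ = (z ^ 2)⁻¹ := by
    have h4 : z ≠ 0 := ne_zero_of_one_lt hz1
    have : c * ((exp ((arg c / 2 : ℝ) * I) * z) ^ 2)⁻¹ =
      (exp ((arg c / 2 : ℝ) * I) * exp ((arg c / 2 : ℝ) * I)) *
        ((exp ((arg c / 2 : ℝ) * I) * z) ^ 2)⁻¹ := by rw [← hc2]
    rw [this, mul_pow, mul_inv]
    field_simp
  rw [e1]

theorem integralMean_mono {lam r : ℝ} (hl : 0 < lam) {g : ℂ → ℂ} {M : ℝ} :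
    (∫ t in (-π)..π, ‖g (r * exp (t * I))‖ ^ lam ≤ M →
      integralMean lam r g ≤ ((2 * π)⁻¹ * M) ^ (1 / lam)) ∧
    (∫ t in (-π)..π, ‖g (r * exp (t * I))‖ ^ lam < M →
      integralMean lam r g < ((2 * π)⁻¹ * M) ^ (1 / lam)) := by
  have h0 : 0 ≤ ∫ t in (-π)..π, ‖g (r * exp (t * I))‖ ^ lam :=
    intervalIntegral.integral_nonneg (by linarith [Real.pi_pos]) fun t _ => by positivity
  rw [integralMean_eq]
  constructor
  · intro h1
    apply Real.rpow_le_rpow (by positivity) _ (by positivity)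
    exact mul_le_mul_of_nonneg_left h1 (by positivity)
  · intro h1
    apply Real.rpow_lt_rpow (by positivity) _ (by positivity)
    exact mul_lt_mul_of_pos_left h1 (by positivity)

/-- large radii: inequality and case of equality -/
theorem sigma_large {lam r : ℝ} (hl : 0 < lam) (hr : 30000 ≤ r) :
    IsGreatest {x : ℝ | ∃ F : ℂ → ℂ, ClassSigma F ∧ x = integralMean lam r F}
      (integralMean lam r (fun z => z + z⁻¹)) ∧
    ∀ F : ℂ → ℂ, ClassSigma F →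
      (integralMean lam r F = integralMean lam r (fun z => z + z⁻¹) ↔
        ∃ c : ℂ, ‖c‖ = 1 ∧ ∀ z : ℂ, 1 < ‖z‖ → F z = z + c / z) := by
  have hr1 : 1 < r := by linarith
  have hJ : integralMean lam r (fun z => z + z⁻¹) =
      ((2 * π)⁻¹ * (r ^ lam * Mo (lam / 2) ((r⁻¹) ^ 2))) ^ (1 / lam) := by
    rw [integralMean_eq, J_moment hr1]
  refine ⟨⟨⟨_, classSigma_J, rfl⟩, ?_⟩, ?_⟩
  · rintro x ⟨F, hF, rfl⟩
    obtain ⟨b, hb⟩ := hF.isSig
    rw [hJ]
    exact (integralMean_mono hl).1 (hb.le_J hl hr).1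
  · intro F hF
    obtain ⟨b, hb⟩ := hF.isSig
    constructor
    · intro he
      by_cases h1 : ‖b 1‖ < 1
      · exfalso
        have := (integralMean_mono hl).2 ((hb.le_J hl hr).2 h1)
        rw [← hJ, he] at this
        exact lt_irrefl _ this
      · exact ⟨b 1, hb.eq_of_norm_one h1⟩
    · rintro ⟨c, hc, hFc⟩
      exact integralMean_rotJ hc hFc hr1

/-- large radii, derivative: inequality and case of equality -/
theorem sigma_large_deriv {lam r : ℝ} (hl : 0 < lam) (hr : 30000 ≤ r) (hlr : 180 * lam ≤ r ^ 4) :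
    IsGreatest {x : ℝ | ∃ F : ℂ → ℂ, ClassSigma F ∧ x = integralMean lam r (deriv F)}
      (integralMean lam r (fun z => 1 - (z ^ 2)⁻¹)) ∧
    ∀ F : ℂ → ℂ, ClassSigma F →
      (integralMean lam r (deriv F) = integralMean lam r (fun z => 1 - (z ^ 2)⁻¹) ↔
        ∃ c : ℂ, ‖c‖ = 1 ∧ ∀ z : ℂ, 1 < ‖z‖ → F z = z + c / z) := by
  have hr1 : 1 < r := by linarith
  have hJ0 : integralMean lam r (deriv fun z : ℂ => z + z⁻¹) =
      integralMean lam r (fun z => 1 - (z ^ 2)⁻¹) :=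
    integralMean_deriv_rotJ (c := 1) (by simp) (fun z _ => by rw [one_div]) hr1
  have hJ : integralMean lam r (fun z => 1 - (z ^ 2)⁻¹) =
      ((2 * π)⁻¹ * (Mo (lam / 2) ((r⁻¹) ^ 2))) ^ (1 / lam) := by
    rw [← hJ0, integralMean_eq, J_deriv_moment hr1]
  refine ⟨⟨⟨_, classSigma_J, hJ0.symm⟩, ?_⟩, ?_⟩
  · rintro x ⟨F, hF, rfl⟩
    obtain ⟨b, hb⟩ := hF.isSig
    rw [hJ]
    exact (integralMean_mono hl).1 (hb.deriv_le_J hl hr hlr).1
  · intro F hF
    obtain ⟨b, hb⟩ := hF.isSig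
    constructor
    · intro he
      by_cases h1 : ‖b 1‖ < 1
      · exfalso
        have := (integralMean_mono hl).2 ((hb.deriv_le_J hl hr hlr).2 h1)
        rw [← hJ, he] at this
        exact lt_irrefl _ this
      · exact ⟨b 1, hb.eq_of_norm_one h1⟩
    · rintro ⟨c, hc, hFc⟩
      exact integralMean_deriv_rotJ hc hFc hr1

end Pool.Agent.H15.Sig
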