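import Pool.Agent.H15.Sig.Even2

/-!
# The class Sigma and integral means
-/

open Complex Set Filter Topology MeasureTheory
open scoped ComplexConjugate Real

namespace Pool.Agent.H15.Sig

/-- The class Sigma: `F` is univalent in `|z| > 1` and has there the Laurent expansion
`F z = z + b_1 / z + b_2 / z ^ 2 + ...` (the coefficient `b_(n+1)` is called `b n` here). -/
def ClassSigma (F : ℂ → ℂ) : Prop :=
  Set.InjOn F {z : ℂ | 1 < ‖z‖} ∧
    ∃ b : ℕ → ℂ, ∀ z : ℂ, 1 < ‖z‖ → HasSum (fun n : ℕ => b n * z⁻¹ ^ (n + 1)) (F z - z)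

/-- The integral mean of order `lam` on the circle of radius `r`:
`((1 / (2 * π)) * ∫ |g (r * exp (i t))| ^ lam dt) ^ (1 / lam)`, the integral being over
`0 ≤ t ≤ 2 π`. -/
noncomputable def integralMean (lam r : ℝ) (g : ℂ → ℂ) : ℝ :=
  ((2 * π)⁻¹ * ∫ t in (0:ℝ)..(2 * π), ‖g (r * exp (t * I))‖ ^ lam) ^ (1 / lam)

theorem ClassSigma.isSig {F : ℂ → ℂ} (h : ClassSigma F) : ∃ b, IsSig F b := by
  obtain ⟨hinj, b, hb⟩ := h
  refine ⟨fun n => if n = 0 then 0 else b (n - 1), hinj, fun z hz => ?_, by simp⟩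
  rw [← hasSum_nat_add_iff' 1]
  simpa using hb z hz

theorem classSigma_J : ClassSigma (fun z => z + z⁻¹) := by
  refine ⟨?_, fun n => if n = 0 then 1 else 0, ?_⟩
  · intro z hz w hw h
    have hz' : 1 < ‖z‖ := hz
    have hw' : 1 < ‖w‖ := hw
    have hz0 := ne_zero_of_one_lt hz'
    have hw0 := ne_zero_of_one_lt hw'
    have h1 : (z - w) * (z * w - 1) = 0 := by
      have : z + z⁻¹ = w + w⁻¹ := h
      field_simp at this
      linear_combination this
    rcases mul_eq_zero.1 h1 with h2 | h2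
    · exact sub_eq_zero.1 h2
    · exfalso
      have h3 : ‖z * w‖ = 1 := by rw [sub_eq_zero.1 h2, norm_one]
      rw [norm_mul] at h3
      nlinarith
  · intro z hz
    have h1 : HasSum (fun n : ℕ => (if n = 0 then (1:ℂ) else 0) * z⁻¹ ^ (n + 1))
        ((if (0:ℕ) = 0 then (1:ℂ) else 0) * z⁻¹ ^ (0 + 1)) := by
      apply hasSum_single
      intro n hn
      rw [if_neg hn, zero_mul]
    simpa using h1

theorem integral_circle_eq (lam r : ℝ) (g : ℂ → ℂ) :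
    ∫ t in (0:ℝ)..(2 * π), ‖g (r * exp (t * I))‖ ^ lam =
      ∫ t in (-π)..π, ‖g (r * exp (t * I))‖ ^ lam := by
  have hp : Function.Periodic (fun t : ℝ => ‖g (r * exp (t * I))‖ ^ lam) (2 * π) := by
    intro t
    simp only
    have : exp (((t + 2 * π : ℝ) : ℂ) * I) = exp (t * I) := by
      rw [show (((t + 2 * π : ℝ) : ℂ) * I) = t * I + 2 * π * I by push_cast; ring,
        exp_add, exp_two_pi_mul_I, mul_one]
    rw [this]
  have h1 := hp.intervalIntegral_add_eq 0 (-π)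
  rw [zero_add, show -π + 2 * π = π by ring] at h1
  exact h1

theorem integralMean_eq (lam r : ℝ) (g : ℂ → ℂ) : integralMean lam r g =
    ((2 * π)⁻¹ * ∫ t in (-π)..π, ‖g (r * exp (t * I))‖ ^ lam) ^ (1 / lam) := by
  unfold integralMean
  rw [integral_circle_eq]

theorem inv_ec (x t : ℝ) : ((x : ℂ) * ec t)⁻¹ = ((x⁻¹ : ℝ) : ℂ) * exp (t * I) := by
  unfold ec
  rw [mul_inv, ofReal_inv, ← exp_neg, neg_neg]

theorem IsSig.norm_circle {F : ℂ → ℂ} {b : ℕ → ℂ} (h : IsSig F b) {x : ℝ} (hx0 : 0 < x)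
    (hx : x < 1) (t : ℝ) :
    ‖F (((x⁻¹ : ℝ) : ℂ) * exp (t * I))‖ = x⁻¹ * ‖1 + (x * ec t) * pw b (x * ec t)‖ := by
  have hn := norm_mul_ec hx0.le t
  have h0 : (x : ℂ) * ec t ≠ 0 := by rw [← norm_pos_iff, hn]; exact hx0
  rw [← inv_ec, h.eq_inv (by rw [hn]; exact hx) h0, norm_mul, norm_inv, hn]

theorem IsSig.moment_eq {F : ℂ → ℂ} {b : ℕ → ℂ} (h : IsSig F b) {x : ℝ} (hx0 : 0 < x)
    (hx : x < 1) (N : ℕ) :
    ∫ t in (-π)..π, ‖F (((x⁻¹ : ℝ) : ℂ) * exp (t * I))‖ ^ ((2 * N : ℕ) : ℝ) =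
      (x⁻¹) ^ (2 * N) * ∫ t in (-π)..π, ‖(1 + (x * ec t) * pw b (x * ec t)) ^ N‖ ^ 2 := by
  rw [← intervalIntegral.integral_const_mul]
  apply intervalIntegral.integral_congr
  intro t _
  simp only
  rw [Real.rpow_natCast, h.norm_circle hx0 hx, mul_pow, norm_pow, ← pow_mul, mul_comm N 2]

end Pool.Agent.H15.Sig
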