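import Pool.Agent.H15.Sig.Stab2

/-!
# Stability of the coefficients
-/

open Complex Set Filter Topology MeasureTheory
open scoped ComplexConjugate Real

namespace Pool.Agent.H15.Sig

variable {F : ℂ → ℂ} {b : ℕ → ℂ} {β : ℝ}

noncomputable def ce (b : ℕ → ℂ) (n k : ℕ) : ℂ :=
  PowerSeries.coeff k (er (eps b) PowerSeries.X n)

noncomputable def ca (b : ℕ → ℂ) (n k : ℕ) : ℂ :=
  PowerSeries.coeff k (sg PowerSeries.X n * eps b)

theorem cc_eq (b : ℕ → ℂ) (n k : ℕ) : cc b n k =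
    (if k = 0 then 1 else 0) + (if k = 2 * n then 1 else 0) + n * ca b n k + ce b n k := by
  have h1 : ch (sps b) PowerSeries.X n =
      1 + PowerSeries.X ^ (2 * n) + PowerSeries.C (n : ℂ) * (sg PowerSeries.X n * eps b) +
        er (eps b) PowerSeries.X n := by
    unfold er
    rw [← sps_eq]
    have : (PowerSeries.C (n : ℂ)) = (n : PowerSeries ℂ) := by simp
    rw [this]; ring
  unfold cc ca ce
  rw [h1, map_add, map_add, map_add, PowerSeries.coeff_one, PowerSeries.coeff_X_pow,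
    PowerSeries.coeff_C_mul]

theorem ca_zero (b : ℕ → ℂ) (n : ℕ) : ca b n 0 = 0 := by
  unfold ca
  rw [coeff_mul_range]
  simp only [Finset.sum_range_succ, Finset.sum_range_zero, Nat.sub_zero, coeff_eps_zero]
  ring

theorem ca_succ (b : ℕ → ℂ) (m : ℕ) : ca b (m + 2) (m + 3) = ca b (m + 2) (m + 1) + hh b (m + 2) := by
  have h1 : sg (PowerSeries.X : PowerSeries ℂ) (m + 2) * eps b =
      PowerSeries.X ^ 2 * (sg PowerSeries.X (m + 2) * eps b) + eps b -
        PowerSeries.X ^ (2 * (m + 2)) * eps b := by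
    have h2 := sg_mul (PowerSeries.X : PowerSeries ℂ) (m + 2)
    have h3 := sg_succ (PowerSeries.X : PowerSeries ℂ) (m + 2)
    rw [h3] at h2
    linear_combination (-eps b) * h2
  have h3 := congrArg (PowerSeries.coeff (m + 3)) h1
  rw [map_sub, map_add, PowerSeries.coeff_X_pow_mul', PowerSeries.coeff_X_pow_mul',
    if_pos (by omega), if_neg (by omega), show m + 3 - 2 = m + 1 by omega,
    show m + 3 = (m + 2) + 1 by ring, coeff_eps_succ] at h3
  unfold ca
  rw [show m + 3 = (m + 2) + 1 by ring, h3]; ring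

theorem ca_top (b : ℕ → ℂ) (n : ℕ) : ca b n (2 * n) = ∑ j ∈ Finset.range n, hh b (2 * j + 1) := by
  unfold ca sg
  rw [Finset.sum_mul, map_sum, ← Finset.sum_range_reflect]
  refine Finset.sum_congr rfl fun j hj => ?_
  have hj' := Finset.mem_range.1 hj
  rw [PowerSeries.coeff_X_pow_mul', if_pos (by omega),
    show 2 * n - 2 * (n - 1 - j) = (2 * j + 1) + 1 by omega, coeff_eps_succ]

theorem Nrm.ce_le (h : Nrm F b β) (n k : ℕ) :
    ‖ce b n k‖ ≤ 2 ^ k * (3 ^ n * ((1 - β ^ 2) / 4)) := h.coeff_er_le n k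

theorem Nrm.cc_le (h : Nrm F b β) {n : ℕ} (hn : 1 ≤ n) (k : ℕ) :
    ‖cc b n k - ((if k = 0 then 1 else 0) + (if k = 2 * n then 1 else 0))‖ ≤
      2 ^ k * (3 ^ n * √(1 - β ^ 2)) := by
  have := h.coeff_dif_le hn k
  rwa [map_sub, map_add, PowerSeries.coeff_one, PowerSeries.coeff_X_pow] at this

theorem Nrm.sum_cc_le (h : Nrm F b β) {n : ℕ} (hn : 1 ≤ n) :
    ∑ k ∈ Finset.range n, ‖cc b n k - (if k = 0 then 1 else 0)‖ ^ 2 ≤
      36 ^ n / 4 * (1 - β ^ 2) := by
  refine le_trans (le_of_eq ?_) (h.sum_dif_le hn)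
  refine Finset.sum_congr rfl fun k hk => ?_
  have hk' := Finset.mem_range.1 hk
  rw [map_sub, map_add, PowerSeries.coeff_one, PowerSeries.coeff_X_pow,
    if_neg (show k ≠ 2 * n by omega), add_zero]
  rfl

/-- the sum of the real parts of the odd deviations -/
theorem Nrm.sum_odd_le (h : Nrm F b β) {R : ℝ} (hR0 : 0 ≤ R)
    (hR : ∀ k, 2 ≤ k → |(b k).re| ≤ R * 12 ^ k) (n : ℕ) :
    -(∑ j ∈ Finset.range (n + 1), hh b (2 * j + 1)).re ≤ (1 - β ^ 2) + R * (144 ^ (n + 1) / 11) := by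
  have h1 : ∀ n : ℕ, -(∑ j ∈ Finset.range (n + 1), hh b (2 * j + 1)).re ≤
      (1 - β) + R * (144 ^ (n + 1) / 11) := by
    intro n
    induction n with
    | zero =>
      rw [Finset.sum_range_one, Nat.mul_zero, zero_add, h.hh_one, ofReal_re]
      have : 0 ≤ R * (144 ^ (0 + 1) / 11) := by positivity
      linarith
    | succ n ih =>
      rw [Finset.sum_range_succ, add_re]
      have h2 : hh b (2 * (n + 1) + 1) = b (2 * (n + 1) + 1) := by
        unfold hh; rw [if_neg (by omega), sub_zero]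
      rw [h2]
      have h3 := hR (2 * (n + 1) + 1) (by omega)
      have h4 := neg_abs_le (b (2 * (n + 1) + 1)).re
      have h5 : (12:ℝ) ^ (2 * (n + 1) + 1) = 144 ^ (n + 1) * 12 := by
        rw [pow_succ, pow_mul]; norm_num
      rw [h5] at h3
      have h6 : (144:ℝ) ^ (n + 1 + 1) = 144 ^ (n + 1) * 144 := pow_succ _ _
      rw [h6]
      have h7 : 0 ≤ R * 144 ^ (n + 1) := by positivity
      nlinarith
  have h2 := h1 n
  have h3 := h.one_sub_le
  linarith

theorem Nrm.step (h : Nrm F b β) {R : ℝ} (hR0 : 0 ≤ R)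
    (hR : ∀ k, 2 ≤ k → |(b k).re| ≤ R * 12 ^ k) (m : ℕ) :
    |(b (m + 2)).re| ≤ 12 ^ (m + 2) *
      (2 * (1 - β ^ 2) + √((1 - β ^ 2) * (7 / 100 * (1 - β ^ 2) + 2 / 11 * R))) := by
  set δ := 1 - β ^ 2 with hδ
  have hδ0 : 0 ≤ δ := h.del_nonneg
  have hδ1 : δ ≤ 1 := by rw [hδ]; nlinarith [sq_nonneg β]
  have hsq : √δ * √δ = δ := Real.mul_self_sqrt hδ0
  have hd0 : 0 ≤ √δ := Real.sqrt_nonneg _
  have hd1 : √δ ≤ 1 := h.sqrt_le_one
  set n : ℕ := m + 2 with hn
  have hn1 : 1 ≤ n := by omega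
  have hnR : (2:ℝ) ≤ n := by rw [hn]; push_cast; linarith [Nat.cast_nonneg (α := ℝ) m]
  have hnm : ((m:ℝ) + 2) = n := by rw [hn]; push_cast; ring
  have hdisc := h.disc m
  rw [hnm] at hdisc
  -- names
  set c1 := cc b n (m + 1) with hc1
  set c3 := cc b n (m + 3) with hc3
  set ct := cc b n (2 * m + 4) with hct
  have e1 := cc_eq b n (m + 1)
  rw [if_neg (by omega), if_neg (by omega)] at e1
  have e3 := cc_eq b n (m + 3)
  rw [if_neg (by omega), if_neg (by omega)] at e3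
  have et := cc_eq b n (2 * n)
  rw [if_neg (by omega), if_pos rfl, ca_top] at et
  have h2n : 2 * n = 2 * m + 4 := by omega
  have hct' : ct = cc b n (2 * n) := by rw [hct, h2n]
  have hca := ca_succ b m
  rw [← hn] at hca
  have hhn : hh b n = b n := by unfold hh; rw [if_neg (by omega), sub_zero]
  rw [hhn] at hca
  -- sizes
  have p3 : (0:ℝ) < 3 ^ n := by positivity
  have b1 : ‖ce b n (m + 1)‖ ≤ 6 ^ n * (δ / 8) := by
    have := h.ce_le n (m + 1)
    refine this.trans (le_of_eq ?_)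
    have : (6:ℝ) ^ n = 2 ^ n * 3 ^ n := by rw [← mul_pow]; norm_num
    rw [this, hn, pow_succ 2 (m + 1)]; ring
  have b3 : ‖ce b n (m + 3)‖ ≤ 6 ^ n * (δ / 2) := by
    have := h.ce_le n (m + 3)
    refine this.trans (le_of_eq ?_)
    have : (6:ℝ) ^ n = 2 ^ n * 3 ^ n := by rw [← mul_pow]; norm_num
    rw [this, hn, pow_succ 2 (m + 2)]; ring
  have b0 : ‖ce b n 0‖ ≤ 3 ^ n * (δ / 4) := by
    have := h.ce_le n 0
    simpa using this
  have bt : ‖ce b n (2 * n)‖ ≤ 12 ^ n * (δ / 4) := by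
    have := h.ce_le n (2 * n)
    refine this.trans (le_of_eq ?_)
    have : (12:ℝ) ^ n = 2 ^ (2 * n) * 3 ^ n := by rw [pow_mul, ← mul_pow]; norm_num
    rw [this]; ring
  have bc1 : ‖c1‖ ≤ 6 ^ n / 2 * √δ := by
    have := h.cc_le hn1 (m + 1)
    rw [if_neg (by omega), if_neg (by omega), add_zero, sub_zero] at this
    refine this.trans (le_of_eq ?_)
    have : (6:ℝ) ^ n = 2 ^ n * 3 ^ n := by rw [← mul_pow]; norm_num
    rw [this, hn, pow_succ 2 (m + 1)]; ring
  have bct : ‖ct - 1‖ ≤ 12 ^ n * √δ := by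
    have := h.cc_le hn1 (2 * n)
    rw [if_neg (by omega), if_pos rfl, zero_add, ← hct'] at this
    refine this.trans (le_of_eq ?_)
    have : (12:ℝ) ^ n = 2 ^ (2 * n) * 3 ^ n := by rw [pow_mul, ← mul_pow]; norm_num
    rw [this]; ring
  have bbn : ‖b n‖ ≤ √δ := h.norm_le (by omega)
  -- the linear term
  set B := c1.re - β * c3.re - n * (b n * conj ct).re with hB
  have hβ0 := h.nn
  have hβ1 := h.beta_le
  have hlin : (1 + β) * n * |(b n).re| ≤ |B| + 2 * n * 12 ^ n * δ := by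
    have hBe : B = -((1 + β) * n * (b n).re) + (1 - β) * (c1.re - (ce b n (m + 1)).re) +
        (ce b n (m + 1)).re - β * (ce b n (m + 3)).re - n * (b n * conj (ct - 1)).re := by
      have f1 : c1.re = n * (ca b n (m + 1)).re + (ce b n (m + 1)).re := by
        have := congrArg re e1
        rw [← hc1] at this
        simp only [add_re, zero_re] at this
        rw [this, ← ofReal_natCast, re_ofReal_mul]; ring
      have f3 : c3.re = n * ((ca b n (m + 1)).re + (b n).re) + (ce b n (m + 3)).re := by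
        have := congrArg re e3
        rw [← hc3, hca] at this
        simp only [add_re, zero_re] at this
        rw [this, ← ofReal_natCast, re_ofReal_mul, add_re]; ring
      have f4 : (b n * conj (ct - 1)).re = (b n * conj ct).re - (b n).re := by
        rw [map_sub, map_one, mul_sub, mul_one, sub_re]
      rw [hB, f4, f1, f3]; ring
    have g1 : |(b n * conj (ct - 1)).re| ≤ √δ * (12 ^ n * √δ) := by
      refine (abs_re_le_norm _).trans ?_
      rw [norm_mul, norm_conj]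
      exact mul_le_mul bbn bct (norm_nonneg _) hd0
    have g2 : |c1.re| ≤ 6 ^ n / 2 := by
      refine (abs_re_le_norm _).trans (bc1.trans ?_)
      have : (0:ℝ) ≤ 6 ^ n / 2 := by positivity
      nlinarith
    have g3 : |(ce b n (m + 1)).re| ≤ 6 ^ n * (δ / 8) := (abs_re_le_norm _).trans b1
    have g4 : |(ce b n (m + 3)).re| ≤ 6 ^ n * (δ / 2) := (abs_re_le_norm _).trans b3
    have g5 : 0 ≤ 1 - β := by linarith
    have g6 : 1 - β ≤ δ := h.one_sub_le
    have g7 : (6:ℝ) ^ n * 4 ≤ 12 ^ n := by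
      have : (12:ℝ) ^ n = 6 ^ n * 2 ^ n := by rw [← mul_pow]; norm_num
      rw [this]
      have : (4:ℝ) ≤ 2 ^ n := by
        rw [hn, pow_add]
        have := one_le_pow₀ (n := m) (by norm_num : (1:ℝ) ≤ 2)
        linarith
      exact mul_le_mul_of_nonneg_left this (by positivity)
    have q1 : |(1 - β) * (c1.re - (ce b n (m + 1)).re)| ≤ δ * (6 ^ n / 2 + 6 ^ n * (δ / 8)) := by
      rw [abs_mul, abs_of_nonneg g5]
      apply mul_le_mul g6 _ (abs_nonneg _) hδ0
      exact (abs_sub _ _).trans (add_le_add g2 g3)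
    have q2 : |β * (ce b n (m + 3)).re| ≤ 6 ^ n * (δ / 2) := by
      rw [abs_mul, abs_of_nonneg hβ0]
      have := mul_le_mul hβ1 g4 (abs_nonneg _) (by norm_num)
      linarith
    have q3 : |(n:ℝ) * (b n * conj (ct - 1)).re| ≤ n * (12 ^ n * δ) := by
      rw [abs_mul, abs_of_nonneg (by positivity : (0:ℝ) ≤ n)]
      apply mul_le_mul_of_nonneg_left _ (by positivity)
      refine g1.trans (le_of_eq ?_)
      rw [show √δ * (12 ^ n * √δ) = 12 ^ n * (√δ * √δ) by ring, hsq]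
    have q4 : (1 + β) * n * |(b n).re| = |(1 + β) * n * (b n).re| := by
      rw [abs_mul, abs_mul, abs_of_nonneg (by linarith : 0 ≤ 1 + β),
        abs_of_nonneg (by positivity : (0:ℝ) ≤ n)]
    rw [q4]
    have q5 : (1 + β) * n * (b n).re = -B + (1 - β) * (c1.re - (ce b n (m + 1)).re) +
        (ce b n (m + 1)).re - β * (ce b n (m + 3)).re - n * (b n * conj (ct - 1)).re := by
      rw [hBe]; ring
    rw [q5]
    have t1 := abs_sub (-B + (1 - β) * (c1.re - (ce b n (m + 1)).re) +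
        (ce b n (m + 1)).re - β * (ce b n (m + 3)).re) (n * (b n * conj (ct - 1)).re)
    have t2 := abs_sub (-B + (1 - β) * (c1.re - (ce b n (m + 1)).re) +
        (ce b n (m + 1)).re) (β * (ce b n (m + 3)).re)
    have t3 := abs_add_le (-B + (1 - β) * (c1.re - (ce b n (m + 1)).re)) (ce b n (m + 1)).re
    have t4 := abs_add_le (-B) ((1 - β) * (c1.re - (ce b n (m + 1)).re))
    rw [abs_neg] at t4
    have p6 : (0:ℝ) ≤ 6 ^ n * δ := by positivity
    have p12 : (0:ℝ) ≤ 12 ^ n * δ := by positivity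
    have r1 : δ * (6 ^ n / 2 + 6 ^ n * (δ / 8)) ≤ 6 ^ n * δ * (5 / 8) := by
      nlinarith [mul_nonneg p6 (sub_nonneg.2 hδ1)]
    have r2 : 6 ^ n * δ * 4 ≤ 12 ^ n * δ := by
      have := mul_le_mul_of_nonneg_right g7 hδ0; linarith
    nlinarith
  -- the quadratic term
  have hG : ‖c1‖ ^ 2 + n * ∑ k ∈ Finset.range (m + 1), ‖cc b n k‖ ^ 2 - n * ‖ct‖ ^ 2 ≤
      (n:ℝ) ^ 2 * (36 ^ n * δ + 2 * (δ + R * (144 ^ n / 11))) := by
    have s1 := h.sum_cc_le hn1
    rw [show Finset.range n = Finset.range (m + 1 + 1) by rw [hn], Finset.sum_range_succ] at s1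
    rw [if_neg (by omega : m + 1 ≠ 0), sub_zero, ← hc1] at s1
    rw [Finset.sum_range_succ'] at s1 ⊢
    have s2 : ∑ k ∈ Finset.range m, ‖cc b n (k + 1) - (if k + 1 = 0 then (1:ℂ) else 0)‖ ^ 2 =
        ∑ k ∈ Finset.range m, ‖cc b n (k + 1)‖ ^ 2 := by
      refine Finset.sum_congr rfl fun k _ => ?_
      rw [if_neg (by omega), sub_zero]
    rw [s2, if_pos rfl] at s1
    have e0 := cc_eq b n 0
    rw [if_pos rfl, if_neg (by omega), ca_zero, mul_zero, add_zero, add_zero] at e0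
    have s3 : ‖cc b n 0‖ ^ 2 ≤ 1 + 2 * (3 ^ n * (δ / 4)) + ‖cc b n 0 - 1‖ ^ 2 := by
      have w1 : cc b n 0 - 1 = ce b n 0 := by rw [e0]; ring
      rw [w1, e0]
      have w2 := norm_add_sq_re 1 (ce b n 0) 1
      rw [ofReal_one, one_mul, one_mul, norm_one, conj_re] at w2
      rw [w2]
      have := (le_abs_self _).trans ((abs_re_le_norm _).trans b0)
      linarith
    have s4 : 1 + 2 * (-(n * (δ + R * (144 ^ n / 11))) - 12 ^ n * (δ / 4)) ≤ ‖ct‖ ^ 2 := by
      have w1 : ct.re = 1 + n * (∑ j ∈ Finset.range n, hh b (2 * j + 1)).re +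
          (ce b n (2 * n)).re := by
        have := congrArg re et
        rw [← hct'] at this
        simp only [add_re, zero_re, one_re] at this
        rw [this, ← ofReal_natCast, re_ofReal_mul]; ring
      have w2 := h.sum_odd_le hR0 hR (m + 1)
      rw [show m + 1 + 1 = n by omega] at w2
      have w3 : -(12 ^ n * (δ / 4)) ≤ (ce b n (2 * n)).re := by
        have := neg_abs_le (ce b n (2 * n)).re
        have := (abs_re_le_norm (ce b n (2 * n))).trans bt
        linarith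
      have w4 : 2 * ct.re - 1 ≤ ‖ct‖ ^ 2 := by
        rw [← normSq_eq_norm_sq, normSq_apply]; nlinarith [sq_nonneg (ct.re - 1), sq_nonneg ct.im]
      have w5 : (n:ℝ) * (-(∑ j ∈ Finset.range n, hh b (2 * j + 1)).re) ≤
          n * (δ + R * (144 ^ n / 11)) := mul_le_mul_of_nonneg_left w2 (by positivity)
      rw [w1] at w4
      linarith
    set S := ∑ k ∈ Finset.range m, ‖cc b n (k + 1)‖ ^ 2 with hS
    have hS0 : 0 ≤ S := Finset.sum_nonneg fun k _ => by positivity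
    set Q := R * (144 ^ n / 11) with hQ
    have hQ0 : 0 ≤ Q := by positivity
    have k1 : (3:ℝ) ^ n ≤ 36 ^ n / 144 := by
      have : (36:ℝ) ^ n = 3 ^ n * 12 ^ n := by rw [← mul_pow]; norm_num
      rw [this, hn, pow_add 12]
      have := one_le_pow₀ (n := m) (by norm_num : (1:ℝ) ≤ 12)
      have p : (0:ℝ) < 3 ^ (m + 2) := by positivity
      nlinarith
    have k2 : (12:ℝ) ^ n ≤ 36 ^ n / 9 := by
      have : (36:ℝ) ^ n = 12 ^ n * 3 ^ n := by rw [← mul_pow]; norm_num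
      rw [this, hn, pow_add 3]
      have := one_le_pow₀ (n := m) (by norm_num : (1:ℝ) ≤ 3)
      have p : (0:ℝ) < 12 ^ (m + 2) := by positivity
      nlinarith
    have k1' := mul_le_mul_of_nonneg_right k1 hδ0
    have k2' := mul_le_mul_of_nonneg_right k2 hδ0
    have p36 : 0 ≤ (36:ℝ) ^ n * δ := by positivity
    have n0 : (0:ℝ) ≤ n := by positivity
    have s5 : ‖c1‖ ^ 2 ≤ n * ‖c1‖ ^ 2 := by
      have : 0 ≤ ‖c1‖ ^ 2 := by positivity
      nlinarith
    have s6 : (n:ℝ) * (S + ‖cc b n 0 - 1‖ ^ 2 + ‖c1‖ ^ 2) ≤ n * (36 ^ n / 4 * δ) :=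
      mul_le_mul_of_nonneg_left s1 n0
    have s7 : (n:ℝ) * ‖cc b n 0‖ ^ 2 ≤ n * (1 + 2 * (3 ^ n * (δ / 4)) + ‖cc b n 0 - 1‖ ^ 2) :=
      mul_le_mul_of_nonneg_left s3 n0
    have s8 : (n:ℝ) * (1 + 2 * (-(n * (δ + Q)) - 12 ^ n * (δ / 4))) ≤ n * ‖ct‖ ^ 2 :=
      mul_le_mul_of_nonneg_left s4 n0
    have s9 : ‖c1‖ ^ 2 + n * (S + ‖cc b n 0‖ ^ 2) - n * ‖ct‖ ^ 2 ≤
        n * (36 ^ n / 4 * δ + 3 ^ n * δ / 2 + 12 ^ n * δ / 2) + n * (2 * (n * (δ + Q))) := by
      nlinarith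
    refine s9.trans ?_
    have s10 : 36 ^ n / 4 * δ + 3 ^ n * δ / 2 + 12 ^ n * δ / 2 ≤ 36 ^ n * δ := by nlinarith
    have s11 : (n:ℝ) * (36 ^ n / 4 * δ + 3 ^ n * δ / 2 + 12 ^ n * δ / 2) ≤ n * (36 ^ n * δ) :=
      mul_le_mul_of_nonneg_left s10 n0
    have s12 : (n:ℝ) * (36 ^ n * δ) ≤ n ^ 2 * (36 ^ n * δ) := by
      apply mul_le_mul_of_nonneg_right _ p36
      nlinarith
    nlinarith
  -- conclusion
  have hB2 : B ^ 2 ≤ δ * ((n:ℝ) ^ 2 * (36 ^ n * δ + 2 * (δ + R * (144 ^ n / 11)))) :=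
    hdisc.trans (mul_le_mul_of_nonneg_left hG hδ0)
  have hB3 : B ^ 2 ≤ (n * 12 ^ n) ^ 2 * (δ * (7 / 100 * δ + 2 / 11 * R)) := by
    refine hB2.trans ?_
    have l1 : (36:ℝ) ^ n ≤ 144 ^ n / 16 := by
      have : (144:ℝ) ^ n = 36 ^ n * 4 ^ n := by rw [← mul_pow]; norm_num
      rw [this, hn, pow_add 4]
      have := one_le_pow₀ (n := m) (by norm_num : (1:ℝ) ≤ 4)
      have p : (0:ℝ) < 36 ^ (m + 2) := by positivity
      nlinarith
    have l2 : (2:ℝ) ≤ 144 ^ n / 10000 := by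
      rw [hn, pow_add 144]
      have := one_le_pow₀ (n := m) (by norm_num : (1:ℝ) ≤ 144)
      linarith
    have l3 : ((n:ℝ) * 12 ^ n) ^ 2 = n ^ 2 * 144 ^ n := by
      rw [mul_pow, ← pow_mul, mul_comm n 2, pow_mul]; norm_num
    rw [l3]
    have l1' := mul_le_mul_of_nonneg_right l1 hδ0
    have l2' := mul_le_mul_of_nonneg_right l2 hδ0
    have l4 : 36 ^ n * δ + 2 * (δ + R * (144 ^ n / 11)) ≤ 144 ^ n * (7 / 100 * δ + 2 / 11 * R) := by
      nlinarith [mul_nonneg (show (0:ℝ) ≤ 144 ^ n by positivity) hδ0]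
    have l5 : 0 ≤ δ * (n:ℝ) ^ 2 := by positivity
    nlinarith [mul_le_mul_of_nonneg_left l4 l5]
  have hB4 : |B| ≤ n * 12 ^ n * √(δ * (7 / 100 * δ + 2 / 11 * R)) := by
    apply abs_le_of_sq_le_sq _ (by positivity)
    rw [mul_pow, Real.sq_sqrt (by positivity)]
    exact hB3
  have n0 : (0:ℝ) < n := by linarith
  have f1 : n * |(b n).re| ≤ (1 + β) * n * |(b n).re| := by
    have : 0 ≤ n * |(b n).re| := by positivity
    nlinarith
  have f2 : n * |(b n).re| ≤ n * (12 ^ n * (2 * δ + √(δ * (7 / 100 * δ + 2 / 11 * R)))) := by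
    calc n * |(b n).re| ≤ |B| + 2 * n * 12 ^ n * δ := f1.trans hlin
      _ ≤ n * 12 ^ n * √(δ * (7 / 100 * δ + 2 / 11 * R)) + 2 * n * 12 ^ n * δ := by linarith
      _ = _ := by ring
  exact le_of_mul_le_mul_left f2 n0

/-- **Stability**: the real parts of the higher coefficients are of order `1 - b_1 ^ 2` -/
theorem Nrm.stab (h : Nrm F b β) {n : ℕ} (hn : 2 ≤ n) :
    |(b n).re| ≤ 3 * (1 - β ^ 2) * 12 ^ n := by
  set δ := 1 - β ^ 2 with hδ
  have hδ0 : 0 ≤ δ := h.del_nonneg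
  set x : ℕ → ℝ := fun m => |(b (m + 2)).re| / 12 ^ (m + 2) with hx
  have hxb : ∀ m, x m ≤ 1 := by
    intro m
    simp only [hx]
    rw [div_le_one (by positivity)]
    have h1 := (abs_re_le_norm (b (m + 2))).trans (h.norm_le (n := m + 2) (by omega))
    have h2 := h.sqrt_le_one
    have h3 := one_le_pow₀ (n := m + 2) (by norm_num : (1:ℝ) ≤ 12)
    linarith
  have hbdd : BddAbove (range x) := ⟨1, by rintro _ ⟨m, rfl⟩; exact hxb m⟩
  set R := ⨆ m, x m with hRdef
  have hR0 : 0 ≤ R := le_trans (by simp only [hx]; positivity) (le_ciSup hbdd 0)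
  have hR : ∀ k, 2 ≤ k → |(b k).re| ≤ R * 12 ^ k := by
    intro k hk
    obtain ⟨m, rfl⟩ : ∃ m, k = m + 2 := ⟨k - 2, by omega⟩
    have h1 : x m ≤ R := le_ciSup hbdd m
    simp only [hx] at h1
    rwa [div_le_iff₀ (by positivity)] at h1
  have hle : R ≤ 2 * δ + √(δ * (7 / 100 * δ + 2 / 11 * R)) := by
    apply ciSup_le
    intro m
    have h1 := h.step hR0 hR m
    simp only [hx]
    rw [div_le_iff₀ (by positivity), mul_comm]
    exact h1
  have hR3 : R ≤ 3 * δ := by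
    by_contra hcon
    push Not at hcon
    have h1 : R - 2 * δ ≤ √(δ * (7 / 100 * δ + 2 / 11 * R)) := by linarith
    have h2 : (R - 2 * δ) ^ 2 ≤ δ * (7 / 100 * δ + 2 / 11 * R) := by
      have := pow_le_pow_left₀ (by linarith : 0 ≤ R - 2 * δ) h1 2
      rwa [Real.sq_sqrt (by positivity)] at this
    nlinarith [mul_nonneg hδ0 hR0, mul_nonneg hδ0 hδ0, mul_pos (by linarith : 0 < R - 3 * δ) (by linarith : 0 < R - 3 * δ)]
  have := hR n hn
  have h12 : (0:ℝ) < 12 ^ n := by positivity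
  nlinarith

end Pool.Agent.H15.Sig
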