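import Pool.Agent.H15.Sig.Pert
import Pool.Agent.H15.Sig.Stab3
import Pool.Agent.H15.Sig.Defs

/-!
# Main inequalities
-/

open Complex Set Filter Topology MeasureTheory
open scoped ComplexConjugate Real

namespace Pool.Agent.H15.Sig

variable {F : ℂ → ℂ} {b : ℕ → ℂ} {β : ℝ}

theorem Nrm.pertF (h : Nrm F b β) :
    Pert (fun u => 1 + u * pw b u) β (fun k => b (k + 2)) (1 - β ^ 2) (1 / 2) where
  ser := by
    intro u hu
    have h1 := (hasSum_nat_add_iff' 2).2 ((h.sig.hasSum_pw hu).mul_left u)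
    simp only [Finset.sum_range_succ, Finset.sum_range_zero, h.sig.b0, h.b1] at h1
    have e : (fun u => 1 + u * pw b u) u - (1 + (β : ℂ) * u ^ 2) =
        u * pw b u - (0 + u * (0 * u ^ 0) + u * (↑β * u ^ 1)) := by simp only; ring
    rw [e]
    refine h1.congr_fun ?_ |> fun h => h
    intro k; ring
  dif := (differentiableOn_const _).add (differentiableOn_id.mul h.sig.diffOn_pw)
  hc := by
    intro k
    have h1 := h.norm_le (n := k + 2) (by omega)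
    refine h1.trans ?_
    have h2 : 0 ≤ √(1 - β ^ 2) := Real.sqrt_nonneg _
    have h3 : (0:ℝ) ≤ k := Nat.cast_nonneg k
    nlinarith
  hre := by
    intro k
    have h1 := h.stab (n := k + 2) (by omega)
    refine h1.trans ?_
    have h2 := h.del_nonneg
    have h3 : (0:ℝ) ≤ k := Nat.cast_nonneg k
    have h4 : 0 ≤ (1 - β ^ 2) * 12 ^ (k + 2) := by positivity
    nlinarith
  hq := by rw [abs_of_nonneg h.nn]; exact h.beta_le
  hd0 := h.del_nonneg
  hd1 := by nlinarith [sq_nonneg β]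
  hm0 := by norm_num
  hm1 := by norm_num

theorem Nrm.pertD (h : Nrm F b β) :
    Pert (fun u => 1 - u * (deriv (pw b) u * u)) (-β) (fun k => -(((k + 2 : ℕ) : ℂ)) * b (k + 2))
      (1 - β ^ 2) 1 where
  ser := by
    intro u hu
    obtain ⟨D, hD, hs⟩ := h.sig.rep_pw.hasDerivAt hu
    have hDe : D = deriv (pw b) u := hD.deriv.symm
    rw [hDe] at hs
    have h1 := (hasSum_nat_add_iff' 2).2 (hs.mul_left u)
    simp only [Finset.sum_range_succ, Finset.sum_range_zero, PowerSeries.coeff_mk, h.sig.b0,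
      h.b1] at h1
    have h2 := h1.neg
    have e : (fun u => 1 - u * (deriv (pw b) u * u)) u - (1 + ((-β : ℝ) : ℂ) * u ^ 2) =
        -(u * (deriv (pw b) u * u) -
          (0 + u * (((0:ℕ) : ℂ) * 0 * u ^ 0) + u * (((1:ℕ) : ℂ) * ↑β * u ^ 1))) := by
      simp only; push_cast; ring
    rw [e]
    refine h2.congr_fun ?_ |> fun h => h
    intro k; ring
  dif := by
    have h1 : DifferentiableOn ℂ (deriv (pw b)) (Metric.ball 0 1) :=
      h.sig.diffOn_pw.deriv Metric.isOpen_ball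
    exact (differentiableOn_const _).sub (differentiableOn_id.mul (h1.mul differentiableOn_id))
  hc := by
    intro k
    have h1 := h.norm_le (n := k + 2) (by omega)
    rw [norm_mul, norm_neg, Complex.norm_natCast, one_mul]
    push_cast
    exact mul_le_mul_of_nonneg_left h1 (by positivity)
  hre := by
    intro k
    have h1 := h.stab (n := k + 2) (by omega)
    have e : (-(((k + 2 : ℕ) : ℂ)) * b (k + 2)).re = -(((k:ℝ) + 2) * (b (k + 2)).re) := by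
      rw [neg_mul, neg_re, ← ofReal_natCast, re_ofReal_mul]; push_cast; ring
    rw [e, abs_neg, abs_mul, abs_of_nonneg (by positivity : (0:ℝ) ≤ (k:ℝ) + 2)]
    have := mul_le_mul_of_nonneg_left h1 (by positivity : (0:ℝ) ≤ (k:ℝ) + 2)
    refine this.trans (le_of_eq ?_)
    ring
  hq := by rw [abs_neg, abs_of_nonneg h.nn]; exact h.beta_le
  hd0 := h.del_nonneg
  hd1 := by nlinarith [sq_nonneg β]
  hm0 := by norm_num
  hm1 := by norm_num

theorem ec_sq (t : ℝ) : ec t ^ 2 = ec (2 * t) := by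
  unfold ec
  rw [← exp_nat_mul]; congr 1; push_cast; ring

theorem S0_sin (β x t : ℝ) :
    ‖1 + (β : ℂ) * (x * ec t) ^ 2‖ ^ 2 = Dw (fun t => Real.sin t ^ 2) (β * x ^ 2) t := by
  have e : (1 : ℂ) + (β : ℂ) * (x * ec t) ^ 2 = 1 + ((β * x ^ 2 : ℝ) : ℂ) * ec (2 * t) := by
    rw [mul_pow, ec_sq]; push_cast; ring
  rw [e, normSq_one_add_ec, Real.cos_two_mul]
  unfold Dw
  have := Real.sin_sq_add_cos_sq t
  linear_combination (4 * (β * x ^ 2)) * this

theorem S0_cos (β x t : ℝ) :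
    ‖1 + ((-β : ℝ) : ℂ) * (x * ec t) ^ 2‖ ^ 2 = Dw (fun t => Real.cos t ^ 2) (β * x ^ 2) t := by
  have e : (1 : ℂ) + ((-β : ℝ) : ℂ) * (x * ec t) ^ 2 = 1 + ((-(β * x ^ 2) : ℝ) : ℂ) * ec (2 * t) := by
    rw [mul_pow, ec_sq]; push_cast; ring
  rw [e, normSq_one_add_ec, Real.cos_two_mul]
  unfold Dw
  ring

/-- reduction to the weight -/
theorem Pert.int_eq {S : ℂ → ℂ} {q : ℝ} {c : ℕ → ℂ} {d m x : ℝ} (h : Pert S q c d m)
    (hx0 : 0 < x) (hx : x ≤ 1 / 30000) {p y : ℝ} {s : ℝ → ℝ}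
    (hw : ∀ t, ‖1 + (q : ℂ) * (x * ec t) ^ 2‖ ^ 2 = Dw s y t) :
    ∫ t in (-π)..π, ‖S (x * ec t)‖ ^ (2 * p) =
      ∫ t in (-π)..π, (Dw s y t) ^ p * Real.exp (2 * p * YY S q x t) := by
  apply intervalIntegral.integral_congr
  intro t _
  simp only
  have hu := Pert.norm_u hx0 t
  have h1 := norm_pos_iff.2 (h.S_ne hx0 hx hu)
  have h2 := norm_pos_iff.2 (h.S0_ne hx0 hx hu)
  rw [← hw]
  unfold YY
  rw [Real.rpow_def_of_pos h1, Real.rpow_def_of_pos (by positivity), Real.log_pow,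
    ← Real.exp_add]
  congr 1
  push_cast; ring

theorem Nrm.int_F (h : Nrm F b β) {p x : ℝ} (hp : 0 < p) (hx0 : 0 < x) (hx : x ≤ 1 / 30000) :
    ∫ t in (-π)..π, ‖1 + (x * ec t) * pw b (x * ec t)‖ ^ (2 * p) ≤ Mo p (x ^ 2) ∧
    (β < 1 →
      ∫ t in (-π)..π, ‖1 + (x * ec t) * pw b (x * ec t)‖ ^ (2 * p) < Mo p (x ^ 2)) := by
  have hP := h.pertF
  have h1 := hP.int_eq hx0 hx (p := p) (fun t => S0_sin β x t)
  rw [show (∫ t in (-π)..π, ‖1 + (x * ec t) * pw b (x * ec t)‖ ^ (2 * p)) =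
    ∫ t in (-π)..π, ‖(fun u => 1 + u * pw b u) (x * ec t)‖ ^ (2 * p) from rfl, h1]
  exact SF_sin.main_F hp hx0 hx h.nn h.beta_le (hP.cont hx0 hx) (hP.int_zero hx0 hx)
    (hP.he hx0 hx) (hP.hb hx0 hx) (hP.ho le_rfl hx0 hx)

theorem Nrm.int_D (h : Nrm F b β) {p x : ℝ} (hp : 0 < p) (hx0 : 0 < x) (hx : x ≤ 1 / 30000)
    (hpx : p * x ^ 4 ≤ 1 / 360) :
    ∫ t in (-π)..π, ‖1 - (x * ec t) * (deriv (pw b) (x * ec t) * (x * ec t))‖ ^ (2 * p) ≤
      Mo p (x ^ 2) ∧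
    (β < 1 →
      ∫ t in (-π)..π, ‖1 - (x * ec t) * (deriv (pw b) (x * ec t) * (x * ec t))‖ ^ (2 * p) <
      Mo p (x ^ 2)) := by
  have hP := h.pertD
  have h1 := hP.int_eq hx0 hx (p := p) (fun t => S0_cos β x t)
  rw [show (∫ t in (-π)..π,
      ‖1 - (x * ec t) * (deriv (pw b) (x * ec t) * (x * ec t))‖ ^ (2 * p)) =
    ∫ t in (-π)..π, ‖(fun u => 1 - u * (deriv (pw b) u * u)) (x * ec t)‖ ^ (2 * p) from rfl, h1]
  exact SF_cos.main_F' hp hx0 hx hpx h.nn h.beta_le (hP.cont hx0 hx) (hP.int_zero hx0 hx)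
    (hP.he hx0 hx) (hP.hb hx0 hx)

end Pool.Agent.H15.Sig
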