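import Mathlib

/-!
# A Stokes formula on rectangles and a change of variables for planar maps
-/

open Complex Set Filter Topology MeasureTheory
open scoped ComplexConjugate Real

namespace Pool.Agent.H15.Sig

theorem hasDerivAt_conj {f : ℝ → ℂ} {f' : ℂ} {x : ℝ} (h : HasDerivAt f f' x) :
    HasDerivAt (fun y => conj (f y)) (conj f') x := by
  exact h.star

theorem hasDerivAt_im {f : ℝ → ℂ} {f' : ℂ} {x : ℝ} (h : HasDerivAt f f' x) :
    HasDerivAt (fun y => (f y).im) f'.im x := by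
  exact imCLM.hasFDerivAt.comp_hasDerivAt x h

theorem stokes {s0 s1 : ℝ} (hs : s0 ≤ s1) (V V1 V2 V12 : ℝ × ℝ → ℂ)
    (h1 : ∀ s ∈ Icc s0 s1, ∀ t, HasDerivAt (fun x => V (x, t)) (V1 (s, t)) s)
    (h2 : ∀ s ∈ Icc s0 s1, ∀ t, HasDerivAt (fun y => V (s, y)) (V2 (s, t)) t)
    (h21 : ∀ s ∈ Icc s0 s1, ∀ t, HasDerivAt (fun x => V2 (x, t)) (V12 (s, t)) s)
    (h12 : ∀ s ∈ Icc s0 s1, ∀ t, HasDerivAt (fun y => V1 (s, y)) (V12 (s, t)) t)
    (c0 : ContinuousOn V (Icc s0 s1 ×ˢ univ)) (c1 : ContinuousOn V1 (Icc s0 s1 ×ˢ univ))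
    (c2 : ContinuousOn V2 (Icc s0 s1 ×ˢ univ)) (c12 : ContinuousOn V12 (Icc s0 s1 ×ˢ univ))
    (per : ∀ s ∈ Icc s0 s1, V (s, π) = V (s, -π))
    (per1 : ∀ s ∈ Icc s0 s1, V1 (s, π) = V1 (s, -π)) :
    ∫ s in s0..s1, ∫ t in (-π)..π, (conj (V1 (s, t)) * V2 (s, t)).im =
      (1 / 2) * (∫ t in (-π)..π, (conj (V (s1, t)) * V2 (s1, t)).im) -
      (1 / 2) * (∫ t in (-π)..π, (conj (V (s0, t)) * V2 (s0, t)).im) := by
  have hpi : -π ≤ π := by linarith [Real.pi_pos]
  set A' : ℝ → ℝ → ℝ := fun s t =>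
    (conj (V1 (s, t)) * V2 (s, t) + conj (V (s, t)) * V12 (s, t)).im with hA'
  set B' : ℝ → ℝ → ℝ := fun s t =>
    -(conj (V2 (s, t)) * V1 (s, t) + conj (V (s, t)) * V12 (s, t)).im with hB'
  have hsum : ∀ s t, (conj (V1 (s, t)) * V2 (s, t)).im = (1 / 2) * (A' s t + B' s t) := by
    intro s t
    simp only [hA', hB', add_im, mul_im, conj_re, conj_im]
    ring
  have cA : ContinuousOn (Function.uncurry A') (Icc s0 s1 ×ˢ univ) := by
    have e : Function.uncurry A' = fun x : ℝ × ℝ =>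
      (conj (V1 x) * V2 x + conj (V x) * V12 x).im := by funext x; rfl
    rw [e]
    fun_prop
  have cB : ContinuousOn (Function.uncurry B') (Icc s0 s1 ×ˢ univ) := by
    have e : Function.uncurry B' = fun x : ℝ × ℝ =>
      -(conj (V2 x) * V1 x + conj (V x) * V12 x).im := by funext x; rfl
    rw [e]
    fun_prop
  have sect : ∀ {G : ℝ → ℝ → ℝ}, ContinuousOn (Function.uncurry G) (Icc s0 s1 ×ˢ univ) →
      ∀ s ∈ Icc s0 s1, Continuous (G s) := by
    intro G hG s hs'
    rw [← continuousOn_univ]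
    exact hG.comp (by fun_prop : Continuous fun t : ℝ => (s, t)).continuousOn
      (fun t _ => ⟨hs', mem_univ _⟩)
  have integ : ∀ {G : ℝ → ℝ → ℝ}, ContinuousOn (Function.uncurry G) (Icc s0 s1 ×ˢ univ) →
      IntegrableOn (Function.uncurry G) (uIoc s0 s1 ×ˢ uIoc (-π) π) volume := by
    intro G hG
    rw [uIoc_of_le hs, uIoc_of_le hpi]
    have hc : IsCompact (Icc s0 s1 ×ˢ Icc (-π) π) := isCompact_Icc.prod isCompact_Icc
    have := (hG.mono (prod_mono le_rfl (subset_univ (Icc (-π) π)))).integrableOn_compact hc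
      (μ := (volume : Measure (ℝ × ℝ)))
    exact this.mono_set (prod_mono Ioc_subset_Icc_self Ioc_subset_Icc_self)
  have IB : ∀ s ∈ Icc s0 s1, ∫ t in (-π)..π, B' s t = 0 := by
    intro s hs'
    have hd : ∀ t ∈ uIcc (-π) π, HasDerivAt (fun y => -(conj (V (s, y)) * V1 (s, y)).im)
        (B' s t) t := by
      intro t _
      exact (hasDerivAt_im ((hasDerivAt_conj (h2 s hs' t)).fun_mul (h12 s hs' t))).fun_neg
    rw [intervalIntegral.integral_eq_sub_of_hasDerivAt hd
      ((sect cB s hs').intervalIntegrable _ _), per s hs', per1 s hs']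
    ring
  have IA : ∀ t, ∫ s in s0..s1, A' s t =
      (conj (V (s1, t)) * V2 (s1, t)).im - (conj (V (s0, t)) * V2 (s0, t)).im := by
    intro t
    have hd : ∀ s ∈ uIcc s0 s1, HasDerivAt (fun x => (conj (V (x, t)) * V2 (x, t)).im)
        (A' s t) s := by
      intro s hs'
      rw [uIcc_of_le hs] at hs'
      exact hasDerivAt_im ((hasDerivAt_conj (h1 s hs' t)).fun_mul (h21 s hs' t))
    have hc : ContinuousOn (fun s => A' s t) (uIcc s0 s1) := by
      rw [uIcc_of_le hs]
      exact cA.comp (by fun_prop : Continuous fun s : ℝ => (s, t)).continuousOn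
        (fun s hs' => ⟨hs', mem_univ _⟩)
    rw [intervalIntegral.integral_eq_sub_of_hasDerivAt hd hc.intervalIntegrable]
  have e1 : ∫ s in s0..s1, ∫ t in (-π)..π, (conj (V1 (s, t)) * V2 (s, t)).im =
      ∫ s in s0..s1, (1 / 2) * (∫ t in (-π)..π, A' s t) := by
    apply intervalIntegral.integral_congr
    intro s hs'
    rw [uIcc_of_le hs] at hs'
    simp only [hsum]
    rw [intervalIntegral.integral_const_mul, intervalIntegral.integral_add
      ((sect cA s hs').intervalIntegrable _ _) ((sect cB s hs').intervalIntegrable _ _), IB s hs',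
      add_zero]
  rw [e1, intervalIntegral.integral_const_mul,
    intervalIntegral_intervalIntegral_swap (integ cA)]
  simp only [IA]
  have cb : ∀ s ∈ Icc s0 s1, Continuous fun t => (conj (V (s, t)) * V2 (s, t)).im := by
    intro s hs'
    apply sect (G := fun s t => (conj (V (s, t)) * V2 (s, t)).im) _ s hs'
    have e : Function.uncurry (fun s t => (conj (V (s, t)) * V2 (s, t)).im) = fun x : ℝ × ℝ =>
      (conj (V x) * V2 x).im := by funext x; rfl
    rw [e]
    fun_prop
  rw [intervalIntegral.integral_sub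
    ((cb s1 (right_mem_Icc.2 hs)).intervalIntegrable _ _)
    ((cb s0 (left_mem_Icc.2 hs)).intervalIntegrable _ _)]
  ring

/-- the real-linear map of the plane with columns `a` and `c` -/
noncomputable def colMap (a c : ℂ) : ℝ × ℝ →L[ℝ] ℝ × ℝ :=
  LinearMap.toContinuousLinearMap (Matrix.toLin (.finTwoProd ℝ) (.finTwoProd ℝ)
    !![a.re, c.re; a.im, c.im])

theorem det_colMap (a c : ℂ) : (colMap a c).det = (conj a * c).im := by
  simp only [colMap, ContinuousLinearMap.det, LinearMap.det_toContinuousLinearMap,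
    LinearMap.det_toLin, Matrix.det_fin_two_of, mul_im, conj_re, conj_im]
  ring

/-- the coordinates of a complex number -/
def toR (w : ℂ) : ℝ × ℝ := (w.re, w.im)

/-- the complex number with given coordinates -/
def toC (x : ℝ × ℝ) : ℂ := ⟨x.1, x.2⟩

@[simp] theorem toC_toR (w : ℂ) : toC (toR w) = w := rfl
@[simp] theorem toR_toC (x : ℝ × ℝ) : toR (toC x) = x := rfl

theorem toR_injective : Function.Injective toR := fun a b h => by
  have := congrArg toC h
  simpa using this

theorem continuous_toC : Continuous toC := by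
  have : toC = fun x : ℝ × ℝ => (x.1 : ℂ) + x.2 * I := by
    funext x; apply Complex.ext <;> simp [toC]
  rw [this]; fun_prop

theorem hasFDerivAt_toR {f : ℝ × ℝ → ℂ} {a c : ℂ} {x : ℝ × ℝ}
    (h : HasFDerivAt f ((ContinuousLinearMap.fst ℝ ℝ ℝ).smulRight a +
      (ContinuousLinearMap.snd ℝ ℝ ℝ).smulRight c) x) :
    HasFDerivAt (fun y => toR (f y)) (colMap a c) x := by
  have h1 : HasFDerivAt (fun y => (f y).re) _ x := reCLM.hasFDerivAt.comp x h
  have h2 : HasFDerivAt (fun y => (f y).im) _ x := imCLM.hasFDerivAt.comp x h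
  have h3 := h1.prodMk h2
  refine h3.congr_fderiv ?_
  rw [colMap, Matrix.toLin_finTwoProd_toContinuousLinearMap]
  ext <;> simp

end Pool.Agent.H15.Sig
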