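import Pool.Agent.H15.Sig.Geom
import Pool.Agent.H15.Sig.Stokes

/-!
# The area principle for entire functions of a function of class Sigma
-/

open Complex Set Filter Topology MeasureTheory
open scoped ComplexConjugate Real

namespace Pool.Agent.H15.Sig

variable {F : ℂ → ℂ} {b : ℕ → ℂ}

/-- boundary form -/
noncomputable def bd (F P : ℂ → ℂ) (r : ℝ) : ℝ :=
  ∫ t in (-π)..π, (conj (P (F (r * exp (t * I)))) *
    (deriv P (F (r * exp (t * I))) * (deriv F (r * exp (t * I)) * (r * exp (t * I))))).re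

theorem cov {s0 s1 : ℝ} {f a c : ℝ × ℝ → ℂ}
    (hf : ∀ x ∈ Ioo s0 s1 ×ˢ Ioc (-π) π, HasFDerivAt f
      ((ContinuousLinearMap.fst ℝ ℝ ℝ).smulRight (a x) +
      (ContinuousLinearMap.snd ℝ ℝ ℝ).smulRight (c x)) x)
    (inj : InjOn f (Ioo s0 s1 ×ˢ Ioc (-π) π))
    (nn : ∀ x ∈ Ioo s0 s1 ×ˢ Ioc (-π) π, 0 ≤ (conj (a x) * c x).im) (D : ℂ → ℂ) :
    (∫ w in (fun x => toR (f x)) '' (Ioo s0 s1 ×ˢ Ioc (-π) π), ‖D (toC w)‖ ^ 2) =
      ∫ x in Ioo s0 s1 ×ˢ Ioc (-π) π, (conj (D (f x) * a x) * (D (f x) * c x)).im := by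
  have hS : MeasurableSet (Ioo s0 s1 ×ˢ Ioc (-π) π) := measurableSet_Ioo.prod measurableSet_Ioc
  rw [integral_image_eq_integral_abs_det_fderiv_smul volume hS
    (fun x hx => (hasFDerivAt_toR (hf x hx)).hasFDerivWithinAt)
    (fun x hx y hy h => inj hx hy (toR_injective h))]
  apply setIntegral_congr_fun hS
  intro x hx
  simp only [det_colMap, toC_toR, smul_eq_mul]
  rw [abs_of_nonneg (nn x hx)]
  have : conj (D (f x) * a x) * (D (f x) * c x) =
      ((‖D (f x)‖ ^ 2 : ℝ) : ℂ) * (conj (a x) * c x) := by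
    rw [map_mul, ofReal_pow, ← Complex.conj_mul']
    ring
  rw [this, im_ofReal_mul]
  ring

theorem cov_integrable {s0 s1 : ℝ} {f a c : ℝ × ℝ → ℂ}
    (hf : ∀ x ∈ Ioo s0 s1 ×ˢ Ioc (-π) π, HasFDerivAt f
      ((ContinuousLinearMap.fst ℝ ℝ ℝ).smulRight (a x) +
      (ContinuousLinearMap.snd ℝ ℝ ℝ).smulRight (c x)) x)
    (inj : InjOn f (Ioo s0 s1 ×ˢ Ioc (-π) π))
    (nn : ∀ x ∈ Ioo s0 s1 ×ˢ Ioc (-π) π, 0 ≤ (conj (a x) * c x).im) (D : ℂ → ℂ)
    (hint : IntegrableOn (fun x => (conj (D (f x) * a x) * (D (f x) * c x)).im)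
      (Ioo s0 s1 ×ˢ Ioc (-π) π)) :
    IntegrableOn (fun w => ‖D (toC w)‖ ^ 2)
      ((fun x => toR (f x)) '' (Ioo s0 s1 ×ˢ Ioc (-π) π)) := by
  have hS : MeasurableSet (Ioo s0 s1 ×ˢ Ioc (-π) π) := measurableSet_Ioo.prod measurableSet_Ioc
  rw [integrableOn_image_iff_integrableOn_abs_det_fderiv_smul volume hS
    (fun x hx => (hasFDerivAt_toR (hf x hx)).hasFDerivWithinAt)
    (fun x hx y hy h => inj hx hy (toR_injective h))]
  refine hint.congr_fun (fun x hx => ?_) hS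
  simp only [det_colMap, toC_toR, smul_eq_mul]
  rw [abs_of_nonneg (nn x hx)]
  have : conj (D (f x) * a x) * (D (f x) * c x) =
      ((‖D (f x)‖ ^ 2 : ℝ) : ℂ) * (conj (a x) * c x) := by
    rw [map_mul, ofReal_pow, ← Complex.conj_mul']
    ring
  rw [this, im_ofReal_mul]
  ring

theorem rect_integral {s0 s1 : ℝ} (hs : s0 ≤ s1) {H : ℝ × ℝ → ℝ}
    (hH : ContinuousOn H (Icc s0 s1 ×ˢ univ)) :
    IntegrableOn H (Ioo s0 s1 ×ˢ Ioc (-π) π) ∧
    ∫ x in Ioo s0 s1 ×ˢ Ioc (-π) π, H x = ∫ s in s0..s1, ∫ t in (-π)..π, H (s, t) := by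
  have hpi : -π ≤ π := by linarith [Real.pi_pos]
  have hc : IsCompact (Icc s0 s1 ×ˢ Icc (-π) π) := isCompact_Icc.prod isCompact_Icc
  have h1 := (hH.mono (prod_mono le_rfl (subset_univ (Icc (-π) π)))).integrableOn_compact hc
      (μ := (volume : Measure (ℝ × ℝ)))
  have h2 : IntegrableOn H (Ioo s0 s1 ×ˢ Ioc (-π) π) :=
    h1.mono_set (prod_mono Ioo_subset_Icc_self Ioc_subset_Icc_self)
  refine ⟨h2, ?_⟩
  rw [Measure.volume_eq_prod, setIntegral_prod _ (by rwa [← Measure.volume_eq_prod])]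
  rw [intervalIntegral.integral_of_le hs, integral_Ioc_eq_integral_Ioo]
  apply setIntegral_congr_fun measurableSet_Ioo
  intro s _
  simp only
  rw [intervalIntegral.integral_of_le hpi]

/-- the linear map of `(x, y)` to `x + i y` -/
noncomputable def toCL : ℝ × ℝ →L[ℝ] ℂ :=
  (ContinuousLinearMap.fst ℝ ℝ ℝ).smulRight 1 + (ContinuousLinearMap.snd ℝ ℝ ℝ).smulRight I

theorem toCL_apply (x : ℝ × ℝ) : toCL x = x.1 + x.2 * I := by
  simp [toCL]

theorem hasFDerivAt_comp_toCL {g : ℂ → ℂ} {g' : ℂ} {x : ℝ × ℝ}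
    (h : HasDerivAt g g' (x.1 + x.2 * I)) :
    HasFDerivAt (fun y : ℝ × ℝ => g (y.1 + y.2 * I))
      ((ContinuousLinearMap.fst ℝ ℝ ℝ).smulRight g' +
        (ContinuousLinearMap.snd ℝ ℝ ℝ).smulRight (I * g')) x := by
  have h0 : HasDerivAt g g' (toCL x) := by rw [toCL_apply]; exact h
  have h1 := h0.hasFDerivAt.restrictScalars ℝ
  have h2 := h1.comp x toCL.hasFDerivAt
  have e : (g ∘ toCL) = fun y : ℝ × ℝ => g (y.1 + y.2 * I) := by
    funext y; simp [toCL_apply]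
  rw [e] at h2
  refine h2.congr_fderiv ?_
  ext <;> simp [toCL]

theorem exp_inj_strip {x y : ℝ × ℝ} (hx : x.2 ∈ Ioc (-π) π) (hy : y.2 ∈ Ioc (-π) π)
    (h : exp ((x.1 : ℂ) + x.2 * I) = exp ((y.1 : ℂ) + y.2 * I)) : x = y := by
  have := Complex.exp_inj_of_neg_pi_lt_of_le_pi (x := (x.1 : ℂ) + x.2 * I)
    (y := (y.1 : ℂ) + y.2 * I) (by simpa using hx.1) (by simpa using hx.2) (by simpa using hy.1)
    (by simpa using hy.2) h
  have h1 := congrArg re this
  have h2 := congrArg im this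
  simp at h1 h2
  exact Prod.ext h1 h2

theorem inner_area (h : IsSig F b) {P : ℂ → ℂ} (hP : Differentiable ℂ P) {ρ R : ℝ}
    (hρ : 1 < ρ) (hR : ρ ≤ R) :
    (∫ w in (fun x : ℝ × ℝ => toR (F (exp (x.1 + x.2 * I)))) ''
      (Ioo (Real.log ρ) (Real.log R) ×ˢ Ioc (-π) π), ‖deriv P (toC w)‖ ^ 2) =
      (1 / 2) * bd F P R - (1 / 2) * bd F P ρ := by
  have hlogρ : 0 < Real.log ρ := Real.log_pos hρ
  have hlog : Real.log ρ ≤ Real.log R := Real.log_le_log (by linarith) hR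
  set G : ℂ → ℂ := fun ζ => F (exp ζ) with hG
  set Q : ℂ → ℂ := fun ζ => P (G ζ) with hQ
  set U : Set ℂ := {ζ : ℂ | 0 < ζ.re} with hU
  have hUo : IsOpen U := isOpen_lt continuous_const continuous_re
  have hexp : ∀ ζ ∈ U, 1 < ‖exp ζ‖ := by
    intro ζ hζ
    rw [norm_exp]; exact Real.one_lt_exp_iff.2 hζ
  have hGd : ∀ ζ ∈ U, HasDerivAt G (deriv F (exp ζ) * exp ζ) ζ := by
    intro ζ hζ
    exact (h.differentiableAt (hexp ζ hζ)).hasDerivAt.comp ζ (hasDerivAt_exp ζ)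
  have hGon : DifferentiableOn ℂ G U := fun ζ hζ =>
    (hGd ζ hζ).differentiableAt.differentiableWithinAt
  have hQd : ∀ ζ ∈ U, HasDerivAt Q (deriv P (G ζ) * (deriv F (exp ζ) * exp ζ)) ζ := by
    intro ζ hζ
    exact (hP (G ζ)).hasDerivAt.comp ζ (hGd ζ hζ)
  have hQon : DifferentiableOn ℂ Q U := fun ζ hζ =>
    (hQd ζ hζ).differentiableAt.differentiableWithinAt
  have hQ' : DifferentiableOn ℂ (deriv Q) U := hQon.deriv hUo
  have hQ'' : DifferentiableOn ℂ (deriv (deriv Q)) U := hQ'.deriv hUo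
  have hQ1 : ∀ ζ ∈ U, HasDerivAt Q (deriv Q ζ) ζ := fun ζ hζ =>
    (hQon.differentiableAt (hUo.mem_nhds hζ)).hasDerivAt
  have hQ2 : ∀ ζ ∈ U, HasDerivAt (deriv Q) (deriv (deriv Q) ζ) ζ := fun ζ hζ =>
    (hQ'.differentiableAt (hUo.mem_nhds hζ)).hasDerivAt
  set a : ℝ × ℝ → ℂ := fun x =>
    deriv F (exp (x.1 + x.2 * I)) * exp (x.1 + x.2 * I) with ha
  set c : ℝ × ℝ → ℂ := fun x => I * a x with hc
  have memU : ∀ s ∈ Icc (Real.log ρ) (Real.log R), ∀ t : ℝ, ((s : ℂ) + t * I) ∈ U := by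
    intro s hs t
    show 0 < ((s : ℂ) + t * I).re
    simp
    linarith [hs.1]
  have hf : ∀ x ∈ Ioo (Real.log ρ) (Real.log R) ×ˢ Ioc (-π) π, HasFDerivAt
      (fun y : ℝ × ℝ => F (exp (y.1 + y.2 * I)))
      ((ContinuousLinearMap.fst ℝ ℝ ℝ).smulRight (a x) +
      (ContinuousLinearMap.snd ℝ ℝ ℝ).smulRight (c x)) x := by
    intro x hx
    exact hasFDerivAt_comp_toCL (hGd _ (memU x.1 (Ioo_subset_Icc_self hx.1) x.2))
  have hinj : InjOn (fun y : ℝ × ℝ => F (exp (y.1 + y.2 * I)))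
      (Ioo (Real.log ρ) (Real.log R) ×ˢ Ioc (-π) π) := by
    intro x hx y hy he
    exact exp_inj_strip hx.2 hy.2
      (h.inj (hexp _ (memU x.1 (Ioo_subset_Icc_self hx.1) x.2))
        (hexp _ (memU y.1 (Ioo_subset_Icc_self hy.1) y.2)) he)
  have hnn : ∀ x ∈ Ioo (Real.log ρ) (Real.log R) ×ˢ Ioc (-π) π,
      0 ≤ (conj (a x) * c x).im := by
    intro x _
    have : conj (a x) * c x = ((‖a x‖ ^ 2 : ℝ) : ℂ) * I := by
      simp only [hc]
      rw [ofReal_pow, ← Complex.conj_mul']; ring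
    rw [this, im_ofReal_mul, I_im]
    positivity
  rw [cov hf hinj hnn]
  have cont : ContinuousOn (fun x : ℝ × ℝ => (x.1 : ℂ) + x.2 * I)
      (Icc (Real.log ρ) (Real.log R) ×ˢ univ) := by fun_prop
  have maps : MapsTo (fun x : ℝ × ℝ => (x.1 : ℂ) + x.2 * I)
      (Icc (Real.log ρ) (Real.log R) ×ˢ univ) U := fun x hx => memU x.1 hx.1 x.2
  have cQ : ContinuousOn (fun x : ℝ × ℝ => Q (x.1 + x.2 * I))
      (Icc (Real.log ρ) (Real.log R) ×ˢ univ) := hQon.continuousOn.comp cont maps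
  have cQ' : ContinuousOn (fun x : ℝ × ℝ => deriv Q (x.1 + x.2 * I))
      (Icc (Real.log ρ) (Real.log R) ×ˢ univ) := hQ'.continuousOn.comp cont maps
  have cQ'' : ContinuousOn (fun x : ℝ × ℝ => deriv (deriv Q) (x.1 + x.2 * I))
      (Icc (Real.log ρ) (Real.log R) ×ˢ univ) := hQ''.continuousOn.comp cont maps
  have eQ : ∀ s ∈ Icc (Real.log ρ) (Real.log R), ∀ t : ℝ,
      deriv Q ((s : ℂ) + t * I) = deriv P (F (exp (s + t * I))) * a (s, t) := by
    intro s hs t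
    exact (hQd _ (memU s hs t)).deriv
  have hds : ∀ s t : ℝ, HasDerivAt (fun x : ℝ => (x : ℂ) + t * I) 1 s := by
    intro s t
    exact ofRealCLM.hasDerivAt.add_const _
  have hdt : ∀ s t : ℝ, HasDerivAt (fun y : ℝ => (s : ℂ) + y * I) I t := by
    intro s t
    have : HasDerivAt (fun y : ℝ => (y : ℂ) * I) (1 * I) t := ofRealCLM.hasDerivAt.mul_const I
    rw [one_mul] at this
    exact this.const_add _
  have st := stokes hlog (fun x : ℝ × ℝ => Q (x.1 + x.2 * I))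
    (fun x : ℝ × ℝ => deriv Q (x.1 + x.2 * I)) (fun x : ℝ × ℝ => I * deriv Q (x.1 + x.2 * I))
    (fun x : ℝ × ℝ => I * deriv (deriv Q) (x.1 + x.2 * I))
    (fun s hs t => by
      have := (hQ1 _ (memU s hs t)).comp s (hds s t)
      rw [mul_one] at this; exact this)
    (fun s hs t => by
      have := (hQ1 _ (memU s hs t)).comp t (hdt s t)
      rw [mul_comm] at this; exact this)
    (fun s hs t => by
      have := ((hQ2 _ (memU s hs t)).comp s (hds s t)).const_mul I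
      rw [mul_one] at this; exact this)
    (fun s hs t => by
      have := (hQ2 _ (memU s hs t)).comp t (hdt s t)
      rw [mul_comm] at this; exact this)
    cQ cQ' (continuousOn_const.mul cQ') (continuousOn_const.mul cQ'')
    (fun s _ => by
      have : exp ((s : ℂ) + π * I) = exp ((s : ℂ) + (-π : ℝ) * I) := by
        rw [exp_add, exp_add]; congr 1
        push_cast
        rw [exp_pi_mul_I, neg_mul, exp_neg, exp_pi_mul_I]; norm_num
      simp only [hQ, hG, this])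
    (fun s hs => by
      have e0 : ∀ ζ : ℂ, Q (ζ + 2 * π * I) = Q ζ := by
        intro ζ
        simp only [hQ, hG, exp_add, exp_two_pi_mul_I, mul_one]
      have e1 : ∀ ζ : ℂ, deriv Q (ζ + 2 * π * I) = deriv Q ζ := by
        intro ζ
        rw [← deriv_comp_add_const]
        congr 1
        funext x; exact e0 x
      have := e1 ((s : ℂ) + (-π : ℝ) * I)
      show deriv Q ((s : ℂ) + (π : ℝ) * I) = deriv Q ((s : ℂ) + (-π : ℝ) * I)
      rw [← this]; congr 1; push_cast; ring)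
  have hbdry : ∀ r : ℝ, 1 < r → Real.log r ∈ Icc (Real.log ρ) (Real.log R) →
      ∫ t in (-π)..π, (conj (Q ((Real.log r : ℂ) + t * I)) *
        (I * deriv Q ((Real.log r : ℂ) + t * I))).im = bd F P r := by
    intro r hr hmem
    unfold bd
    apply intervalIntegral.integral_congr
    intro t _
    have e1 : exp ((Real.log r : ℂ) + t * I) = r * exp (t * I) := by
      rw [exp_add, ← ofReal_exp, Real.exp_log (by linarith)]
    simp only [hQ, hG]
    have e2 := eQ (Real.log r) hmem t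
    simp only [hQ, hG, ha] at e2
    rw [e2, e1]
    have e3 : ∀ x y : ℂ, (conj x * (I * y)).im = (conj x * y).re := by
      intro x y
      simp only [mul_im, mul_re, I_re, I_im, conj_re, conj_im]; ring
    rw [e3]
  have hmemR : Real.log R ∈ Icc (Real.log ρ) (Real.log R) := right_mem_Icc.2 hlog
  have hmemρ : Real.log ρ ∈ Icc (Real.log ρ) (Real.log R) := left_mem_Icc.2 hlog
  simp only at st
  rw [hbdry R (by linarith) hmemR, hbdry ρ hρ hmemρ] at st
  rw [← st]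
  have hH : ContinuousOn (fun x : ℝ × ℝ => (conj (deriv Q (x.1 + x.2 * I)) *
      (I * deriv Q (x.1 + x.2 * I))).im) (Icc (Real.log ρ) (Real.log R) ×ˢ univ) := by
    fun_prop
  rw [← (rect_integral hlog hH).2]
  apply setIntegral_congr_fun (measurableSet_Ioo.prod measurableSet_Ioc)
  intro x hx
  simp only
  rw [eQ x.1 (Ioo_subset_Icc_self hx.1) x.2]
  simp only [hc, Prod.mk.eta]
  congr 1
  ring

end Pool.Agent.H15.Sig
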