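import Pool.Agent.H15.Sig.Area

/-!
# The area principle, second part
-/

open Complex Set Filter Topology MeasureTheory
open scoped ComplexConjugate Real

namespace Pool.Agent.H15.Sig

variable {F : ℂ → ℂ} {b : ℕ → ℂ}

theorem outer_area (h : IsSig F b) {P : ℂ → ℂ} (hP : Differentiable ℂ P) {R : ℝ}
    (g : Good F R) :
    IntegrableOn (fun w => ‖deriv P (toC w)‖ ^ 2)
      ((fun x : ℝ × ℝ => toR ((x.1 : ℂ) * F (R * exp (x.2 * I)))) '' (Ioo 0 1 ×ˢ Ioc (-π) π)) ∧
    (∫ w in (fun x : ℝ × ℝ => toR ((x.1 : ℂ) * F (R * exp (x.2 * I)))) ''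
      (Ioo 0 1 ×ˢ Ioc (-π) π), ‖deriv P (toC w)‖ ^ 2) = (1 / 2) * bd F P R := by
  have hR2 := g.two_le
  have hR : 0 < R := by linarith
  have hnorm : ∀ t : ℝ, ‖(R : ℂ) * exp (t * I)‖ = R := by
    intro t
    rw [norm_mul, norm_exp_ofReal_mul_I, mul_one, norm_real, Real.norm_eq_abs, abs_of_pos hR]
  have hz1 : ∀ t : ℝ, 1 < ‖(R : ℂ) * exp (t * I)‖ := fun t => by rw [hnorm t]; linarith
  set Γ : ℝ → ℂ := fun t => F (R * exp (t * I)) with hΓ
  set Γ' : ℝ → ℂ := fun t => deriv F (R * exp (t * I)) * (R * exp (t * I)) * I with hΓ'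
  have hΓd : ∀ t, HasDerivAt Γ (Γ' t) t := by
    intro t
    have h1 : HasDerivAt (fun y : ℝ => (R : ℂ) * exp (y * I)) (R * (exp (t * I) * (1 * I))) t := by
      refine HasDerivAt.const_mul _ ?_
      exact (ofRealCLM.hasDerivAt.mul_const I).cexp
    have h2 := (h.differentiableAt (hz1 t)).hasDerivAt.comp t h1
    refine h2.congr_deriv ?_
    simp only [hΓ']; ring
  have hzc : Continuous fun t : ℝ => (R : ℂ) * exp (t * I) := by fun_prop
  have hΓc : Continuous Γ := by
    rw [continuous_iff_continuousAt]; intro t; exact (hΓd t).continuousAt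
  have hDc : Continuous fun t : ℝ => deriv F (R * exp (t * I)) := by
    rw [continuous_iff_continuousAt]
    intro t
    have h1 : DifferentiableOn ℂ (deriv F) {z : ℂ | 1 < ‖z‖} := h.diffOn.deriv isOpen_ext
    have h2 : ContinuousAt (deriv F) (R * exp (t * I)) :=
      (h1.differentiableAt (isOpen_ext.mem_nhds (hz1 t))).continuousAt
    exact ContinuousAt.comp (f := fun t : ℝ => (R : ℂ) * exp (t * I)) h2 hzc.continuousAt
  have hΓ'c : Continuous Γ' := by
    simp only [hΓ']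
    exact (hDc.mul hzc).mul continuous_const
  set a : ℝ × ℝ → ℂ := fun x => Γ x.2 with ha
  set c : ℝ × ℝ → ℂ := fun x => (x.1 : ℂ) * Γ' x.2 with hc
  have hf : ∀ x ∈ Ioo (0:ℝ) 1 ×ˢ Ioc (-π) π, HasFDerivAt (fun y : ℝ × ℝ => (y.1 : ℂ) * Γ y.2)
      ((ContinuousLinearMap.fst ℝ ℝ ℝ).smulRight (a x) +
      (ContinuousLinearMap.snd ℝ ℝ ℝ).smulRight (c x)) x := by
    intro x _
    have h1 : HasFDerivAt (fun y : ℝ × ℝ => (y.1 : ℂ))
        (ofRealCLM.comp (ContinuousLinearMap.fst ℝ ℝ ℝ)) x :=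
      ofRealCLM.hasFDerivAt.comp x hasFDerivAt_fst
    have h2 : HasFDerivAt (fun y : ℝ × ℝ => Γ y.2)
        ((ContinuousLinearMap.snd ℝ ℝ ℝ).smulRight (Γ' x.2)) x := by
      have := (hΓd x.2).hasFDerivAt.comp x hasFDerivAt_snd
      refine this.congr_fderiv ?_
      ext <;> simp
    have h3 := h1.mul h2
    refine h3.congr_fderiv ?_
    ext <;> simp [ha, hc]
  have hinj : InjOn (fun y : ℝ × ℝ => (y.1 : ℂ) * Γ y.2) (Ioo (0:ℝ) 1 ×ˢ Ioc (-π) π) := by
    have key : ∀ x ∈ Ioo (0:ℝ) 1 ×ˢ Ioc (-π) π, ∀ y ∈ Ioo (0:ℝ) 1 ×ˢ Ioc (-π) π,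
        y.1 ≤ x.1 → (x.1 : ℂ) * Γ x.2 = (y.1 : ℂ) * Γ y.2 → x = y := by
      intro x hx y hy hle he
      have hy0 : (y.1 : ℂ) ≠ 0 := by exact_mod_cast hy.1.1.ne'
      have hs1 : 1 ≤ x.1 / y.1 := by rw [le_div_iff₀ hy.1.1]; linarith
      have e1 : F ((R : ℂ) * exp (y.2 * I)) = ((x.1 / y.1 : ℝ) : ℂ) * F (R * exp (x.2 * I)) := by
        have : (x.1 : ℂ) * F ((R : ℂ) * exp (x.2 * I)) = y.1 * F ((R : ℂ) * exp (y.2 * I)) := he
        rw [ofReal_div, div_mul_eq_mul_div, this, mul_div_cancel_left₀ _ hy0]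
      have r := g.ray _ _ _ (hnorm x.2) (by rw [hnorm]; exact hR2) hs1 e1
      have hs2 : x.1 / y.1 = 1 := by
        by_contra hne
        have := r.2 (lt_of_le_of_ne hs1 (Ne.symm hne))
        rw [hnorm] at this
        exact lt_irrefl _ this
      have hxy : x.1 = y.1 := by
        rw [div_eq_one_iff_eq hy.1.1.ne'] at hs2; exact hs2
      rw [hs2, ofReal_one, one_mul] at e1
      have e2 := h.inj (hz1 y.2) (hz1 x.2) e1
      have hRne : (R : ℂ) ≠ 0 := by exact_mod_cast hR.ne'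
      have e3 : exp ((y.2 : ℂ) * I) = exp (x.2 * I) := mul_left_cancel₀ hRne e2
      have e4 : exp (((0 : ℝ) : ℂ) + (y.2 : ℝ) * I) = exp (((0 : ℝ) : ℂ) + (x.2 : ℝ) * I) := by
        simpa using e3
      have := exp_inj_strip (x := (0, y.2)) (y := (0, x.2)) hy.2 hx.2 e4
      have h22 := congrArg Prod.snd this
      exact Prod.ext hxy h22.symm
    intro x hx y hy he
    rcases le_total y.1 x.1 with hle | hle
    · exact key x hx y hy hle he
    · exact (key y hy x hx hle he.symm).symm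
  have hnn : ∀ x ∈ Ioo (0:ℝ) 1 ×ˢ Ioc (-π) π, 0 ≤ (conj (a x) * c x).im := by
    intro x hx
    have e : conj (a x) * c x = (x.1 : ℂ) *
        (I * (conj (F (R * exp (x.2 * I))) * ((R * exp (x.2 * I)) *
          deriv F (R * exp (x.2 * I))))) := by
      simp only [ha, hc, hΓ, hΓ']; ring
    rw [e, im_ofReal_mul]
    have := g.jac _ (hnorm x.2)
    have e2 : ∀ w : ℂ, (I * w).im = w.re := by intro w; simp
    rw [e2]
    exact mul_nonneg hx.1.1.le this.le
  have hfc : Continuous fun x : ℝ × ℝ => (x.1 : ℂ) * Γ x.2 :=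
    (continuous_ofReal.comp continuous_fst).mul (hΓc.comp continuous_snd)
  have hPc : Continuous (deriv P) := by
    have : DifferentiableOn ℂ (deriv P) univ := (hP.differentiableOn).deriv isOpen_univ
    exact continuousOn_univ.1 this.continuousOn
  have hP'd : Differentiable ℂ (deriv P) := by
    have : DifferentiableOn ℂ (deriv P) univ := (hP.differentiableOn).deriv isOpen_univ
    exact differentiableOn_univ.1 this
  have hPcc : Continuous (deriv (deriv P)) := by
    have : DifferentiableOn ℂ (deriv (deriv P)) univ := (hP'd.differentiableOn).deriv isOpen_univ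
    exact continuousOn_univ.1 this.continuousOn
  have hac : Continuous a := hΓc.comp continuous_snd
  have hcc : Continuous c :=
    (continuous_ofReal.comp continuous_fst).mul (hΓ'c.comp continuous_snd)
  have hΓ2 : Continuous fun x : ℝ × ℝ => Γ' x.2 := hΓ'c.comp continuous_snd
  have cV1 : Continuous fun x : ℝ × ℝ => deriv P ((x.1 : ℂ) * Γ x.2) * a x :=
    (hPc.comp hfc).mul hac
  have cV2 : Continuous fun x : ℝ × ℝ => deriv P ((x.1 : ℂ) * Γ x.2) * c x :=
    (hPc.comp hfc).mul hcc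
  have hH : ContinuousOn (fun x : ℝ × ℝ =>
      (conj (deriv P ((x.1 : ℂ) * Γ x.2) * a x) * (deriv P ((x.1 : ℂ) * Γ x.2) * c x)).im)
      (Icc 0 1 ×ˢ univ) := by
    have := cV1; have := cV2
    exact (continuous_im.comp ((continuous_conj.comp cV1).mul cV2)).continuousOn
  have hrect := rect_integral (s0 := 0) (s1 := 1) (by norm_num) hH
  refine ⟨cov_integrable hf hinj hnn (deriv P) hrect.1, ?_⟩
  have e0 := cov hf hinj hnn (deriv P)
  refine e0.trans ?_
  rw [hrect.2]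
  have hds : ∀ s t : ℝ, HasDerivAt (fun x : ℝ => (x : ℂ) * Γ t) (Γ t) s := by
    intro s t
    have : HasDerivAt (fun x : ℝ => (x : ℂ) * Γ t) (1 * Γ t) s :=
      ofRealCLM.hasDerivAt.mul_const _
    rwa [one_mul] at this
  have hdt : ∀ s t : ℝ, HasDerivAt (fun y : ℝ => (s : ℂ) * Γ y) (s * Γ' t) t := by
    intro s t
    exact (hΓd t).const_mul _
  have hpb : ∀ x : ℝ × ℝ, True := fun _ => trivial
  have eπ : (R : ℂ) * exp ((π : ℝ) * I) = R * exp ((-π : ℝ) * I) := by
    congr 1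
    push_cast
    rw [exp_pi_mul_I, neg_mul, exp_neg, exp_pi_mul_I]; norm_num
  have st := stokes (s0 := 0) (s1 := 1) (by norm_num) (fun x : ℝ × ℝ => P ((x.1 : ℂ) * Γ x.2))
    (fun x : ℝ × ℝ => deriv P ((x.1 : ℂ) * Γ x.2) * a x)
    (fun x : ℝ × ℝ => deriv P ((x.1 : ℂ) * Γ x.2) * c x)
    (fun x : ℝ × ℝ => deriv (deriv P) ((x.1 : ℂ) * Γ x.2) * (Γ x.2 * (x.1 * Γ' x.2)) +
      deriv P ((x.1 : ℂ) * Γ x.2) * Γ' x.2)
    (fun s _ t => (hP _).hasDerivAt.comp s (hds s t))
    (fun s _ t => (hP _).hasDerivAt.comp t (hdt s t))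
    (fun s _ t => by
      have h1 := ((hP'd _).hasDerivAt.comp s (hds s t)).mul (hds s t |>.congr_deriv rfl)
      have h2 : HasDerivAt (fun x : ℝ => (x : ℂ) * Γ' t) (Γ' t) s := by
        have : HasDerivAt (fun x : ℝ => (x : ℂ) * Γ' t) (1 * Γ' t) s :=
          ofRealCLM.hasDerivAt.mul_const _
        rwa [one_mul] at this
      have h3 := ((hP'd _).hasDerivAt.comp s (hds s t)).fun_mul h2
      refine h3.congr_deriv ?_
      simp only [Function.comp_apply]
      ring)
    (fun s _ t => by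
      have h3 := ((hP'd _).hasDerivAt.comp t (hdt s t)).fun_mul (hΓd t)
      refine h3.congr_deriv ?_
      simp only [Function.comp_apply]
      ring)
    (hP.continuous.comp hfc).continuousOn cV1.continuousOn cV2.continuousOn
    (((hPcc.comp hfc).mul (hac.mul hcc)).add ((hPc.comp hfc).mul hΓ2)).continuousOn
    (fun s _ => by simp only [hΓ, eπ])
    (fun s _ => by simp only [ha, hΓ, eπ])
  refine st.trans ?_
  have z0 : ∫ t in (-π)..π, (conj (P (((0:ℝ) : ℂ) * Γ t)) *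
      (deriv P (((0:ℝ) : ℂ) * Γ t) * c (0, t))).im = 0 := by
    rw [← intervalIntegral.integral_zero (a := -π) (b := π)]
    apply intervalIntegral.integral_congr
    intro t _
    simp [hc]
  have z1 : ∫ t in (-π)..π, (conj (P (((1:ℝ) : ℂ) * Γ t)) *
      (deriv P (((1:ℝ) : ℂ) * Γ t) * c (1, t))).im = bd F P R := by
    unfold bd
    apply intervalIntegral.integral_congr
    intro t _
    simp only [hc, hΓ, hΓ', ofReal_one, one_mul]
    have e3 : ∀ x y : ℂ, (conj x * (y * I)).im = (conj x * y).re := by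
      intro x y
      simp only [mul_im, mul_re, I_re, I_im, conj_re, conj_im]; ring
    rw [← mul_assoc (deriv P _) _ I, e3]
  simp only
  rw [z0, z1]
  ring

/-- **Area principle**: the boundary form of an entire function is nonnegative -/
theorem area_principle (h : IsSig F b) {P : ℂ → ℂ} (hP : Differentiable ℂ P) {ρ : ℝ}
    (hρ : 1 < ρ) : 0 ≤ bd F P ρ := by
  obtain ⟨R0, hR0⟩ := h.good
  set R := max R0 (ρ + 1) with hRdef
  have g : Good F R := hR0 R (le_max_left _ _)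
  have hρR : ρ < R := by have := le_max_right R0 (ρ + 1); linarith
  have hRpos : 0 < R := by linarith
  have hnorm : ∀ t : ℝ, ‖(R : ℂ) * exp (t * I)‖ = R := by
    intro t
    rw [norm_mul, norm_exp_ofReal_mul_I, mul_one, norm_real, Real.norm_eq_abs, abs_of_pos hRpos]
  have hin := inner_area h hP hρ hρR.le
  obtain ⟨hint, hout⟩ := outer_area h hP g
  set S1 := (fun x : ℝ × ℝ => toR (F (exp (x.1 + x.2 * I)))) ''
      (Ioo (Real.log ρ) (Real.log R) ×ˢ Ioc (-π) π) with hS1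
  set S2 := (fun x : ℝ × ℝ => toR ((x.1 : ℂ) * F (R * exp (x.2 * I)))) ''
      (Ioo 0 1 ×ˢ Ioc (-π) π) with hS2
  have hsub : S1 ⊆ S2 ∪ {toR 0} := by
    rintro w ⟨x, hx, rfl⟩
    simp only
    have hxn : ‖exp ((x.1 : ℂ) + x.2 * I)‖ = Real.exp x.1 := by
      rw [norm_exp]; simp
    have hx1 : 1 < ‖exp ((x.1 : ℂ) + x.2 * I)‖ := by
      rw [hxn]
      have : 0 < x.1 := by have := hx.1.1; have := Real.log_pos hρ; linarith
      exact Real.one_lt_exp_iff.2 this
    have hxR : ‖exp ((x.1 : ℂ) + x.2 * I)‖ < R := by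
      rw [hxn]
      have := Real.exp_lt_exp.2 hx.1.2
      rwa [Real.exp_log hRpos] at this
    by_cases hw : F (exp ((x.1 : ℂ) + x.2 * I)) = 0
    · right
      rw [hw]; rfl
    · left
      obtain ⟨s, hs, t, ht, he⟩ := g.dir h _ hw
      refine ⟨(s, t), ⟨⟨hs, ?_⟩, ht⟩, by simp only; rw [← he]⟩
      by_contra hs1
      have hs1' : 1 ≤ s := not_lt.1 hs1
      obtain ⟨ζ, hζ2, hζ⟩ := g.surj _ s (hnorm t) hs1'
      have r := g.ray _ ζ s (hnorm t) hζ2 hs1' hζ
      have hζz : F ζ = F (exp ((x.1 : ℂ) + x.2 * I)) := by rw [hζ, he]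
      have hζ1 : 1 < ‖ζ‖ := by linarith
      have := h.inj hζ1 hx1 hζz
      rw [← this] at hxR
      linarith [r.1]
  have hle : (∫ w in S1, ‖deriv P (toC w)‖ ^ 2) ≤ ∫ w in S2, ‖deriv P (toC w)‖ ^ 2 := by
    apply setIntegral_mono_set hint
    · exact Eventually.of_forall fun w => by positivity
    · have h0 : (S2 ∪ {toR 0} : Set (ℝ × ℝ)) =ᵐ[volume] S2 := by
        exact union_ae_eq_left_of_ae_eq_empty (by
          rw [ae_eq_empty]; exact measure_singleton _)
      exact (LE.le.eventuallyLE hsub).trans h0.le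
  rw [hin, hout] at hle
  linarith

end Pool.Agent.H15.Sig
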