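import Mathlib

/-!
# The class Sigma: basic analytic facts

`IsSig F b` says that `F` is injective on the exterior of the closed unit disc and has the
expansion `z + sum over n of b n * z^(-n)` there, with `b 0 = 0`.
-/

open Complex Set Filter Topology Metric

namespace Pool.Agent.H15.Sig

structure IsSig (F : ℂ → ℂ) (b : ℕ → ℂ) : Prop where
  inj : Set.InjOn F {z : ℂ | 1 < ‖z‖}
  ser : ∀ z : ℂ, 1 < ‖z‖ → HasSum (fun n : ℕ => b n * z⁻¹ ^ n) (F z - z)
  b0 : b 0 = 0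

/-- the power series with coefficients `b` -/
noncomputable def pw (b : ℕ → ℂ) (u : ℂ) : ℂ := ∑' n, b n * u ^ n

variable {F : ℂ → ℂ} {b : ℕ → ℂ}

theorem IsSig.hasSum_pw (h : IsSig F b) {u : ℂ} (hu : ‖u‖ < 1) :
    HasSum (fun n : ℕ => b n * u ^ n) (pw b u) := by
  by_cases h0 : u = 0
  · subst h0
    have : Summable (fun n : ℕ => b n * (0:ℂ) ^ n) := by
      apply summable_of_ne_finset_zero (s := {0})
      intro n hn
      have : n ≠ 0 := by simpa using hn
      simp [this]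
    exact this.hasSum
  · have h1 : 1 < ‖u⁻¹‖ := by
      rw [norm_inv]
      exact (one_lt_inv₀ (norm_pos_iff.2 h0)).2 hu
    have := (h.ser _ h1).summable
    simp only [inv_inv] at this
    exact this.hasSum

theorem IsSig.pw_zero (h : IsSig F b) : pw b 0 = 0 := by
  have h1 : HasSum (fun n : ℕ => b n * (0:ℂ) ^ n) (b 0 * (0:ℂ)^0) :=
    hasSum_single 0 (by intro n hn; simp [hn])
  have h2 := h.hasSum_pw (u := 0) (by simp)
  have := h2.unique h1
  rw [this, h.b0]; simp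

theorem IsSig.eq_pw (h : IsSig F b) {z : ℂ} (hz : 1 < ‖z‖) : F z = z + pw b z⁻¹ := by
  have hu : ‖z⁻¹‖ < 1 := by
    rw [norm_inv]
    exact inv_lt_one_of_one_lt₀ hz
  have := (h.ser z hz).unique (h.hasSum_pw hu)
  rw [← this]; ring

/-- a power series summable at every point of the open unit disc has there an expansion -/
theorem hasFPowerSeriesOnBall_pw {b : ℕ → ℂ}
    (hb : ∀ u : ℂ, ‖u‖ < 1 → Summable (fun n : ℕ => b n * u ^ n)) :
    HasFPowerSeriesOnBall (pw b) (FormalMultilinearSeries.ofScalars ℂ b) 0 1 where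
  r_le := by
    refine ENNReal.le_of_forall_nnreal_lt fun r hr => ?_
    have hr1 : (r : ℝ) < 1 := by exact_mod_cast hr
    have hs := hb (r : ℂ) (by simpa using hr1)
    have ht := hs.tendsto_atTop_zero
    have ht2 : Tendsto (fun n : ℕ => ‖b n‖ * (r : ℝ) ^ n) atTop (𝓝 0) := by
      have := ht.norm
      simpa using this
    apply FormalMultilinearSeries.le_radius_of_tendsto (l := 0)
    refine ht2.congr fun n => ?_
    rw [FormalMultilinearSeries.ofScalars_norm]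
  r_pos := by norm_num
  hasSum := by
    intro y hy
    have hy1 : ‖y‖ < 1 := by
      have := hy
      rw [Metric.mem_eball, edist_zero_right] at this
      rw [← ofReal_norm] at this
      have h2 : ENNReal.ofReal ‖y‖ < ENNReal.ofReal 1 := by simpa using this
      exact (ENNReal.ofReal_lt_ofReal_iff (by norm_num)).1 h2
    have := (hb y hy1).hasSum
    rw [zero_add]
    have e : (fun n : ℕ => (FormalMultilinearSeries.ofScalars ℂ b n) fun _ => y) =
        fun n : ℕ => b n * y ^ n := by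
      funext n
      simp [smul_eq_mul, mul_comm]
    rw [e]
    exact this

theorem IsSig.fps (h : IsSig F b) :
    HasFPowerSeriesOnBall (pw b) (FormalMultilinearSeries.ofScalars ℂ b) 0 1 :=
  hasFPowerSeriesOnBall_pw fun _ hu => (h.hasSum_pw hu).summable

theorem pw_diffOn {b : ℕ → ℂ}
    (hb : ∀ u : ℂ, ‖u‖ < 1 → Summable (fun n : ℕ => b n * u ^ n)) :
    DifferentiableOn ℂ (pw b) (ball 0 1) := by
  have := (hasFPowerSeriesOnBall_pw hb).differentiableOn
  refine this.mono fun x hx => ?_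
  have h1 : ‖x‖ < 1 := by simpa using hx
  rw [Metric.mem_eball, edist_zero_right, ← ofReal_norm]
  simpa using (ENNReal.ofReal_lt_ofReal_iff (q := (1:ℝ)) (by norm_num)).2 h1

theorem IsSig.diffOn_pw (h : IsSig F b) : DifferentiableOn ℂ (pw b) (ball 0 1) :=
  pw_diffOn fun _ hu => (h.hasSum_pw hu).summable

theorem norm_inv_lt {z : ℂ} (hz : 1 < ‖z‖) : ‖z⁻¹‖ < 1 := by
  rw [norm_inv]; exact inv_lt_one_of_one_lt₀ hz

theorem ne_zero_of_one_lt {z : ℂ} (hz : 1 < ‖z‖) : z ≠ 0 := by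
  rintro rfl; simp at hz; linarith

theorem isOpen_ext : IsOpen {z : ℂ | 1 < ‖z‖} := isOpen_lt continuous_const continuous_norm

theorem IsSig.hasDerivAt_pw (h : IsSig F b) {u : ℂ} (hu : ‖u‖ < 1) :
    HasDerivAt (pw b) (deriv (pw b) u) u := by
  have : u ∈ ball (0:ℂ) 1 := by simpa using hu
  exact (h.diffOn_pw.differentiableAt (isOpen_ball.mem_nhds this)).hasDerivAt

theorem IsSig.hasDerivAt (h : IsSig F b) {z : ℂ} (hz : 1 < ‖z‖) :
    HasDerivAt F (1 + deriv (pw b) z⁻¹ * (-(z ^ 2)⁻¹)) z := by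
  have h1 : HasDerivAt (fun w : ℂ => w + pw b w⁻¹) (1 + deriv (pw b) z⁻¹ * (-(z ^ 2)⁻¹)) z := by
    refine (hasDerivAt_id z).add ?_
    exact (h.hasDerivAt_pw (norm_inv_lt hz)).comp z (hasDerivAt_inv (ne_zero_of_one_lt hz))
  refine h1.congr_of_eventuallyEq ?_
  filter_upwards [isOpen_ext.mem_nhds hz] with w hw
  exact h.eq_pw hw

theorem IsSig.differentiableAt (h : IsSig F b) {z : ℂ} (hz : 1 < ‖z‖) :
    DifferentiableAt ℂ F z := (h.hasDerivAt hz).differentiableAt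

theorem IsSig.diffOn (h : IsSig F b) : DifferentiableOn ℂ F {z : ℂ | 1 < ‖z‖} :=
  fun _ hz => (h.differentiableAt hz).differentiableWithinAt

/-- Lipschitz bound for the tail `F z - z` for large `z` -/
theorem IsSig.lipschitz (h : IsSig F b) : ∃ L : ℝ, 0 < L ∧
    (∀ z w : ℂ, 2 ≤ ‖z‖ → 2 ≤ ‖w‖ →
      ‖(F z - z) - (F w - w)‖ ≤ L * ‖z - w‖ / (‖z‖ * ‖w‖)) ∧
    (∀ z : ℂ, 2 ≤ ‖z‖ → ‖F z - z‖ ≤ L / ‖z‖) ∧
    (∀ z : ℂ, 2 ≤ ‖z‖ → ‖deriv F z - 1‖ ≤ L / ‖z‖ ^ 2) := by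
  have hcont : ContinuousOn (deriv (pw b)) (closedBall 0 (1/2)) := by
    have h1 : DifferentiableOn ℂ (deriv (pw b)) (ball 0 1) := h.diffOn_pw.deriv isOpen_ball
    exact h1.continuousOn.mono (closedBall_subset_ball (by norm_num))
  obtain ⟨L0, hL0⟩ := (isCompact_closedBall (0:ℂ) (1/2)).exists_bound_of_continuousOn hcont
  set L := |L0| + 1 with hL
  have hLpos : 0 < L := by positivity
  have hbd : ∀ x ∈ closedBall (0:ℂ) (1/2), ‖deriv (pw b) x‖ ≤ L := fun x hx =>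
    (hL0 x hx).trans (by rw [hL]; linarith [le_abs_self L0])
  have hlip : ∀ u ∈ closedBall (0:ℂ) (1/2), ∀ v ∈ closedBall (0:ℂ) (1/2),
      ‖pw b u - pw b v‖ ≤ L * ‖u - v‖ := by
    intro u hu v hv
    refine (convex_closedBall (0:ℂ) (1/2)).norm_image_sub_le_of_norm_hasDerivWithin_le
      (f' := deriv (pw b)) (fun x hx => ?_) hbd hv hu
    refine (h.hasDerivAt_pw ?_).hasDerivWithinAt
    have : ‖x‖ ≤ 1/2 := by simpa using hx
    linarith
  have hinv : ∀ z : ℂ, 2 ≤ ‖z‖ → z⁻¹ ∈ closedBall (0:ℂ) (1/2) := by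
    intro z hz
    rw [mem_closedBall_zero_iff, norm_inv, one_div]
    exact inv_anti₀ (by norm_num) hz
  refine ⟨L, hLpos, ?_, ?_, ?_⟩
  · intro z w hz hw
    have hz1 : 1 < ‖z‖ := by linarith
    have hw1 : 1 < ‖w‖ := by linarith
    rw [h.eq_pw hz1, h.eq_pw hw1]
    have := hlip _ (hinv z hz) _ (hinv w hw)
    have e : z⁻¹ - w⁻¹ = (w - z) / (z * w) := by
      field_simp [ne_zero_of_one_lt hz1, ne_zero_of_one_lt hw1]
    rw [e, norm_div, norm_mul, norm_sub_rev w z] at this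
    calc ‖z + pw b z⁻¹ - z - (w + pw b w⁻¹ - w)‖ = ‖pw b z⁻¹ - pw b w⁻¹‖ := by ring_nf
      _ ≤ _ := this
      _ = _ := by ring
  · intro z hz
    have hz1 : 1 < ‖z‖ := by linarith
    rw [h.eq_pw hz1]
    have := hlip _ (hinv z hz) 0 (by simp)
    rw [h.pw_zero, sub_zero, sub_zero, norm_inv] at this
    calc ‖z + pw b z⁻¹ - z‖ = ‖pw b z⁻¹‖ := by ring_nf
      _ ≤ _ := this
      _ = _ := by rw [div_eq_mul_inv]
  · intro z hz
    have hz1 : 1 < ‖z‖ := by linarith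
    rw [(h.hasDerivAt hz1).deriv]
    have := hbd _ (hinv z hz)
    calc ‖1 + deriv (pw b) z⁻¹ * (-(z ^ 2)⁻¹) - 1‖ = ‖deriv (pw b) z⁻¹ * (-(z ^ 2)⁻¹)‖ := by
          congr 1; ring
      _ = ‖deriv (pw b) z⁻¹‖ * (‖z‖ ^ 2)⁻¹ := by simp
      _ ≤ L * (‖z‖ ^ 2)⁻¹ := by gcongr
      _ = _ := by rw [div_eq_mul_inv]

end Pool.Agent.H15.Sig
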