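import Pool.Agent.H15.Sig.Even

/-!
# Chebyshev type recursion and its second order expansion
-/

open Complex Set Filter Topology MeasureTheory
open scoped ComplexConjugate Real

namespace Pool.Agent.H15.Sig

section ring
variable {R : Type*} [CommRing R]

/-- homogeneous Chebyshev recursion -/
def ch (s u : R) : ℕ → R
  | 0 => 2
  | 1 => s
  | (n + 2) => s * ch s u (n + 1) - u ^ 2 * ch s u n

def sg (u : R) (n : ℕ) : R := ∑ l ∈ Finset.range n, u ^ (2 * l)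

def er (e u : R) (n : ℕ) : R :=
  ch (1 + u ^ 2 + e) u n - (1 + u ^ (2 * n)) - n * sg u n * e

theorem ch_succ_succ (s u : R) (n : ℕ) :
    ch s u (n + 2) = s * ch s u (n + 1) - u ^ 2 * ch s u n := rfl

theorem ch_homog (s u l : R) : ∀ n : ℕ, ch (l * s) (l * u) n = l ^ n * ch s u n
  | 0 => by simp [ch]
  | 1 => by simp [ch]
  | (n + 2) => by
    rw [ch_succ_succ, ch_succ_succ, ch_homog s u l (n + 1), ch_homog s u l n]; ring

theorem sg_succ (u : R) (n : ℕ) : sg u (n + 1) = sg u n + u ^ (2 * n) := by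
  unfold sg; rw [Finset.sum_range_succ]

theorem sg_mul (u : R) (n : ℕ) : u ^ 2 * sg u n = sg u (n + 1) - 1 := by
  unfold sg
  rw [Finset.sum_range_succ', Finset.mul_sum]
  simp only [Nat.mul_zero, pow_zero, add_sub_cancel_right]
  exact Finset.sum_congr rfl fun l _ => by ring

theorem er_zero (e u : R) : er e u 0 = 0 := by
  unfold er; simp only [ch, Nat.mul_zero, pow_zero, Nat.cast_zero]; ring

theorem er_one (e u : R) : er e u 1 = 0 := by
  unfold er sg; simp [ch]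

theorem er_succ (e u : R) (n : ℕ) :
    er e u (n + 2) = (1 + u ^ 2 + e) * er e u (n + 1) - u ^ 2 * er e u n +
      (n + 1) * sg u (n + 1) * e ^ 2 := by
  unfold er
  rw [ch_succ_succ]
  have h1 := sg_mul u n
  have h2 := sg_mul u (n + 1)
  have h3 := sg_succ u (n + 1)
  have h4 := sg_succ u n
  push_cast
  have key : ((n : R) + 1 + 1) * sg u (n + 2) =
      (1 + u ^ (2 * (n + 1))) + (1 + u ^ 2) * ((n + 1) * sg u (n + 1)) - u ^ 2 * (n * sg u n) := by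
    have e1 : u ^ 2 * (n * sg u n) = n * (sg u (n + 1) - 1) := by rw [← h1]; ring
    have e2 : (1 + u ^ 2) * ((n + 1) * sg u (n + 1)) =
        (n + 1) * sg u (n + 1) + (n + 1) * (sg u (n + 1 + 1) - 1) := by rw [← h2]; ring
    rw [e1, e2]
    have h3' : sg u (n + 2) = sg u (n + 1) + u ^ (2 * (n + 1)) := h3
    rw [show sg u (n + 1 + 1) = sg u (n + 2) from rfl, h3']; ring
  linear_combination (-e) * key

end ring

theorem norm_sg_le {u : ℂ} (hu : ‖u‖ ≤ 1 / 2) (n : ℕ) : ‖sg u n‖ ≤ 4 / 3 := by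
  have h1 : ∀ n : ℕ, ‖sg u n‖ ≤ 4 / 3 * (1 - (1 / 4) ^ n) := by
    intro n
    induction n with
    | zero => simp [sg]
    | succ n ih =>
      rw [sg_succ]
      refine (norm_add_le _ _).trans ?_
      rw [norm_pow]
      have hu2 : ‖u‖ ^ 2 ≤ 1 / 4 := by
        have := pow_le_pow_left₀ (norm_nonneg _) hu 2
        linarith [this, (by norm_num : ((1:ℝ)/2)^2 = 1/4)]
      have h2 : (‖u‖ ^ 2) ^ n ≤ (1 / 4) ^ n := pow_le_pow_left₀ (by positivity) hu2 _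
      rw [pow_mul]
      have h3 : ((1:ℝ) / 4) ^ (n + 1) = (1 / 4) ^ n * (1 / 4) := pow_succ _ _
      rw [h3]
      linarith
  have h2 := h1 n
  have h3 : (0:ℝ) ≤ (1/4) ^ n := by positivity
  linarith

theorem norm_er_le {u e : ℂ} (hu : ‖u‖ ≤ 1 / 2) (he : ‖e‖ ≤ 1 / 2) :
    ∀ n : ℕ, ‖er e u n‖ ≤ 3 ^ n * ‖e‖ ^ 2
  | 0 => by rw [er_zero]; simp
  | 1 => by rw [er_one]; simp
  | (n + 2) => by
    have h1 := norm_er_le hu he (n + 1)
    have h0 := norm_er_le hu he n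
    rw [er_succ]
    have hu2 : ‖u‖ ^ 2 ≤ 1 / 4 := by
      have := pow_le_pow_left₀ (norm_nonneg _) hu 2
      linarith [this, (by norm_num : ((1:ℝ)/2)^2 = 1/4)]
    have a1 : ‖1 + u ^ 2 + e‖ ≤ 7 / 4 := by
      refine (norm_add_le _ _).trans ?_
      have := norm_add_le (1:ℂ) (u ^ 2)
      rw [norm_pow, norm_one] at this
      linarith
    have hs := norm_sg_le hu (n + 1)
    have a2 : ‖(1 + u ^ 2 + e) * er e u (n + 1)‖ ≤ 7 / 4 * (3 ^ (n + 1) * ‖e‖ ^ 2) := by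
      rw [norm_mul]; exact mul_le_mul a1 h1 (norm_nonneg _) (by norm_num)
    have a3 : ‖u ^ 2 * er e u n‖ ≤ 1 / 4 * (3 ^ n * ‖e‖ ^ 2) := by
      rw [norm_mul, norm_pow]; exact mul_le_mul hu2 h0 (norm_nonneg _) (by norm_num)
    have a4 : ‖((n : ℂ) + 1) * sg u (n + 1) * e ^ 2‖ ≤ (n + 1) * (4 / 3) * ‖e‖ ^ 2 := by
      rw [norm_mul, norm_mul, norm_pow]
      have : ‖(n : ℂ) + 1‖ = n + 1 := by
        rw [show (n : ℂ) + 1 = ((n + 1 : ℕ) : ℂ) by push_cast; ring, Complex.norm_natCast]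
        push_cast; ring
      rw [this]
      gcongr
    have a5 : ‖(1 + u ^ 2 + e) * er e u (n + 1) - u ^ 2 * er e u n +
        ((n : ℂ) + 1) * sg u (n + 1) * e ^ 2‖ ≤ 7 / 4 * (3 ^ (n + 1) * ‖e‖ ^ 2) +
        1 / 4 * (3 ^ n * ‖e‖ ^ 2) + (n + 1) * (4 / 3) * ‖e‖ ^ 2 := by
      refine (norm_add_le _ _).trans ?_
      have := norm_sub_le ((1 + u ^ 2 + e) * er e u (n + 1)) (u ^ 2 * er e u n)
      linarith
    refine a5.trans ?_
    have hb : (n : ℝ) + 1 ≤ 3 ^ n := by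
      have := one_add_mul_le_pow (a := (2:ℝ)) (by norm_num) n
      norm_num at this
      have hn : (0:ℝ) ≤ n := Nat.cast_nonneg n
      linarith
    have e0 : (0:ℝ) ≤ ‖e‖ ^ 2 := by positivity
    have : (7 / 4 * 3 ^ (n + 1) + 1 / 4 * 3 ^ n + (n + 1) * (4 / 3)) ≤ (3:ℝ) ^ (n + 2) := by
      rw [pow_succ, pow_add]
      norm_num
      nlinarith
    have := mul_le_mul_of_nonneg_right this e0
    linarith

theorem norm_dif_le {u e : ℂ} (hu : ‖u‖ ≤ 1 / 2) {d : ℝ} (hd0 : 0 ≤ d) (hd : d ≤ 1)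
    (he : ‖e‖ ≤ d / 2) {n : ℕ} (hn : 1 ≤ n) :
    ‖ch (1 + u ^ 2 + e) u n - (1 + u ^ (2 * n))‖ ≤ 3 ^ n * d := by
  have h1 := norm_er_le hu (he.trans (by linarith)) n
  have h2 : ch (1 + u ^ 2 + e) u n - (1 + u ^ (2 * n)) = er e u n + n * sg u n * e := by
    unfold er; ring
  rw [h2]
  refine (norm_add_le _ _).trans ?_
  rw [norm_mul, norm_mul, Complex.norm_natCast]
  have hs := norm_sg_le hu n
  have h3 : (n : ℝ) * ‖sg u n‖ * ‖e‖ ≤ n * (4 / 3) * (d / 2) := by gcongr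
  have h4 : 3 ^ n * ‖e‖ ^ 2 ≤ 3 ^ n * (d / 4) := by
    have : ‖e‖ ^ 2 ≤ (d / 2) ^ 2 := pow_le_pow_left₀ (norm_nonneg _) he 2
    have h5 : (d / 2) ^ 2 ≤ d / 4 := by nlinarith
    exact mul_le_mul_of_nonneg_left (this.trans h5) (by positivity)
  have hb : (n : ℝ) * (2 / 3) ≤ 3 ^ n * (3 / 4) := by
    have := one_add_mul_le_pow (a := (2:ℝ)) (by norm_num) n
    norm_num at this
    have hn : (0:ℝ) ≤ n := Nat.cast_nonneg n
    linarith
  nlinarith [mul_le_mul_of_nonneg_right hb hd0]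

end Pool.Agent.H15.Sig
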