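import Pool.Agent.H15.Sig.Series

/-!
# The Parseval identity on circles
-/

open Complex Set Filter Topology MeasureTheory
open scoped ComplexConjugate Real

namespace Pool.Agent.H15.Sig

/-- the point `exp (-it)` of the unit circle -/
noncomputable def ec (t : ℝ) : ℂ := exp (-(t * I))

theorem norm_ec (t : ℝ) : ‖ec t‖ = 1 := by
  unfold ec
  rw [show (-((t:ℂ) * I)) = ((-t : ℝ) : ℂ) * I by push_cast; ring, norm_exp_ofReal_mul_I]

theorem ec_ne_zero (t : ℝ) : ec t ≠ 0 := exp_ne_zero _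

theorem continuous_ec : Continuous ec := by unfold ec; fun_prop

theorem conj_ec (t : ℝ) : conj (ec t) = (ec t)⁻¹ := by
  unfold ec
  rw [← exp_conj, ← exp_neg]
  congr 1
  simp

theorem norm_mul_ec {x : ℝ} (hx0 : 0 ≤ x) (t : ℝ) : ‖(x : ℂ) * ec t‖ = x := by
  rw [norm_mul, norm_ec, mul_one, norm_real, Real.norm_eq_abs, abs_of_nonneg hx0]

theorem int_exp (k : ℤ) : ∫ t in (-π)..π, exp ((k : ℂ) * I * t) =
    if k = 0 then ((2 * π : ℝ) : ℂ) else 0 := by
  split_ifs with hk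
  · subst hk
    simp; ring
  · have hc : (k : ℂ) * I ≠ 0 := mul_ne_zero (by exact_mod_cast hk) I_ne_zero
    rw [integral_exp_mul_complex hc]
    have : exp ((k : ℂ) * I * (π : ℝ)) = exp ((k : ℂ) * I * ((-π : ℝ) : ℂ)) := by
      rw [exp_eq_exp_iff_exists_int]
      exact ⟨k, by push_cast; ring⟩
    rw [this, sub_self, zero_div]

theorem int_ec (k l : ℕ) : ∫ t in (-π)..π, conj (ec t ^ k) * ec t ^ l =
    if k = l then ((2 * π : ℝ) : ℂ) else 0 := by
  have e : ∀ t : ℝ, conj (ec t ^ k) * ec t ^ l = exp (((k - l : ℤ) : ℂ) * I * t) := by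
    intro t
    rw [map_pow, conj_ec]
    unfold ec
    rw [← exp_neg, ← exp_nat_mul, ← exp_nat_mul, ← exp_add]
    congr 1
    push_cast; ring
  simp_rw [e]
  rw [int_exp]
  by_cases h : k = l
  · simp [h]
  · rw [if_neg h, if_neg (by omega)]

theorem Rep.continuous_circle {f : PowerSeries ℂ} {G : ℂ → ℂ} (h : Rep f G) {x : ℝ}
    (hx0 : 0 ≤ x) (hx : x < 1) : Continuous fun t : ℝ => G (x * ec t) := by
  rw [continuous_iff_continuousAt]
  intro t
  have hu : ‖(x : ℂ) * ec t‖ < 1 := by rw [norm_mul_ec hx0]; exact hx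
  obtain ⟨D, hD, _⟩ := h.hasDerivAt hu
  have h1 : ContinuousAt (fun t : ℝ => (x : ℂ) * ec t) t :=
    (continuous_const.mul continuous_ec).continuousAt
  exact ContinuousAt.comp (f := fun t : ℝ => (x : ℂ) * ec t) hD.continuousAt h1

theorem Rep.hasSum_integral {f : PowerSeries ℂ} {G : ℂ → ℂ} (h : Rep f G) {x : ℝ}
    (hx0 : 0 ≤ x) (hx : x < 1) {W : ℝ → ℂ} (hW : Continuous W) :
    HasSum (fun k : ℕ => PowerSeries.coeff k f * x ^ k * ∫ t in (-π)..π, W t * ec t ^ k)
      (∫ t in (-π)..π, W t * G (x * ec t)) := by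
  have hs := h.norm_summable hx0 hx
  have key := intervalIntegral.hasSum_integral_of_dominated_convergence (μ := volume)
    (a := -π) (b := π) (F := fun (k : ℕ) (t : ℝ) => PowerSeries.coeff k f * x ^ k * (W t * ec t ^ k))
    (f := fun t => W t * G (x * ec t))
    (fun k t => ‖PowerSeries.coeff k f‖ * x ^ k * ‖W t‖)
    (fun k => ?_) (fun k => ?_) ?_ ?_ ?_
  · refine key.congr_fun ?_ |> fun h => h
    intro k
    exact (intervalIntegral.integral_const_mul _ _).symm
  · exact (continuous_const.mul (hW.mul (continuous_ec.pow k))).aestronglyMeasurable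
  · refine Eventually.of_forall fun t _ => ?_
    rw [norm_mul, norm_mul, norm_mul, norm_pow, norm_pow, norm_ec, one_pow, mul_one, norm_real,
      Real.norm_eq_abs, abs_of_nonneg hx0]
  · exact Eventually.of_forall fun t _ => hs.mul_right _
  · have : (fun t => ∑' k : ℕ, ‖PowerSeries.coeff k f‖ * x ^ k * ‖W t‖) =
        fun t => (∑' k : ℕ, ‖PowerSeries.coeff k f‖ * x ^ k) * ‖W t‖ := by
      funext t; rw [tsum_mul_right]
    rw [this]
    exact (continuous_const.mul hW.norm).intervalIntegrable _ _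
  · refine Eventually.of_forall fun t _ => ?_
    have hu : ‖(x : ℂ) * ec t‖ < 1 := by rw [norm_mul_ec hx0]; exact hx
    refine ((h _ hu).mul_left (W t)).congr_fun ?_ |> fun h => h
    intro k
    rw [mul_pow]; ring

theorem Rep.coeff_integral {f : PowerSeries ℂ} {G : ℂ → ℂ} (h : Rep f G) {x : ℝ}
    (hx0 : 0 ≤ x) (hx : x < 1) (k : ℕ) :
    ∫ t in (-π)..π, conj (ec t ^ k) * G (x * ec t) =
      2 * π * (PowerSeries.coeff k f * x ^ k) := by
  have h1 := h.hasSum_integral hx0 hx (W := fun t => conj (ec t ^ k))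
    (continuous_conj.comp (continuous_ec.pow k))
  have h2 : HasSum (fun l : ℕ => PowerSeries.coeff l f * x ^ l *
      ∫ t in (-π)..π, conj (ec t ^ k) * ec t ^ l)
      (PowerSeries.coeff k f * x ^ k * ∫ t in (-π)..π, conj (ec t ^ k) * ec t ^ k) := by
    apply hasSum_single
    intro l hl
    rw [int_ec, if_neg (Ne.symm hl), mul_zero]
  rw [h1.unique h2, int_ec, if_pos rfl]
  push_cast; ring

theorem Rep.coeff_integral_conj {f : PowerSeries ℂ} {G : ℂ → ℂ} (h : Rep f G) {x : ℝ}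
    (hx0 : 0 ≤ x) (hx : x < 1) (k : ℕ) :
    ∫ t in (-π)..π, conj (G (x * ec t)) * ec t ^ k =
      2 * π * (conj (PowerSeries.coeff k f) * x ^ k) := by
  have h1 := h.coeff_integral hx0 hx k
  have h2 := congrArg conj h1
  rw [intervalIntegral.integral_congr (g := fun t => conj (conj (ec t ^ k) * G (x * ec t)))
    (fun t _ => by simp [mul_comm])]
  have h3 : ∫ t in (-π)..π, conj (conj (ec t ^ k) * G (x * ec t)) =
      conj (∫ t in (-π)..π, conj (ec t ^ k) * G (x * ec t)) := by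
    have hle : (-π) ≤ π := by linarith [Real.pi_pos]
    rw [intervalIntegral.integral_of_le hle, intervalIntegral.integral_of_le hle, integral_conj]
  rw [h3, h2]
  rw [map_mul, map_mul, map_mul, map_pow, conj_ofReal, conj_ofReal, Complex.conj_ofNat]

/-- **Parseval identity** -/
theorem Rep.parseval {f g : PowerSeries ℂ} {G H : ℂ → ℂ} (hf : Rep f G) (hg : Rep g H) {x : ℝ}
    (hx0 : 0 ≤ x) (hx : x < 1) :
    HasSum (fun k : ℕ => 2 * π * (conj (PowerSeries.coeff k f) * PowerSeries.coeff k g) *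
      x ^ (2 * k)) (∫ t in (-π)..π, conj (G (x * ec t)) * H (x * ec t)) := by
  have hc : Continuous fun t : ℝ => conj (G (x * ec t)) :=
    continuous_conj.comp (hf.continuous_circle hx0 hx)
  have h1 := hg.hasSum_integral hx0 hx hc
  refine h1.congr_fun ?_ |> fun h => h
  intro k
  rw [hf.coeff_integral_conj hx0 hx]
  rw [two_mul k, pow_add]; ring

theorem Rep.parseval_self {f : PowerSeries ℂ} {G : ℂ → ℂ} (hf : Rep f G) {x : ℝ}
    (hx0 : 0 ≤ x) (hx : x < 1) :
    HasSum (fun k : ℕ => 2 * π * ‖PowerSeries.coeff k f‖ ^ 2 * x ^ (2 * k))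
      (∫ t in (-π)..π, ‖G (x * ec t)‖ ^ 2) := by
  have h1 := hf.parseval hf hx0 hx
  have h2 := hasSum_re h1
  have e : (∫ t in (-π)..π, conj (G (x * ec t)) * G (x * ec t)) =
      ((∫ t in (-π)..π, ‖G (x * ec t)‖ ^ 2 : ℝ) : ℂ) := by
    rw [← intervalIntegral.integral_ofReal]
    apply intervalIntegral.integral_congr
    intro t _
    simp only
    rw [Complex.conj_mul']; push_cast; rfl
  rw [e, ofReal_re] at h2
  refine h2.congr_fun ?_ |> fun h => h
  intro k
  rw [Complex.conj_mul']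
  have : (2 * (π:ℂ) * (‖PowerSeries.coeff k f‖ : ℂ) ^ 2 * (x : ℂ) ^ (2 * k)) =
    ((2 * π * ‖PowerSeries.coeff k f‖ ^ 2 * x ^ (2 * k) : ℝ) : ℂ) := by push_cast; ring
  rw [this, ofReal_re]

/-- Cauchy estimate -/
theorem Rep.coeff_le {f : PowerSeries ℂ} {G : ℂ → ℂ} (hf : Rep f G) {x M : ℝ}
    (hx0 : 0 ≤ x) (hx : x < 1) (hM : ∀ t : ℝ, ‖G (x * ec t)‖ ≤ M) (s : Finset ℕ) :
    ∑ k ∈ s, ‖PowerSeries.coeff k f‖ ^ 2 * x ^ (2 * k) ≤ M ^ 2 := by
  have h1 := hf.parseval_self hx0 hx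
  have h2 : ∑ k ∈ s, 2 * π * ‖PowerSeries.coeff k f‖ ^ 2 * x ^ (2 * k) ≤
      ∫ t in (-π)..π, ‖G (x * ec t)‖ ^ 2 := sum_le_hasSum s (fun k _ => by positivity) h1
  have h3 : ∫ t in (-π)..π, ‖G (x * ec t)‖ ^ 2 ≤ ∫ t in (-π)..π, M ^ 2 := by
    apply intervalIntegral.integral_mono_on (by linarith [Real.pi_pos])
    · exact ((hf.continuous_circle hx0 hx).norm.pow 2).intervalIntegrable _ _
    · exact continuous_const.intervalIntegrable _ _
    · intro t _
      exact pow_le_pow_left₀ (norm_nonneg _) (hM t) 2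
  rw [intervalIntegral.integral_const, smul_eq_mul] at h3
  have h4 : ∑ k ∈ s, 2 * π * ‖PowerSeries.coeff k f‖ ^ 2 * x ^ (2 * k) =
      2 * π * ∑ k ∈ s, ‖PowerSeries.coeff k f‖ ^ 2 * x ^ (2 * k) := by
    rw [Finset.mul_sum]; exact Finset.sum_congr rfl fun k _ => by ring
  have hπ : 0 < 2 * π := by positivity
  have h5 : 2 * π * ∑ k ∈ s, ‖PowerSeries.coeff k f‖ ^ 2 * x ^ (2 * k) ≤ 2 * π * M ^ 2 := by
    rw [← h4]; linarith
  exact le_of_mul_le_mul_left h5 hπ

end Pool.Agent.H15.Sig
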