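import Pool.Agent.H15.Sig.Area2
import Pool.Agent.H15.Sig.Parseval

/-!
# Coefficient form of the area principle
-/

open Complex Set Filter Topology MeasureTheory
open scoped ComplexConjugate Real

namespace Pool.Agent.H15.Sig

variable {F : ℂ → ℂ} {b : ℕ → ℂ}

/-- the power series `1 + u (b_0 + b_1 u + ...)` -/
noncomputable def sps (b : ℕ → ℂ) : PowerSeries ℂ := 1 + PowerSeries.X * PowerSeries.mk b

theorem IsSig.rep_pw (h : IsSig F b) : Rep (PowerSeries.mk b) (pw b) := by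
  intro u hu
  simpa using h.hasSum_pw hu

theorem IsSig.rep_sps (h : IsSig F b) : Rep (sps b) (fun u => 1 + u * pw b u) :=
  Rep.one.add (Rep.X.mul h.rep_pw)

theorem IsSig.eq_inv (h : IsSig F b) {u : ℂ} (hu : ‖u‖ < 1) (h0 : u ≠ 0) :
    F u⁻¹ = u⁻¹ * (1 + u * pw b u) := by
  have h1 : 1 < ‖u⁻¹‖ := by
    rw [norm_inv]
    exact (one_lt_inv₀ (norm_pos_iff.2 h0)).2 hu
  rw [h.eq_pw h1, inv_inv]
  field_simp

theorem IsSig.hasSum_bd (h : IsSig F b) {P : ℂ → ℂ} (hP : Differentiable ℂ P) {N : ℕ}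
    {f : PowerSeries ℂ} {G : ℂ → ℂ} (hf : Rep f G)
    (hG : ∀ u : ℂ, ‖u‖ < 1 → u ≠ 0 → P (F u⁻¹) = (u ^ N)⁻¹ * G u) {x : ℝ}
    (hx0 : 0 < x) (hx : x < 1) :
    HasSum (fun k : ℕ => 2 * π * ((N : ℝ) - k) * ‖PowerSeries.coeff k f‖ ^ 2 * x ^ (2 * k))
      (x ^ (2 * N) * bd F P x⁻¹) := by
  choose D hD using fun (u : {u : ℂ // ‖u‖ < 1}) => hf.hasDerivAt u.2
  set D' : ℂ → ℂ := fun u => if hu : ‖u‖ < 1 then D ⟨u, hu⟩ else 0 with hD'
  have hD1 : ∀ u : ℂ, ‖u‖ < 1 → HasDerivAt G (D' u) u := by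
    intro u hu; rw [hD']; simp only [dif_pos hu]; exact (hD ⟨u, hu⟩).1
  have hD2 : ∀ u : ℂ, ‖u‖ < 1 → HasSum (fun k : ℕ => (k : ℂ) * PowerSeries.coeff k f * u ^ k)
      (D' u * u) := by
    intro u hu; rw [hD']; simp only [dif_pos hu]; exact (hD ⟨u, hu⟩).2
  set f2 : PowerSeries ℂ := PowerSeries.mk fun k => ((N : ℂ) - k) * PowerSeries.coeff k f with hf2
  have hr2 : Rep f2 (fun u => N * G u - D' u * u) := by
    intro u hu
    refine (((hf u hu).mul_left (N : ℂ)).sub (hD2 u hu)).congr_fun ?_ |> fun h => h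
    intro k
    rw [hf2, PowerSeries.coeff_mk]; ring
  have hp := hasSum_re (hf.parseval hr2 hx0.le hx)
  have e1 : ∀ k : ℕ, (2 * π * (conj (PowerSeries.coeff k f) * PowerSeries.coeff k f2) *
      (x : ℂ) ^ (2 * k)).re = 2 * π * ((N : ℝ) - k) * ‖PowerSeries.coeff k f‖ ^ 2 * x ^ (2 * k) := by
    intro k
    rw [hf2, PowerSeries.coeff_mk]
    have : 2 * (π:ℂ) * (conj (PowerSeries.coeff k f) *
        (((N : ℂ) - k) * PowerSeries.coeff k f)) * (x : ℂ) ^ (2 * k) =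
        2 * (π:ℂ) * ((N : ℂ) - k) * (conj (PowerSeries.coeff k f) * PowerSeries.coeff k f) *
        (x : ℂ) ^ (2 * k) := by ring
    rw [this, Complex.conj_mul']
    have e : 2 * (π:ℂ) * ((N : ℂ) - k) * (‖PowerSeries.coeff k f‖ : ℂ) ^ 2 * (x : ℂ) ^ (2 * k) =
      ((2 * π * ((N : ℝ) - k) * ‖PowerSeries.coeff k f‖ ^ 2 * x ^ (2 * k) : ℝ) : ℂ) := by
      push_cast; ring
    rw [e, ofReal_re]
  have e2 : (∫ t in (-π)..π, conj (G (x * ec t)) * (N * G (x * ec t) - D' (x * ec t) * (x * ec t))).re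
      = x ^ (2 * N) * bd F P x⁻¹ := by
    have hc : Continuous fun t : ℝ =>
        conj (G (x * ec t)) * (N * G (x * ec t) - D' (x * ec t) * (x * ec t)) :=
      (continuous_conj.comp (hf.continuous_circle hx0.le hx)).mul (hr2.continuous_circle hx0.le hx)
    have h3 := (Complex.reCLM.intervalIntegral_comp_comm
      (hc.intervalIntegrable (μ := volume) (-π) π))
    simp only [Complex.reCLM_apply] at h3
    rw [← h3]
    unfold bd
    rw [← intervalIntegral.integral_const_mul]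
    apply intervalIntegral.integral_congr
    intro t _
    simp only
    set u : ℂ := x * ec t with hu
    have hun : ‖u‖ = x := norm_mul_ec hx0.le t
    have hu1 : ‖u‖ < 1 := by rw [hun]; exact hx
    have hu0 : u ≠ 0 := by
      rw [← norm_pos_iff, hun]; exact hx0
    have hz : ((x⁻¹ : ℝ) : ℂ) * exp (t * I) = u⁻¹ := by
      rw [hu, mul_inv, ofReal_inv]
      congr 1
      unfold ec
      rw [← exp_neg, neg_neg]
    rw [hz]
    have hz1 : 1 < ‖u⁻¹‖ := by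
      rw [norm_inv, hun]
      exact (one_lt_inv₀ hx0).2 hx
    -- derivative identity
    have hV1 : HasDerivAt (fun z => P (F z)) (deriv P (F u⁻¹) * deriv F u⁻¹) u⁻¹ :=
      (hP _).hasDerivAt.comp _ (h.differentiableAt hz1).hasDerivAt
    have hV2 : HasDerivAt (fun z : ℂ => z ^ N * G z⁻¹)
        ((N : ℂ) * (u⁻¹) ^ (N - 1) * G (u⁻¹)⁻¹ +
          (u⁻¹) ^ N * (D' (u⁻¹)⁻¹ * (-((u⁻¹) ^ 2)⁻¹))) u⁻¹ := by
      refine (hasDerivAt_pow N _).mul ?_
      have : HasDerivAt G (D' (u⁻¹)⁻¹) (u⁻¹)⁻¹ := by rw [inv_inv]; exact hD1 u hu1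
      exact this.comp u⁻¹ (hasDerivAt_inv (inv_ne_zero hu0))
    have hVeq : (fun z => P (F z)) =ᶠ[𝓝 u⁻¹] fun z : ℂ => z ^ N * G z⁻¹ := by
      filter_upwards [isOpen_ext.mem_nhds hz1] with z hz
      have h4 := hG z⁻¹ (norm_inv_lt hz) (inv_ne_zero (ne_zero_of_one_lt hz))
      rw [inv_inv] at h4
      rw [h4, inv_pow, inv_inv]
    have hV3 := hV1.unique (hV2.congr_of_eventuallyEq hVeq)
    rw [inv_inv] at hV3
    have h5 : deriv P (F u⁻¹) * (deriv F u⁻¹ * u⁻¹) = (u ^ N)⁻¹ * (N * G u - D' u * u) := by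
      rw [← mul_assoc, hV3]
      rcases Nat.eq_zero_or_pos N with rfl | hN
      · simp
        field_simp
      · obtain ⟨m, rfl⟩ : ∃ m, N = m + 1 := ⟨N - 1, by omega⟩
        rw [Nat.add_sub_cancel]
        simp only [inv_pow]
        field_simp
        try ring
    rw [h5, hG u hu1 hu0]
    rw [map_mul]
    have h6 : conj ((u ^ N)⁻¹) * conj (G u) * ((u ^ N)⁻¹ * (↑N * G u - D' u * u)) =
        ((((x ^ (2 * N))⁻¹ : ℝ)) : ℂ) * (conj (G u) * (N * G u - D' u * u)) := by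
      have h7 : conj ((u ^ N)⁻¹) * ((u ^ N)⁻¹) = (((x ^ (2 * N))⁻¹ : ℝ) : ℂ) := by
        rw [Complex.conj_mul', norm_inv, norm_pow, hun, pow_mul' x 2 N]
        push_cast
        rw [inv_pow]
      rw [← h7]; ring
    rw [h6, re_ofReal_mul]
    field_simp
  rw [e2] at hp
  refine hp.congr_fun ?_ |> fun h => h
  intro k
  exact (e1 k).symm

/-- coefficient form of the area principle -/
theorem IsSig.area_coeff (h : IsSig F b) {P : ℂ → ℂ} (hP : Differentiable ℂ P) {N : ℕ}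
    {f : PowerSeries ℂ} {G : ℂ → ℂ} (hf : Rep f G)
    (hG : ∀ u : ℂ, ‖u‖ < 1 → u ≠ 0 → P (F u⁻¹) = (u ^ N)⁻¹ * G u) {M : ℕ} (hM : N ≤ M) :
    ∑ k ∈ Finset.range (M + 1), ((k : ℝ) - N) * ‖PowerSeries.coeff k f‖ ^ 2 ≤ 0 := by
  have key : ∀ x : ℝ, 0 < x → x < 1 →
      ∑ k ∈ Finset.range (M + 1), ((k : ℝ) - N) * ‖PowerSeries.coeff k f‖ ^ 2 * x ^ (2 * k) ≤ 0 := by
    intro x hx0 hx
    have h1 := h.hasSum_bd hP hf hG hx0 hx
    have h2 : 0 ≤ x ^ (2 * N) * bd F P x⁻¹ :=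
      mul_nonneg (by positivity) (area_principle h hP ((one_lt_inv₀ hx0).2 hx))
    have h3 := sum_le_hasSum (Finset.range (M + 1)) (f := fun k : ℕ =>
      -(2 * π * ((N : ℝ) - k) * ‖PowerSeries.coeff k f‖ ^ 2 * x ^ (2 * k))) (fun k hk => ?_) h1.neg
    · have h4 : ∑ k ∈ Finset.range (M + 1),
          -(2 * π * ((N : ℝ) - k) * ‖PowerSeries.coeff k f‖ ^ 2 * x ^ (2 * k)) =
          2 * π * ∑ k ∈ Finset.range (M + 1),
            ((k : ℝ) - N) * ‖PowerSeries.coeff k f‖ ^ 2 * x ^ (2 * k) := by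
        rw [Finset.mul_sum]; exact Finset.sum_congr rfl fun k _ => by ring
      rw [h4] at h3
      have hπ : 0 < 2 * π := by positivity
      by_contra hcon
      push Not at hcon
      have := mul_pos hπ hcon
      linarith
    · have hk' : M < k := by
        have := Finset.mem_range.not.1 hk; omega
      have : (N : ℝ) ≤ k := by exact_mod_cast (by omega : N ≤ k)
      have h5 : 0 ≤ ((k : ℝ) - N) * (2 * π * ‖PowerSeries.coeff k f‖ ^ 2 * x ^ (2 * k)) :=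
        mul_nonneg (by linarith) (by positivity)
      nlinarith
  have hc : Continuous fun x : ℝ =>
      ∑ k ∈ Finset.range (M + 1), ((k : ℝ) - N) * ‖PowerSeries.coeff k f‖ ^ 2 * x ^ (2 * k) := by
    fun_prop
  have ht : Tendsto (fun x : ℝ =>
      ∑ k ∈ Finset.range (M + 1), ((k : ℝ) - N) * ‖PowerSeries.coeff k f‖ ^ 2 * x ^ (2 * k))
      (𝓝[<] 1) (𝓝 (∑ k ∈ Finset.range (M + 1),
        ((k : ℝ) - N) * ‖PowerSeries.coeff k f‖ ^ 2 * (1:ℝ) ^ (2 * k))) :=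
    (hc.tendsto 1).mono_left nhdsWithin_le_nhds
  have := le_of_tendsto ht (by
    have h0 : ∀ᶠ x : ℝ in 𝓝[<] 1, 0 < x :=
      (lt_mem_nhds (by norm_num : (0:ℝ) < 1)).filter_mono nhdsWithin_le_nhds
    filter_upwards [h0, self_mem_nhdsWithin] with x hx0 hx
    exact key x hx0 hx)
  simpa using this

end Pool.Agent.H15.Sig
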