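import Pool.Agent.H15.Sig.Mom

/-!
# Concentration of the weight `|1 + X e^{2it}|^{2p}`
-/

open Complex Set Filter Topology MeasureTheory
open scoped ComplexConjugate Real

namespace Pool.Agent.H15.Sig

theorem integral_period_pi {f : ℝ → ℝ} (hf : Function.Periodic f π) (hc : Continuous f) :
    ∫ t in (-π)..π, f t = 2 * ∫ t in (-(π / 2))..(π / 2), f t := by
  rw [← intervalIntegral.integral_add_adjacent_intervals (b := 0)
    (hc.intervalIntegrable _ _) (hc.intervalIntegrable _ _)]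
  have h1 := hf.intervalIntegral_add_eq (-π) (-(π / 2))
  have h2 := hf.intervalIntegral_add_eq 0 (-(π / 2))
  rw [show -π + π = 0 by ring, show -(π / 2) + π = π / 2 by ring] at h1
  rw [show (0:ℝ) + π = π by ring, show -(π / 2) + π = π / 2 by ring] at h2
  rw [h1, h2]; ring

theorem sin_sq_scale {t : ℝ} (ht : |t| ≤ π / 2) :
    Real.sin (√2 / π * t) ^ 2 ≤ Real.sin t ^ 2 / 2 := by
  have hπ := Real.pi_pos
  have h1 : Real.sin (√2 / π * t) ^ 2 ≤ (√2 / π * t) ^ 2 := by
    have := Real.abs_sin_le_abs (x := √2 / π * t)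
    exact sq_le_sq.2 this
  have h2 : (2 / π * |t|) ^ 2 ≤ Real.sin t ^ 2 := by
    have h3 := Real.mul_le_sin (abs_nonneg t) ht
    have h4 : Real.sin |t| ^ 2 = Real.sin t ^ 2 := by
      rcases abs_cases t with h | h
      · rw [h.1]
      · rw [h.1, Real.sin_neg]; ring
    rw [← h4]
    exact pow_le_pow_left₀ (by positivity) h3 2
  have h5 : (√2 / π * t) ^ 2 = (2 / π * |t|) ^ 2 / 2 := by
    rw [mul_pow, mul_pow, div_pow, div_pow, sq_abs, Real.sq_sqrt (by norm_num)]
    ring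
  rw [h5] at h1
  linarith

theorem one_sub_mul_exp_le {y : ℝ} (hy1 : y ≤ 1) :
    (1 - y) * Real.exp (y / 2) ≤ 1 - y / 2 := by
  have h1 : Real.exp (y / 2) * (1 - y / 2) ≤ 1 := by
    have h2 : 1 - y / 2 ≤ Real.exp (-(y / 2)) := by
      have := Real.add_one_le_exp (-(y / 2)); linarith
    have h3 := mul_le_mul_of_nonneg_left h2 (Real.exp_pos (y / 2)).le
    rwa [← Real.exp_add, add_neg_cancel, Real.exp_zero] at h3
  have hpos : 0 < 1 - y / 2 := by linarith
  have h4 : (1 - y) * Real.exp (y / 2) ≤ (1 - y / 2) ^ 2 * Real.exp (y / 2) := by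
    apply mul_le_mul_of_nonneg_right _ (Real.exp_pos _).le
    nlinarith [sq_nonneg y]
  nlinarith

theorem conc_base {k p : ℝ} (hk0 : 0 ≤ k) (hk : k < 1) (hp : 0 < p) :
    ∫ t in (-π)..π, (1 - k * Real.sin t ^ 2) ^ p * Real.exp (p * k / 2 * Real.sin t ^ 2) ≤
      (π / √2) * ∫ t in (-π)..π, (1 - k * Real.sin t ^ 2) ^ p := by
  have hπ := Real.pi_pos
  have hpos : ∀ t : ℝ, 0 < 1 - k * Real.sin t ^ 2 := by
    intro t
    have := Real.sin_sq_le_one t
    nlinarith [sq_nonneg (Real.sin t)]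
  have hgc : Continuous fun t : ℝ => (1 - k * Real.sin t ^ 2) ^ p := by
    apply Continuous.rpow_const (by fun_prop)
    intro t; left; exact (hpos t).ne'
  have hfc : Continuous fun t : ℝ =>
      (1 - k * Real.sin t ^ 2) ^ p * Real.exp (p * k / 2 * Real.sin t ^ 2) :=
    hgc.mul (by fun_prop)
  have hsin : ∀ t : ℝ, Real.sin (t + π) ^ 2 = Real.sin t ^ 2 := by
    intro t; rw [Real.sin_add_pi]; ring
  rw [integral_period_pi (by intro t; simp only [hsin]) hfc,
    integral_period_pi (by intro t; simp only [hsin]) hgc]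
  have hc : 0 < √2 / π := by positivity
  have h1 : ∫ t in (-(π / 2))..(π / 2),
      (1 - k * Real.sin t ^ 2) ^ p * Real.exp (p * k / 2 * Real.sin t ^ 2) ≤
      ∫ t in (-(π / 2))..(π / 2), (1 - k * Real.sin (√2 / π * t) ^ 2) ^ p := by
    apply intervalIntegral.integral_mono_on (by linarith) (hfc.intervalIntegrable _ _)
    · apply Continuous.intervalIntegrable
      exact hgc.comp (continuous_const.mul continuous_id)
    · intro t ht
      have ht' : |t| ≤ π / 2 := abs_le.2 ht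
      have hs := sin_sq_scale ht'
      have e1 : Real.exp (p * k / 2 * Real.sin t ^ 2) =
          (Real.exp (k * Real.sin t ^ 2 / 2)) ^ p := by
        rw [← Real.exp_mul]; congr 1; ring
      rw [e1, ← Real.mul_rpow (hpos t).le (Real.exp_pos _).le]
      apply Real.rpow_le_rpow (mul_nonneg (hpos t).le (Real.exp_pos _).le) _ hp.le
      refine (one_sub_mul_exp_le (by linarith [hpos t])).trans ?_
      nlinarith
  have h2 : ∫ t in (-(π / 2))..(π / 2), (1 - k * Real.sin (√2 / π * t) ^ 2) ^ p =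
      (π / √2) * ∫ t in (-(√2 / 2))..(√2 / 2), (1 - k * Real.sin t ^ 2) ^ p := by
    rw [intervalIntegral.integral_comp_mul_left (fun t => (1 - k * Real.sin t ^ 2) ^ p) hc.ne',
      smul_eq_mul]
    have e1 : √2 / π * -(π / 2) = -(√2 / 2) := by field_simp
    have e2 : √2 / π * (π / 2) = √2 / 2 := by field_simp
    rw [e1, e2, inv_div]
  have h3 : ∫ t in (-(√2 / 2))..(√2 / 2), (1 - k * Real.sin t ^ 2) ^ p ≤
      ∫ t in (-(π / 2))..(π / 2), (1 - k * Real.sin t ^ 2) ^ p := by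
    have hs2 : √2 / 2 ≤ π / 2 := by
      have : √2 ≤ 2 := by
        rw [Real.sqrt_le_left (by norm_num)]; norm_num
      have := Real.pi_gt_three
      linarith
    have hs0 : 0 ≤ √2 := Real.sqrt_nonneg 2
    apply intervalIntegral.integral_mono_interval (by linarith) (by linarith) hs2
    · exact Eventually.of_forall fun t => Real.rpow_nonneg (hpos t).le p
    · exact hgc.intervalIntegrable _ _
  have h4 : 0 ≤ π / √2 := by positivity
  have h5 := mul_le_mul_of_nonneg_left h3 h4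
  rw [h2] at h1
  nlinarith

/-- functions equimeasurable with `sin ^ 2` -/
structure SF (s : ℝ → ℝ) : Prop where
  cont : Continuous s
  even : ∀ t, s (-t) = s t
  nonneg : ∀ t, 0 ≤ s t
  le_one : ∀ t, s t ≤ 1
  eqm : ∀ φ : ℝ → ℝ, ∫ t in (-π)..π, φ (s t) = ∫ t in (-π)..π, φ (Real.sin t ^ 2)

theorem SF_sin : SF (fun t => Real.sin t ^ 2) where
  cont := by fun_prop
  even := fun t => by simp
  nonneg := fun t => by positivity
  le_one := fun t => Real.sin_sq_le_one t
  eqm := fun _ => rfl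

theorem SF_cos : SF (fun t => Real.cos t ^ 2) where
  cont := by fun_prop
  even := fun t => by simp
  nonneg := fun t => by positivity
  le_one := fun t => Real.cos_sq_le_one t
  eqm := fun φ => integral_sin_sq_eq φ

/-- the weight -/
noncomputable def Dw (s : ℝ → ℝ) (y t : ℝ) : ℝ := (1 + y) ^ 2 - 4 * y * s t

variable {s : ℝ → ℝ}

theorem SF.Dw_ge (hs : SF s) {y : ℝ} (hy0 : 0 ≤ y) (t : ℝ) : (1 - y) ^ 2 ≤ Dw s y t := by
  unfold Dw
  have := hs.le_one t
  nlinarith

theorem SF.Dw_le (hs : SF s) {y : ℝ} (hy0 : 0 ≤ y) (t : ℝ) : Dw s y t ≤ (1 + y) ^ 2 := by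
  unfold Dw
  have := hs.nonneg t
  nlinarith

theorem SF.Dw_pos (hs : SF s) {y : ℝ} (hy0 : 0 ≤ y) (hy : y < 1) (t : ℝ) : 0 < Dw s y t :=
  lt_of_lt_of_le (by nlinarith) (hs.Dw_ge hy0 t)

theorem SF.cont_Dw (hs : SF s) {y p : ℝ} (hy0 : 0 ≤ y) (hy : y < 1) :
    Continuous fun t => (Dw s y t) ^ p := by
  apply Continuous.rpow_const
  · unfold Dw
    have := hs.cont
    fun_prop
  · intro t; left; exact (hs.Dw_pos hy0 hy t).ne'

theorem SF.int_Dw (hs : SF s) {y p : ℝ} (hy0 : 0 ≤ y) (hy : y < 1) :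
    ∫ t in (-π)..π, (Dw s y t) ^ p = Mo p y := by
  rw [← Mo_eq_sin p y (by rw [abs_of_nonneg hy0]; exact hy)]
  exact hs.eqm (fun w => ((1 + y) ^ 2 - 4 * y * w) ^ p)

theorem SF.conc (hs : SF s) {p X a : ℝ} (hp : 0 < p) (hX0 : 0 < X) (hX : X < 1) (ha0 : 0 ≤ a)
    (ha : a ≤ 2 * p * X / (1 + X) ^ 2) :
    ∫ t in (-π)..π, (Dw s X t) ^ p * Real.exp (a * s t) ≤
      Real.exp (5 / 4 * (a / (2 * p * X / (1 + X) ^ 2))) * Mo p X := by
  set κ := 2 * p * X / (1 + X) ^ 2 with hκ
  have hκ0 : 0 < κ := by positivity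
  set θ := a / κ with hθ
  have hθ0 : 0 ≤ θ := by positivity
  have hθ1 : θ ≤ 1 := by rw [hθ, div_le_one hκ0]; exact ha
  have haθ : a = θ * κ := by rw [hθ]; field_simp
  set k := 4 * X / (1 + X) ^ 2 with hk
  have hk0 : 0 ≤ k := by positivity
  have hk1 : k < 1 := by rw [hk, div_lt_one (by positivity)]; nlinarith [sq_nonneg (1 - X), mul_pos (sub_pos.2 hX) (sub_pos.2 hX)]
  have hfull : ∫ t in (-π)..π, (Dw s X t) ^ p * Real.exp (κ * s t) ≤ (π / √2) * Mo p X := by
    have e1 := hs.eqm (fun w => ((1 + X) ^ 2 - 4 * X * w) ^ p * Real.exp (κ * w))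
    have e2 : ∫ t in (-π)..π, (Dw s X t) ^ p * Real.exp (κ * s t) =
        ∫ t in (-π)..π, ((1 + X) ^ 2 - 4 * X * Real.sin t ^ 2) ^ p *
          Real.exp (κ * Real.sin t ^ 2) := e1
    rw [e2, ← Mo_eq_sin p X (by rw [abs_of_pos hX0]; exact hX)]
    have e3 : ∀ t : ℝ, ((1 + X) ^ 2 - 4 * X * Real.sin t ^ 2) ^ p =
        ((1 + X) ^ 2) ^ p * (1 - k * Real.sin t ^ 2) ^ p := by
      intro t
      have : 0 ≤ 1 - k * Real.sin t ^ 2 := by
        have := Real.sin_sq_le_one t
        nlinarith [sq_nonneg (Real.sin t)]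
      rw [← Real.mul_rpow (by positivity) this]
      congr 1
      rw [hk]; field_simp
    have e4 : p * k / 2 = κ := by rw [hk, hκ]; ring
    have hb := conc_base hk0 hk1 hp
    rw [e4] at hb
    have hc0 : 0 ≤ ((1 + X) ^ 2) ^ p := by positivity
    have hb2 := mul_le_mul_of_nonneg_left hb hc0
    simp_rw [e3, mul_assoc]
    rw [intervalIntegral.integral_const_mul, intervalIntegral.integral_const_mul]
    linarith
  have hexp : ∀ t, Real.exp (a * s t) ≤ (1 - θ) + θ * Real.exp (κ * s t) := by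
    intro t
    have hcv := convexOn_exp.2 (mem_univ (0:ℝ)) (mem_univ (κ * s t)) (sub_nonneg.2 hθ1) hθ0
      (by ring)
    simp only [smul_eq_mul, mul_zero, zero_add, Real.exp_zero, mul_one] at hcv
    rw [haθ]
    refine le_trans (le_of_eq ?_) hcv
    congr 1; ring
  have hcD := hs.cont_Dw (p := p) hX0.le hX
  have hsc := hs.cont
  have h1 : ∫ t in (-π)..π, (Dw s X t) ^ p * Real.exp (a * s t) ≤
      ∫ t in (-π)..π, ((1 - θ) * (Dw s X t) ^ p + θ * ((Dw s X t) ^ p * Real.exp (κ * s t))) := by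
    apply intervalIntegral.integral_mono_on (by linarith [Real.pi_pos])
    · exact (hcD.mul (by fun_prop)).intervalIntegrable _ _
    · exact ((continuous_const.mul hcD).add (continuous_const.mul
        (hcD.mul (by fun_prop)))).intervalIntegrable _ _
    · intro t _
      have h2 : 0 ≤ (Dw s X t) ^ p := Real.rpow_nonneg (hs.Dw_pos hX0.le hX t).le p
      have := mul_le_mul_of_nonneg_left (hexp t) h2
      linarith
  have hA : Continuous fun t => (1 - θ) * (Dw s X t) ^ p := continuous_const.mul hcD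
  have hE : Continuous fun t => Real.exp (κ * s t) := by fun_prop
  have hB : Continuous fun t => θ * ((Dw s X t) ^ p * Real.exp (κ * s t)) :=
    continuous_const.mul (hcD.mul hE)
  rw [intervalIntegral.integral_add (hA.intervalIntegrable _ _) (hB.intervalIntegrable _ _),
    intervalIntegral.integral_const_mul, intervalIntegral.integral_const_mul,
    hs.int_Dw hX0.le hX] at h1
  have hM0 : 0 ≤ Mo p X := by
    rw [← hs.int_Dw hX0.le hX]
    exact intervalIntegral.integral_nonneg (by linarith [Real.pi_pos]) fun t _ =>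
      Real.rpow_nonneg (hs.Dw_pos hX0.le hX t).le p
  have hC : π / √2 ≤ 9 / 4 := by
    rw [div_le_iff₀ (by positivity)]
    have h2 : (1.41 : ℝ) ≤ √2 := by
      apply Real.le_sqrt_of_sq_le; norm_num
    have := Real.pi_lt_d2
    nlinarith
  have h3 : (1 - θ) * Mo p X + θ * ((π / √2) * Mo p X) ≤ (1 + 5 / 4 * θ) * Mo p X := by
    have : θ * ((π / √2) * Mo p X) ≤ θ * (9 / 4 * Mo p X) :=
      mul_le_mul_of_nonneg_left (mul_le_mul_of_nonneg_right hC hM0) hθ0
    linarith
  have h4 : (1 + 5 / 4 * θ) ≤ Real.exp (5 / 4 * θ) := by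
    have := Real.add_one_le_exp (5 / 4 * θ); linarith
  have h5 := mul_le_mul_of_nonneg_left hfull hθ0
  calc ∫ t in (-π)..π, (Dw s X t) ^ p * Real.exp (a * s t)
      ≤ (1 - θ) * Mo p X + θ * ((π / √2) * Mo p X) := by linarith
    _ ≤ (1 + 5 / 4 * θ) * Mo p X := h3
    _ ≤ _ := mul_le_mul_of_nonneg_right h4 hM0

end Pool.Agent.H15.Sig
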