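import Pool.Agent.H15.Sig.Coeff

/-!
# Coefficient bounds and the even moments 2, 4, 6
-/

open Complex Set Filter Topology MeasureTheory
open scoped ComplexConjugate Real

namespace Pool.Agent.H15.Sig

variable {F : ℂ → ℂ} {b : ℕ → ℂ}

theorem coeff_sps_zero : PowerSeries.coeff 0 (sps b) = 1 := by
  simp [sps]

theorem coeff_sps_succ (k : ℕ) : PowerSeries.coeff (k + 1) (sps b) = b k := by
  simp [sps, PowerSeries.coeff_one, PowerSeries.coeff_succ_X_mul]

theorem coeff_sps_one (hb : b 0 = 0) : PowerSeries.coeff 1 (sps b) = 0 := by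
  rw [coeff_sps_succ, hb]

theorem coeff_mul_range (f g : PowerSeries ℂ) (n : ℕ) : PowerSeries.coeff n (f * g) =
    ∑ i ∈ Finset.range (n + 1), PowerSeries.coeff i f * PowerSeries.coeff (n - i) g := by
  rw [PowerSeries.coeff_mul]
  exact Finset.Nat.sum_antidiagonal_eq_sum_range_succ
    (fun i j => PowerSeries.coeff i f * PowerSeries.coeff j g) n

theorem sps_c1 (hb : b 0 = 0) : PowerSeries.coeff 1 (sps b) = 0 := by rw [coeff_sps_succ, hb]
theorem sps_c2 : PowerSeries.coeff 2 (sps b) = b 1 := coeff_sps_succ 1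
theorem sps_c3 : PowerSeries.coeff 3 (sps b) = b 2 := coeff_sps_succ 2
theorem sps_c4 : PowerSeries.coeff 4 (sps b) = b 3 := coeff_sps_succ 3
theorem sps_c5 : PowerSeries.coeff 5 (sps b) = b 4 := coeff_sps_succ 4

theorem sps_sq_0 : PowerSeries.coeff 0 (sps b ^ 2) = 1 := by
  simp [pow_two, PowerSeries.coeff_mul, coeff_sps_zero]

theorem sps_sq_1 (hb : b 0 = 0) : PowerSeries.coeff 1 (sps b ^ 2) = 0 := by
  rw [pow_two, coeff_mul_range]
  simp [Finset.sum_range_succ, coeff_sps_zero, sps_c1 hb]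

theorem sps_sq_2 (hb : b 0 = 0) : PowerSeries.coeff 2 (sps b ^ 2) = 2 * b 1 := by
  rw [pow_two, coeff_mul_range]
  simp only [Finset.sum_range_succ, Finset.sum_range_zero, Nat.sub_zero, Nat.reduceSub,
    coeff_sps_zero, sps_c1 hb, sps_c2]
  ring

theorem sps_sq_3 (hb : b 0 = 0) : PowerSeries.coeff 3 (sps b ^ 2) = 2 * b 2 := by
  rw [pow_two, coeff_mul_range]
  simp only [Finset.sum_range_succ, Finset.sum_range_zero, Nat.sub_zero, Nat.reduceSub,
    coeff_sps_zero, sps_c1 hb, sps_c2, sps_c3]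
  ring

theorem sps_sq_4 (hb : b 0 = 0) : PowerSeries.coeff 4 (sps b ^ 2) = 2 * b 3 + b 1 ^ 2 := by
  rw [pow_two, coeff_mul_range]
  simp only [Finset.sum_range_succ, Finset.sum_range_zero, Nat.sub_zero, Nat.reduceSub,
    coeff_sps_zero, sps_c1 hb, sps_c2, sps_c3, sps_c4]
  ring

theorem sps_sq_5 (hb : b 0 = 0) : PowerSeries.coeff 5 (sps b ^ 2) = 2 * b 4 + 2 * b 1 * b 2 := by
  rw [pow_two, coeff_mul_range]
  simp only [Finset.sum_range_succ, Finset.sum_range_zero, Nat.sub_zero, Nat.reduceSub,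
    coeff_sps_zero, sps_c1 hb, sps_c2, sps_c3, sps_c4, sps_c5]
  ring

theorem sps_cu_0 : PowerSeries.coeff 0 (sps b ^ 3) = 1 := by
  rw [pow_succ (sps b) 2, coeff_mul_range]
  simp only [Finset.sum_range_succ, Finset.sum_range_zero, Nat.sub_zero,
    coeff_sps_zero, sps_sq_0]
  ring

theorem sps_cu_1 (hb : b 0 = 0) : PowerSeries.coeff 1 (sps b ^ 3) = 0 := by
  rw [pow_succ (sps b) 2, coeff_mul_range]
  simp only [Finset.sum_range_succ, Finset.sum_range_zero, Nat.sub_zero, Nat.reduceSub,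
    coeff_sps_zero, sps_c1 hb, sps_sq_0, sps_sq_1 hb]
  ring

theorem sps_cu_2 (hb : b 0 = 0) : PowerSeries.coeff 2 (sps b ^ 3) = 3 * b 1 := by
  rw [pow_succ (sps b) 2, coeff_mul_range]
  simp only [Finset.sum_range_succ, Finset.sum_range_zero, Nat.sub_zero, Nat.reduceSub,
    coeff_sps_zero, sps_c1 hb, sps_c2, sps_sq_0, sps_sq_1 hb, sps_sq_2 hb]
  ring

theorem sps_cu_3 (hb : b 0 = 0) : PowerSeries.coeff 3 (sps b ^ 3) = 3 * b 2 := by
  rw [pow_succ (sps b) 2, coeff_mul_range]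
  simp only [Finset.sum_range_succ, Finset.sum_range_zero, Nat.sub_zero, Nat.reduceSub,
    coeff_sps_zero, sps_c1 hb, sps_c2, sps_c3, sps_sq_0, sps_sq_1 hb, sps_sq_2 hb, sps_sq_3 hb]
  ring

theorem sps_cu_4 (hb : b 0 = 0) : PowerSeries.coeff 4 (sps b ^ 3) = 3 * (b 3 + b 1 ^ 2) := by
  rw [pow_succ (sps b) 2, coeff_mul_range]
  simp only [Finset.sum_range_succ, Finset.sum_range_zero, Nat.sub_zero, Nat.reduceSub,
    coeff_sps_zero, sps_c1 hb, sps_c2, sps_c3, sps_c4, sps_sq_0, sps_sq_1 hb, sps_sq_2 hb,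
    sps_sq_3 hb, sps_sq_4 hb]
  ring

theorem sps_cu_5 (hb : b 0 = 0) :
    PowerSeries.coeff 5 (sps b ^ 3) = 3 * b 4 + 6 * b 1 * b 2 := by
  rw [pow_succ (sps b) 2, coeff_mul_range]
  simp only [Finset.sum_range_succ, Finset.sum_range_zero, Nat.sub_zero, Nat.reduceSub,
    coeff_sps_zero, sps_c1 hb, sps_c2, sps_c3, sps_c4, sps_c5, sps_sq_0, sps_sq_1 hb, sps_sq_2 hb,
    sps_sq_3 hb, sps_sq_4 hb, sps_sq_5 hb]
  ring

/-- area principle for the powers `F ^ N` -/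
theorem IsSig.area_pow (h : IsSig F b) {N M : ℕ} (hM : N ≤ M) :
    ∑ k ∈ Finset.range (M + 1), ((k : ℝ) - N) * ‖PowerSeries.coeff k (sps b ^ N)‖ ^ 2 ≤ 0 := by
  refine h.area_coeff (P := fun w => w ^ N) (by fun_prop) (h.rep_sps.pow N) ?_ hM
  intro u hu h0
  rw [h.eq_inv hu h0, mul_pow, inv_pow]

/-- the area theorem -/
theorem IsSig.area (h : IsSig F b) (M : ℕ) :
    ∑ n ∈ Finset.range M, ((n : ℝ)) * ‖b n‖ ^ 2 ≤ 1 := by
  have h1 := h.area_pow (N := 1) (M := M + 1) (by omega)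
  simp only [pow_one] at h1
  rw [Finset.sum_range_succ'] at h1
  simp only [coeff_sps_succ, coeff_sps_zero] at h1
  have h2 : ∑ k ∈ Finset.range (M + 1), (((k + 1 : ℕ) : ℝ) - (1 : ℕ)) * ‖b k‖ ^ 2 =
      ∑ k ∈ Finset.range (M + 1), (k : ℝ) * ‖b k‖ ^ 2 := by
    refine Finset.sum_congr rfl fun k _ => ?_
    push_cast; ring
  rw [h2, Finset.sum_range_succ] at h1
  have h3 : 0 ≤ (M : ℝ) * ‖b M‖ ^ 2 := by positivity
  norm_num at h1
  linarith

/-- an upper bound for the even moments -/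
theorem IsSig.moment_le (h : IsSig F b) {N s : ℕ} (hN : 1 ≤ N) (hs : N < s) {x : ℝ}
    (hx0 : 0 < x) (hx : x < 1) {c : ℝ} (hc : 0 ≤ c) (hcs : x ^ (2 * s) ≤ c * ((s : ℝ) - N)) :
    (∫ t in (-π)..π, ‖(1 + (x * ec t) * pw b (x * ec t)) ^ N‖ ^ 2) ≤
      2 * π * ∑ k ∈ Finset.range s,
        (x ^ (2 * k) - c * ((k : ℝ) - N)) * ‖PowerSeries.coeff k (sps b ^ N)‖ ^ 2 := by
  have h1 := (h.rep_sps.pow N).parseval_self hx0.le hx
  have h2 := h1.tendsto_sum_nat
  refine le_of_tendsto h2 ?_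
  filter_upwards [eventually_ge_atTop (s + 1)] with M hM
  obtain ⟨m, rfl⟩ : ∃ m, M = m + 1 := ⟨M - 1, by omega⟩
  have h3 := h.area_pow (N := N) (M := m) (by omega)
  set a : ℕ → ℝ := fun k => ‖PowerSeries.coeff k (sps b ^ N)‖ ^ 2 with ha
  have ha0 : ∀ k, 0 ≤ a k := fun k => by positivity
  have h4 : ∑ k ∈ Finset.range (m + 1), 2 * π * ‖PowerSeries.coeff k (sps b ^ N)‖ ^ 2 * x ^ (2 * k)
      = 2 * π * ∑ k ∈ Finset.range (m + 1), a k * x ^ (2 * k) := by
    rw [Finset.mul_sum]; exact Finset.sum_congr rfl fun k _ => by simp only [ha]; ring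
  rw [h4]
  apply mul_le_mul_of_nonneg_left _ (by positivity)
  have h5 : ∑ k ∈ Finset.range (m + 1), a k * x ^ (2 * k) ≤
      ∑ k ∈ Finset.range (m + 1), (x ^ (2 * k) - c * ((k : ℝ) - N)) * a k := by
    have : ∑ k ∈ Finset.range (m + 1), (x ^ (2 * k) - c * ((k : ℝ) - N)) * a k =
        ∑ k ∈ Finset.range (m + 1), a k * x ^ (2 * k) -
        c * ∑ k ∈ Finset.range (m + 1), ((k : ℝ) - N) * a k := by
      rw [Finset.mul_sum, ← Finset.sum_sub_distrib]
      exact Finset.sum_congr rfl fun k _ => by ring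
    rw [this]
    nlinarith
  refine h5.trans ?_
  have hsub : Finset.range s ⊆ Finset.range (m + 1) := Finset.range_mono (by omega)
  rw [← Finset.sum_sdiff hsub]
  have h6 : ∑ k ∈ Finset.range (m + 1) \ Finset.range s,
      (x ^ (2 * k) - c * ((k : ℝ) - N)) * a k ≤ 0 := by
    apply Finset.sum_nonpos
    intro k hk
    have hk' : s ≤ k := by
      have := (Finset.mem_sdiff.1 hk).2
      simpa using this
    apply mul_nonpos_of_nonpos_of_nonneg _ (ha0 k)
    have e1 : x ^ (2 * k) ≤ x ^ (2 * s) := pow_le_pow_of_le_one hx0.le hx.le (by omega)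
    have e2 : (s : ℝ) ≤ k := by exact_mod_cast hk'
    have e3 : c * ((s : ℝ) - N) ≤ c * ((k : ℝ) - N) :=
      mul_le_mul_of_nonneg_left (by linarith) hc
    linarith
  linarith

end Pool.Agent.H15.Sig
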