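import Pool.Agent.H15.Sig.Even

/-!
# The even moments 2, 4, 6: sharp bounds
-/

open Complex Set Filter Topology MeasureTheory
open scoped ComplexConjugate Real

namespace Pool.Agent.H15.Sig

variable {F : ℂ → ℂ} {b : ℕ → ℂ}

theorem IsSig.moment_two (h : IsSig F b) {x : ℝ} (hx0 : 0 < x) (hx : x < 1) :
    (∫ t in (-π)..π, ‖(1 + (x * ec t) * pw b (x * ec t)) ^ 1‖ ^ 2) ≤ 2 * π * (1 + x ^ 4) := by
  have h1 := h.moment_le (N := 1) (s := 2) le_rfl (by norm_num) hx0 hx (c := x ^ 4)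
    (by positivity) (by norm_num)
  refine h1.trans (le_of_eq ?_)
  congr 1
  simp only [pow_one]
  rw [Finset.sum_range_succ, Finset.sum_range_one, coeff_sps_one h.b0, coeff_sps_zero]
  norm_num

theorem IsSig.bounds (h : IsSig F b) :
    ‖b 1‖ ^ 2 + 2 * ‖b 2‖ ^ 2 + 3 * ‖b 3‖ ^ 2 + 4 * ‖b 4‖ ^ 2 ≤ 1 := by
  have := h.area 5
  simp only [Finset.sum_range_succ, Finset.sum_range_zero] at this
  norm_num at this
  linarith

theorem IsSig.bound_sq (h : IsSig F b) : ‖2 * b 3 + b 1 ^ 2‖ ≤ 1 := by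
  have := h.area_pow (N := 2) (M := 4) (by norm_num)
  simp only [Finset.sum_range_succ, Finset.sum_range_zero, sps_sq_0, sps_sq_1 h.b0,
    sps_sq_2 h.b0, sps_sq_3 h.b0, sps_sq_4 h.b0] at this
  norm_num at this
  nlinarith [norm_nonneg (2 * b 3 + b 1 ^ 2), sq_nonneg ‖b 2‖]

theorem IsSig.moment_four (h : IsSig F b) {x : ℝ} (hx0 : 0 < x) (hx : x < 1) :
    (∫ t in (-π)..π, ‖(1 + (x * ec t) * pw b (x * ec t)) ^ 2‖ ^ 2) ≤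
      2 * π * (1 + 4 * x ^ 4 + x ^ 8) := by
  have h1 := h.moment_le (N := 2) (s := 4) (by norm_num) (by norm_num) hx0 hx (c := x ^ 8 / 2)
    (by positivity) (by norm_num)
  refine h1.trans ?_
  apply mul_le_mul_of_nonneg_left _ (by positivity)
  simp only [Finset.sum_range_succ, Finset.sum_range_zero, sps_sq_0, sps_sq_1 h.b0,
    sps_sq_2 h.b0, sps_sq_3 h.b0]
  have hb := h.bounds
  have e1 : ‖2 * b 1‖ ^ 2 = 4 * ‖b 1‖ ^ 2 := by rw [norm_mul, mul_pow]; norm_num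
  have e2 : ‖2 * b 2‖ ^ 2 = 4 * ‖b 2‖ ^ 2 := by rw [norm_mul, mul_pow]; norm_num
  rw [e1, e2]
  norm_num
  have hx4 : 0 < x ^ 4 := by positivity
  have hx6 : x ^ 6 ≤ x ^ 4 := pow_le_pow_of_le_one hx0.le hx.le (by norm_num)
  have hx8 : x ^ 8 ≤ x ^ 6 := pow_le_pow_of_le_one hx0.le hx.le (by norm_num)
  have hx80 : 0 < x ^ 8 := by positivity
  have hB : 0 ≤ ‖b 2‖ ^ 2 := by positivity
  have h3 : 0 ≤ ‖b 3‖ ^ 2 := by positivity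
  have h4 : 0 ≤ ‖b 4‖ ^ 2 := by positivity
  have h5 : (x ^ 6 - x ^ 8 / 2) * (4 * ‖b 2‖ ^ 2) ≤ x ^ 4 * (4 * ‖b 2‖ ^ 2) :=
    mul_le_mul_of_nonneg_right (by linarith) (by positivity)
  have h6 : x ^ 4 * (‖b 1‖ ^ 2 + ‖b 2‖ ^ 2) ≤ x ^ 4 * 1 :=
    mul_le_mul_of_nonneg_left (by linarith) hx4.le
  nlinarith

theorem IsSig.moment_six (h : IsSig F b) {x : ℝ} (hx0 : 0 < x) (hx : x < 1) :
    (∫ t in (-π)..π, ‖(1 + (x * ec t) * pw b (x * ec t)) ^ 3‖ ^ 2) ≤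
      2 * π * (1 + 9 * x ^ 4 + 9 * x ^ 8 + x ^ 12) := by
  have h1 := h.moment_le (N := 3) (s := 6) (by norm_num) (by norm_num) hx0 hx (c := x ^ 12 / 3)
    (by positivity) (by norm_num)
  refine h1.trans ?_
  apply mul_le_mul_of_nonneg_left _ (by positivity)
  simp only [Finset.sum_range_succ, Finset.sum_range_zero, sps_cu_0, sps_cu_1 h.b0,
    sps_cu_2 h.b0, sps_cu_3 h.b0, sps_cu_4 h.b0, sps_cu_5 h.b0]
  have hb := h.bounds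
  have e1 : ‖3 * b 1‖ ^ 2 = 9 * ‖b 1‖ ^ 2 := by rw [norm_mul, mul_pow]; norm_num
  have e2 : ‖3 * b 2‖ ^ 2 = 9 * ‖b 2‖ ^ 2 := by rw [norm_mul, mul_pow]; norm_num
  have e3 : ‖3 * (b 3 + b 1 ^ 2)‖ ^ 2 ≤ 9 / 4 * (1 + ‖b 1‖ ^ 2) ^ 2 := by
    rw [norm_mul, mul_pow]
    have : ‖b 3 + b 1 ^ 2‖ ≤ (1 + ‖b 1‖ ^ 2) / 2 := by
      have e : b 3 + b 1 ^ 2 = (1/2 : ℂ) * (2 * b 3 + b 1 ^ 2) + (1/2 : ℂ) * b 1 ^ 2 := by ring
      rw [e]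
      refine (norm_add_le _ _).trans ?_
      rw [norm_mul, norm_mul, norm_pow]
      have := h.bound_sq
      norm_num
      linarith
    have h0 := norm_nonneg (b 3 + b 1 ^ 2)
    have := pow_le_pow_left₀ h0 this 2
    norm_num
    nlinarith
  have e4 : ‖3 * b 4 + 6 * b 1 * b 2‖ ^ 2 ≤
      (9 / 4 + 18 * ‖b 1‖ ^ 2) * (1 - ‖b 1‖ ^ 2) := by
    have h0 : ‖3 * b 4 + 6 * b 1 * b 2‖ ≤ 3 * ‖b 4‖ + 6 * ‖b 1‖ * ‖b 2‖ := by
      refine (norm_add_le _ _).trans ?_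
      rw [norm_mul, norm_mul, norm_mul]; norm_num
    have h1 := pow_le_pow_left₀ (norm_nonneg _) h0 2
    refine h1.trans ?_
    have h2 : (3 * ‖b 4‖ + 6 * ‖b 1‖ * ‖b 2‖) ^ 2 ≤
        (9 / 4 + 18 * ‖b 1‖ ^ 2) * (4 * ‖b 4‖ ^ 2 + 2 * ‖b 2‖ ^ 2) := by
      nlinarith [sq_nonneg (‖b 2‖ * (3 / 2) * 2 - 12 * ‖b 1‖ * ‖b 4‖)]
    refine h2.trans ?_
    apply mul_le_mul_of_nonneg_left _ (by positivity)
    nlinarith [sq_nonneg ‖b 3‖]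
  rw [e1, e2]
  set X := ‖b 1‖ ^ 2 with hX
  have hX0 : 0 ≤ X := by positivity
  have hX1 : X ≤ 1 := by nlinarith [sq_nonneg ‖b 2‖, sq_nonneg ‖b 3‖, sq_nonneg ‖b 4‖]
  have hB : ‖b 2‖ ^ 2 ≤ (1 - X) / 2 := by nlinarith [sq_nonneg ‖b 3‖, sq_nonneg ‖b 4‖]
  set A := ‖3 * (b 3 + b 1 ^ 2)‖ ^ 2
  set C := ‖3 * b 4 + 6 * b 1 * b 2‖ ^ 2
  set B := ‖b 2‖ ^ 2
  norm_num
  have p12 : x ^ 12 ≤ x ^ 10 := pow_le_pow_of_le_one hx0.le hx.le (by norm_num)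
  have p10 : x ^ 10 ≤ x ^ 8 := pow_le_pow_of_le_one hx0.le hx.le (by norm_num)
  have p0 : 0 < x ^ 12 := by positivity
  have q1 : (x ^ 8 - x ^ 12 / 3) * A ≤ (x ^ 8 - x ^ 12 / 3) * (9 / 4 * (1 + X) ^ 2) :=
    mul_le_mul_of_nonneg_left e3 (by linarith)
  have q2 : (x ^ 10 - x ^ 12 / 3 * 2) * C ≤
      (x ^ 10 - x ^ 12 / 3 * 2) * ((9 / 4 + 18 * X) * (1 - X)) :=
    mul_le_mul_of_nonneg_left e4 (by linarith)
  have q3 : x ^ 6 * (9 * B) ≤ x ^ 6 * (9 * ((1 - X) / 2)) :=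
    mul_le_mul_of_nonneg_left (by linarith) (by positivity)
  -- the polynomial inequality
  set y := 1 - X with hy
  have hXy : X = 1 - y := by rw [hy]; ring
  have hy0 : 0 ≤ y := by linarith
  have hy1 : y ≤ 1 := by linarith
  have main : 0 ≤ y * x ^ 4 * (9 - 9 / 2 * x ^ 2 + (9 - 9 / 4 * y) * x ^ 4
      - (81 / 4 - 18 * y) * x ^ 6 + (27 / 2 - 45 / 4 * y) * x ^ 8) := by
    apply mul_nonneg (by positivity)
    set z := x ^ 2 with hz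
    have hz0 : 0 < z := by positivity
    have hz1 : z < 1 := by rw [hz]; nlinarith
    have e4' : x ^ 4 = z ^ 2 := by rw [hz]; ring
    have e6' : x ^ 6 = z ^ 3 := by rw [hz]; ring
    have e8' : x ^ 8 = z ^ 4 := by rw [hz]; ring
    rw [e4', e6', e8']
    have c0 : 0 ≤ 9 - 9 / 2 * z + 9 * z ^ 2 - 81 / 4 * z ^ 3 + 27 / 2 * z ^ 4 := by
      nlinarith [sq_nonneg (z ^ 2 - 3/4 * z), sq_nonneg (z - 1), mul_pos hz0 hz0,
        mul_nonneg hz0.le (sub_nonneg.2 hz1.le), sq_nonneg (z * (z - 1)),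
        mul_nonneg (sub_nonneg.2 hz1.le) (sq_nonneg z)]
    have c1 : 0 ≤ 9 - 9 / 2 * z + (9 - 9 / 4) * z ^ 2 - (81 / 4 - 18) * z ^ 3 +
        (27 / 2 - 45 / 4) * z ^ 4 := by
      nlinarith [sq_nonneg (z ^ 2 - 3/4 * z), sq_nonneg (z - 1), mul_pos hz0 hz0,
        mul_nonneg hz0.le (sub_nonneg.2 hz1.le), sq_nonneg (z * (z - 1)),
        mul_nonneg (sub_nonneg.2 hz1.le) (sq_nonneg z)]
    nlinarith
  rw [hXy] at q1 q2 ⊢
  nlinarith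

end Pool.Agent.H15.Sig
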