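import Pool.Agent.H15.Sig.Defs

/-!
# The even integral means of the function `z + 1/z`
-/

open Complex Set Filter Topology MeasureTheory
open scoped ComplexConjugate Real

namespace Pool.Agent.H15.Sig

/-- the coefficients of `z + 1/z` -/
noncomputable def jb : ℕ → ℂ := fun n => if n = 1 then 1 else 0

theorem isSig_J : IsSig (fun z => z + z⁻¹) jb := by
  refine ⟨classSigma_J.1, fun z hz => ?_, by simp [jb]⟩
  have h1 : HasSum (fun n : ℕ => jb n * z⁻¹ ^ n) (jb 1 * z⁻¹ ^ 1) := by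
    apply hasSum_single
    intro n hn
    simp [jb, hn]
  simpa [jb] using h1

theorem pw_jb {u : ℂ} (hu : ‖u‖ < 1) : pw jb u = u := by
  have h1 : HasSum (fun n : ℕ => jb n * u ^ n) (jb 1 * u ^ 1) := by
    apply hasSum_single
    intro n hn
    simp [jb, hn]
  have h2 := isSig_J.hasSum_pw hu
  rw [h2.unique h1]; simp [jb]

theorem rep_J (m : ℕ) : Rep ((1 + PowerSeries.X ^ 2) ^ m) (fun u => (1 + u * pw jb u) ^ m) := by
  have h1 : Rep (1 + PowerSeries.X ^ 2) (fun u => 1 + u ^ 2) := Rep.one.add (Rep.X.pow 2)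
  refine (h1.pow m).congr fun u hu => ?_
  rw [pw_jb hu, sq]

theorem coeff_J (m j : ℕ) : PowerSeries.coeff j ((1 + PowerSeries.X ^ 2 : PowerSeries ℂ) ^ m) =
    ∑ k ∈ Finset.range (m + 1), if j = 2 * k then (m.choose k : ℂ) else 0 := by
  rw [add_comm, add_pow, map_sum]
  refine Finset.sum_congr rfl fun k _ => ?_
  have : (PowerSeries.X ^ 2 : PowerSeries ℂ) ^ k * 1 ^ (m - k) * (m.choose k : PowerSeries ℂ) =
      PowerSeries.C (m.choose k : ℂ) * PowerSeries.X ^ (2 * k) := by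
    rw [one_pow, mul_one, ← pow_mul, mul_comm]
    congr 1
  rw [this, PowerSeries.coeff_C_mul, PowerSeries.coeff_X_pow]
  split_ifs <;> simp

theorem moment_J (m : ℕ) {x : ℝ} (hx0 : 0 < x) (hx : x < 1) :
    (∫ t in (-π)..π, ‖(1 + (x * ec t) * pw jb (x * ec t)) ^ m‖ ^ 2) =
      2 * π * ∑ k ∈ Finset.range (m + 1), (m.choose k : ℝ) ^ 2 * x ^ (4 * k) := by
  have h1 := (rep_J m).parseval_self hx0.le hx
  have h2 : HasSum (fun k : ℕ => 2 * π *
      ‖PowerSeries.coeff k ((1 + PowerSeries.X ^ 2 : PowerSeries ℂ) ^ m)‖ ^ 2 * x ^ (2 * k))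
      (∑ k ∈ (Finset.range (m + 1)).image (fun k => 2 * k), 2 * π *
      ‖PowerSeries.coeff k ((1 + PowerSeries.X ^ 2 : PowerSeries ℂ) ^ m)‖ ^ 2 * x ^ (2 * k)) := by
    apply hasSum_sum_of_ne_finset_zero
    intro j hj
    rw [coeff_J, Finset.sum_eq_zero]
    · simp
    · intro k hk
      rw [if_neg]
      rintro rfl
      exact hj (Finset.mem_image_of_mem _ hk)
  rw [h1.unique h2, Finset.sum_image (by intro a _ b _ hab; simpa using hab), Finset.mul_sum]
  refine Finset.sum_congr rfl fun k hk => ?_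
  rw [coeff_J, Finset.sum_eq_single k]
  · rw [if_pos rfl, Complex.norm_natCast]
    ring
  · intro l _ hl
    rw [if_neg (by omega)]
  · intro h; exact absurd hk h

theorem integralMean_J (m : ℕ) (r : ℝ) (hr : 1 < r) :
    integralMean (2 * m) r (fun z => z + z⁻¹) =
      (∑ k ∈ Finset.range (m + 1), (m.choose k : ℝ) ^ 2 * r ^ (2 * (m : ℤ) - 4 * k)) ^
        (1 / (2 * m : ℝ)) := by
  have hr0 : 0 < r := by linarith
  have hx0 : 0 < r⁻¹ := inv_pos.2 hr0
  have hx : r⁻¹ < 1 := inv_lt_one_of_one_lt₀ hr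
  rw [integralMean_eq]
  congr 1
  have h1 := isSig_J.moment_eq hx0 hx m
  rw [inv_inv, moment_J m hx0 hx] at h1
  push_cast at h1
  rw [h1, Finset.mul_sum, Finset.mul_sum, Finset.mul_sum]
  refine Finset.sum_congr rfl fun k _ => ?_
  rw [zpow_sub₀ hr0.ne', show (2 * (m : ℤ)) = ((2 * m : ℕ) : ℤ) by push_cast; ring,
    show (4 * (k : ℤ)) = ((4 * k : ℕ) : ℤ) by push_cast; ring, zpow_natCast, zpow_natCast, inv_pow]
  field_simp

theorem moment_bound {F : ℂ → ℂ} {b : ℕ → ℂ} (h : IsSig F b) {m : ℕ}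
    (hm : m = 1 ∨ m = 2 ∨ m = 3) {x : ℝ} (hx0 : 0 < x) (hx : x < 1) :
    (∫ t in (-π)..π, ‖(1 + (x * ec t) * pw b (x * ec t)) ^ m‖ ^ 2) ≤
      2 * π * ∑ k ∈ Finset.range (m + 1), (m.choose k : ℝ) ^ 2 * x ^ (4 * k) := by
  rcases hm with rfl | rfl | rfl
  · refine (h.moment_two hx0 hx).trans (le_of_eq ?_)
    congr 1
    simp [Finset.sum_range_succ]
  · refine (h.moment_four hx0 hx).trans (le_of_eq ?_)
    congr 1
    simp [Finset.sum_range_succ]
    norm_num
  · refine (h.moment_six hx0 hx).trans (le_of_eq ?_)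
    congr 1
    simp [Finset.sum_range_succ, Nat.choose]
    norm_num

theorem integralMean_le {F : ℂ → ℂ} (h : ClassSigma F) {m : ℕ}
    (hm : m = 1 ∨ m = 2 ∨ m = 3) {r : ℝ} (hr : 1 < r) :
    integralMean (2 * m) r F ≤ integralMean (2 * m) r (fun z => z + z⁻¹) := by
  obtain ⟨b, hb⟩ := h.isSig
  have hr0 : 0 < r := by linarith
  have hx0 : 0 < r⁻¹ := inv_pos.2 hr0
  have hx : r⁻¹ < 1 := inv_lt_one_of_one_lt₀ hr
  rw [integralMean_eq, integralMean_eq]
  have h1 := hb.moment_eq hx0 hx m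
  have h2 := isSig_J.moment_eq hx0 hx m
  rw [moment_J m hx0 hx] at h2
  have h3 := moment_bound hb hm hx0 hx
  rw [inv_inv] at h1 h2
  push_cast at h1 h2
  rw [h1, h2]
  have hpos : 0 ≤ ∫ t in (-π)..π, ‖(1 + ((r⁻¹ : ℝ) * ec t) * pw b ((r⁻¹ : ℝ) * ec t)) ^ m‖ ^ 2 :=
    intervalIntegral.integral_nonneg (by linarith [Real.pi_pos]) fun t _ => by positivity
  push_cast at hpos h3
  apply Real.rpow_le_rpow
  · positivity
  · gcongr
  · positivity

end Pool.Agent.H15.Sig
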