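import Pool.Agent.H15.Sig.Basic

/-!
# Geometry of the images of large circles
-/

open Complex Set Filter Topology Metric
open scoped ComplexConjugate

namespace Pool.Agent.H15.Sig

variable {F : ℂ → ℂ} {b : ℕ → ℂ}

/-- a bundle of facts valid for all large radii -/
structure Good (F : ℂ → ℂ) (R : ℝ) : Prop where
  two_le : 2 ≤ R
  ray : ∀ z ζ : ℂ, ∀ s : ℝ, ‖z‖ = R → 2 ≤ ‖ζ‖ → 1 ≤ s → F ζ = s * F z →
    R ≤ ‖ζ‖ ∧ (1 < s → R < ‖ζ‖)
  ne : ∀ z : ℂ, ‖z‖ = R → F z ≠ 0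
  near : ∀ z : ℂ, ‖z‖ = R → ‖F z / z - 1‖ ≤ 1 / 4
  jac : ∀ z : ℂ, ‖z‖ = R → 0 < (conj (F z) * (z * deriv F z)).re
  surj : ∀ z : ℂ, ∀ s : ℝ, ‖z‖ = R → 1 ≤ s → ∃ ζ : ℂ, 2 ≤ ‖ζ‖ ∧ F ζ = s * F z

theorem good_ray {L : ℝ} (hL : 0 < L)
    (h1 : ∀ z w : ℂ, 2 ≤ ‖z‖ → 2 ≤ ‖w‖ →
      ‖(F z - z) - (F w - w)‖ ≤ L * ‖z - w‖ / (‖z‖ * ‖w‖))
    (h2 : ∀ z : ℂ, 2 ≤ ‖z‖ → ‖F z - z‖ ≤ L / ‖z‖) {R : ℝ} (hR : 2 ≤ R) (hRL : 2 * L < R)
    (z ζ : ℂ) (s : ℝ) (hz : ‖z‖ = R) (hζ : 2 ≤ ‖ζ‖) (hs : 1 ≤ s) (he : F ζ = s * F z) :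
    R ≤ ‖ζ‖ ∧ (1 < s → R < ‖ζ‖) := by
  have hRpos : 0 < R := by linarith
  have hz2 : 2 ≤ ‖z‖ := by rw [hz]; exact hR
  set D := ‖ζ - s * z‖ with hD
  have e1 : ζ - s * z = ((s : ℂ) - 1) * (F z - z) + ((F z - z) - (F ζ - ζ)) := by
    rw [he]; ring
  have n1 : ‖((s : ℂ) - 1) * (F z - z)‖ ≤ (s - 1) * (L / R) := by
    rw [norm_mul]
    have : ‖((s : ℂ) - 1)‖ = s - 1 := by
      rw [← ofReal_one, ← ofReal_sub, norm_real, Real.norm_eq_abs, abs_of_nonneg (by linarith)]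
    rw [this]
    have := h2 z hz2
    rw [hz] at this
    exact mul_le_mul_of_nonneg_left this (by linarith)
  have n2 : ‖z - ζ‖ ≤ (s - 1) * R + D := by
    have : z - ζ = ((1 : ℂ) - s) * z + (s * z - ζ) := by ring
    rw [this]
    refine (norm_add_le _ _).trans ?_
    have e3 : ‖(1 : ℂ) - s‖ = s - 1 := by
      rw [← ofReal_one, ← ofReal_sub, norm_real, Real.norm_eq_abs, abs_sub_comm,
        abs_of_nonneg (by linarith)]
    rw [norm_mul, e3, hz, hD, norm_sub_rev ζ]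
  have n3 : ‖(F z - z) - (F ζ - ζ)‖ ≤ L / (2 * R) * ((s - 1) * R + D) := by
    refine (h1 z ζ hz2 hζ).trans ?_
    rw [hz]
    have hζpos : 0 < ‖ζ‖ := by linarith
    calc L * ‖z - ζ‖ / (R * ‖ζ‖) ≤ L * ((s - 1) * R + D) / (R * 2) := by
          have hnn : 0 ≤ (s - 1) * R + D := le_trans (norm_nonneg _) n2
          gcongr
      _ = _ := by field_simp
  have n4 : D ≤ (s - 1) * (L / R) + L / (2 * R) * ((s - 1) * R + D) := by
    have hn := norm_add_le (((s : ℂ) - 1) * (F z - z)) ((F z - z) - (F ζ - ζ))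
    rw [← e1] at hn
    exact hn.trans (add_le_add n1 n3)
  have hD0 : 0 ≤ D := norm_nonneg _
  have hLR : L / (2 * R) ≤ 1 / 4 := by
    rw [div_le_iff₀ (by linarith)]; linarith
  have hLR2 : L / R ≤ L / 2 := by
    exact div_le_div_of_nonneg_left hL.le (by norm_num) hR
  have n5 : D ≤ (s - 1) * L + D / 4 := by
    have a1 : L / (2 * R) * ((s - 1) * R + D) = (s - 1) * (L / 2) + L / (2 * R) * D := by
      field_simp
    rw [a1] at n4
    have a2 : (s - 1) * (L / R) ≤ (s - 1) * (L / 2) :=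
      mul_le_mul_of_nonneg_left hLR2 (by linarith)
    have a3 : L / (2 * R) * D ≤ 1 / 4 * D := mul_le_mul_of_nonneg_right hLR hD0
    nlinarith
  have n6 : D ≤ (s - 1) * (2 * L) := by nlinarith
  have n7 : s * R - D ≤ ‖ζ‖ := by
    have : ‖(s : ℂ) * z‖ = s * R := by
      rw [norm_mul, norm_real, Real.norm_eq_abs, abs_of_nonneg (by linarith), hz]
    have h3 := norm_sub_norm_le ((s : ℂ) * z) ζ
    rw [this, norm_sub_rev] at h3
    linarith
  constructor
  · nlinarith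
  · intro hs1
    nlinarith

theorem good_surj {L : ℝ} (hL : 0 < L)
    (h1 : ∀ z w : ℂ, 2 ≤ ‖z‖ → 2 ≤ ‖w‖ →
      ‖(F z - z) - (F w - w)‖ ≤ L * ‖z - w‖ / (‖z‖ * ‖w‖))
    (h2 : ∀ z : ℂ, 2 ≤ ‖z‖ → ‖F z - z‖ ≤ L / ‖z‖) {m : ℝ} (hm2 : 2 ≤ m) (hmL : 2 * L ≤ m)
    (w : ℂ) (hw : m + L ≤ ‖w‖) : ∃ ζ : ℂ, 2 ≤ ‖ζ‖ ∧ F ζ = w := by
  set T : ℂ → ℂ := fun ζ => w - (F ζ - ζ) with hT
  set S : Set ℂ := {ζ : ℂ | m ≤ ‖ζ‖} with hS
  have hmp : 0 < m := by linarith
  have hSc : IsComplete S := (isClosed_le continuous_const continuous_norm).isComplete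
  have hmaps : MapsTo T S S := by
    intro ζ hζ
    have hζ' : m ≤ ‖ζ‖ := hζ
    show m ≤ ‖w - (F ζ - ζ)‖
    have a1 := h2 ζ (by linarith)
    have a2 : L / ‖ζ‖ ≤ L := by
      rw [div_le_iff₀ (by linarith)]
      nlinarith
    have a3 := norm_sub_norm_le w (F ζ - ζ)
    linarith
  have hcontr : ContractingWith (1/4 : NNReal) (hmaps.restrict T S S) := by
    refine ⟨by norm_num, LipschitzWith.of_dist_le_mul ?_⟩
    rintro ⟨x, hx⟩ ⟨y, hy⟩
    have hx' : m ≤ ‖x‖ := hx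
    have hy' : m ≤ ‖y‖ := hy
    show dist (T x) (T y) ≤ _ * dist x y
    rw [dist_eq_norm, dist_eq_norm]
    have e : T x - T y = -((F x - x) - (F y - y)) := by simp only [hT]; ring
    rw [e, norm_neg]
    refine (h1 x y (by linarith) (by linarith)).trans ?_
    have hxy : m * m ≤ ‖x‖ * ‖y‖ := by gcongr
    have hmm : 4 * L ≤ m * m := by nlinarith
    have hpos : 0 < ‖x‖ * ‖y‖ := by nlinarith
    rw [div_le_iff₀ hpos]
    have h0 : 0 ≤ ‖x - y‖ := norm_nonneg _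
    push_cast
    nlinarith
  have hwS : w ∈ S := by show m ≤ ‖w‖; linarith
  obtain ⟨ζ, hζS, hfix, -⟩ := hcontr.exists_fixedPoint' hSc hmaps hwS (edist_ne_top _ _)
  refine ⟨ζ, ?_, ?_⟩
  · have : m ≤ ‖ζ‖ := hζS
    linarith
  · have : w - (F ζ - ζ) = ζ := hfix
    linear_combination -this

theorem IsSig.good (h : IsSig F b) : ∃ R0 : ℝ, ∀ R, R0 ≤ R → Good F R := by
  obtain ⟨L, hL, h1, h2, h3⟩ := h.lipschitz
  set m := max 2 (2 * L) with hm
  have hm2 : 2 ≤ m := le_max_left _ _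
  have hmL : 2 * L ≤ m := le_max_right _ _
  refine ⟨m + 2 * L + 1, fun R hR => ?_⟩
  have hR2 : 2 ≤ R := by linarith
  have hRL : 2 * L < R := by linarith
  have hRpos : 0 < R := by linarith
  have hRR : 4 * L ≤ R ^ 2 := by nlinarith
  have hq : L / R ^ 2 ≤ 1 / 4 := by rw [div_le_iff₀ (by positivity)]; linarith
  have near : ∀ z : ℂ, ‖z‖ = R → ‖F z / z - 1‖ ≤ 1 / 4 := by
    intro z hz
    have hz0 : z ≠ 0 := by rw [← norm_pos_iff, hz]; exact hRpos
    have e : F z / z - 1 = (F z - z) / z := by field_simp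
    rw [e, norm_div, hz]
    have := h2 z (by rw [hz]; exact hR2)
    rw [hz] at this
    calc ‖F z - z‖ / R ≤ (L / R) / R := by gcongr
      _ = L / R ^ 2 := by field_simp
      _ ≤ _ := hq
  have lower : ∀ z : ℂ, ‖z‖ = R → R - L ≤ ‖F z‖ := by
    intro z hz
    have := h2 z (by rw [hz]; exact hR2)
    rw [hz] at this
    have a2 : L / R ≤ L := by
      rw [div_le_iff₀ (by linarith)]
      nlinarith
    have a3 := norm_sub_norm_le z (z - F z)
    have a4 : z - (z - F z) = F z := by ring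
    rw [a4, norm_sub_rev z (F z), hz] at a3
    linarith
  refine ⟨hR2, ?_, ?_, near, ?_, ?_⟩
  · intro z ζ s hz hζ hs he
    exact good_ray hL h1 h2 hR2 hRL z ζ s hz hζ hs he
  · intro z hz h0
    have := lower z hz
    rw [h0, norm_zero] at this
    linarith
  · intro z hz
    have hz0 : z ≠ 0 := by rw [← norm_pos_iff, hz]; exact hRpos
    have n1 := near z hz
    have n2 := h3 z (by rw [hz]; exact hR2)
    rw [hz] at n2
    have n2' : ‖deriv F z - 1‖ ≤ 1 / 4 := n2.trans hq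
    set a := F z / z - 1 with ha
    set c := deriv F z - 1 with hc
    have eF : F z = z * (1 + a) := by rw [ha]; field_simp; ring
    have eD : deriv F z = 1 + c := by rw [hc]; ring
    have e : conj (F z) * (z * deriv F z) = ((‖z‖ ^ 2 : ℝ) : ℂ) * (conj (1 + a) * (1 + c)) := by
      rw [eF, eD, map_mul, ofReal_pow, ← Complex.conj_mul']
      ring
    rw [e, re_ofReal_mul]
    have hp : 0 < (conj (1 + a) * (1 + c)).re := by
      have e2 : conj (1 + a) * (1 + c) = 1 + (conj a + c + conj a * c) := by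
        rw [map_add, map_one]; ring
      rw [e2, add_re, one_re]
      have b1 : ‖conj a + c + conj a * c‖ ≤ 1/4 + 1/4 + 1/4 * (1/4) := by
        refine (norm_add_le _ _).trans (add_le_add ((norm_add_le _ _).trans ?_) ?_)
        · rw [RCLike.norm_conj]; exact add_le_add n1 n2'
        · rw [norm_mul, RCLike.norm_conj]
          exact mul_le_mul n1 n2' (norm_nonneg _) (by norm_num)
      have b2 := (abs_le.1 ((abs_re_le_norm _).trans b1)).1
      linarith
    have : 0 < ‖z‖ ^ 2 := by rw [hz]; positivity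
    exact mul_pos this hp
  · intro z s hz hs
    have := lower z hz
    apply good_surj hL h1 h2 hm2 hmL
    rw [norm_mul, norm_real, Real.norm_eq_abs, abs_of_nonneg (by linarith)]
    nlinarith

/-- every nonzero complex number is on a ray through the image of the circle of radius `R` -/
theorem Good.dir (h : IsSig F b) {R : ℝ} (g : Good F R) (w : ℂ) (hw : w ≠ 0) :
    ∃ s : ℝ, 0 < s ∧ ∃ t : ℝ, t ∈ Ioc (-Real.pi) Real.pi ∧ w = s * F (R * exp (t * I)) := by
  have hR : 0 < R := by linarith [g.two_le]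
  have hnorm : ∀ t : ℝ, ‖(R : ℂ) * exp (t * I)‖ = R := by
    intro t
    rw [norm_mul, norm_exp_ofReal_mul_I, mul_one, norm_real, Real.norm_eq_abs, abs_of_pos hR]
  set z : ℝ → ℂ := fun t => (R : ℂ) * exp (t * I) with hz
  set q : ℝ → ℂ := fun t => F (z t) / z t with hq
  have hz1 : ∀ t, 1 < ‖z t‖ := fun t => by rw [hz, hnorm t]; linarith [g.two_le]
  have hz0 : ∀ t, z t ≠ 0 := fun t => ne_zero_of_one_lt (hz1 t)
  have hzc : Continuous z := by fun_prop
  have hFc : Continuous fun t => F (z t) := by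
    rw [continuous_iff_continuousAt]
    intro t
    exact (h.differentiableAt (hz1 t)).continuousAt.comp hzc.continuousAt
  have hqc : Continuous q := hFc.div hzc hz0
  have hre : ∀ t, 0 < (q t).re := by
    intro t
    have := g.near (z t) (hnorm t)
    have h2 := (abs_le.1 ((abs_re_le_norm _).trans this)).1
    rw [sub_re, one_re] at h2
    show 0 < (F (z t) / z t).re
    linarith
  have hslit : ∀ t, q t ∈ slitPlane := fun t => Or.inl (hre t)
  have hargc : Continuous fun t => arg (q t) := by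
    rw [continuous_iff_continuousAt]
    intro t
    exact (continuousAt_arg (hslit t)).comp hqc.continuousAt
  have hargb : ∀ t, |arg (q t)| ≤ Real.pi / 2 := by
    intro t
    rw [Complex.abs_arg_le_pi_div_two_iff]
    exact (hre t).le
  have hpi : Real.pi / 2 ≤ 2 := by linarith [Real.pi_le_four]
  set ψ := arg w with hψ
  obtain ⟨t, -, ht⟩ := intermediate_value_Icc (a := ψ - 2) (b := ψ + 2)
    (f := fun t => t + arg (q t)) (by linarith) (by fun_prop : Continuous _).continuousOn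
    (show ψ ∈ Icc _ _ by
      constructor
      · have := (abs_le.1 (hargb (ψ - 2))).2
        show ψ - 2 + arg (q (ψ - 2)) ≤ ψ
        linarith
      · have := (abs_le.1 (hargb (ψ + 2))).1
        show ψ ≤ ψ + 2 + arg (q (ψ + 2))
        linarith)
  have hF0 : F (z t) ≠ 0 := g.ne _ (hnorm t)
  have key : F (z t) = ‖F (z t)‖ * exp (ψ * I) := by
    have e1 : F (z t) = z t * q t := by
      simp only [hq]; field_simp [hz0 t]
    have e2 : q t = ‖q t‖ * exp (arg (q t) * I) := (norm_mul_exp_arg_mul_I (q t)).symm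
    have e3 : ‖F (z t)‖ = R * ‖q t‖ := by rw [e1, norm_mul]; congr 1; exact hnorm t
    rw [e3]
    conv_lhs => rw [e1, e2]
    rw [← ht]
    push_cast
    rw [show ((t : ℂ) + (arg (q t) : ℂ)) * I = t * I + arg (q t) * I by ring, exp_add]
    simp only [hz]
    ring
  have hFpos : 0 < ‖F (z t)‖ := norm_pos_iff.2 hF0
  have hwpos : 0 < ‖w‖ := norm_pos_iff.2 hw
  refine ⟨‖w‖ / ‖F (z t)‖, by positivity, arg (exp (t * I)), arg_mem_Ioc _, ?_⟩
  have e4 : exp ((arg (exp (t * I)) : ℂ) * I) = exp (t * I) := by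
    have := norm_mul_exp_arg_mul_I (exp (t * I))
    rwa [norm_exp_ofReal_mul_I, ofReal_one, one_mul] at this
  rw [e4]
  have hne : (‖F (z t)‖ : ℂ) ≠ 0 := by exact_mod_cast hFpos.ne'
  show w = ((‖w‖ / ‖F (z t)‖ : ℝ) : ℂ) * F (z t)
  calc w = ‖w‖ * exp (ψ * I) := (norm_mul_exp_arg_mul_I w).symm
    _ = ((‖w‖ / ‖F (z t)‖ : ℝ) : ℂ) * (‖F (z t)‖ * exp (ψ * I)) := by
        push_cast; field_simp
    _ = _ := by rw [← key]

end Pool.Agent.H15.Sig
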