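import Pool.Agent.H15.Sig.Parseval

/-!
# Moments of `1 + 2 y cos t + y ^ 2`
-/

open Complex Set Filter Topology MeasureTheory
open scoped ComplexConjugate Real

namespace Pool.Agent.H15.Sig

/-- the binomial series -/
noncomputable def bps (p : ℝ) : PowerSeries ℂ := PowerSeries.mk fun n => Ring.choose (p : ℂ) n

theorem rep_bps (p : ℝ) : Rep (bps p) (fun v => (1 + v) ^ (p : ℂ)) := by
  intro v hv
  have h1 := (one_add_cpow_hasFPowerSeriesOnBall_zero (a := (p : ℂ))).hasSum (y := v) (by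
    rw [Metric.mem_eball, edist_zero_right, ← ofReal_norm]
    simpa using (ENNReal.ofReal_lt_ofReal_iff (q := (1:ℝ)) (by norm_num)).2 hv)
  rw [zero_add] at h1
  refine h1.congr_fun ?_ |> fun h => h
  intro n
  unfold bps binomialSeries
  rw [PowerSeries.coeff_mk, FormalMultilinearSeries.ofScalars_apply_eq, smul_eq_mul]

/-- the moment function -/
noncomputable def Mo (p y : ℝ) : ℝ := ∫ t in (-π)..π, (1 + 2 * y * Real.cos t + y ^ 2) ^ p

theorem normSq_one_add_ec (y t : ℝ) : ‖1 + (y : ℂ) * ec t‖ ^ 2 = 1 + 2 * y * Real.cos t + y ^ 2 := by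
  have h1 : ec t = (Real.cos t : ℂ) - Real.sin t * I := by
    unfold ec
    rw [show (-((t:ℂ) * I)) = ((-t : ℝ) : ℂ) * I by push_cast; ring, exp_mul_I]
    push_cast
    rw [Complex.cos_neg, Complex.sin_neg]; ring
  have h2 := Real.sin_sq_add_cos_sq t
  rw [h1, ← normSq_eq_norm_sq, normSq_apply]
  generalize Real.cos t = c at h2 ⊢
  generalize Real.sin t = s at h2 ⊢
  have e1 : (1 + (y : ℂ) * ((c : ℂ) - s * I)).re = 1 + y * c := by
    simp
  have e2 : (1 + (y : ℂ) * ((c : ℂ) - s * I)).im = -(y * s) := by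
    simp
  rw [e1, e2]
  linear_combination y ^ 2 * h2

theorem Mo_hasSum (p : ℝ) {y : ℝ} (hy0 : 0 ≤ y) (hy : y < 1) :
    HasSum (fun k : ℕ => 2 * π * ‖Ring.choose (p : ℂ) k‖ ^ 2 * y ^ (2 * k)) (Mo p y) := by
  have h1 := (rep_bps p).parseval_self hy0 hy
  have h2 : (∫ t in (-π)..π, ‖(1 + (y : ℂ) * ec t) ^ (p : ℂ)‖ ^ 2) = Mo p y := by
    unfold Mo
    apply intervalIntegral.integral_congr
    intro t _
    simp only
    rw [norm_cpow_real, ← normSq_one_add_ec, ← Real.rpow_natCast, ← Real.rpow_mul (norm_nonneg _),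
      ← Real.rpow_natCast, ← Real.rpow_mul (norm_nonneg _), mul_comm p]
  rw [h2] at h1
  simpa [bps] using h1

theorem Mo_mono (p : ℝ) {y y' : ℝ} (hy0 : 0 ≤ y) (hyy : y ≤ y') (hy : y' < 1) :
    Mo p y ≤ Mo p y' := by
  refine hasSum_le (fun k => ?_) (Mo_hasSum p hy0 (by linarith)) (Mo_hasSum p (by linarith) hy)
  have : y ^ (2 * k) ≤ y' ^ (2 * k) := pow_le_pow_left₀ hy0 hyy _
  exact mul_le_mul_of_nonneg_left this (by positivity)

theorem Mo_gap (p : ℝ) {X β : ℝ} (hX0 : 0 ≤ X) (hX : X < 1) (hβ0 : 0 ≤ β) (hβ1 : β ≤ 1) :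
    2 * π * ((1 - β ^ 2) * p ^ 2 * X ^ 2) ≤ Mo p X - Mo p (β * X) := by
  have hβX : β * X < 1 := by nlinarith
  have h1 := (Mo_hasSum p hX0 hX).sub (Mo_hasSum p (mul_nonneg hβ0 hX0) hβX)
  have h2 := sum_le_hasSum {1} (fun k _ => ?_) h1
  · rw [Finset.sum_singleton, Ring.choose_one_right] at h2
    rw [norm_real, Real.norm_eq_abs, sq_abs] at h2
    refine le_trans (le_of_eq ?_) h2
    ring
  · have : (β * X) ^ (2 * k) ≤ X ^ (2 * k) :=
      pow_le_pow_left₀ (mul_nonneg hβ0 hX0) (by nlinarith) _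
    have h3 := mul_le_mul_of_nonneg_left this
      (show 0 ≤ 2 * π * ‖Ring.choose (p : ℂ) k‖ ^ 2 by positivity)
    linarith

/-- substitution `t ↦ 2 t` for functions of period `2 π` -/
theorem integral_two_mul {f : ℝ → ℝ} (hf : Function.Periodic f (2 * π)) (hc : Continuous f) :
    ∫ t in (-π)..π, f (2 * t) = ∫ t in (-π)..π, f t := by
  rw [intervalIntegral.integral_comp_mul_left f (by norm_num : (2:ℝ) ≠ 0)]
  rw [← intervalIntegral.integral_add_adjacent_intervals (b := 0)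
    (hc.intervalIntegrable _ _) (hc.intervalIntegrable _ _)]
  have h1 := hf.intervalIntegral_add_eq (2 * -π) (-π)
  have h2 := hf.intervalIntegral_add_eq 0 (-π)
  rw [show 2 * -π + 2 * π = 0 by ring, show -π + 2 * π = π by ring] at h1
  rw [show (0:ℝ) + 2 * π = 2 * π by ring, show -π + 2 * π = π by ring] at h2
  rw [h1, h2, smul_eq_mul]; ring

theorem integral_sin_sq_eq (φ : ℝ → ℝ) :
    ∫ t in (-π)..π, φ (Real.cos t ^ 2) = ∫ t in (-π)..π, φ (Real.sin t ^ 2) := by
  have hp : Function.Periodic (fun t => φ (Real.sin t ^ 2)) (2 * π) := by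
    intro t; simp only [Real.sin_add_two_pi]
  have h1 : ∀ t : ℝ, φ (Real.cos t ^ 2) = φ (Real.sin (t + π / 2) ^ 2) := by
    intro t; rw [Real.sin_add_pi_div_two]
  simp_rw [h1]
  rw [intervalIntegral.integral_comp_add_right (fun t => φ (Real.sin t ^ 2)) (π / 2)]
  have h2 := hp.intervalIntegral_add_eq (-π + π / 2) (-π)
  rw [show -π + π / 2 + 2 * π = π + π / 2 by ring, show -π + 2 * π = π by ring] at h2
  exact h2

theorem Mo_eq_sin (p : ℝ) (y : ℝ) (hy : |y| < 1) :
    ∫ t in (-π)..π, ((1 + y) ^ 2 - 4 * y * Real.sin t ^ 2) ^ p = Mo p y := by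
  unfold Mo
  have hpos : ∀ t : ℝ, 0 < 1 + 2 * y * Real.cos t + y ^ 2 := by
    intro t
    have h1 := Real.cos_le_one t
    have h2 := Real.neg_one_le_cos t
    have h3 := abs_lt.1 hy
    rcases le_total 0 y with h | h
    · nlinarith [sq_nonneg (1 - y)]
    · nlinarith [sq_nonneg (1 + y)]
  have hc : Continuous fun t : ℝ => (1 + 2 * y * Real.cos t + y ^ 2) ^ p := by
    apply Continuous.rpow_const (by fun_prop)
    intro t; left; exact (hpos t).ne'
  rw [← integral_two_mul (f := fun t : ℝ => (1 + 2 * y * Real.cos t + y ^ 2) ^ p) ?_ hc]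
  · apply intervalIntegral.integral_congr
    intro t _
    simp only
    congr 1
    rw [Real.cos_two_mul]
    have := Real.sin_sq_add_cos_sq t
    linear_combination (-4 * y) * this
  · intro t; simp only [Real.cos_add_two_pi]

end Pool.Agent.H15.Sig
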