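import Pool.Agent.H15.Sig.Reg2

/-!
# Estimates for the perturbation
-/

open Complex Set Filter Topology MeasureTheory
open scoped ComplexConjugate Real

namespace Pool.Agent.H15.Sig

theorem abs_log_norm_le {z : ℂ} (h : ‖z‖ ≤ 1 / 100) : |Real.log ‖1 + z‖| ≤ 51 / 50 * ‖z‖ := by
  have h0 := norm_nonneg z
  have h1 : ‖1 + z‖ ≤ 1 + ‖z‖ := (norm_add_le _ _).trans (by rw [norm_one])
  have h2 : 1 - ‖z‖ ≤ ‖1 + z‖ := by
    have := norm_sub_norm_le (1:ℂ) (-z)
    rw [norm_one, norm_neg, sub_neg_eq_add] at this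
    exact this
  have hpos : 0 < ‖1 + z‖ := by linarith
  rw [abs_le]
  constructor
  · have h3 := Real.one_sub_inv_le_log_of_pos hpos
    have h4 : ‖1 + z‖⁻¹ ≤ 1 + 51 / 50 * ‖z‖ := by
      rw [inv_le_iff_one_le_mul₀ hpos]
      nlinarith
    linarith
  · have h3 := Real.log_le_sub_one_of_pos hpos
    linarith

theorem norm_pow_sub_pow_le {u v : ℂ} {x : ℝ} (hu : ‖u‖ ≤ x) (hv : ‖v‖ ≤ x) :
    ∀ m : ℕ, ‖u ^ (m + 1) - v ^ (m + 1)‖ ≤ (m + 1) * x ^ m * ‖u - v‖
  | 0 => by simp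
  | (m + 1) => by
    have ih := norm_pow_sub_pow_le hu hv m
    have hx0 : 0 ≤ x := (norm_nonneg u).trans hu
    have e : u ^ (m + 1 + 1) - v ^ (m + 1 + 1) =
        u * (u ^ (m + 1) - v ^ (m + 1)) + (u - v) * v ^ (m + 1) := by ring
    rw [e]
    refine (norm_add_le _ _).trans ?_
    rw [norm_mul, norm_mul, norm_pow]
    have h1 : ‖u‖ * ‖u ^ (m + 1) - v ^ (m + 1)‖ ≤ x * ((m + 1) * x ^ m * ‖u - v‖) :=
      mul_le_mul hu ih (norm_nonneg _) hx0
    have h2 : ‖u - v‖ * ‖v‖ ^ (m + 1) ≤ ‖u - v‖ * x ^ (m + 1) :=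
      mul_le_mul_of_nonneg_left (pow_le_pow_left₀ (norm_nonneg _) hv _) (norm_nonneg _)
    push_cast
    have e5 : x ^ (m + 1) = x ^ m * x := pow_succ x m
    rw [e5] at h2 ⊢
    linarith

theorem lin_le_geom (k : ℕ) : ((k : ℝ) + 2) ≤ 2 * (3 / 2) ^ k := by
  have := one_add_mul_le_pow (a := (1 / 2 : ℝ)) (by norm_num) k
  norm_num at this
  linarith

theorem quad_le_geom (k : ℕ) : ((k : ℝ) + 2) * (k + 3) ≤ 6 * (9 / 4) ^ k := by
  have h1 := lin_le_geom k
  have h2 : ((k : ℝ) + 3) ≤ 3 * (3 / 2) ^ k := by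
    have := one_add_mul_le_pow (a := (1 / 2 : ℝ)) (by norm_num) k
    norm_num at this
    have hk : (0:ℝ) ≤ k := Nat.cast_nonneg k
    linarith
  have h3 := mul_le_mul h1 h2 (by positivity) (by positivity)
  refine h3.trans (le_of_eq ?_)
  rw [show (9 / 4 : ℝ) = 3 / 2 * (3 / 2) by norm_num, mul_pow]; ring

/-- the data of a small perturbation of `1 + q u ^ 2` -/
structure Pert (S : ℂ → ℂ) (q : ℝ) (c : ℕ → ℂ) (d m : ℝ) : Prop where
  ser : ∀ u : ℂ, ‖u‖ < 1 → HasSum (fun k => c k * u ^ (k + 3)) (S u - (1 + q * u ^ 2))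
  dif : DifferentiableOn ℂ S (Metric.ball 0 1)
  hc : ∀ k, ‖c k‖ ≤ m * (k + 2) * √d
  hre : ∀ k, |(c k).re| ≤ 3 * (k + 2) * d * 12 ^ (k + 2)
  hq : |q| ≤ 1
  hd0 : 0 ≤ d
  hd1 : d ≤ 1
  hm0 : 0 ≤ m
  hm1 : m ≤ 1

variable {S : ℂ → ℂ} {q : ℝ} {c : ℕ → ℂ} {d m : ℝ} {x : ℝ}

theorem Pert.G_le (h : Pert S q c d m) (hx0 : 0 < x) (hx : x ≤ 1 / 30000) {u : ℂ}
    (hu : ‖u‖ ≤ x) : ‖S u - (1 + q * u ^ 2)‖ ≤ 201 / 100 * m * √d * x ^ 3 := by
  have hx1 : ‖(3 / 2 * x : ℝ)‖ < 1 := by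
    rw [Real.norm_eq_abs, abs_of_nonneg (by positivity)]; linarith
  have h1 : HasSum (fun k : ℕ => 2 * m * √d * x ^ 3 * (3 / 2 * x) ^ k)
      (2 * m * √d * x ^ 3 * (1 - 3 / 2 * x)⁻¹) :=
    (hasSum_geometric_of_norm_lt_one hx1).mul_left _
  have hsd := Real.sqrt_nonneg d
  have h2 := (h.ser u (by linarith)).norm_le_of_bounded h1 (fun k => by
    rw [norm_mul, norm_pow]
    have e1 := h.hc k
    have e2 : ‖u‖ ^ (k + 3) ≤ x ^ (k + 3) := pow_le_pow_left₀ (norm_nonneg _) hu _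
    have e3 := lin_le_geom k
    have hm0 := h.hm0
    calc ‖c k‖ * ‖u‖ ^ (k + 3) ≤ (m * (k + 2) * √d) * x ^ (k + 3) :=
          mul_le_mul e1 e2 (by positivity) (by positivity)
      _ = m * √d * x ^ (k + 3) * (k + 2) := by ring
      _ ≤ m * √d * x ^ (k + 3) * (2 * (3 / 2) ^ k) :=
          mul_le_mul_of_nonneg_left e3 (by positivity)
      _ = _ := by rw [mul_pow]; ring)
  refine h2.trans ?_
  have h3 : (1 - 3 / 2 * x)⁻¹ ≤ 201 / 200 := by
    rw [inv_le_iff_one_le_mul₀ (by linarith)]; nlinarith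
  have h4 : 0 ≤ 2 * m * √d * x ^ 3 := by have := h.hm0; positivity
  have := mul_le_mul_of_nonneg_left h3 h4
  linarith

theorem Pert.G_le' (h : Pert S q c d m) (hx0 : 0 < x) (hx : x ≤ 1 / 30000) {u : ℂ}
    (hu : ‖u‖ ≤ x) : ‖S u - (1 + q * u ^ 2)‖ ≤ 201 / 100 * √d * x ^ 3 := by
  refine (h.G_le hx0 hx hu).trans ?_
  have h1 : 0 ≤ √d * x ^ 3 := by positivity
  have := mul_le_mul_of_nonneg_right h.hm1 h1
  nlinarith

theorem Pert.sq_le (hx0 : 0 < x) (hx : x ≤ 1 / 30000) : x ^ 2 ≤ 1 / 900000000 := by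
  have := pow_le_pow_left₀ hx0.le hx 2; norm_num at this ⊢; linarith

theorem Pert.S0_ge (h : Pert S q c d m) (hx0 : 0 < x) (hx : x ≤ 1 / 30000) {u : ℂ}
    (hu : ‖u‖ ≤ x) : 999 / 1000 ≤ ‖1 + (q : ℂ) * u ^ 2‖ := by
  have h1 : ‖(q : ℂ) * u ^ 2‖ ≤ 1 / 900000000 := by
    rw [norm_mul, norm_pow, norm_real, Real.norm_eq_abs]
    have := Pert.sq_le hx0 hx
    have h2 := pow_le_pow_left₀ (norm_nonneg _) hu 2
    have h3 := h.hq
    nlinarith [abs_nonneg q, norm_nonneg u, sq_nonneg ‖u‖]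
  have h2 := norm_sub_norm_le (1:ℂ) (-((q : ℂ) * u ^ 2))
  rw [norm_one, norm_neg, sub_neg_eq_add] at h2
  linarith

theorem Pert.S_ne (h : Pert S q c d m) (hx0 : 0 < x) (hx : x ≤ 1 / 30000) {u : ℂ}
    (hu : ‖u‖ ≤ x) : S u ≠ 0 := by
  intro h0
  have h1 := h.G_le' hx0 hx hu
  rw [h0, zero_sub, norm_neg] at h1
  have h2 := h.S0_ge hx0 hx hu
  have h3 : √d ≤ 1 := Real.sqrt_le_one.2 h.hd1
  have h4 : x ^ 3 ≤ 1 / 1000 := by
    have := pow_le_pow_left₀ hx0.le hx 3; norm_num at this; linarith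
  have h5 : √d * x ^ 3 ≤ 1 * (1 / 1000) := mul_le_mul h3 h4 (by positivity) (by norm_num)
  nlinarith

theorem Pert.S0_ne (h : Pert S q c d m) (hx0 : 0 < x) (hx : x ≤ 1 / 30000) {u : ℂ}
    (hu : ‖u‖ ≤ x) : 1 + (q : ℂ) * u ^ 2 ≠ 0 := by
  intro h0
  have := h.S0_ge hx0 hx hu
  rw [h0, norm_zero] at this
  linarith

/-- the logarithm of the modulus of the quotient -/
noncomputable def YY (S : ℂ → ℂ) (q x : ℝ) (t : ℝ) : ℝ :=
  Real.log ‖S (x * ec t)‖ - Real.log ‖1 + (q : ℂ) * (x * ec t) ^ 2‖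

theorem circle_log_zero {f : ℂ → ℂ} {x : ℝ} (hx0 : 0 < x) (hx1 : x < 1)
    (hf : DifferentiableOn ℂ f (Metric.ball 0 1)) (h0 : f 0 = 1)
    (hne : ∀ u : ℂ, ‖u‖ ≤ x → f u ≠ 0) : ∫ t in (-π)..π, Real.log ‖f (x * ec t)‖ = 0 := by
  have han : AnalyticOnNhd ℂ f (Metric.closedBall 0 |x|) := by
    intro u hu
    rw [abs_of_pos hx0, mem_closedBall_zero_iff] at hu
    exact (hf.analyticOnNhd Metric.isOpen_ball) u (by rw [mem_ball_zero_iff]; linarith)
  have h1 := han.circleAverage_log_norm_of_ne_zero (fun u hu => hne u (by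
    rw [abs_of_pos hx0, mem_closedBall_zero_iff] at hu; exact hu))
  rw [h0, norm_one, Real.log_one, Real.circleAverage_def, smul_eq_mul] at h1
  have h2 : ∫ θ in (0:ℝ)..(2 * π), Real.log ‖f (circleMap 0 x θ)‖ = 0 := by
    have : (2 * π)⁻¹ ≠ 0 := by positivity
    exact (mul_eq_zero.1 h1).resolve_left this
  have hper : Function.Periodic (fun θ : ℝ => Real.log ‖f (circleMap 0 x θ)‖) (2 * π) := by
    intro θ
    simp only
    rw [periodic_circleMap]
  have h3 := hper.intervalIntegral_add_eq 0 (-π)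
  rw [zero_add, show -π + 2 * π = π by ring, h2] at h3
  have h4 : ∫ t in (-π)..π, Real.log ‖f (x * ec t)‖ =
      ∫ t in (-π)..π, (fun θ : ℝ => Real.log ‖f (circleMap 0 x θ)‖) (-t) := by
    apply intervalIntegral.integral_congr
    intro t _
    simp only
    have : (x : ℂ) * ec t = circleMap 0 x (-t) := by
      unfold ec circleMap; push_cast; rw [zero_add, neg_mul]
    rw [this]
  rw [h4, intervalIntegral.integral_comp_neg (fun θ : ℝ => Real.log ‖f (circleMap 0 x θ)‖), neg_neg]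
  exact h3.symm

theorem Pert.norm_u (hx0 : 0 < x) (t : ℝ) : ‖(x : ℂ) * ec t‖ ≤ x := (norm_mul_ec hx0.le t).le

theorem Pert.cont (h : Pert S q c d m) (hx0 : 0 < x) (hx : x ≤ 1 / 30000) :
    Continuous (YY S q x) := by
  have hSc : Continuous fun t : ℝ => S (x * ec t) := by
    rw [continuous_iff_continuousAt]
    intro t
    have hu : (x : ℂ) * ec t ∈ Metric.ball (0:ℂ) 1 := by
      rw [mem_ball_zero_iff]; have := Pert.norm_u hx0 t; linarith
    have h1 : ContinuousAt S (x * ec t) :=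
      (h.dif.differentiableAt (Metric.isOpen_ball.mem_nhds hu)).continuousAt
    have h2 : ContinuousAt (fun t : ℝ => (x : ℂ) * ec t) t :=
      (continuous_const.mul continuous_ec).continuousAt
    exact ContinuousAt.comp (f := fun t : ℝ => (x : ℂ) * ec t) h1 h2
  have hec := continuous_ec
  have hS0c : Continuous fun t : ℝ => 1 + (q : ℂ) * (x * ec t) ^ 2 := by fun_prop
  unfold YY
  exact (hSc.norm.log fun t => norm_ne_zero_iff.2 (h.S_ne hx0 hx (Pert.norm_u hx0 t))).sub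
    (hS0c.norm.log fun t => norm_ne_zero_iff.2 (h.S0_ne hx0 hx (Pert.norm_u hx0 t)))

theorem Pert.int_zero (h : Pert S q c d m) (hx0 : 0 < x) (hx : x ≤ 1 / 30000) :
    ∫ t in (-π)..π, YY S q x t = 0 := by
  have hS0 : S 0 = 1 := by
    have h1 := h.ser 0 (by simp)
    have h2 : HasSum (fun k => c k * (0:ℂ) ^ (k + 3)) 0 := by
      simp only [pow_succ, mul_zero]; exact hasSum_zero
    have := h1.unique h2
    simp at this
    linear_combination this
  have hSc : Continuous fun t : ℝ => S (x * ec t) := by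
    rw [continuous_iff_continuousAt]
    intro t
    have hu : (x : ℂ) * ec t ∈ Metric.ball (0:ℂ) 1 := by
      rw [mem_ball_zero_iff]; have := Pert.norm_u hx0 t; linarith
    have h1 : ContinuousAt S (x * ec t) :=
      (h.dif.differentiableAt (Metric.isOpen_ball.mem_nhds hu)).continuousAt
    have h2 : ContinuousAt (fun t : ℝ => (x : ℂ) * ec t) t :=
      (continuous_const.mul continuous_ec).continuousAt
    exact ContinuousAt.comp (f := fun t : ℝ => (x : ℂ) * ec t) h1 h2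
  have hec := continuous_ec
  have hS0c : Continuous fun t : ℝ => 1 + (q : ℂ) * (x * ec t) ^ 2 := by fun_prop
  have c1 : Continuous fun t : ℝ => Real.log ‖S (x * ec t)‖ :=
    hSc.norm.log fun t => norm_ne_zero_iff.2 (h.S_ne hx0 hx (Pert.norm_u hx0 t))
  have c2 : Continuous fun t : ℝ => Real.log ‖1 + (q : ℂ) * (x * ec t) ^ 2‖ :=
    hS0c.norm.log fun t => norm_ne_zero_iff.2 (h.S0_ne hx0 hx (Pert.norm_u hx0 t))
  unfold YY
  rw [intervalIntegral.integral_sub (c1.intervalIntegrable _ _) (c2.intervalIntegrable _ _),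
    circle_log_zero hx0 (by linarith) h.dif hS0 fun u hu => h.S_ne hx0 hx hu,
    circle_log_zero (f := fun u => 1 + (q : ℂ) * u ^ 2) hx0 (by linarith)
      (by fun_prop) (by simp) fun u hu => h.S0_ne hx0 hx hu, sub_zero]

/-- relative perturbation -/
noncomputable def eta (S : ℂ → ℂ) (q : ℝ) (u : ℂ) : ℂ :=
  (S u - (1 + q * u ^ 2)) / (1 + q * u ^ 2)

theorem Pert.eta_le (h : Pert S q c d m) (hx0 : 0 < x) (hx : x ≤ 1 / 30000) {u : ℂ}
    (hu : ‖u‖ ≤ x) : ‖eta S q u‖ ≤ 202 / 100 * √d * x ^ 3 := by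
  unfold eta
  rw [norm_div]
  have h1 := h.G_le' hx0 hx hu
  have h2 := h.S0_ge hx0 hx hu
  have h3 : 0 < ‖1 + (q : ℂ) * u ^ 2‖ := by linarith
  rw [div_le_iff₀ h3]
  have h4 : 0 ≤ √d * x ^ 3 := by positivity
  nlinarith

theorem Pert.small (h : Pert S q c d m) (hx0 : 0 < x) (hx : x ≤ 1 / 30000) :
    √d * x ^ 3 ≤ 1 / 1000000 := by
  have h3 : √d ≤ 1 := Real.sqrt_le_one.2 h.hd1
  have h4 : x ^ 3 ≤ 1 / 1000000 := by
    have := pow_le_pow_left₀ hx0.le hx 3; norm_num at this; linarith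
  have h5 : √d * x ^ 3 ≤ 1 * (1 / 1000000) := mul_le_mul h3 h4 (by positivity) (by norm_num)
  linarith

theorem Pert.log_eq (h : Pert S q c d m) (hx0 : 0 < x) (hx : x ≤ 1 / 30000) (t : ℝ) :
    YY S q x t = Real.log ‖1 + eta S q (x * ec t)‖ := by
  have hu := Pert.norm_u hx0 t
  have h1 := h.S_ne hx0 hx hu
  have h2 := h.S0_ne hx0 hx hu
  unfold YY eta
  rw [← Real.log_div (norm_ne_zero_iff.2 h1) (norm_ne_zero_iff.2 h2), ← norm_div]
  congr 2
  generalize (x : ℂ) * ec t = u at h2 ⊢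
  field_simp
  ring

theorem Pert.hb (h : Pert S q c d m) (hx0 : 0 < x) (hx : x ≤ 1 / 30000) (t : ℝ) :
    |YY S q x t| ≤ 3 * √d * x ^ 3 := by
  rw [h.log_eq hx0 hx]
  have h1 := h.eta_le hx0 hx (Pert.norm_u hx0 t)
  have h2 := h.small hx0 hx
  have h3 : 0 ≤ √d * x ^ 3 := by positivity
  refine (abs_log_norm_le (by nlinarith)).trans ?_
  nlinarith

theorem conj_u (x t : ℝ) : (x : ℂ) * ec (-t) = conj ((x : ℂ) * ec t) := by
  rw [map_mul, conj_ofReal, conj_ec]
  congr 1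
  unfold ec
  rw [← exp_neg]; congr 1; push_cast; ring

/-- the symmetrised perturbation -/
theorem Pert.G_symm (h : Pert S q c d m) (hx0 : 0 < x) (hx : x ≤ 1 / 30000) {u : ℂ}
    (hu : ‖u‖ ≤ x) :
    ‖(S u - (1 + q * u ^ 2)) + conj (S (conj u) - (1 + q * (conj u) ^ 2))‖ ≤ 1740 * d * x ^ 3 := by
  have hu1 : ‖u‖ < 1 := by linarith
  have h1 := h.ser u hu1
  have h2 := h.ser (conj u) (by rw [norm_conj]; exact hu1)
  have h3 := (Complex.hasSum_conj' ).2 h2
  have h4 := h1.add h3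
  have hx1 : ‖(18 * x : ℝ)‖ < 1 := by
    rw [Real.norm_eq_abs, abs_of_nonneg (by positivity)]; linarith
  have h5 : HasSum (fun k : ℕ => 1728 * d * x ^ 3 * (18 * x) ^ k)
      (1728 * d * x ^ 3 * (1 - 18 * x)⁻¹) :=
    (hasSum_geometric_of_norm_lt_one hx1).mul_left _
  have hd0 := h.hd0
  have h6 := h4.norm_le_of_bounded h5 (fun k => by
    have e0 : c k * u ^ (k + 3) + conj (c k * (conj u) ^ (k + 3)) =
        ((2 * (c k).re : ℝ) : ℂ) * u ^ (k + 3) := by
      rw [map_mul, map_pow, conj_conj, ← add_mul, Complex.add_conj]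
    rw [e0, norm_mul, norm_pow, norm_real, Real.norm_eq_abs, abs_mul, abs_two]
    have e1 := h.hre k
    have e2 : ‖u‖ ^ (k + 3) ≤ x ^ (k + 3) := pow_le_pow_left₀ (norm_nonneg _) hu _
    have e3 := lin_le_geom k
    calc 2 * |(c k).re| * ‖u‖ ^ (k + 3)
        ≤ 2 * (3 * (k + 2) * d * 12 ^ (k + 2)) * x ^ (k + 3) :=
          mul_le_mul (by linarith) e2 (by positivity) (by positivity)
      _ = 6 * d * 12 ^ (k + 2) * x ^ (k + 3) * (k + 2) := by ring
      _ ≤ 6 * d * 12 ^ (k + 2) * x ^ (k + 3) * (2 * (3 / 2) ^ k) :=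
          mul_le_mul_of_nonneg_left e3 (by positivity)
      _ = 1728 * d * x ^ 3 * (12 ^ k * (3 / 2) ^ k * x ^ k) := by ring
      _ = 1728 * d * x ^ 3 * (18 * x) ^ k := by
          rw [← mul_pow, ← mul_pow]; norm_num)
  refine h6.trans ?_
  have h7 : (1 - 18 * x)⁻¹ ≤ 1740 / 1728 := by
    rw [inv_le_iff_one_le_mul₀ (by linarith)]; nlinarith
  have h8 : 0 ≤ 1728 * d * x ^ 3 := by positivity
  have := mul_le_mul_of_nonneg_left h7 h8
  linarith

theorem conj_S0 (q : ℝ) (u : ℂ) : conj (1 + (q : ℂ) * (conj u) ^ 2) = 1 + (q : ℂ) * u ^ 2 := by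
  rw [map_add, map_mul, map_pow, map_one, conj_ofReal, conj_conj]

theorem Pert.he (h : Pert S q c d m) (hx0 : 0 < x) (hx : x ≤ 1 / 30000) (t : ℝ) :
    |YY S q x t + YY S q x (-t)| ≤ 2000 * d * x ^ 3 := by
  rw [h.log_eq hx0 hx, h.log_eq hx0 hx, conj_u]
  have hu := Pert.norm_u hx0 t
  set u := (x : ℂ) * ec t with hud
  have huc : ‖conj u‖ ≤ x := by rw [norm_conj]; exact hu
  have hS0 := h.S0_ne hx0 hx hu
  have hd0 := h.hd0
  have hn1 := h.eta_le hx0 hx hu
  have hn2 := h.eta_le hx0 hx huc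
  have hsm := h.small hx0 hx
  have hsp : 0 ≤ √d * x ^ 3 := by positivity
  have hne1 : 1 + eta S q u ≠ 0 := by
    intro h0
    have : eta S q u = -1 := by linear_combination h0
    rw [this, norm_neg, norm_one] at hn1; linarith
  have hne2 : 1 + eta S q (conj u) ≠ 0 := by
    intro h0
    have : eta S q (conj u) = -1 := by linear_combination h0
    rw [this, norm_neg, norm_one] at hn2; linarith
  have e1 : ‖1 + eta S q (conj u)‖ = ‖1 + conj (eta S q (conj u))‖ := by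
    rw [← norm_conj, map_add, map_one]
  have hne3 : 1 + conj (eta S q (conj u)) ≠ 0 := by
    rw [← norm_ne_zero_iff, ← e1, norm_ne_zero_iff]; exact hne2
  rw [e1, ← Real.log_mul (norm_ne_zero_iff.2 hne1) (norm_ne_zero_iff.2 hne3), ← norm_mul]
  have e2 : conj (eta S q (conj u)) =
      conj (S (conj u) - (1 + q * (conj u) ^ 2)) / (1 + q * u ^ 2) := by
    unfold eta
    rw [map_div₀, conj_S0]
  have e3 : (1 + eta S q u) * (1 + conj (eta S q (conj u))) =
      1 + (((S u - (1 + q * u ^ 2)) + conj (S (conj u) - (1 + q * (conj u) ^ 2))) /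
        (1 + q * u ^ 2) + eta S q u * conj (eta S q (conj u))) := by
    rw [add_div, ← e2]
    have : eta S q u = (S u - (1 + q * u ^ 2)) / (1 + q * u ^ 2) := rfl
    rw [← this]; ring
  rw [e3]
  have b1 : ‖((S u - (1 + q * u ^ 2)) + conj (S (conj u) - (1 + q * (conj u) ^ 2))) /
        (1 + q * u ^ 2)‖ ≤ 1750 * d * x ^ 3 := by
    rw [norm_div]
    have h1 := h.G_symm hx0 hx hu
    have h2 := h.S0_ge hx0 hx hu
    have h3 : 0 < ‖1 + (q : ℂ) * u ^ 2‖ := by linarith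
    rw [div_le_iff₀ h3]
    have h4 : 0 ≤ d * x ^ 3 := by positivity
    nlinarith
  have b2 : ‖eta S q u * conj (eta S q (conj u))‖ ≤ d * x ^ 3 := by
    rw [norm_mul, norm_conj]
    have h1 := mul_le_mul hn1 hn2 (norm_nonneg _) (by positivity)
    refine h1.trans ?_
    have h2 : 202 / 100 * √d * x ^ 3 * (202 / 100 * √d * x ^ 3) =
        (202 / 100) ^ 2 * (√d * √d) * (x ^ 3 * x ^ 3) := by ring
    rw [h2, Real.mul_self_sqrt hd0]
    have h3 : x ^ 3 ≤ 1 / 1000000 := by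
      have := pow_le_pow_left₀ hx0.le hx 3; norm_num at this; linarith
    have h4 : 0 ≤ d * x ^ 3 := by positivity
    have h5 : x ^ 3 * (d * x ^ 3) ≤ 1 / 1000000 * (d * x ^ 3) := mul_le_mul_of_nonneg_right h3 h4
    nlinarith
  have b3 := (norm_add_le (((S u - (1 + q * u ^ 2)) + conj (S (conj u) - (1 + q * (conj u) ^ 2))) /
        (1 + q * u ^ 2)) (eta S q u * conj (eta S q (conj u)))).trans (add_le_add b1 b2)
  have b4 : d * x ^ 3 ≤ 1 / 1000000 := by
    have h3 : x ^ 3 ≤ 1 / 1000000 := by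
      have := pow_le_pow_left₀ hx0.le hx 3; norm_num at this; linarith
    have := mul_le_mul h.hd1 h3 (by positivity) (by norm_num)
    linarith
  have b5 : 0 ≤ d * x ^ 3 := by positivity
  refine (abs_log_norm_le (by linarith)).trans ?_
  linarith

theorem Pert.ho (h : Pert S q c d m) (hm : m ≤ 1 / 2) (hx0 : 0 < x) (hx : x ≤ 1 / 30000) (t : ℝ) :
    |YY S q x t - YY S q x (-t)| ≤ 8 * √d * x ^ 3 * √(Real.sin t ^ 2) := by
  rw [h.log_eq hx0 hx, h.log_eq hx0 hx, conj_u, Real.sqrt_sq_eq_abs]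
  have hu := Pert.norm_u hx0 t
  set u := (x : ℂ) * ec t with hud
  have huc : ‖conj u‖ ≤ x := by rw [norm_conj]; exact hu
  have hS0 := h.S0_ne hx0 hx hu
  have hS0c := h.S0_ne hx0 hx huc
  have hd0 := h.hd0
  have hn1 := h.eta_le hx0 hx hu
  have hn2 := h.eta_le hx0 hx huc
  have hsm := h.small hx0 hx
  have hsp : 0 ≤ √d * x ^ 3 := by positivity
  have hsd := Real.sqrt_nonneg d
  have hne1 : 1 + eta S q u ≠ 0 := by
    intro h0
    have : eta S q u = -1 := by linear_combination h0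
    rw [this, norm_neg, norm_one] at hn1; linarith
  have hne2 : 1 + eta S q (conj u) ≠ 0 := by
    intro h0
    have : eta S q (conj u) = -1 := by linear_combination h0
    rw [this, norm_neg, norm_one] at hn2; linarith
  -- distance between u and its conjugate
  have huu : ‖u - conj u‖ = 2 * x * |Real.sin t| := by
    rw [Complex.sub_conj]
    have : u.im = -(x * Real.sin t) := by
      rw [hud]
      unfold ec
      rw [show (-((t:ℂ) * I)) = ((-t : ℝ) : ℂ) * I by push_cast; ring, im_ofReal_mul,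
        exp_ofReal_mul_I_im, Real.sin_neg]; ring
    rw [norm_mul, Complex.norm_I, mul_one, this, norm_real, Real.norm_eq_abs, abs_mul, abs_two,
      abs_neg, abs_mul, abs_of_pos hx0]; ring
  set L := |Real.sin t| with hL
  have hL0 : 0 ≤ L := abs_nonneg _
  -- difference of G
  have hG : ‖(S u - (1 + q * u ^ 2)) - (S (conj u) - (1 + q * (conj u) ^ 2))‖ ≤
      61 / 10 * √d * x ^ 3 * L := by
    have h1 := h.ser u (by linarith)
    have h2 := h.ser (conj u) (by linarith)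
    have h3 := h1.sub h2
    have hx1 : ‖(9 / 4 * x : ℝ)‖ < 1 := by
      rw [Real.norm_eq_abs, abs_of_nonneg (by positivity)]; linarith
    have h5 : HasSum (fun k : ℕ => 6 * √d * x ^ 3 * L * (9 / 4 * x) ^ k)
        (6 * √d * x ^ 3 * L * (1 - 9 / 4 * x)⁻¹) :=
      (hasSum_geometric_of_norm_lt_one hx1).mul_left _
    have h6 := h3.norm_le_of_bounded h5 (fun k => by
      rw [← mul_sub, norm_mul]
      have e1 := h.hc k
      have e1' : ‖c k‖ ≤ 1 / 2 * (k + 2) * √d := by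
        refine e1.trans ?_
        have : 0 ≤ ((k:ℝ) + 2) * √d := by positivity
        nlinarith
      have e2 := norm_pow_sub_pow_le hu huc (k + 2)
      rw [huu] at e2
      push_cast at e2
      have e3 := quad_le_geom k
      calc ‖c k‖ * ‖u ^ (k + 3) - (conj u) ^ (k + 3)‖
          ≤ (1 / 2 * (k + 2) * √d) * ((k + 2 + 1) * x ^ (k + 2) * (2 * x * L)) :=
            mul_le_mul e1' e2 (norm_nonneg _) (by positivity)
        _ = √d * L * x ^ (k + 3) * ((k + 2) * (k + 3)) := by ring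
        _ ≤ √d * L * x ^ (k + 3) * (6 * (9 / 4) ^ k) :=
            mul_le_mul_of_nonneg_left e3 (by positivity)
        _ = _ := by rw [mul_pow]; ring)
    refine h6.trans ?_
    have h7 : (1 - 9 / 4 * x)⁻¹ ≤ 61 / 60 := by
      rw [inv_le_iff_one_le_mul₀ (by linarith)]; nlinarith
    have h8 : 0 ≤ 6 * √d * x ^ 3 * L := by positivity
    have := mul_le_mul_of_nonneg_left h7 h8
    linarith
  -- difference of eta
  have hE : ‖eta S q u - eta S q (conj u)‖ ≤ 7 * √d * x ^ 3 * L := by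
    have e1 : eta S q u - eta S q (conj u) =
        ((S u - (1 + q * u ^ 2)) - (S (conj u) - (1 + q * (conj u) ^ 2))) / (1 + q * u ^ 2) -
        eta S q (conj u) * (q * (u ^ 2 - (conj u) ^ 2)) / (1 + q * u ^ 2) := by
      unfold eta
      field_simp
      ring
    rw [e1]
    refine (norm_sub_le _ _).trans ?_
    rw [norm_div, norm_div, norm_mul, norm_mul]
    have h2 := h.S0_ge hx0 hx hu
    have h3 : 0 < ‖1 + (q : ℂ) * u ^ 2‖ := by linarith
    rw [← add_div, div_le_iff₀ h3]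
    have h4 := norm_pow_sub_pow_le hu huc 1
    rw [huu] at h4
    norm_num at h4
    have h5 : ‖(q : ℂ)‖ * ‖u ^ 2 - (conj u) ^ 2‖ ≤ 1 * (2 * x * (2 * x * L)) := by
      apply mul_le_mul _ h4 (norm_nonneg _) (by norm_num)
      rw [norm_real, Real.norm_eq_abs]; exact h.hq
    have h6 : ‖eta S q (conj u)‖ * (‖(q : ℂ)‖ * ‖u ^ 2 - (conj u) ^ 2‖) ≤
        (202 / 100 * √d * x ^ 3) * (1 * (2 * x * (2 * x * L))) :=
      mul_le_mul hn2 h5 (by positivity) (by positivity)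
    have h7 : (202 / 100 * √d * x ^ 3) * (1 * (2 * x * (2 * x * L))) =
        202 / 25 * x ^ 2 * (√d * x ^ 3 * L) := by ring
    have h8 := Pert.sq_le hx0 hx
    have h9 : 0 ≤ √d * x ^ 3 * L := by positivity
    have h10 : x ^ 2 * (√d * x ^ 3 * L) ≤ 1 / 900000000 * (√d * x ^ 3 * L) :=
      mul_le_mul_of_nonneg_right h8 h9
    nlinarith
  -- conclusion
  rw [← Real.log_div (norm_ne_zero_iff.2 hne1) (norm_ne_zero_iff.2 hne2), ← norm_div]
  have e4 : (1 + eta S q u) / (1 + eta S q (conj u)) =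
      1 + (eta S q u - eta S q (conj u)) / (1 + eta S q (conj u)) := by
    field_simp; ring
  rw [e4]
  have b1 : 999 / 1000 ≤ ‖1 + eta S q (conj u)‖ := by
    have := norm_sub_norm_le (1:ℂ) (-(eta S q (conj u)))
    rw [norm_one, norm_neg, sub_neg_eq_add] at this
    nlinarith
  have hL1 : L ≤ 1 := Real.abs_sin_le_one t
  have b2 : ‖(eta S q u - eta S q (conj u)) / (1 + eta S q (conj u))‖ ≤
      71 / 10 * √d * x ^ 3 * L := by
    rw [norm_div, div_le_iff₀ (by linarith)]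
    have h9 : 0 ≤ √d * x ^ 3 * L := by positivity
    nlinarith
  have b3 : √d * x ^ 3 * L ≤ 1 / 1000000 := by
    have := mul_le_mul hsm hL1 hL0 (by norm_num : (0:ℝ) ≤ 1 / 1000000)
    linarith
  have b4 : 0 ≤ √d * x ^ 3 * L := by positivity
  refine (abs_log_norm_le (by nlinarith)).trans ?_
  nlinarith

end Pool.Agent.H15.Sig
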