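import Pool.Agent.H15.Sig.Conc

/-!
# The two regimes
-/

open Complex Set Filter Topology MeasureTheory
open scoped ComplexConjugate Real

namespace Pool.Agent.H15.Sig

variable {s : ℝ → ℝ}

theorem integral_symm {f : ℝ → ℝ} (hf : Continuous f) :
    ∫ t in (-π)..π, f t = ∫ t in (-π)..π, (f t + f (-t)) / 2 := by
  have h1 : ∫ t in (-π)..π, f (-t) = ∫ t in (-π)..π, f t := by
    rw [intervalIntegral.integral_comp_neg]; simp
  have h2 : Continuous fun t => f (-t) := hf.comp continuous_neg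
  have h3 : ∫ t in (-π)..π, (f t + f (-t)) / 2 =
      (∫ t in (-π)..π, (f t + f (-t))) / 2 := intervalIntegral.integral_div _ _
  rw [h3, intervalIntegral.integral_add (hf.intervalIntegrable _ _) (h2.intervalIntegrable _ _),
    h1]
  ring

theorem SF.Mo_nonneg (hs : SF s) {p X : ℝ} (hX0 : 0 ≤ X) (hX : X < 1) : 0 ≤ Mo p X := by
  rw [← hs.int_Dw hX0 hX]
  exact intervalIntegral.integral_nonneg (by linarith [Real.pi_pos]) fun t _ =>
    Real.rpow_nonneg (hs.Dw_pos hX0 hX t).le p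

theorem SF.ratio (hs : SF s) {X y : ℝ} (hy0 : 0 ≤ y) (hyX : y ≤ X) (hX : X ≤ 1 / 1000) (t : ℝ) :
    Dw s y t ≤ Dw s X t * Real.exp ((-(198 / 100) + 41 / 10 * s t) * (X - y)) := by
  have hX0 : 0 ≤ X := hy0.trans hyX
  have hX1 : X < 1 := by linarith
  have hD := hs.Dw_ge hX0 t
  have hDpos := hs.Dw_pos hX0 hX1 t
  have hs0 := hs.nonneg t
  have hs1 := hs.le_one t
  have e1 : Dw s y t * (1 + X) ^ 2 = Dw s X t * (1 + y) ^ 2 + 4 * s t * (X - y) * (1 - X * y) := by
    unfold Dw; ring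
  have hz0 : 0 ≤ (X - y) * s t := mul_nonneg (by linarith) hs0
  -- first factor
  have e2 : (1 + y) ≤ (1 + X) * Real.exp (-(99 / 100) * (X - y)) := by
    have h1 : 1 - (X - y) * (99 / 100) ≤ Real.exp (-(99 / 100) * (X - y)) := by
      have := Real.add_one_le_exp (-(99 / 100) * (X - y)); linarith
    have h2 : (1 + X) * (1 - (X - y) * (99 / 100)) ≤
        (1 + X) * Real.exp (-(99 / 100) * (X - y)) := mul_le_mul_of_nonneg_left h1 (by linarith)
    have h3 : X * (X - y) ≤ 1 / 1000 * (X - y) := mul_le_mul_of_nonneg_right hX (by linarith)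
    nlinarith
  have e3 : (1 + y) ^ 2 ≤ (1 + X) ^ 2 * Real.exp (-(198 / 100) * (X - y)) := by
    have h1 := pow_le_pow_left₀ (by linarith) e2 2
    rw [mul_pow, ← Real.exp_nat_mul] at h1
    refine h1.trans (le_of_eq ?_)
    congr 2
    push_cast; ring
  have e4 : 4 * s t * (X - y) * (1 - X * y) ≤
      Dw s X t * (1 + y) ^ 2 * (41 / 10 * ((X - y) * s t)) := by
    have h1 : (1:ℝ) - 1 / 1000 ≤ 1 - X := by linarith
    have h2 : (998 / 1000 : ℝ) ≤ (1 - X) ^ 2 := by nlinarith
    have h3 : (998 / 1000 : ℝ) ≤ Dw s X t * (1 + y) ^ 2 := by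
      have : (1:ℝ) ≤ (1 + y) ^ 2 := by nlinarith
      nlinarith
    have h4 : 4 * s t * (X - y) * (1 - X * y) ≤ 4 * ((X - y) * s t) := by
      have : 0 ≤ X * y := mul_nonneg hX0 hy0
      nlinarith
    nlinarith
  have e5 : 1 + 41 / 10 * ((X - y) * s t) ≤ Real.exp (41 / 10 * ((X - y) * s t)) := by
    have := Real.add_one_le_exp (41 / 10 * ((X - y) * s t)); linarith
  have hb : Dw s y t * (1 + X) ^ 2 ≤
      (Dw s X t * Real.exp ((-(198 / 100) + 41 / 10 * s t) * (X - y))) * (1 + X) ^ 2 := by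
    have hexp : Real.exp ((-(198 / 100) + 41 / 10 * s t) * (X - y)) =
        Real.exp (-(198 / 100) * (X - y)) * Real.exp (41 / 10 * ((X - y) * s t)) := by
      rw [← Real.exp_add]; congr 1; ring
    rw [e1, hexp]
    calc Dw s X t * (1 + y) ^ 2 + 4 * s t * (X - y) * (1 - X * y)
        ≤ Dw s X t * (1 + y) ^ 2 * (1 + 41 / 10 * ((X - y) * s t)) := by linarith
      _ ≤ Dw s X t * (1 + y) ^ 2 * Real.exp (41 / 10 * ((X - y) * s t)) :=
          mul_le_mul_of_nonneg_left e5 (by positivity)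
      _ ≤ Dw s X t * ((1 + X) ^ 2 * Real.exp (-(198 / 100) * (X - y))) *
            Real.exp (41 / 10 * ((X - y) * s t)) := by
          apply mul_le_mul_of_nonneg_right _ (Real.exp_pos _).le
          exact mul_le_mul_of_nonneg_left e3 hDpos.le
      _ = _ := by ring
  exact le_of_mul_le_mul_right hb (by positivity)

theorem SF.main2 (hs : SF s) {p X y a : ℝ} (hp : 0 < p) (hy0 : 0 ≤ y) (hyX : y ≤ X)
    (hX0 : 0 < X) (hX : X ≤ 1 / 1000) (hω : p * (X - y) ≤ p * X / 10) (ha0 : 0 ≤ a)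
    (ha : a ≤ 3 / 2 * (p * X)) :
    ∫ t in (-π)..π, (Dw s y t) ^ p * Real.exp (a * s t) ≤
      Real.exp (-(198 / 100) * (p * (X - y)) +
        63 / 100 * ((41 / 10 * (p * (X - y)) + a) / (p * X))) * Mo p X := by
  have hX1 : X < 1 := by linarith
  have hω0 : 0 ≤ p * (X - y) := mul_nonneg hp.le (by linarith)
  set ω := p * (X - y) with hωd
  have hτ0 : 0 < p * X := by positivity
  set a' := 41 / 10 * ω + a with ha'
  have ha'0 : 0 ≤ a' := by positivity
  have h1X : (1 + X) ^ 2 ≤ 1.0021 := by nlinarith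
  have hκ : 199 / 100 * (p * X) ≤ 2 * p * X / (1 + X) ^ 2 := by
    rw [le_div_iff₀ (by positivity)]
    nlinarith
  have ha'κ : a' ≤ 2 * p * X / (1 + X) ^ 2 := by
    refine le_trans ?_ hκ
    rw [ha']; nlinarith
  have hc := hs.conc hp hX0 hX1 ha'0 ha'κ
  have hcy := hs.cont_Dw (p := p) hy0 (by linarith : y < 1)
  have hcX := hs.cont_Dw (p := p) hX0.le hX1
  have hsc := hs.cont
  have hM0 := hs.Mo_nonneg (p := p) hX0.le hX1
  have hE : ∀ a : ℝ, Continuous fun t => Real.exp (a * s t) := fun a => by fun_prop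
  have h1 : ∫ t in (-π)..π, (Dw s y t) ^ p * Real.exp (a * s t) ≤
      ∫ t in (-π)..π, Real.exp (-(198 / 100) * ω) * ((Dw s X t) ^ p * Real.exp (a' * s t)) := by
    apply intervalIntegral.integral_mono_on (by linarith [Real.pi_pos])
    · exact (hcy.mul (hE a)).intervalIntegrable _ _
    · exact (continuous_const.mul (hcX.mul (hE a'))).intervalIntegrable _ _
    · intro t _
      have h2 := hs.ratio hy0 hyX hX t
      have h3 : (Dw s y t) ^ p ≤
          (Dw s X t * Real.exp ((-(198 / 100) + 41 / 10 * s t) * (X - y))) ^ p :=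
        Real.rpow_le_rpow (hs.Dw_pos hy0 (by linarith) t).le h2 hp.le
      rw [Real.mul_rpow (hs.Dw_pos hX0.le hX1 t).le (Real.exp_pos _).le, ← Real.exp_mul] at h3
      have h4 := mul_le_mul_of_nonneg_right h3 (Real.exp_pos (a * s t)).le
      refine h4.trans (le_of_eq ?_)
      rw [show Real.exp (-(198 / 100) * ω) * ((Dw s X t) ^ p * Real.exp (a' * s t)) =
        (Dw s X t) ^ p * (Real.exp (-(198 / 100) * ω) * Real.exp (a' * s t)) by ring,
        mul_assoc, ← Real.exp_add, ← Real.exp_add]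
      congr 2
      rw [ha', hωd]; ring
  rw [intervalIntegral.integral_const_mul] at h1
  have h5 : Real.exp (5 / 4 * (a' / (2 * p * X / (1 + X) ^ 2))) ≤
      Real.exp (63 / 100 * (a' / (p * X))) := by
    apply Real.exp_le_exp.2
    have h6 : a' / (2 * p * X / (1 + X) ^ 2) ≤ a' / (199 / 100 * (p * X)) :=
      div_le_div_of_nonneg_left ha'0 (by positivity) hκ
    have h7 : a' / (199 / 100 * (p * X)) = 100 / 199 * (a' / (p * X)) := by
      field_simp
    rw [h7] at h6
    have h8 : 0 ≤ a' / (p * X) := by positivity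
    nlinarith
  have h9 := h1.trans (mul_le_mul_of_nonneg_left hc (Real.exp_pos _).le)
  refine h9.trans ?_
  rw [← mul_assoc]
  apply mul_le_mul_of_nonneg_right _ hM0
  rw [Real.exp_add]
  exact mul_le_mul_of_nonneg_left h5 (Real.exp_pos _).le

/-- first regime: `p x ^ 2 ≤ 3 / 2` -/
theorem SF.regime_one (hs : SF s) {p x β : ℝ} (hp : 0 < p) (hx0 : 0 < x) (hx : x ≤ 1 / 30000)
    (hβ0 : 0 ≤ β) (hβ1 : β ≤ 1) (hτ : p * x ^ 2 ≤ 3 / 2) {Y : ℝ → ℝ} (hYc : Continuous Y)
    (h0 : ∫ t in (-π)..π, Y t = 0)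
    (he : ∀ t, |Y t + Y (-t)| ≤ 2000 * (1 - β ^ 2) * x ^ 3)
    (hb : ∀ t, |Y t| ≤ 3 * √(1 - β ^ 2) * x ^ 3) :
    ∫ t in (-π)..π, (Dw s (β * x ^ 2) t) ^ p * Real.exp (2 * p * Y t) ≤
      Mo p (x ^ 2) - 2 * π * (1 / 10 * ((1 - β ^ 2) * (p * x ^ 2) ^ 2)) := by
  set δ := 1 - β ^ 2 with hδ
  have hδ0 : 0 ≤ δ := by rw [hδ]; nlinarith
  have hδ1 : δ ≤ 1 := by rw [hδ]; nlinarith [sq_nonneg β]
  set y := β * x ^ 2 with hy
  have hx2 : x ^ 2 ≤ 1 / 900000000 := by
    have := pow_le_pow_left₀ hx0.le hx 2; norm_num at this ⊢; linarith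
  have hy0 : 0 ≤ y := by positivity
  have hyx : y ≤ x ^ 2 := by rw [hy]; nlinarith [sq_nonneg x]
  have hy1 : y < 1 := by linarith
  set τ := p * x ^ 2 with hτd
  have hτ0 : 0 < τ := by positivity
  have hpy : p * y ≤ τ := mul_le_mul_of_nonneg_left hyx hp.le
  set w : ℝ → ℝ := fun t => (Dw s y t) ^ p with hw
  have hwc : Continuous w := hs.cont_Dw hy0 hy1
  have hw0 : ∀ t, 0 < w t := fun t => Real.rpow_pos_of_pos (hs.Dw_pos hy0 hy1 t) p
  have hweven : ∀ t, w (-t) = w t := by intro t; simp only [hw, Dw, hs.even]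
  -- size of the weight
  have hexp3 : Real.exp 3 ≤ 20.1 := by
    have h1 : Real.exp 3 = Real.exp 1 ^ 3 := by rw [← Real.exp_nat_mul]; norm_num
    have h2 := Real.exp_one_lt_d9
    have h3 := Real.exp_pos 1
    rw [h1]
    have := pow_le_pow_left₀ h3.le h2.le 3
    norm_num at this ⊢; linarith
  have hwup : ∀ t, w t ≤ Real.exp (2 * τ) := by
    intro t
    have h1 : Dw s y t ≤ Real.exp (2 * y) := by
      refine (hs.Dw_le hy0 t).trans ?_
      have := Real.add_one_le_exp y
      have h2 := pow_le_pow_left₀ (by linarith) this 2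
      rw [← Real.exp_nat_mul] at h2
      rw [add_comm 1 y]
      refine h2.trans (le_of_eq ?_)
      norm_num
    have h2 := Real.rpow_le_rpow (hs.Dw_pos hy0 hy1 t).le h1 hp.le
    rw [← Real.exp_mul] at h2
    refine h2.trans (Real.exp_le_exp.2 ?_)
    linarith
  have hwup2 : ∀ t, w t ≤ 20.1 := fun t =>
    (hwup t).trans ((Real.exp_le_exp.2 (by linarith)).trans hexp3)
  have hw1 : ∀ t, |w t - 1| ≤ 13 * τ := by
    intro t
    rw [abs_le]
    constructor
    · have h1 : (1 - y) ^ 2 ≤ Dw s y t := hs.Dw_ge hy0 t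
      have h2 : 1 - 3 * (p * y) ≤ w t := by
        have h3 : ((1 - y) ^ 2) ^ p ≤ w t := Real.rpow_le_rpow (by positivity) h1 hp.le
        refine le_trans ?_ h3
        rw [Real.rpow_def_of_pos (by nlinarith : 0 < (1 - y) ^ 2), Real.log_pow]
        have h4 := Real.one_sub_inv_le_log_of_pos (by linarith : 0 < 1 - y)
        have h5 := Real.add_one_le_exp (((2:ℕ):ℝ) * Real.log (1 - y) * p)
        refine le_trans ?_ h5
        have h6 : -(3 / 2) * y ≤ 1 - (1 - y)⁻¹ := by
          have : (1 - y)⁻¹ ≤ 1 + 3 / 2 * y := by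
            rw [inv_le_iff_one_le_mul₀ (by linarith)]
            nlinarith
          linarith
        have h7 : -(3 / 2) * y ≤ Real.log (1 - y) := h6.trans h4
        have h8 := mul_le_mul_of_nonneg_left h7 hp.le
        push_cast
        nlinarith
      linarith
    · have h1 : Real.exp (2 * τ) ≤ 1 + 13 * τ := by
        have hθ0 : 0 ≤ 2 / 3 * τ := by positivity
        have hθ1 : 0 ≤ 1 - 2 / 3 * τ := by linarith
        have hcv := convexOn_exp.2 (mem_univ (0:ℝ)) (mem_univ (3:ℝ)) hθ1 hθ0 (by ring)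
        simp only [smul_eq_mul, mul_zero, zero_add, Real.exp_zero, mul_one] at hcv
        have : 2 / 3 * τ * 3 = 2 * τ := by ring
        rw [this] at hcv
        nlinarith
      linarith [hwup t]
  have hYp : ∀ t, |2 * p * Y t| ≤ 6 * √δ * (τ * x) := by
    intro t
    rw [abs_mul, abs_of_nonneg (by positivity : 0 ≤ 2 * p)]
    have := mul_le_mul_of_nonneg_left (hb t) (by positivity : 0 ≤ 2 * p)
    refine this.trans (le_of_eq ?_)
    rw [hτd]; ring
  have hd1 : √δ ≤ 1 := Real.sqrt_le_one.2 hδ1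
  have hd0 : 0 ≤ √δ := Real.sqrt_nonneg _
  have hYp1 : ∀ t, |2 * p * Y t| ≤ 1 := by
    intro t
    refine (hYp t).trans ?_
    have h1 : τ * x ≤ 3 / 2 * (1 / 30000) := mul_le_mul hτ hx hx0.le (by norm_num)
    have h2 : 0 ≤ τ * x := by positivity
    nlinarith
  have hpt : ∀ t, w t * Real.exp (2 * p * Y t) ≤
      w t + 2 * p * (w t * Y t) + 20.1 * (36 * δ * (τ * x) ^ 2) := by
    intro t
    have h1 := (abs_le.1 (Real.abs_exp_sub_one_sub_id_le (hYp1 t))).2
    have h2 : Real.exp (2 * p * Y t) ≤ 1 + 2 * p * Y t + (2 * p * Y t) ^ 2 := by linarith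
    have h3 : (2 * p * Y t) ^ 2 ≤ 36 * δ * (τ * x) ^ 2 := by
      have h4 := pow_le_pow_left₀ (abs_nonneg _) (hYp t) 2
      rw [sq_abs] at h4
      have h4' : (6 * √δ * (τ * x)) ^ 2 = 36 * δ * (τ * x) ^ 2 := by
        rw [mul_pow, mul_pow, Real.sq_sqrt hδ0]; norm_num
      rw [h4'] at h4
      exact h4
    have h5 := mul_le_mul_of_nonneg_left h2 (hw0 t).le
    have h6 : w t * (2 * p * Y t) ^ 2 ≤ 20.1 * (36 * δ * (τ * x) ^ 2) :=
      mul_le_mul (hwup2 t) h3 (sq_nonneg _) (by norm_num)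
    nlinarith
  have hwY : Continuous fun t => w t * Y t := hwc.mul hYc
  have hB : Continuous fun t => 2 * p * (w t * Y t) := continuous_const.mul hwY
  have hA : Continuous fun t => w t + 2 * p * (w t * Y t) := hwc.add hB
  have h1 : ∫ t in (-π)..π, w t * Real.exp (2 * p * Y t) ≤
      ∫ t in (-π)..π, (w t + 2 * p * (w t * Y t) + 20.1 * (36 * δ * (τ * x) ^ 2)) := by
    apply intervalIntegral.integral_mono_on (by linarith [Real.pi_pos])
    · exact (hwc.mul (by fun_prop)).intervalIntegrable _ _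
    · exact (hA.add continuous_const).intervalIntegrable _ _
    · intro t _; exact hpt t
  rw [intervalIntegral.integral_add (hA.intervalIntegrable _ _)
      (continuous_const.intervalIntegrable _ _),
    intervalIntegral.integral_add (hwc.intervalIntegrable _ _)
      (hB.intervalIntegrable _ _),
    intervalIntegral.integral_const_mul, intervalIntegral.integral_const, smul_eq_mul] at h1
  have hMy : ∫ t in (-π)..π, w t = Mo p y := hs.int_Dw hy0 hy1
  rw [hMy] at h1
  -- the linear term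
  have hlin : ∫ t in (-π)..π, w t * Y t ≤ 2 * π * (13 * τ * (1000 * δ * x ^ 3)) := by
    have e1 : ∫ t in (-π)..π, w t * Y t = ∫ t in (-π)..π, (w t - 1) * Y t := by
      have : ∫ t in (-π)..π, (w t - 1) * Y t = ∫ t in (-π)..π, (w t * Y t - Y t) := by
        apply intervalIntegral.integral_congr; intro t _; simp only; ring
      rw [this, intervalIntegral.integral_sub (hwY.intervalIntegrable _ _)
        (hYc.intervalIntegrable _ _), h0, sub_zero]
    have hc2 : Continuous fun t => (w t - 1) * Y t := (hwc.sub continuous_const).mul hYc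
    rw [e1, integral_symm hc2]
    have e2 : ∫ t in (-π)..π, ((w t - 1) * Y t + (w (-t) - 1) * Y (-t)) / 2 ≤
        ∫ t in (-π)..π, 13 * τ * (1000 * δ * x ^ 3) := by
      apply intervalIntegral.integral_mono_on (by linarith [Real.pi_pos])
      · apply Continuous.intervalIntegrable
        exact (hc2.add (hc2.comp continuous_neg)).div_const 2
      · exact continuous_const.intervalIntegrable _ _
      · intro t _
        rw [hweven]
        have e3 : ((w t - 1) * Y t + (w t - 1) * Y (-t)) / 2 = (w t - 1) * ((Y t + Y (-t)) / 2) := by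
          ring
        rw [e3]
        refine (le_abs_self _).trans ?_
        rw [abs_mul, abs_div, abs_two]
        apply mul_le_mul (hw1 t) _ (by positivity) (by positivity)
        have := he t
        linarith
    rw [intervalIntegral.integral_const, smul_eq_mul] at e2
    linarith
  have hgap := Mo_gap p (X := x ^ 2) (β := β) (by positivity) (by linarith) hβ0 hβ1
  rw [← hδ, ← hy] at hgap
  have h2p := mul_le_mul_of_nonneg_left hlin (by positivity : 0 ≤ 2 * p)
  have hτx : p ^ 2 * (x ^ 2) ^ 2 = τ ^ 2 := by rw [hτd]; ring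
  have e5 : 2 * p * (2 * π * (13 * τ * (1000 * δ * x ^ 3))) = 2 * π * (26000 * x * (δ * τ ^ 2)) := by
    rw [hτd]; ring
  have e6 : (1 - β ^ 2) * p ^ 2 * (x ^ 2) ^ 2 = δ * τ ^ 2 := by rw [← hδ, mul_assoc, hτx]
  rw [mul_assoc δ, hτx] at hgap
  rw [e5] at h2p
  have hfin : 26000 * x * (δ * τ ^ 2) + 20.1 * (36 * δ * (τ * x) ^ 2) ≤ 9 / 10 * (δ * τ ^ 2) := by
    have hq : 0 ≤ δ * τ ^ 2 := by positivity
    have : 20.1 * (36 * δ * (τ * x) ^ 2) = 723.6 * x ^ 2 * (δ * τ ^ 2) := by ring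
    rw [this]
    nlinarith
  have hπ := Real.pi_pos
  have hfin2 := mul_le_mul_of_nonneg_left hfin (by positivity : 0 ≤ 2 * π)
  have goal' : ∫ t in (-π)..π, w t * Real.exp (2 * p * Y t) ≤
      Mo p (x ^ 2) - 2 * π * (1 / 10 * (δ * τ ^ 2)) := by
    nlinarith
  exact goal'

end Pool.Agent.H15.Sig
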