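import Pool.Agent.H15.Sig.Reg

/-!
# The second regime
-/

open Complex Set Filter Topology MeasureTheory
open scoped ComplexConjugate Real

namespace Pool.Agent.H15.Sig

variable {s : ℝ → ℝ}

theorem half_exp_add (a b : ℝ) :
    (Real.exp (2 * a) + Real.exp (2 * b)) / 2 = Real.exp (a + b) * Real.cosh (a - b) := by
  rw [Real.cosh_eq, neg_sub]
  have h1 : Real.exp (a + b) * Real.exp (a - b) = Real.exp (2 * a) := by
    rw [← Real.exp_add]; congr 1; ring
  have h2 : Real.exp (a + b) * Real.exp (b - a) = Real.exp (2 * b) := by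
    rw [← Real.exp_add]; congr 1; ring
  rw [← h1, ← h2]; ring

theorem SF.regime_two_a (hs : SF s) {p x β A a : ℝ} (hp : 0 < p) (hx0 : 0 < x)
    (hx : x ≤ 1 / 30000) (hβ0 : 9 / 10 ≤ β) (hβ1 : β ≤ 1) (hτ : 3 / 2 ≤ p * x ^ 2) {Y : ℝ → ℝ}
    (hYc : Continuous Y) (he : ∀ t, |Y t + Y (-t)| ≤ 2000 * (1 - β ^ 2) * x ^ 3)
    (ha0 : 0 ≤ a) (ha : a ≤ 3 / 2 * (p * x ^ 2))
    (hAa : A + 63 / 100 * (a / (p * x ^ 2)) ≤ p * x ^ 2 * (1 - β) / 10)
    (hK : ∀ t, Real.cosh (p * Y t - p * Y (-t)) ≤ Real.exp (A + a * s t)) :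
    ∫ t in (-π)..π, (Dw s (β * x ^ 2) t) ^ p * Real.exp (2 * p * Y t) ≤
      Real.exp (-(1 / 50) * (p * x ^ 2 * (1 - β))) * Mo p (x ^ 2) := by
  set y := β * x ^ 2 with hy
  have hx2 : x ^ 2 ≤ 1 / 900000000 := by
    have := pow_le_pow_left₀ hx0.le hx 2; norm_num at this ⊢; linarith
  have hx20 : 0 < x ^ 2 := by positivity
  have hy0 : 0 ≤ y := mul_nonneg (by linarith) hx20.le
  have hyx : y ≤ x ^ 2 := by rw [hy]; nlinarith [sq_nonneg x]
  have hy1 : y < 1 := by linarith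
  set τ := p * x ^ 2 with hτd
  have hτ0 : 0 < τ := by positivity
  set ω := τ * (1 - β) with hω
  have hω0 : 0 ≤ ω := mul_nonneg hτ0.le (by linarith)
  have hωe : p * (x ^ 2 - y) = ω := by rw [hy, hω, hτd]; ring
  have hωτ : ω ≤ τ / 10 := by rw [hω]; nlinarith
  have hwc := hs.cont_Dw (p := p) hy0 hy1
  have hsc := hs.cont
  have hfc : Continuous fun t => (Dw s y t) ^ p * Real.exp (2 * p * Y t) :=
    hwc.mul (by fun_prop)
  rw [integral_symm hfc]
  have hDe : ∀ t, Dw s y (-t) = Dw s y t := by intro t; unfold Dw; rw [hs.even]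
  have h1 : ∫ t in (-π)..π, ((Dw s y t) ^ p * Real.exp (2 * p * Y t) +
      (Dw s y (-t)) ^ p * Real.exp (2 * p * Y (-t))) / 2 ≤
      ∫ t in (-π)..π, Real.exp (4000 * ω * x + A) * ((Dw s y t) ^ p * Real.exp (a * s t)) := by
    apply intervalIntegral.integral_mono_on (by linarith [Real.pi_pos])
    · apply Continuous.intervalIntegrable
      exact (hfc.add (hfc.comp continuous_neg)).div_const 2
    · apply Continuous.intervalIntegrable
      exact continuous_const.mul (hwc.mul (by fun_prop))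
    · intro t _
      rw [hDe]
      have e1 : ((Dw s y t) ^ p * Real.exp (2 * p * Y t) +
          (Dw s y t) ^ p * Real.exp (2 * p * Y (-t))) / 2 =
          (Dw s y t) ^ p * ((Real.exp (2 * (p * Y t)) + Real.exp (2 * (p * Y (-t)))) / 2) := by
        rw [mul_assoc 2 p, mul_assoc 2 p]; ring
      rw [e1, half_exp_add]
      have e2 : Real.exp (p * Y t + p * Y (-t)) ≤ Real.exp (4000 * ω * x) := by
        apply Real.exp_le_exp.2
        have h3 := (le_abs_self _).trans (he t)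
        have h4 := mul_le_mul_of_nonneg_left h3 hp.le
        have h5 : p * (2000 * (1 - β ^ 2) * x ^ 3) = 2000 * (1 + β) * ω * x := by
          rw [hω, hτd]; ring
        rw [h5] at h4
        have h6 : 2000 * (1 + β) * ω * x ≤ 4000 * ω * x := by
          have : 0 ≤ ω * x := by positivity
          nlinarith
        linarith
      have e3 := mul_le_mul e2 (hK t) (Real.cosh_pos _).le (Real.exp_pos _).le
      rw [← Real.exp_add (4000 * ω * x)] at e3
      have e4 : Real.exp (4000 * ω * x + (A + a * s t)) =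
          Real.exp (4000 * ω * x + A) * Real.exp (a * s t) := by
        rw [← Real.exp_add]; congr 1; ring
      rw [e4] at e3
      have hD0 : 0 ≤ (Dw s y t) ^ p := Real.rpow_nonneg (hs.Dw_pos hy0 hy1 t).le p
      refine (mul_le_mul_of_nonneg_left e3 hD0).trans (le_of_eq ?_)
      ring
  rw [intervalIntegral.integral_const_mul] at h1
  have hm := hs.main2 hp hy0 hyx hx20 (by linarith) (by rw [hωe]; exact hωτ) ha0 ha
  rw [hωe] at hm
  have hM0 := hs.Mo_nonneg (p := p) hx20.le (by linarith : x ^ 2 < 1)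
  have h2 := h1.trans (mul_le_mul_of_nonneg_left hm (Real.exp_pos _).le)
  refine h2.trans ?_
  rw [← mul_assoc, ← Real.exp_add]
  have h3 : Real.exp (4000 * ω * x + A + (-(198 / 100) * ω +
      63 / 100 * ((41 / 10 * ω + a) / τ))) ≤ Real.exp (-(1 / 50) * ω) := by
    apply Real.exp_le_exp.2
    have h4 : (41 / 10 * ω + a) / τ = 41 / 10 * (ω / τ) + a / τ := by ring
    have h5 : ω / τ ≤ 2 / 3 * ω := by
      rw [div_le_iff₀ hτ0]; nlinarith
    have h6 : ω * x ≤ ω * (1 / 30000) := mul_le_mul_of_nonneg_left hx hω0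
    rw [h4]
    nlinarith
  exact mul_le_mul_of_nonneg_right h3 hM0

theorem SF.regime_two_b (hs : SF s) {p x β : ℝ} (hp : 0 < p) (hx0 : 0 < x)
    (hx : x ≤ 1 / 30000) (hβ0 : 0 ≤ β) (hβ1 : β ≤ 9 / 10) (hτ : 3 / 2 ≤ p * x ^ 2) {Y : ℝ → ℝ}
    (hYc : Continuous Y) (hb : ∀ t, |Y t| ≤ 3 * √(1 - β ^ 2) * x ^ 3) :
    ∫ t in (-π)..π, (Dw s (β * x ^ 2) t) ^ p * Real.exp (2 * p * Y t) ≤
      Real.exp (-(1 / 50)) * Mo p (x ^ 2) := by
  set y := β * x ^ 2 with hy
  have hx2 : x ^ 2 ≤ 1 / 900000000 := by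
    have := pow_le_pow_left₀ hx0.le hx 2; norm_num at this ⊢; linarith
  have hx20 : 0 < x ^ 2 := by positivity
  have hy0 : 0 ≤ y := mul_nonneg (by linarith) hx20.le
  have hy9 : y ≤ 9 / 10 * x ^ 2 := by rw [hy]; nlinarith
  have hy1 : y < 1 := by linarith
  set τ := p * x ^ 2 with hτd
  have hτ0 : 0 < τ := by positivity
  have hwc := hs.cont_Dw (p := p) hy0 hy1
  have h1 : ∫ t in (-π)..π, (Dw s y t) ^ p * Real.exp (2 * p * Y t) ≤
      ∫ t in (-π)..π, Real.exp (6 * τ * x) * (Dw s y t) ^ p := by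
    apply intervalIntegral.integral_mono_on (by linarith [Real.pi_pos])
    · exact (hwc.mul (by fun_prop)).intervalIntegrable _ _
    · exact (continuous_const.mul hwc).intervalIntegrable _ _
    · intro t _
      have h2 : Real.exp (2 * p * Y t) ≤ Real.exp (6 * τ * x) := by
        apply Real.exp_le_exp.2
        have h3 := (le_abs_self _).trans (hb t)
        have h4 : √(1 - β ^ 2) ≤ 1 := Real.sqrt_le_one.2 (by nlinarith [sq_nonneg β])
        have h5 : 3 * √(1 - β ^ 2) * x ^ 3 ≤ 3 * 1 * x ^ 3 := by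
          apply mul_le_mul_of_nonneg_right _ (by positivity)
          linarith
        have h6 := mul_le_mul_of_nonneg_left (h3.trans h5) (by positivity : 0 ≤ 2 * p)
        refine h6.trans (le_of_eq ?_)
        rw [hτd]; ring
      have hD0 : 0 ≤ (Dw s y t) ^ p := Real.rpow_nonneg (hs.Dw_pos hy0 hy1 t).le p
      rw [mul_comm]
      exact mul_le_mul_of_nonneg_right h2 hD0
  rw [intervalIntegral.integral_const_mul, hs.int_Dw hy0 hy1] at h1
  have hmono := Mo_mono p hy0 hy9 (by linarith : 9 / 10 * x ^ 2 < 1)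
  have hm := hs.main2 (p := p) (X := x ^ 2) (y := 9 / 10 * x ^ 2) (a := 0) hp (by positivity)
    (by linarith) hx20 (by linarith) (by linarith) le_rfl (by positivity)
  have e0 : ∫ t in (-π)..π, (Dw s (9 / 10 * x ^ 2) t) ^ p * Real.exp (0 * s t) =
      Mo p (9 / 10 * x ^ 2) := by
    simp only [zero_mul, Real.exp_zero, mul_one]
    exact hs.int_Dw (by positivity) (by linarith)
  rw [e0] at hm
  have e1 : p * (x ^ 2 - 9 / 10 * x ^ 2) = τ / 10 := by rw [hτd]; ring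
  rw [e1, ← hτd, add_zero] at hm
  have e2 : 41 / 10 * (τ / 10) / τ = 41 / 100 := by field_simp; norm_num
  rw [e2] at hm
  have hM0 := hs.Mo_nonneg (p := p) hx20.le (by linarith : x ^ 2 < 1)
  refine h1.trans ((mul_le_mul_of_nonneg_left (hmono.trans hm) (Real.exp_pos _).le).trans ?_)
  rw [← mul_assoc, ← Real.exp_add]
  have h3 : Real.exp (6 * τ * x + (-(198 / 100) * (τ / 10) + 63 / 100 * (41 / 100))) ≤
      Real.exp (-(1 / 50)) := by
    apply Real.exp_le_exp.2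
    have h6 : τ * x ≤ τ * (1 / 30000) := mul_le_mul_of_nonneg_left hx hτ0.le
    nlinarith
  exact mul_le_mul_of_nonneg_right h3 hM0

theorem Mo_pos (p : ℝ) {X : ℝ} (hX0 : 0 ≤ X) (hX : X < 1) : 0 < Mo p X := by
  have h1 := sum_le_hasSum {0} (fun k _ => by positivity) (Mo_hasSum p hX0 hX)
  rw [Finset.sum_singleton, Ring.choose_zero_right] at h1
  norm_num at h1
  have := Real.pi_pos
  linarith

theorem concl_one {I p x β : ℝ} (hp : 0 < p) (hx0 : 0 < x) (hβ0 : 0 ≤ β) (hβ1 : β ≤ 1)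
    (h : I ≤ Mo p (x ^ 2) - 2 * π * (1 / 10 * ((1 - β ^ 2) * (p * x ^ 2) ^ 2))) :
    I ≤ Mo p (x ^ 2) ∧ (β < 1 → I < Mo p (x ^ 2)) := by
  have hπ := Real.pi_pos
  have hδ0 : 0 ≤ 1 - β ^ 2 := by nlinarith
  have h1 : 0 ≤ 2 * π * (1 / 10 * ((1 - β ^ 2) * (p * x ^ 2) ^ 2)) := by positivity
  refine ⟨by linarith, fun hβ => ?_⟩
  have hδ : 0 < 1 - β ^ 2 := by nlinarith
  have h2 : 0 < 2 * π * (1 / 10 * ((1 - β ^ 2) * (p * x ^ 2) ^ 2)) := by positivity
  linarith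

theorem concl_two {I p x β : ℝ} (hp : 0 < p) (hx0 : 0 < x) (hx1 : x ^ 2 < 1) (hβ1 : β ≤ 1)
    (h : I ≤ Real.exp (-(1 / 50) * (p * x ^ 2 * (1 - β))) * Mo p (x ^ 2)) :
    I ≤ Mo p (x ^ 2) ∧ (β < 1 → I < Mo p (x ^ 2)) := by
  have hM := Mo_pos p (sq_nonneg x) hx1
  have hpx : 0 < p * x ^ 2 := by positivity
  refine ⟨h.trans ?_, fun hβ => lt_of_le_of_lt h ?_⟩
  · have : Real.exp (-(1 / 50) * (p * x ^ 2 * (1 - β))) ≤ 1 := by
      rw [Real.exp_le_one_iff]
      have : 0 ≤ p * x ^ 2 * (1 - β) := mul_nonneg hpx.le (by linarith)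
      linarith
    nlinarith
  · have : Real.exp (-(1 / 50) * (p * x ^ 2 * (1 - β))) < 1 := by
      rw [Real.exp_lt_one_iff]
      have : 0 < p * x ^ 2 * (1 - β) := mul_pos hpx (by linarith)
      linarith
    nlinarith

theorem concl_three {I p x β : ℝ} (hx1 : x ^ 2 < 1)
    (h : I ≤ Real.exp (-(1 / 50)) * Mo p (x ^ 2)) :
    I ≤ Mo p (x ^ 2) ∧ (β < 1 → I < Mo p (x ^ 2)) := by
  have hM := Mo_pos p (sq_nonneg x) hx1
  have h1 : Real.exp (-(1 / 50)) < 1 := by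
    rw [Real.exp_lt_one_iff]; norm_num
  have h2 : I < Mo p (x ^ 2) := by nlinarith
  exact ⟨h2.le, fun _ => h2⟩

theorem cosh_le_exp_abs (z : ℝ) : Real.cosh z ≤ Real.exp |z| := by
  rw [← Real.cosh_abs, Real.cosh_eq]
  have := Real.exp_le_exp.2 (show -|z| ≤ |z| by linarith [abs_nonneg z])
  linarith

/-- the main estimate with the odd part controlled by `sqrt (s t)` -/
theorem SF.main_F (hs : SF s) {p x β : ℝ} (hp : 0 < p) (hx0 : 0 < x) (hx : x ≤ 1 / 30000)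
    (hβ0 : 0 ≤ β) (hβ1 : β ≤ 1) {Y : ℝ → ℝ} (hYc : Continuous Y)
    (h0 : ∫ t in (-π)..π, Y t = 0)
    (he : ∀ t, |Y t + Y (-t)| ≤ 2000 * (1 - β ^ 2) * x ^ 3)
    (hb : ∀ t, |Y t| ≤ 3 * √(1 - β ^ 2) * x ^ 3)
    (ho : ∀ t, |Y t - Y (-t)| ≤ 8 * √(1 - β ^ 2) * x ^ 3 * √(s t)) :
    ∫ t in (-π)..π, (Dw s (β * x ^ 2) t) ^ p * Real.exp (2 * p * Y t) ≤ Mo p (x ^ 2) ∧
    (β < 1 →
      ∫ t in (-π)..π, (Dw s (β * x ^ 2) t) ^ p * Real.exp (2 * p * Y t) < Mo p (x ^ 2)) := by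
  have hx1 : x ^ 2 < 1 := by nlinarith
  rcases le_total (p * x ^ 2) (3 / 2) with hτ | hτ
  · exact concl_one hp hx0 hβ0 hβ1 (hs.regime_one hp hx0 hx hβ0 hβ1 hτ hYc h0 he hb)
  rcases le_total β (9 / 10) with hβ9 | hβ9
  · exact concl_three hx1 (hs.regime_two_b hp hx0 hx hβ0 hβ9 hτ hYc hb)
  refine concl_two hp hx0 hx1 hβ1 ?_
  have hδ0 : 0 ≤ 1 - β ^ 2 := by nlinarith
  have hx2 : x ^ 2 ≤ 1 / 900000000 := by
    have := pow_le_pow_left₀ hx0.le hx 2; norm_num at this ⊢; linarith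
  have hx20 : 0 < x ^ 2 := by positivity
  set τ := p * x ^ 2 with hτd
  have hτ0 : 0 < τ := by positivity
  set ω := τ * (1 - β) with hω
  have hω0 : 0 ≤ ω := mul_nonneg hτ0.le (by linarith)
  have hz : ∀ t, (p * Y t - p * Y (-t)) ^ 2 ≤ 128 * τ * ω * x ^ 2 * s t := by
    intro t
    have h1 := mul_le_mul_of_nonneg_left (ho t) hp.le
    rw [← abs_of_pos hp, ← abs_mul, abs_of_pos hp] at h1
    have h2 := pow_le_pow_left₀ (abs_nonneg _) h1 2
    rw [sq_abs] at h2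
    rw [← mul_sub]
    refine h2.trans ?_
    have h3 : (p * (8 * √(1 - β ^ 2) * x ^ 3 * √(s t))) ^ 2 =
        64 * (1 + β) * (τ * ω * x ^ 2 * s t) := by
      have e1 : (p * (8 * √(1 - β ^ 2) * x ^ 3 * √(s t))) ^ 2 =
          p ^ 2 * (64 * (√(1 - β ^ 2) ^ 2) * x ^ 6 * (√(s t) ^ 2)) := by ring
      rw [e1, Real.sq_sqrt hδ0, Real.sq_sqrt (hs.nonneg t), hω, hτd]; ring
    rw [h3]
    have h4 : 0 ≤ τ * ω * x ^ 2 * s t := by
      have := hs.nonneg t; positivity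
    nlinarith
  by_cases hc : 64 * ω * x ^ 2 ≤ 3 / 2
  · refine hs.regime_two_a hp hx0 hx hβ9 hβ1 hτ hYc he (A := 0) (a := 64 * τ * ω * x ^ 2)
      (by positivity) ?_ ?_ ?_
    · have := mul_le_mul_of_nonneg_left hc hτ0.le
      rw [← hτd]; linarith
    · rw [← hτd, ← hω]
      have e1 : 64 * τ * ω * x ^ 2 / τ = 64 * ω * x ^ 2 := by field_simp
      rw [e1]
      have : ω * x ^ 2 ≤ ω * (1 / 900000000) := mul_le_mul_of_nonneg_left hx2 hω0
      linarith
    · intro t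
      refine (Real.cosh_le_exp_half_sq _).trans (Real.exp_le_exp.2 ?_)
      have := hz t
      linarith
  · push Not at hc
    have hωbig : 2000 ≤ ω := by
      by_contra hcon
      push Not at hcon
      have : ω * x ^ 2 ≤ 2000 * (1 / 900000000) :=
        mul_le_mul hcon.le hx2 hx20.le (by norm_num)
      norm_num at this
      linarith
    refine hs.regime_two_a hp hx0 hx hβ9 hβ1 hτ hYc he (A := 32 * ω * x ^ 2) (a := τ)
      hτ0.le ?_ ?_ ?_
    · rw [← hτd]; linarith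
    · rw [← hτd, ← hω, div_self hτ0.ne']
      have : ω * x ^ 2 ≤ ω * (1 / 900000000) := mul_le_mul_of_nonneg_left hx2 hω0
      linarith
    · intro t
      refine (cosh_le_exp_abs _).trans (Real.exp_le_exp.2 ?_)
      have hst := hs.nonneg t
      apply abs_le_of_sq_le_sq _ (by positivity)
      refine (hz t).trans ?_
      nlinarith [sq_nonneg (32 * ω * x ^ 2 - τ * s t)]

/-- the main estimate with the odd part bounded trivially -/
theorem SF.main_F' (hs : SF s) {p x β : ℝ} (hp : 0 < p) (hx0 : 0 < x) (hx : x ≤ 1 / 30000)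
    (hpx : p * x ^ 4 ≤ 1 / 360)
    (hβ0 : 0 ≤ β) (hβ1 : β ≤ 1) {Y : ℝ → ℝ} (hYc : Continuous Y)
    (h0 : ∫ t in (-π)..π, Y t = 0)
    (he : ∀ t, |Y t + Y (-t)| ≤ 2000 * (1 - β ^ 2) * x ^ 3)
    (hb : ∀ t, |Y t| ≤ 3 * √(1 - β ^ 2) * x ^ 3) :
    ∫ t in (-π)..π, (Dw s (β * x ^ 2) t) ^ p * Real.exp (2 * p * Y t) ≤ Mo p (x ^ 2) ∧
    (β < 1 →
      ∫ t in (-π)..π, (Dw s (β * x ^ 2) t) ^ p * Real.exp (2 * p * Y t) < Mo p (x ^ 2)) := by
  have hx1 : x ^ 2 < 1 := by nlinarith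
  rcases le_total (p * x ^ 2) (3 / 2) with hτ | hτ
  · exact concl_one hp hx0 hβ0 hβ1 (hs.regime_one hp hx0 hx hβ0 hβ1 hτ hYc h0 he hb)
  rcases le_total β (9 / 10) with hβ9 | hβ9
  · exact concl_three hx1 (hs.regime_two_b hp hx0 hx hβ0 hβ9 hτ hYc hb)
  refine concl_two hp hx0 hx1 hβ1 ?_
  have hδ0 : 0 ≤ 1 - β ^ 2 := by nlinarith
  have hx20 : 0 < x ^ 2 := by positivity
  set τ := p * x ^ 2 with hτd
  have hτ0 : 0 < τ := by positivity
  set ω := τ * (1 - β) with hω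
  have hω0 : 0 ≤ ω := mul_nonneg hτ0.le (by linarith)
  refine hs.regime_two_a hp hx0 hx hβ9 hβ1 hτ hYc he (A := 36 * (p * x ^ 4) * ω) (a := 0)
    le_rfl (by positivity) ?_ ?_
  · rw [zero_div, mul_zero, add_zero, ← hτd, ← hω]
    have := mul_le_mul_of_nonneg_right hpx hω0
    linarith
  · intro t
    refine (Real.cosh_le_exp_half_sq _).trans (Real.exp_le_exp.2 ?_)
    have h1 : |p * Y t - p * Y (-t)| ≤ 6 * p * √(1 - β ^ 2) * x ^ 3 := by
      rw [← mul_sub, abs_mul, abs_of_pos hp]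
      have h2 := abs_sub (Y t) (Y (-t))
      have h3 := hb t
      have h4 := hb (-t)
      have h5 := mul_le_mul_of_nonneg_left (h2.trans (add_le_add h3 h4)) hp.le
      linarith
    have h2 := pow_le_pow_left₀ (abs_nonneg _) h1 2
    rw [sq_abs] at h2
    have h3 : (6 * p * √(1 - β ^ 2) * x ^ 3) ^ 2 = 36 * (1 + β) * (p * x ^ 4 * ω) := by
      have e1 : (6 * p * √(1 - β ^ 2) * x ^ 3) ^ 2 =
          36 * p ^ 2 * (√(1 - β ^ 2) ^ 2) * x ^ 6 := by ring
      rw [e1, Real.sq_sqrt hδ0, hω, hτd]; ring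
    rw [h3] at h2
    have h4 : 0 ≤ p * x ^ 4 * ω := by positivity
    nlinarith

end Pool.Agent.H15.Sig
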