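import Mathlib

/-!
# Power series on the unit disc and the Parseval identity
-/

open Complex Set Filter Topology MeasureTheory
open scoped ComplexConjugate Real

namespace Pool.Agent.H15.Sig

/-- `G` is given on the open unit disc by the power series `f` -/
def Rep (f : PowerSeries ℂ) (G : ℂ → ℂ) : Prop :=
  ∀ u : ℂ, ‖u‖ < 1 → HasSum (fun k => PowerSeries.coeff k f * u ^ k) (G u)

theorem Rep.norm_summable_nat {f : PowerSeries ℂ} {G : ℂ → ℂ} (h : Rep f G) {x : ℝ}
    (hx0 : 0 ≤ x) (hx : x < 1) :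
    Summable fun k : ℕ => (k : ℝ) * ‖PowerSeries.coeff k f‖ * x ^ k := by
  obtain ⟨y, hy1, hy2⟩ := exists_between hx
  have hy0 : 0 < y := lt_of_le_of_lt hx0 hy1
  have hs := (h (y : ℂ) (by simpa [abs_of_pos hy0] using hy2)).summable.tendsto_atTop_zero
  have hb := hs.norm.bddAbove_range
  obtain ⟨C, hC⟩ := hb
  have hC' : ∀ k : ℕ, ‖PowerSeries.coeff k f‖ * y ^ k ≤ C := by
    intro k
    have := hC ⟨k, rfl⟩
    simpa [abs_of_pos hy0] using this
  have hr : ‖x / y‖ < 1 := by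
    rw [Real.norm_eq_abs, abs_of_nonneg (by positivity), div_lt_one hy0]; exact hy1
  have h1 := (summable_pow_mul_geometric_of_norm_lt_one 1 hr).mul_left C
  refine Summable.of_nonneg_of_le (fun k => by positivity) (fun k => ?_) h1
  have e : (k : ℝ) * ‖PowerSeries.coeff k f‖ * x ^ k =
      (‖PowerSeries.coeff k f‖ * y ^ k) * ((k : ℝ) * (x / y) ^ k) := by
    rw [div_pow]; field_simp
  rw [e, pow_one]
  exact mul_le_mul_of_nonneg_right (hC' k) (by positivity)

theorem Rep.norm_summable {f : PowerSeries ℂ} {G : ℂ → ℂ} (h : Rep f G) {x : ℝ}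
    (hx0 : 0 ≤ x) (hx : x < 1) :
    Summable fun k : ℕ => ‖PowerSeries.coeff k f‖ * x ^ k := by
  have h1 := h.norm_summable_nat hx0 hx
  rw [← summable_nat_add_iff 1] at h1 ⊢
  refine Summable.of_nonneg_of_le (fun k => by positivity) (fun k => ?_) h1
  rw [mul_assoc]
  have h2 : (1:ℝ) ≤ ((k + 1 : ℕ) : ℝ) := by push_cast; linarith [Nat.cast_nonneg (α := ℝ) k]
  have h3 : 0 ≤ ‖PowerSeries.coeff (k+1) f‖ * x ^ (k+1) := by positivity
  nlinarith

theorem Rep.norm_summable' {f : PowerSeries ℂ} {G : ℂ → ℂ} (h : Rep f G) {u : ℂ}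
    (hu : ‖u‖ < 1) : Summable fun k : ℕ => ‖PowerSeries.coeff k f * u ^ k‖ := by
  have := h.norm_summable (norm_nonneg u) hu
  simpa using this

theorem Rep.add {f g : PowerSeries ℂ} {G H : ℂ → ℂ} (hf : Rep f G) (hg : Rep g H) :
    Rep (f + g) (fun u => G u + H u) := by
  intro u hu
  have := (hf u hu).add (hg u hu)
  refine this.congr_fun ?_ |> fun h => h
  intro k
  simp [add_mul]

theorem Rep.sub {f g : PowerSeries ℂ} {G H : ℂ → ℂ} (hf : Rep f G) (hg : Rep g H) :
    Rep (f - g) (fun u => G u - H u) := by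
  intro u hu
  have := (hf u hu).sub (hg u hu)
  refine this.congr_fun ?_ |> fun h => h
  intro k
  simp [sub_mul]

theorem Rep.mul {f g : PowerSeries ℂ} {G H : ℂ → ℂ} (hf : Rep f G) (hg : Rep g H) :
    Rep (f * g) (fun u => G u * H u) := by
  intro u hu
  have h1 := hf.norm_summable' hu
  have h2 := hg.norm_summable' hu
  have h3 := summable_norm_sum_mul_antidiagonal_of_summable_norm h1 h2
  have h4 := tsum_mul_tsum_eq_tsum_sum_antidiagonal_of_summable_norm h1 h2
  rw [(hf u hu).tsum_eq, (hg u hu).tsum_eq] at h4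
  have h5 : HasSum (fun n : ℕ => ∑ kl ∈ Finset.HasAntidiagonal.antidiagonal n,
      PowerSeries.coeff kl.1 f * u ^ kl.1 * (PowerSeries.coeff kl.2 g * u ^ kl.2)) (G u * H u) := by
    rw [h4]; exact h3.of_norm.hasSum
  refine h5.congr_fun ?_ |> fun h => h
  intro k
  rw [PowerSeries.coeff_mul, Finset.sum_mul]
  refine Finset.sum_congr rfl fun kl hkl => ?_
  have : kl.1 + kl.2 = k := Finset.HasAntidiagonal.mem_antidiagonal.1 hkl
  rw [← this, pow_add]; ring

theorem Rep.C (a : ℂ) : Rep (PowerSeries.C a) (fun _ => a) := by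
  intro u hu
  have : HasSum (fun k : ℕ => PowerSeries.coeff k (PowerSeries.C a) * u ^ k)
      (PowerSeries.coeff 0 (PowerSeries.C a) * u ^ 0) := by
    apply hasSum_single
    intro k hk
    rw [PowerSeries.coeff_C, if_neg hk, zero_mul]
  simpa using this

theorem Rep.X : Rep PowerSeries.X (fun u => u) := by
  intro u hu
  have : HasSum (fun k : ℕ => PowerSeries.coeff k (PowerSeries.X : PowerSeries ℂ) * u ^ k)
      (PowerSeries.coeff 1 (PowerSeries.X : PowerSeries ℂ) * u ^ 1) := by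
    apply hasSum_single
    intro k hk
    rw [PowerSeries.coeff_X, if_neg hk, zero_mul]
  simpa using this

theorem Rep.one : Rep 1 (fun _ => 1) := by
  have := Rep.C 1
  simpa using this

theorem Rep.pow {f : PowerSeries ℂ} {G : ℂ → ℂ} (hf : Rep f G) (n : ℕ) :
    Rep (f ^ n) (fun u => G u ^ n) := by
  induction n with
  | zero => simpa using Rep.one
  | succ n ih => simpa [pow_succ] using ih.mul hf

theorem Rep.congr {f : PowerSeries ℂ} {G H : ℂ → ℂ} (hf : Rep f G)
    (h : ∀ u : ℂ, ‖u‖ < 1 → G u = H u) : Rep f H := fun u hu => h u hu ▸ hf u hu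

theorem Rep.hasDerivAt {f : PowerSeries ℂ} {G : ℂ → ℂ} (h : Rep f G) {u : ℂ} (hu : ‖u‖ < 1) :
    ∃ D : ℂ, HasDerivAt G D u ∧
      HasSum (fun k : ℕ => (k : ℂ) * PowerSeries.coeff k f * u ^ k) (D * u) := by
  obtain ⟨s, hs1, hs2⟩ := exists_between hu
  have hs0 : 0 < s := lt_of_le_of_lt (norm_nonneg u) hs1
  have hsum : Summable fun k : ℕ => (k : ℝ) * ‖PowerSeries.coeff k f‖ * s ^ (k - 1) := by
    have h1 := (h.norm_summable_nat hs0.le hs2).mul_right s⁻¹
    refine h1.congr fun k => ?_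
    rcases Nat.eq_zero_or_pos k with rfl | hk
    · simp
    · obtain ⟨m, rfl⟩ : ∃ m, k = m + 1 := ⟨k - 1, by omega⟩
      rw [Nat.add_sub_cancel, pow_succ]; field_simp
  have hb : ∀ (k : ℕ) (y : ℂ), y ∈ Metric.ball (0:ℂ) s →
      ‖PowerSeries.coeff k f * ((k : ℂ) * y ^ (k - 1))‖ ≤
        (k : ℝ) * ‖PowerSeries.coeff k f‖ * s ^ (k - 1) := by
    intro k y hy
    have hy' : ‖y‖ < s := by simpa using hy
    rw [norm_mul, norm_mul, norm_pow, Complex.norm_natCast]
    have : ‖y‖ ^ (k-1) ≤ s ^ (k-1) := pow_le_pow_left₀ (norm_nonneg _) hy'.le _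
    calc ‖PowerSeries.coeff k f‖ * ((k:ℝ) * ‖y‖ ^ (k-1))
        = ((k:ℝ) * ‖PowerSeries.coeff k f‖) * ‖y‖ ^ (k-1) := by ring
      _ ≤ _ := mul_le_mul_of_nonneg_left this (by positivity)
  have hu' : u ∈ Metric.ball (0:ℂ) s := by simpa using hs1
  have hd := hasDerivAt_tsum_of_isPreconnected
    (g := fun (k : ℕ) (y : ℂ) => PowerSeries.coeff k f * y ^ k)
    (g' := fun (k : ℕ) (y : ℂ) => PowerSeries.coeff k f * ((k : ℂ) * y ^ (k - 1))) hsum Metric.isOpen_ball
    (convex_ball (0:ℂ) s).isPreconnected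
    (fun k y _ => (hasDerivAt_pow k y).const_mul _) hb hu' (h u hu).summable hu'
  refine ⟨_, hd.congr_of_eventuallyEq ?_, ?_⟩
  · filter_upwards [Metric.isOpen_ball.mem_nhds hu'] with y hy
    have hy' : ‖y‖ < s := by simpa using hy
    exact ((h y (by linarith)).tsum_eq).symm
  · have h2 : Summable fun k : ℕ => PowerSeries.coeff k f * ((k : ℂ) * u ^ (k - 1)) :=
      Summable.of_norm_bounded hsum fun k => hb k u hu'
    refine (h2.hasSum.mul_right u).congr_fun ?_ |> fun h => h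
    intro k
    rcases Nat.eq_zero_or_pos k with rfl | hk
    · simp
    · obtain ⟨m, rfl⟩ : ∃ m, k = m + 1 := ⟨k - 1, by omega⟩
      rw [Nat.add_sub_cancel, pow_succ]; ring

end Pool.Agent.H15.Sig
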