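import Pool.Agent.H15.Sig.ThrLow

/-!
# Small exponents near the unit circle
-/

open Complex Set Filter Topology MeasureTheory
open scoped ComplexConjugate Real

namespace Pool.Agent.H15.Sig

/-- the squared modulus of the competitor on the unit circle, in the angle variable -/
noncomputable def De (e t : ℝ) : ℝ := e + 4 * (1 - e) * Real.sin t ^ 2

theorem De_ge {e t : ℝ} (he1 : e ≤ 1) : e ≤ De e t := by
  unfold De
  have := mul_nonneg (by linarith : 0 ≤ 4 * (1 - e)) (sq_nonneg (Real.sin t))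
  linarith

theorem De_ge' {e t : ℝ} (he0 : 0 ≤ e) (he1 : e ≤ 1 / 2) : 2 * Real.sin t ^ 2 ≤ De e t := by
  unfold De
  have := sq_nonneg (Real.sin t)
  nlinarith

theorem De_le {e t : ℝ} (he0 : 0 ≤ e) (he1 : e ≤ 1) : De e t ≤ 4 := by
  unfold De
  have := Real.sin_sq_le_one t
  nlinarith [mul_nonneg (by linarith : 0 ≤ 1 - e) (by linarith : 0 ≤ 1 - Real.sin t ^ 2)]

theorem De_pos {e t : ℝ} (he0 : 0 < e) (he1 : e ≤ 1) : 0 < De e t := he0.trans_le (De_ge he1)

theorem cont_De (e : ℝ) : Continuous (De e) := by unfold De; fun_prop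

theorem cont_De_rpow {e : ℝ} (he0 : 0 < e) (he1 : e ≤ 1) (q : ℝ) :
    Continuous fun t => De e t ^ q :=
  (cont_De e).rpow_const fun t => Or.inl (De_pos he0 he1).ne'

/-- integration by parts -/
theorem De_parts {e q : ℝ} (he0 : 0 < e) (he1 : e ≤ 1) :
    ∫ t in (-π)..π, De e t ^ (q - 1) * ((2 * q - 1) - 2 * q * Real.sin t ^ 2) =
      -(2 * (1 - q)) * e * ∫ t in (-π)..π, De e t ^ (q - 2) * (1 - Real.sin t ^ 2) := by
  have hder : ∀ t ∈ uIcc (-π) π, HasDerivAt (fun t => Real.sin t * Real.cos t * De e t ^ (q - 1))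
      ((Real.cos t * Real.cos t + Real.sin t * -Real.sin t) * De e t ^ (q - 1) +
        Real.sin t * Real.cos t *
          ((4 * (1 - e) * (2 * Real.sin t * Real.cos t)) * (q - 1) * De e t ^ (q - 1 - 1))) t := by
    intro t _
    have h1 := (Real.hasDerivAt_sin t).mul (Real.hasDerivAt_cos t)
    have h2 : HasDerivAt (De e) (4 * (1 - e) * (2 * Real.sin t * Real.cos t)) t := by
      have := (((Real.hasDerivAt_sin t).pow 2).const_mul (4 * (1 - e))).const_add e
      refine this.congr_deriv ?_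
      push_cast; ring
    have h3 := h2.rpow_const (p := q - 1) (Or.inl (De_pos he0 he1).ne')
    exact h1.mul h3
  have hc1 := cont_De_rpow he0 he1 (q - 1)
  have hc2 := cont_De_rpow he0 he1 (q - 2)
  have e21 : q - 1 - 1 = q - 2 := by ring
  have hint := intervalIntegral.integral_eq_sub_of_hasDerivAt hder (by
    apply Continuous.intervalIntegrable
    rw [e21]
    fun_prop)
  rw [Real.sin_pi, Real.sin_neg, Real.sin_pi] at hint
  simp only [neg_zero, zero_mul, sub_zero] at hint
  rw [← intervalIntegral.integral_const_mul]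
  rw [← sub_eq_zero, ← intervalIntegral.integral_sub (by
    apply Continuous.intervalIntegrable; fun_prop) (by
    apply Continuous.intervalIntegrable; fun_prop)]
  rw [← hint]
  apply intervalIntegral.integral_congr
  intro t _
  simp only
  rw [e21]
  have hs := Real.sin_sq_add_cos_sq t
  have hD : De e t ^ (q - 1) = De e t * De e t ^ (q - 2) := by
    have := Real.rpow_add (De_pos he0 he1 (t := t)) 1 (q - 2)
    rw [Real.rpow_one] at this
    rw [← this]; congr 1; ring
  have hc : Real.cos t ^ 2 = 1 - Real.sin t ^ 2 := by linarith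
  have e1 : (Real.cos t * Real.cos t + Real.sin t * -Real.sin t) = 1 - 2 * Real.sin t ^ 2 := by
    rw [← sq, hc]; ring
  have e2 : Real.sin t * Real.cos t *
      ((4 * (1 - e) * (2 * Real.sin t * Real.cos t)) * (q - 1) * De e t ^ (q - 2)) =
      8 * (1 - e) * (q - 1) * Real.sin t ^ 2 * (1 - Real.sin t ^ 2) * De e t ^ (q - 2) := by
    rw [← hc]; ring
  rw [e1, e2, hD]
  have hDe : 4 * (1 - e) * Real.sin t ^ 2 = De e t - e := by unfold De; ring
  have e3 : 8 * (1 - e) * (q - 1) * Real.sin t ^ 2 * (1 - Real.sin t ^ 2) * De e t ^ (q - 2) =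
      2 * (q - 1) * (De e t - e) * (1 - Real.sin t ^ 2) * De e t ^ (q - 2) := by
    rw [← hDe]; ring
  rw [e3]
  ring

theorem De_unif {e q : ℝ} (he0 : 0 < e) (he1 : e ≤ 1 / 2) (hq0 : 1 / 2 < q) (hq1 : q ≤ 1) :
    ∫ t in (-π)..π, De e t ^ (q - 1) ≤ 2 * q / (2 * q - 1) * (2 * π) := by
  have hπ := Real.pi_pos
  have he1' : e ≤ 1 := by linarith
  have h1 := De_parts (q := q) he0 he1'
  have hc1 := cont_De_rpow he0 he1' (q - 1)
  have hc2 := cont_De_rpow he0 he1' (q - 2)
  have h2 : 0 ≤ ∫ t in (-π)..π, De e t ^ (q - 2) * (1 - Real.sin t ^ 2) := by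
    apply intervalIntegral.integral_nonneg (by linarith)
    intro t _
    have := Real.sin_sq_le_one t
    have h3 : 0 ≤ De e t ^ (q - 2) := Real.rpow_nonneg (De_pos he0 he1').le _
    exact mul_nonneg h3 (by linarith)
  have h3 : ∫ t in (-π)..π, De e t ^ (q - 1) * ((2 * q - 1) - 2 * q * Real.sin t ^ 2) =
      (2 * q - 1) * (∫ t in (-π)..π, De e t ^ (q - 1)) -
        2 * q * ∫ t in (-π)..π, De e t ^ (q - 1) * Real.sin t ^ 2 := by
    rw [← intervalIntegral.integral_const_mul, ← intervalIntegral.integral_const_mul,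
      ← intervalIntegral.integral_sub (by apply Continuous.intervalIntegrable; fun_prop)
        (by apply Continuous.intervalIntegrable; fun_prop)]
    apply intervalIntegral.integral_congr
    intro t _
    simp only; ring
  have h4 : ∫ t in (-π)..π, De e t ^ (q - 1) * Real.sin t ^ 2 ≤ ∫ t in (-π)..π, (1:ℝ) := by
    apply intervalIntegral.integral_mono_on (by linarith)
      (by apply Continuous.intervalIntegrable; fun_prop)
      (by apply Continuous.intervalIntegrable; fun_prop)
    intro t _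
    rcases eq_or_lt_of_le (sq_nonneg (Real.sin t)) with h0 | h0
    · rw [← h0, mul_zero]; norm_num
    · have h5 : Real.sin t ^ 2 ≤ De e t := by
        have := De_ge' (t := t) he0.le he1
        linarith
      have h6 : De e t ^ (q - 1) ≤ (Real.sin t ^ 2) ^ (q - 1) :=
        Real.rpow_le_rpow_of_nonpos h0 h5 (by linarith)
      have h7 : (Real.sin t ^ 2) ^ (q - 1) * Real.sin t ^ 2 = (Real.sin t ^ 2) ^ q := by
        have := Real.rpow_add h0 (q - 1) 1
        rw [Real.rpow_one] at this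
        rw [← this]; congr 1; ring
      have h8 : (Real.sin t ^ 2) ^ q ≤ 1 :=
        Real.rpow_le_one h0.le (Real.sin_sq_le_one t) (by linarith)
      calc De e t ^ (q - 1) * Real.sin t ^ 2 ≤ (Real.sin t ^ 2) ^ (q - 1) * Real.sin t ^ 2 :=
            mul_le_mul_of_nonneg_right h6 h0.le
        _ ≤ 1 := by rw [h7]; exact h8
  rw [intervalIntegral.integral_const, smul_eq_mul, mul_one, sub_neg_eq_add] at h4
  have h5 : 0 ≤ 2 * (1 - q) * e * ∫ t in (-π)..π, De e t ^ (q - 2) * (1 - Real.sin t ^ 2) :=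
    mul_nonneg (mul_nonneg (by linarith) he0.le) h2
  rw [h3] at h1
  rw [div_mul_eq_mul_div, le_div_iff₀ (by linarith)]
  have h6 : 2 * q * ∫ t in (-π)..π, De e t ^ (q - 1) * Real.sin t ^ 2 ≤ 2 * q * (π + π) :=
    mul_le_mul_of_nonneg_left h4 (by linarith)
  linarith

theorem De_R_ge {e p : ℝ} (he0 : 0 < e) (he1 : e ≤ 1 / 2) (hp0 : 1 / 2 < p) (hp1 : p ≤ 2 / 3) :
    (2 / p - 3) * (4 ^ (p - 1) * (2 * π)) -
      4 * (1 - p) / p * (e ^ ((p - 1 / 2) / 2) * ((p + 1 / 2) / (p - 1 / 2) * (2 * π))) ≤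
    ∫ t in (-π)..π, De e t ^ (p - 1) * (1 - 4 * Real.sin t ^ 2) := by
  have hπ := Real.pi_pos
  have he1' : e ≤ 1 := by linarith
  have h1 := De_parts (q := p) he0 he1'
  have hc1 := cont_De_rpow he0 he1' (p - 1)
  have hc2 := cont_De_rpow he0 he1' (p - 2)
  set a := (p - 1 / 2) / 2 with ha
  have ha0 : 0 < a := by rw [ha]; linarith
  have hc3 := cont_De_rpow he0 he1' (p - a - 1)
  have h2 : ∫ t in (-π)..π, De e t ^ (p - 1) * (1 - 4 * Real.sin t ^ 2) =
      (2 / p) * (∫ t in (-π)..π, De e t ^ (p - 1) * ((2 * p - 1) - 2 * p * Real.sin t ^ 2)) +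
      (2 / p - 3) * ∫ t in (-π)..π, De e t ^ (p - 1) := by
    rw [← intervalIntegral.integral_const_mul, ← intervalIntegral.integral_const_mul,
      ← intervalIntegral.integral_add (by apply Continuous.intervalIntegrable; fun_prop)
        (by apply Continuous.intervalIntegrable; fun_prop)]
    apply intervalIntegral.integral_congr
    intro t _
    simp only
    field_simp
    ring
  have h3 : 4 ^ (p - 1) * (2 * π) ≤ ∫ t in (-π)..π, De e t ^ (p - 1) := by
    have : ∫ t in (-π)..π, (4:ℝ) ^ (p - 1) ≤ ∫ t in (-π)..π, De e t ^ (p - 1) := by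
      apply intervalIntegral.integral_mono_on (by linarith)
        (by apply Continuous.intervalIntegrable; fun_prop) (hc1.intervalIntegrable _ _)
      intro t _
      exact Real.rpow_le_rpow_of_nonpos (De_pos he0 he1') (De_le he0.le he1') (by linarith)
    rw [intervalIntegral.integral_const, smul_eq_mul] at this
    linarith
  have h4 : e * ∫ t in (-π)..π, De e t ^ (p - 2) * (1 - Real.sin t ^ 2) ≤
      e ^ a * ∫ t in (-π)..π, De e t ^ (p - a - 1) := by
    rw [← intervalIntegral.integral_const_mul, ← intervalIntegral.integral_const_mul]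
    apply intervalIntegral.integral_mono_on (by linarith)
      (by apply Continuous.intervalIntegrable; fun_prop)
      (by apply Continuous.intervalIntegrable; fun_prop)
    intro t _
    have hD := De_pos (t := t) he0 he1'
    have h5 : De e t ^ (p - 2) * (1 - Real.sin t ^ 2) ≤ De e t ^ (p - 2) * 1 := by
      apply mul_le_mul_of_nonneg_left _ (Real.rpow_nonneg hD.le _)
      have := sq_nonneg (Real.sin t); linarith
    have h6 : e * De e t ^ (p - 2) = (e / De e t) * De e t ^ (p - 1) := by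
      have := Real.rpow_add hD 1 (p - 2)
      rw [Real.rpow_one, show 1 + (p - 2) = p - 1 by ring] at this
      rw [this]; field_simp
    have h7 : e / De e t ≤ (e / De e t) ^ a := by
      have h8 : e / De e t ≤ 1 := (div_le_one hD).2 (De_ge he1')
      have h9 := Real.rpow_le_rpow_of_exponent_ge (by positivity : 0 < e / De e t) h8
        (by rw [ha]; linarith : a ≤ 1)
      rwa [Real.rpow_one] at h9
    have h8 : (e / De e t) ^ a * De e t ^ (p - 1) = e ^ a * De e t ^ (p - a - 1) := by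
      rw [Real.div_rpow he0.le hD.le]
      have := Real.rpow_add hD a (p - a - 1)
      rw [show a + (p - a - 1) = p - 1 by ring] at this
      rw [this]
      have h9 : De e t ^ a ≠ 0 := (Real.rpow_pos_of_pos hD a).ne'
      field_simp
    calc e * (De e t ^ (p - 2) * (1 - Real.sin t ^ 2)) ≤ e * (De e t ^ (p - 2) * 1) :=
          mul_le_mul_of_nonneg_left h5 he0.le
      _ = (e / De e t) * De e t ^ (p - 1) := by rw [mul_one, h6]
      _ ≤ (e / De e t) ^ a * De e t ^ (p - 1) :=
          mul_le_mul_of_nonneg_right h7 (Real.rpow_nonneg hD.le _)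
      _ = _ := h8
  have h5 := De_unif (q := p - a) he0 he1 (by rw [ha]; linarith) (by rw [ha]; linarith)
  have h6 : 2 * (p - a) / (2 * (p - a) - 1) = (p + 1 / 2) / (p - 1 / 2) := by
    rw [ha]
    have : p - 1 / 2 ≠ 0 := by linarith
    rw [div_eq_div_iff (by linarith) this]; ring
  rw [h6] at h5
  rw [h2, h1]
  have h7 : 0 ≤ e ^ a := Real.rpow_nonneg he0.le a
  have h8 := h4.trans (mul_le_mul_of_nonneg_left h5 h7)
  have hp' : 0 < p := by linarith
  have h9 : 0 ≤ 2 / p - 3 := by
    rw [sub_nonneg, le_div_iff₀ hp']; linarith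
  have h10 := mul_le_mul_of_nonneg_left h3 h9
  have h11 : 0 ≤ 4 * (1 - p) / p := by
    apply div_nonneg _ hp'.le; linarith
  have h12 := mul_le_mul_of_nonneg_left h8 h11
  have e1 : 2 / p * (-(2 * (1 - p)) * e *
      ∫ t in (-π)..π, De e t ^ (p - 2) * (1 - Real.sin t ^ 2)) =
      -(4 * (1 - p) / p * (e * ∫ t in (-π)..π, De e t ^ (p - 2) * (1 - Real.sin t ^ 2))) := by
    field_simp; ring
  rw [e1]
  linarith

theorem exists_R_pos {p : ℝ} (hp0 : 1 / 2 < p) (hp1 : p < 2 / 3) :
    ∃ e : ℝ, 0 < e ∧ e ≤ 1 / 2 ∧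
      0 < ∫ t in (-π)..π, De e t ^ (p - 1) * (1 - 4 * Real.sin t ^ 2) := by
  have hπ := Real.pi_pos
  have hp' : 0 < p := by linarith
  set A := (2 / p - 3) * (4 ^ (p - 1) * (2 * π)) with hA
  set B := 4 * (1 - p) / p * ((p + 1 / 2) / (p - 1 / 2) * (2 * π)) with hB
  have hA0 : 0 < A := by
    have h9 : 0 < 2 / p - 3 := by
      rw [sub_pos, lt_div_iff₀ hp']; linarith
    positivity
  set a := (p - 1 / 2) / 2 with ha
  have ha0 : 0 < a := by rw [ha]; linarith
  have h1 : Tendsto (fun e : ℝ => A - B * e ^ a) (𝓝[>] 0) (𝓝 (A - B * 0 ^ a)) := by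
    apply Tendsto.mono_left _ nhdsWithin_le_nhds
    have : Continuous fun e : ℝ => A - B * e ^ a :=
      continuous_const.sub (continuous_const.mul (Real.continuous_rpow_const ha0.le))
    exact this.tendsto 0
  rw [Real.zero_rpow ha0.ne', mul_zero, sub_zero] at h1
  have h2 : ∀ᶠ e : ℝ in 𝓝[>] 0, 0 < A - B * e ^ a := h1.eventually (lt_mem_nhds hA0)
  have h3 : ∀ᶠ e : ℝ in 𝓝[>] 0, e ∈ Ioo (0:ℝ) (1 / 2) :=
    Ioo_mem_nhdsGT (by norm_num)
  obtain ⟨e, he, he'⟩ := (h2.and h3).exists
  refine ⟨e, he'.1, he'.2.le, lt_of_lt_of_le he ?_⟩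
  have h4 := De_R_ge he'.1 he'.2.le hp0 hp1.le
  rw [← ha, ← hA] at h4
  refine le_trans (le_of_eq ?_) h4
  rw [hB]; ring

theorem exists_R_pos' {p : ℝ} (hp1 : p < 2 / 3) :
    ∃ e : ℝ, 0 < e ∧ e ≤ 1 / 2 ∧
      0 < ∫ t in (-π)..π, De e t ^ (p - 1) * (1 - 4 * Real.sin t ^ 2) := by
  have hm : max p (1 / 2) < 2 / 3 := max_lt hp1 (by norm_num)
  obtain ⟨p0, h1, h2⟩ := exists_between hm
  have hp0 : p < p0 := (le_max_left _ _).trans_lt h1
  obtain ⟨e, he0, he1, h3⟩ := exists_R_pos ((le_max_right _ _).trans_lt h1) h2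
  refine ⟨e, he0, he1, h3.trans_le ?_⟩
  have he1' : e ≤ 1 := by linarith
  have hc1 := cont_De_rpow he0 he1' (p - 1)
  have hc2 := cont_De_rpow he0 he1' (p0 - 1)
  apply intervalIntegral.integral_mono_on (by linarith [Real.pi_pos])
    (by apply Continuous.intervalIntegrable; fun_prop)
    (by apply Continuous.intervalIntegrable; fun_prop)
  intro t _
  have hD := De_pos (t := t) he0 he1'
  have hDe : (1 - e) * (1 - 4 * Real.sin t ^ 2) = 1 - De e t := by unfold De; ring
  rcases le_total (De e t) 1 with hD1 | hD1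
  · have h4 : 0 ≤ 1 - 4 * Real.sin t ^ 2 := by
      by_contra hcon
      push Not at hcon
      have := mul_neg_of_pos_of_neg (by linarith : 0 < 1 - e) hcon
      linarith
    exact mul_le_mul_of_nonneg_right
      (Real.rpow_le_rpow_of_exponent_ge hD hD1 (by linarith)) h4
  · have h4 : 1 - 4 * Real.sin t ^ 2 ≤ 0 := by
      by_contra hcon
      push Not at hcon
      have := mul_pos (by linarith : 0 < 1 - e) hcon
      linarith
    exact mul_le_mul_of_nonpos_right
      (Real.rpow_le_rpow_of_exponent_le hD1 (by linarith)) h4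

theorem rpow_tangent {x D p : ℝ} (hx : 0 ≤ x) (hD : 0 < D) (hp0 : 0 ≤ p) (hp1 : p ≤ 1) :
    x ^ p ≤ D ^ p + p * D ^ (p - 1) * (x - D) := by
  have h1 := rpow_one_add_le_one_add_mul_self (s := (x - D) / D) (p := p) (by
    rw [le_div_iff₀ hD]; linarith) hp0 hp1
  have h2 : 1 + (x - D) / D = x / D := by field_simp; ring
  rw [h2, Real.div_rpow hx hD.le, div_le_iff₀ (Real.rpow_pos_of_pos hD p)] at h1
  refine h1.trans (le_of_eq ?_)
  have h3 : D ^ p = D * D ^ (p - 1) := by
    have := Real.rpow_add hD 1 (p - 1)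
    rw [Real.rpow_one] at this
    rw [← this]; congr 1; ring
  rw [h3]
  field_simp

theorem exists_De_gt {p : ℝ} (hp0 : 0 < p) (hp1 : p < 2 / 3) :
    ∃ e : ℝ, 0 < e ∧ e ≤ 1 / 2 ∧
      ∫ t in (-π)..π, De 0 t ^ p < ∫ t in (-π)..π, De e t ^ p := by
  obtain ⟨e, he0, he1, h3⟩ := exists_R_pos' hp1
  refine ⟨e, he0, he1, ?_⟩
  have he1' : e ≤ 1 := by linarith
  have hc1 := cont_De_rpow he0 he1' (p - 1)
  have hc2 := cont_De_rpow he0 he1' p
  have hc3 : Continuous fun t => De 0 t ^ p := (cont_De 0).rpow_const fun t => Or.inr hp0.le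
  have h4 : p * e * ∫ t in (-π)..π, De e t ^ (p - 1) * (1 - 4 * Real.sin t ^ 2) ≤
      (∫ t in (-π)..π, De e t ^ p) - ∫ t in (-π)..π, De 0 t ^ p := by
    rw [← intervalIntegral.integral_const_mul, ← intervalIntegral.integral_sub
      (hc2.intervalIntegrable _ _) (hc3.intervalIntegrable _ _)]
    apply intervalIntegral.integral_mono_on (by linarith [Real.pi_pos])
      (by apply Continuous.intervalIntegrable; fun_prop)
      ((hc2.sub hc3).intervalIntegrable _ _)
    intro t _
    show p * e * (De e t ^ (p - 1) * (1 - 4 * Real.sin t ^ 2)) ≤ De e t ^ p - De 0 t ^ p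
    have hD := De_pos (t := t) he0 he1'
    have h0 : 0 ≤ De 0 t := by
      unfold De
      have := sq_nonneg (Real.sin t)
      linarith
    have h5 := rpow_tangent h0 hD hp0.le (by linarith : p ≤ 1)
    have h6 : De 0 t - De e t = -(e * (1 - 4 * Real.sin t ^ 2)) := by unfold De; ring
    rw [h6] at h5
    linarith
  have h5 := mul_pos (mul_pos hp0 he0) h3
  linarith

/-- the angle substitution -/
noncomputable def th (c t : ℝ) : ℝ := t + Real.arcsin (c * Real.sin t)

theorem abs_c_sin {c : ℝ} (hc0 : 0 ≤ c) (hc1 : c < 1) (t : ℝ) : |c * Real.sin t| < 1 := by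
  rw [abs_mul, abs_of_nonneg hc0]
  have := Real.abs_sin_le_one t
  nlinarith [abs_nonneg (Real.sin t)]

theorem norm_cmp_th {c : ℝ} (hc0 : 0 ≤ c) (hc1 : c < 1) (t : ℝ) :
    ‖cmp c (exp (th c t * I))‖ ^ 2 = De (c ^ 2) t := by
  have habs := abs_lt.1 (abs_c_sin hc0 hc1 t)
  set α := Real.arcsin (c * Real.sin t) with hα
  have hsα : Real.sin α = c * Real.sin t := Real.sin_arcsin habs.1.le habs.2.le
  have hcα : Real.cos α = √(1 - (c * Real.sin t) ^ 2) := Real.cos_arcsin _
  have hst := Real.sin_sq_add_cos_sq t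
  have hsa := Real.sin_sq_add_cos_sq α
  have hcα0 : 0 ≤ Real.cos α := by rw [hcα]; exact Real.sqrt_nonneg _
  have hcα2 : Real.cos α ^ 2 = 1 - (c * Real.sin t) ^ 2 := by rw [← hsα]; linarith
  have hρ : 0 < Real.cos α + c * Real.cos t := by
    have h1 : (c * Real.cos t) ^ 2 < Real.cos α ^ 2 := by
      rw [hcα2]
      have : (c * Real.sin t) ^ 2 + (c * Real.cos t) ^ 2 = c ^ 2 := by
        rw [mul_pow, mul_pow, ← mul_add, hst, mul_one]
      nlinarith
    have h2 := abs_lt_of_sq_lt_sq h1 hcα0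
    have := (abs_lt.1 h2).1
    linarith
  set z : ℂ := exp (th c t * I) with hz
  have hzr : z = exp (t * I) * exp (α * I) := by
    rw [hz, ← exp_add, th, ← hα]; congr 1; push_cast; ring
  have hzc : z + c = ((Real.cos α + c * Real.cos t : ℝ) : ℂ) * exp (t * I) := by
    rw [hzr]
    apply Complex.ext
    · simp only [add_re, mul_re, exp_ofReal_mul_I_re, exp_ofReal_mul_I_im, ofReal_re, ofReal_im]
      rw [hsα]
      linear_combination (-c) * hst
    · simp only [add_im, mul_im, mul_re, exp_ofReal_mul_I_re, exp_ofReal_mul_I_im, ofReal_re,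
        ofReal_im]
      rw [hsα]; ring
  have hκ : (1 - (c : ℂ) ^ 2) / (z + c) =
      ((Real.cos α - c * Real.cos t : ℝ) : ℂ) * exp (((-t : ℝ) : ℂ) * I) := by
    rw [hzc, div_eq_iff (mul_ne_zero (by exact_mod_cast hρ.ne') (exp_ne_zero _))]
    have h1 : exp (((-t : ℝ) : ℂ) * I) * exp (t * I) = 1 := by
      rw [← exp_add]; push_cast; rw [neg_mul, neg_add_cancel, exp_zero]
    have h2 : (Real.cos α - c * Real.cos t) * (Real.cos α + c * Real.cos t) = 1 - c ^ 2 := by
      linear_combination hcα2 - c ^ 2 * hst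
    calc (1 - (c : ℂ) ^ 2) =
        (((Real.cos α - c * Real.cos t) * (Real.cos α + c * Real.cos t) : ℝ) : ℂ) := by
          rw [h2]; push_cast; ring
      _ = ((Real.cos α - c * Real.cos t : ℝ) : ℂ) * ((Real.cos α + c * Real.cos t : ℝ) : ℂ) *
          (exp (((-t : ℝ) : ℂ) * I) * exp (t * I)) := by rw [h1]; push_cast; ring
      _ = _ := by ring
  have hF : cmp c z = exp (t * I) * exp (α * I) -
      ((Real.cos α - c * Real.cos t : ℝ) : ℂ) * exp (((-t : ℝ) : ℂ) * I) := by
    unfold cmp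
    rw [hκ, ← hzr]
  rw [hF, Complex.sq_norm, Complex.normSq_apply]
  simp only [sub_re, sub_im, mul_re, mul_im, exp_ofReal_mul_I_re, exp_ofReal_mul_I_im, ofReal_re,
    ofReal_im, Real.cos_neg, Real.sin_neg]
  rw [hsα]
  unfold De
  set A := Real.cos α
  set k := Real.cos t
  set s := Real.sin t
  have hA2 : A ^ 2 = 1 - c ^ 2 * s ^ 2 := by rw [hcα2]; ring
  have hk2 : k ^ 2 = 1 - s ^ 2 := by linarith
  linear_combination (4 * s ^ 2) * hA2 + c ^ 2 * (k ^ 2 + 1 - 3 * s ^ 2) * hk2

theorem hasDerivAt_th {c : ℝ} (hc0 : 0 ≤ c) (hc1 : c < 1) (t : ℝ) :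
    HasDerivAt (th c) (1 + c * Real.cos t / √(1 - (c * Real.sin t) ^ 2)) t := by
  have habs := abs_lt.1 (abs_c_sin hc0 hc1 t)
  have h1 := Real.hasDerivAt_arcsin (x := c * Real.sin t) (by linarith) (by linarith)
  have h2 : HasDerivAt (fun t => c * Real.sin t) (c * Real.cos t) t :=
    (Real.hasDerivAt_sin t).const_mul c
  have h3 := (hasDerivAt_id t).add (h1.comp t h2)
  refine h3.congr_deriv ?_
  ring

theorem cmp_circle {c p : ℝ} (hc0 : 0 ≤ c) (hc1 : c < 1) (hp : 0 < p) :
    ∫ t in (-π)..π, ‖cmp c (exp (t * I))‖ ^ (2 * p) = ∫ t in (-π)..π, De (c ^ 2) t ^ p := by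
  have hpos : ∀ t : ℝ, 0 < 1 - (c * Real.sin t) ^ 2 := by
    intro t
    have h1 := abs_c_sin hc0 hc1 t
    have h2 : (c * Real.sin t) ^ 2 < 1 := by
      rw [← sq_abs]; exact pow_lt_one₀ (abs_nonneg _) h1 (by norm_num)
    linarith
  have hsq : ∀ t : ℝ, √(1 - (c * Real.sin t) ^ 2) ≠ 0 := fun t => (Real.sqrt_pos.2 (hpos t)).ne'
  set f : ℝ → ℝ := fun t => ‖cmp c (exp (t * I))‖ ^ (2 * p) with hf
  have hz1 : ∀ t : ℝ, exp (t * I) + (c : ℂ) ≠ 0 := by
    intro t h
    have h1 : exp (t * I) = -(c : ℂ) := by linear_combination h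
    have h2 := norm_exp_ofReal_mul_I t
    rw [h1, norm_neg, norm_real, Real.norm_eq_abs, abs_of_nonneg hc0] at h2
    linarith
  have hfc : Continuous f := by
    apply Continuous.rpow_const
    · apply Continuous.norm
      unfold cmp
      apply Continuous.sub (by fun_prop)
      exact Continuous.div continuous_const (by fun_prop) hz1
    · intro t; right; positivity
  have hθc : Continuous fun t : ℝ => 1 + c * Real.cos t / √(1 - (c * Real.sin t) ^ 2) := by
    apply Continuous.add continuous_const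
    exact Continuous.div (by fun_prop) (by fun_prop) hsq
  have h1 := intervalIntegral.integral_comp_mul_deriv (a := -π) (b := π) (f := th c) (g := f)
    (fun t _ => hasDerivAt_th hc0 hc1 t) hθc.continuousOn hfc
  have e1 : th c (-π) = -π := by simp [th]
  have e2 : th c π = π := by simp [th]
  rw [e1, e2] at h1
  rw [← h1]
  have hg : ∀ t, (f ∘ th c) t = De (c ^ 2) t ^ p := by
    intro t
    simp only [Function.comp, hf]
    rw [← norm_cmp_th hc0 hc1 t, ← Real.rpow_natCast, ← Real.rpow_mul (norm_nonneg _)]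
    push_cast; rfl
  have hDc : Continuous fun t => De (c ^ 2) t ^ p :=
    (cont_De _).rpow_const fun t => Or.inr hp.le
  have hq : Continuous fun t : ℝ => De (c ^ 2) t ^ p *
      (c * Real.cos t / √(1 - (c * Real.sin t) ^ 2)) := by
    apply hDc.mul
    exact Continuous.div (by fun_prop) (by fun_prop) hsq
  have h2 : ∫ t in (-π)..π, De (c ^ 2) t ^ p * (c * Real.cos t / √(1 - (c * Real.sin t) ^ 2)) =
      0 := by
    rw [int_shift _ hq]
    · have : ∀ t : ℝ, (De (c ^ 2) t ^ p * (c * Real.cos t / √(1 - (c * Real.sin t) ^ 2)) +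
          De (c ^ 2) (t + π) ^ p *
            (c * Real.cos (t + π) / √(1 - (c * Real.sin (t + π)) ^ 2))) / 2 = 0 := by
        intro t
        unfold De
        rw [Real.sin_add_pi, Real.cos_add_pi, mul_neg, mul_neg, neg_sq, neg_sq]
        ring
      simp_rw [this]
      simp
    · intro t
      simp only [De, Real.sin_add_two_pi, Real.cos_add_two_pi]
  have h3 : ∀ t, (f ∘ th c) t * (1 + c * Real.cos t / √(1 - (c * Real.sin t) ^ 2)) =
      De (c ^ 2) t ^ p + De (c ^ 2) t ^ p * (c * Real.cos t / √(1 - (c * Real.sin t) ^ 2)) := by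
    intro t
    rw [hg]; ring
  simp_rw [h3]
  rw [intervalIntegral.integral_add (hDc.intervalIntegrable _ _) (hq.intervalIntegrable _ _), h2,
    add_zero]

/-- the modulus on circles, extended to all radii -/
noncomputable def mc (c p : ℝ) (r t : ℝ) : ℝ :=
  ‖cmp c (((max r 1 : ℝ) : ℂ) * exp (t * I))‖ ^ (2 * p)

theorem cont_mc {c p : ℝ} (hc0 : 0 ≤ c) (hc1 : c < 1) (hp : 0 < p) :
    Continuous fun r : ℝ => ∫ t in (-π)..π, mc c p r t := by
  apply intervalIntegral.continuous_parametric_intervalIntegral_of_continuous'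
  unfold Function.uncurry mc
  apply Continuous.rpow_const
  · apply Continuous.norm
    unfold cmp
    apply Continuous.sub (by fun_prop)
    apply Continuous.div continuous_const (by fun_prop)
    rintro ⟨r, t⟩ h
    simp only at h
    have h1 : ((max r 1 : ℝ) : ℂ) * exp (t * I) = -(c : ℂ) := by linear_combination h
    have h2 := congrArg norm h1
    rw [norm_mul, norm_exp_ofReal_mul_I, mul_one, norm_neg, norm_real, norm_real,
      Real.norm_eq_abs, Real.norm_eq_abs, abs_of_nonneg hc0,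
      abs_of_nonneg (le_trans zero_le_one (le_max_right r 1))] at h2
    have := le_max_right r 1
    linarith
  · intro t; right; positivity

/-- small exponents, near the unit circle -/
theorem sigma_small {lam : ℝ} (hl : 0 < lam) (hl1 : lam < 4 / 3) :
    ∃ c r1 : ℝ, 0 < c ∧ c < 1 ∧ 1 < r1 ∧ ClassSigma (fun z => z - (1 - (c : ℂ) ^ 2) / (z + c)) ∧
      ∀ r : ℝ, 1 < r → r < r1 →
        integralMean lam r (fun z => z + z⁻¹) <
          integralMean lam r (fun z => z - (1 - (c : ℂ) ^ 2) / (z + c)) := by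
  obtain ⟨e, he0, he1, he⟩ := exists_De_gt (p := lam / 2) (by positivity) (by linarith)
  have hp : 0 < lam / 2 := by positivity
  set c := √e with hc
  have hc0 : 0 < c := Real.sqrt_pos.2 he0
  have hcc : c ^ 2 = e := Real.sq_sqrt he0.le
  have hc1 : c < 1 := by nlinarith
  have h1 : ∫ t in (-π)..π, mc 0 (lam / 2) 1 t < ∫ t in (-π)..π, mc c (lam / 2) 1 t := by
    unfold mc
    simp only [max_self, ofReal_one, one_mul]
    rw [cmp_circle le_rfl zero_lt_one hp, cmp_circle hc0.le hc1 hp, hcc]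
    simpa using he
  have h2 : ∀ᶠ r : ℝ in 𝓝 1,
      ∫ t in (-π)..π, mc 0 (lam / 2) r t < ∫ t in (-π)..π, mc c (lam / 2) r t :=
    (cont_mc le_rfl zero_lt_one hp).continuousAt.eventually_lt
      (cont_mc hc0.le hc1 hp).continuousAt h1
  obtain ⟨ε, hε, h3⟩ := Metric.eventually_nhds_iff.1 h2
  refine ⟨c, 1 + ε, hc0, hc1, by linarith, classSigma_cmp hc0.le hc1, fun r hr hr1 => ?_⟩
  have h4 := @h3 r (by rw [Real.dist_eq, abs_of_pos (by linarith)]; linarith)
  unfold mc at h4
  rw [max_eq_left hr.le, show 2 * (lam / 2) = lam by ring] at h4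
  have hJ : integralMean lam r (cmp 0) = integralMean lam r (fun z => z + z⁻¹) := by
    apply integralMean_rotJ (c := -1) (by simp) _ hr
    intro z _
    unfold cmp
    simp
    ring
  rw [← hJ, integralMean_eq, integralMean_eq]
  apply Real.rpow_lt_rpow _ _ (by positivity)
  · apply mul_nonneg (by positivity)
    apply intervalIntegral.integral_nonneg (by linarith [Real.pi_pos])
    intro t _
    positivity
  · exact mul_lt_mul_of_pos_left h4 (by positivity)

end Pool.Agent.H15.Sig
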