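import Pool.Agent.H15.Sig.Cheb

/-!
# Stability of the coefficients: preparations
-/

open Complex Set Filter Topology MeasureTheory
open scoped ComplexConjugate Real

namespace Pool.Agent.H15.Sig

variable {F : ℂ → ℂ} {b : ℕ → ℂ}

theorem Rep.sum {ι : Type*} (s : Finset ι) {f : ι → PowerSeries ℂ} {G : ι → ℂ → ℂ}
    (h : ∀ i ∈ s, Rep (f i) (G i)) : Rep (∑ i ∈ s, f i) (fun u => ∑ i ∈ s, G i u) := by
  intro u hu
  have := hasSum_sum (fun i hi => h i hi u hu)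
  refine this.congr_fun ?_ |> fun h => h
  intro k
  rw [map_sum, Finset.sum_mul]

theorem Rep.natCast (n : ℕ) : Rep (n : PowerSeries ℂ) (fun _ => (n : ℂ)) := by
  have := Rep.C (n : ℂ)
  simpa using this

theorem Rep.ch {f : PowerSeries ℂ} {G : ℂ → ℂ} (hf : Rep f G) :
    ∀ n : ℕ, Rep (Sig.ch f PowerSeries.X n) (fun u => Sig.ch (G u) u n)
  | 0 => by
    have := Rep.natCast 2
    simpa [Sig.ch] using this
  | 1 => hf
  | (n + 2) => by
    have h1 := hf.mul (Rep.ch hf (n + 1))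
    have h2 := (Rep.X.pow 2).mul (Rep.ch hf n)
    exact h1.sub h2

theorem Rep.sg (n : ℕ) : Rep (Sig.sg PowerSeries.X n) (fun u => Sig.sg u n) := by
  unfold Sig.sg
  exact Rep.sum _ fun l _ => Rep.X.pow (2 * l)

theorem Rep.er {f : PowerSeries ℂ} {G : ℂ → ℂ} (hf : Rep f G) (n : ℕ) :
    Rep (Sig.er f PowerSeries.X n) (fun u => Sig.er (G u) u n) := by
  unfold Sig.er
  have h0 : Rep (1 + PowerSeries.X ^ 2 + f) (fun u => 1 + u ^ 2 + G u) :=
    (Rep.one.add (Rep.X.pow 2)).add hf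
  have h1 := h0.ch n
  have h2 : Rep (1 + PowerSeries.X ^ (2 * n)) (fun u => 1 + u ^ (2 * n)) :=
    Rep.one.add (Rep.X.pow (2 * n))
  exact (h1.sub h2).sub (((Rep.natCast n).mul (Rep.sg n)).mul hf)

/-- Cauchy estimate for one coefficient on the circle of radius `1/2` -/
theorem Rep.coeff_le_one {f : PowerSeries ℂ} {G : ℂ → ℂ} (hf : Rep f G) {M : ℝ}
    (hM : ∀ u : ℂ, ‖u‖ ≤ 1 / 2 → ‖G u‖ ≤ M) (k : ℕ) :
    ‖PowerSeries.coeff k f‖ ≤ 2 ^ k * M := by
  have hM0 : 0 ≤ M := (norm_nonneg _).trans (hM 0 (by simp))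
  have h1 := hf.coeff_le (x := 1 / 2) (by norm_num) (by norm_num) (M := M)
    (fun t => hM _ (by
      have := norm_mul_ec (x := 1/2) (by norm_num) t
      exact this.le)) {k}
  rw [Finset.sum_singleton, mul_comm 2 k, pow_mul, ← mul_pow] at h1
  have h2 : ‖PowerSeries.coeff k f‖ * (1 / 2) ^ k ≤ M := by
    exact le_of_sq_le_sq h1 hM0
  have h3 : ‖PowerSeries.coeff k f‖ = 2 ^ k * (‖PowerSeries.coeff k f‖ * (1 / 2) ^ k) := by
    rw [one_div, inv_pow]; field_simp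
  rw [h3]
  exact mul_le_mul_of_nonneg_left h2 (by positivity)

/-- the deviation series -/
noncomputable def eps (b : ℕ → ℂ) : PowerSeries ℂ := sps b - (1 + PowerSeries.X ^ 2)

/-- deviation of the coefficients from those of `z + 1/z` -/
noncomputable def hh (b : ℕ → ℂ) (n : ℕ) : ℂ := b n - if n = 1 then 1 else 0

theorem coeff_eps_succ (k : ℕ) : PowerSeries.coeff (k + 1) (eps b) = hh b k := by
  unfold eps hh
  rw [map_sub, coeff_sps_succ, map_add, PowerSeries.coeff_X_pow, PowerSeries.coeff_one]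
  by_cases hk : k = 1
  · subst hk; simp
  · rw [if_neg (by omega), if_neg (by omega), if_neg hk]; ring

theorem coeff_eps_zero : PowerSeries.coeff 0 (eps b) = 0 := by
  unfold eps
  rw [map_sub, coeff_sps_zero]; simp

theorem IsSig.rep_eps (h : IsSig F b) : Rep (eps b) (fun u => u * (pw b u - u)) := by
  have h1 := h.rep_sps.sub (Rep.one.add (Rep.X.pow 2))
  refine h1.congr fun u hu => ?_
  ring

theorem sps_eq : sps b = 1 + PowerSeries.X ^ 2 + eps b := by unfold eps; ring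

/-- hypothesis: `b 1` is the real number `β ≥ 0` -/
structure Nrm (F : ℂ → ℂ) (b : ℕ → ℂ) (β : ℝ) : Prop where
  sig : IsSig F b
  b1 : b 1 = (β : ℂ)
  nn : 0 ≤ β

variable {β : ℝ}

theorem Nrm.sum_le (h : Nrm F b β) {n : ℕ} (hn : 2 ≤ n) : n * ‖b n‖ ^ 2 ≤ 1 - β ^ 2 := by
  have h1 := h.sig.area (n + 1)
  have hsub : ({1, n} : Finset ℕ) ⊆ Finset.range (n + 1) := by
    intro k hk
    simp only [Finset.mem_insert, Finset.mem_singleton] at hk
    rw [Finset.mem_range]; omega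
  have h2 := Finset.sum_le_sum_of_subset_of_nonneg hsub
    (f := fun k : ℕ => (k : ℝ) * ‖b k‖ ^ 2) (fun k _ _ => by positivity)
  rw [Finset.sum_pair (by omega)] at h2
  have h3 : ‖b 1‖ ^ 2 = β ^ 2 := by rw [h.b1, norm_real, Real.norm_eq_abs, sq_abs]
  rw [h3] at h2
  push_cast at h2
  linarith

theorem Nrm.beta_le (h : Nrm F b β) : β ≤ 1 := by
  have := h.sum_le le_rfl
  have h2 : 0 ≤ ‖b 2‖ ^ 2 := by positivity
  push_cast at this
  nlinarith [h.nn]

theorem Nrm.del_nonneg (h : Nrm F b β) : 0 ≤ 1 - β ^ 2 := by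
  have := h.beta_le; have := h.nn; nlinarith

theorem Nrm.norm_le (h : Nrm F b β) {n : ℕ} (hn : 2 ≤ n) : ‖b n‖ ≤ √(1 - β ^ 2) := by
  have h1 := h.sum_le hn
  apply Real.le_sqrt_of_sq_le
  have h2 : (2:ℝ) ≤ n := by exact_mod_cast hn
  have h3 : 0 ≤ ‖b n‖ ^ 2 := by positivity
  nlinarith

theorem Nrm.sqrt_le_one (h : Nrm F b β) : √(1 - β ^ 2) ≤ 1 := by
  exact Real.sqrt_le_one.2 (by nlinarith [sq_nonneg β])

theorem Nrm.hh_one (h : Nrm F b β) : hh b 1 = ((β - 1 : ℝ) : ℂ) := by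
  unfold hh; rw [if_pos rfl, h.b1]; push_cast; ring

theorem Nrm.one_sub_le (h : Nrm F b β) : 1 - β ≤ 1 - β ^ 2 := by
  have := h.beta_le; have := h.nn; nlinarith

theorem Nrm.norm_hh_le (h : Nrm F b β) (n : ℕ) : ‖hh b n‖ ≤ √(1 - β ^ 2) := by
  have hd := h.del_nonneg
  rcases n with _ | _ | n
  · unfold hh; rw [h.sig.b0]; simp
  · rw [zero_add, h.hh_one, norm_real, Real.norm_eq_abs, abs_sub_comm,
      abs_of_nonneg (by linarith [h.beta_le])]
    refine h.one_sub_le.trans ?_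
    apply Real.le_sqrt_of_sq_le
    nlinarith [sq_nonneg β]
  · unfold hh; rw [if_neg (by omega), sub_zero]
    exact h.norm_le (by omega)

theorem Nrm.pw_sub_le (h : Nrm F b β) {u : ℂ} (hu : ‖u‖ ≤ 1 / 2) :
    ‖pw b u - u‖ ≤ √(1 - β ^ 2) := by
  have hu1 : ‖u‖ < 1 := by linarith
  have h1 : HasSum (fun n : ℕ => (if n = 1 then (1:ℂ) else 0) * u ^ n) u := by
    have : HasSum (fun n : ℕ => (if n = 1 then (1:ℂ) else 0) * u ^ n)
        ((if (1:ℕ) = 1 then (1:ℂ) else 0) * u ^ 1) := by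
      apply hasSum_single
      intro n hn
      rw [if_neg hn, zero_mul]
    simpa using this
  have h2 : HasSum (fun n : ℕ => hh b n * u ^ n) (pw b u - u) := by
    refine ((h.sig.hasSum_pw hu1).sub h1).congr_fun ?_ |> fun h => h
    intro n; unfold hh; ring
  have h3 : HasSum (fun n : ℕ => hh b (n + 1) * u ^ (n + 1)) (pw b u - u) := by
    have h0 : hh b 0 = 0 := by unfold hh; rw [h.sig.b0]; simp
    have := (hasSum_nat_add_iff' 1).2 h2
    simpa [h0] using this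
  have h4 : HasSum (fun n : ℕ => √(1 - β ^ 2) * ((1/2) ^ n * (1 / 2))) (√(1 - β ^ 2) * (2 * (1/2))) :=
    (hasSum_geometric_two.mul_right (1/2 : ℝ)).mul_left _
  have h5 := h3.norm_le_of_bounded h4 (fun n => by
    rw [norm_mul, norm_pow]
    refine mul_le_mul (h.norm_hh_le _) ?_ (by positivity) (Real.sqrt_nonneg _)
    rw [← pow_succ]
    exact pow_le_pow_left₀ (norm_nonneg _) hu _)
  linarith

theorem Nrm.eps_le (h : Nrm F b β) {u : ℂ} (hu : ‖u‖ ≤ 1 / 2) :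
    ‖u * (pw b u - u)‖ ≤ √(1 - β ^ 2) / 2 := by
  rw [norm_mul]
  have := mul_le_mul hu (h.pw_sub_le hu) (norm_nonneg _) (by norm_num)
  linarith

/-- the second order error -/
theorem Nrm.coeff_er_le (h : Nrm F b β) (n k : ℕ) :
    ‖PowerSeries.coeff k (er (eps b) PowerSeries.X n)‖ ≤ 2 ^ k * (3 ^ n * ((1 - β ^ 2) / 4)) := by
  refine (h.sig.rep_eps.er n).coeff_le_one (fun u hu => ?_) k
  have h1 := h.eps_le hu
  have h2 := norm_er_le hu (h1.trans (by linarith [h.sqrt_le_one])) n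
  refine h2.trans ?_
  apply mul_le_mul_of_nonneg_left _ (by positivity)
  have h3 := pow_le_pow_left₀ (norm_nonneg _) h1 2
  rw [div_pow, Real.sq_sqrt h.del_nonneg] at h3
  linarith

theorem Nrm.rep_dif (h : Nrm F b β) (n : ℕ) :
    Rep (ch (sps b) PowerSeries.X n - (1 + PowerSeries.X ^ (2 * n)))
      (fun u => ch (1 + u ^ 2 + u * (pw b u - u)) u n - (1 + u ^ (2 * n))) := by
  have h1 : Rep (sps b) (fun u => 1 + u ^ 2 + u * (pw b u - u)) := by
    rw [sps_eq]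
    exact (Rep.one.add (Rep.X.pow 2)).add h.sig.rep_eps
  exact (h1.ch n).sub (Rep.one.add (Rep.X.pow (2 * n)))

/-- the first order error -/
theorem Nrm.coeff_dif_le (h : Nrm F b β) {n : ℕ} (hn : 1 ≤ n) (k : ℕ) :
    ‖PowerSeries.coeff k (ch (sps b) PowerSeries.X n - (1 + PowerSeries.X ^ (2 * n)))‖ ≤
      2 ^ k * (3 ^ n * √(1 - β ^ 2)) :=
  (h.rep_dif n).coeff_le_one (fun _ hu =>
    norm_dif_le hu (Real.sqrt_nonneg _) h.sqrt_le_one (h.eps_le hu) hn) k

theorem Nrm.sum_dif_le (h : Nrm F b β) {n : ℕ} (hn : 1 ≤ n) :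
    ∑ k ∈ Finset.range n,
      ‖PowerSeries.coeff k (ch (sps b) PowerSeries.X n - (1 + PowerSeries.X ^ (2 * n)))‖ ^ 2 ≤
      36 ^ n / 4 * (1 - β ^ 2) := by
  have h1 := (h.rep_dif n).coeff_le (x := 1 / 2) (by norm_num) (by norm_num)
    (M := 3 ^ n * √(1 - β ^ 2))
    (fun t => by
      have h2 := norm_mul_ec (x := 1/2) (by norm_num) t
      exact norm_dif_le h2.le (Real.sqrt_nonneg _) h.sqrt_le_one (h.eps_le h2.le) hn)
    (Finset.range n)
  rw [mul_pow, Real.sq_sqrt h.del_nonneg] at h1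
  have h3 : ∀ k ∈ Finset.range n,
      ‖PowerSeries.coeff k (ch (sps b) PowerSeries.X n - (1 + PowerSeries.X ^ (2 * n)))‖ ^ 2 ≤
      4 ^ (n - 1) * (‖PowerSeries.coeff k
        (ch (sps b) PowerSeries.X n - (1 + PowerSeries.X ^ (2 * n)))‖ ^ 2 * (1 / 2) ^ (2 * k)) := by
    intro k hk
    have hk' : k ≤ n - 1 := by have := Finset.mem_range.1 hk; omega
    have h4 : (1:ℝ) ≤ 4 ^ (n - 1) * (1 / 2) ^ (2 * k) := by
      have e : ((1:ℝ) / 2) ^ (2 * k) = (4 ^ k)⁻¹ := by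
        rw [pow_mul, one_div, inv_pow, inv_pow]; norm_num
      rw [e, ← div_eq_mul_inv, le_div_iff₀ (by positivity), one_mul]
      exact pow_le_pow_right₀ (by norm_num) hk'
    have h5 : 0 ≤ ‖PowerSeries.coeff k
      (ch (sps b) PowerSeries.X n - (1 + PowerSeries.X ^ (2 * n)))‖ ^ 2 := by positivity
    nlinarith
  refine (Finset.sum_le_sum h3).trans ?_
  rw [← Finset.mul_sum]
  obtain ⟨m, rfl⟩ : ∃ m, n = m + 1 := ⟨n - 1, by omega⟩
  rw [Nat.add_sub_cancel]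
  refine (mul_le_mul_of_nonneg_left h1 (by positivity)).trans (le_of_eq ?_)
  have e1 : (36:ℝ) ^ (m + 1) = 4 ^ (m + 1) * 9 ^ (m + 1) := by rw [← mul_pow]; norm_num
  have e2 : ((3:ℝ) ^ (m + 1)) ^ 2 = 9 ^ (m + 1) := by rw [← pow_mul, mul_comm, pow_mul]; norm_num
  rw [e1, e2, pow_succ 4 m]; ring

end Pool.Agent.H15.Sig
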