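import Pool.Agent.H15.Sig.Stab

/-!
# Stability of the coefficients: the quadratic inequality
-/

open Complex Set Filter Topology MeasureTheory
open scoped ComplexConjugate Real

namespace Pool.Agent.H15.Sig

variable {F : ℂ → ℂ} {b : ℕ → ℂ} {β : ℝ}

theorem differentiable_ch (n : ℕ) : Differentiable ℂ (fun w : ℂ => ch w 1 n) := by
  have : ∀ n : ℕ, Differentiable ℂ (fun w : ℂ => ch w 1 n) ∧
      Differentiable ℂ (fun w : ℂ => ch w 1 (n + 1)) := by
    intro n
    induction n with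
    | zero =>
      refine ⟨?_, ?_⟩
      · simp only [ch]; fun_prop
      · simp only [ch]; fun_prop
    | succ n ih =>
      refine ⟨ih.2, ?_⟩
      have : (fun w : ℂ => ch w 1 (n + 1 + 1)) =
          fun w : ℂ => w * ch w 1 (n + 1) - 1 ^ 2 * ch w 1 n := by
        funext w; rfl
      rw [this]
      exact (differentiable_id.mul ih.2).sub (ih.1.const_mul _)
  exact (this n).1

theorem norm_add_sq_re (x y : ℂ) (s : ℝ) :
    ‖(s : ℂ) * x + y‖ ^ 2 = s ^ 2 * ‖x‖ ^ 2 + 2 * s * (x * conj y).re + ‖y‖ ^ 2 := by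
  have e : ((s : ℂ) * x * conj y).re = s * (x * conj y).re := by
    rw [mul_assoc, re_ofReal_mul]
  rw [← normSq_eq_norm_sq, ← normSq_eq_norm_sq, ← normSq_eq_norm_sq, normSq_add, normSq_mul,
    normSq_ofReal, e]
  ring

/-- the coefficients of `C_n(F)` -/
noncomputable def cc (b : ℕ → ℂ) (n k : ℕ) : ℂ :=
  PowerSeries.coeff k (ch (sps b) PowerSeries.X n)

theorem IsSig.quad (h : IsSig F b) (m : ℕ) (s : ℝ) :
    ‖(s : ℂ) * b 1 + cc b (m + 2) (m + 3)‖ ^ 2 +
      (m + 2) * ‖(s : ℂ) * b (m + 2) + cc b (m + 2) (2 * m + 4)‖ ^ 2 ≤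
    ‖(s : ℂ) * 1 + cc b (m + 2) (m + 1)‖ ^ 2 +
      (m + 2) * ∑ k ∈ Finset.range (m + 1), ‖cc b (m + 2) k‖ ^ 2 := by
  set g : PowerSeries ℂ := PowerSeries.C (s : ℂ) * (PowerSeries.X ^ (m + 1) * sps b) +
    ch (sps b) PowerSeries.X (m + 2) with hg
  have hrep : Rep g (fun u => s * (u ^ (m + 1) * (1 + u * pw b u)) +
      ch (1 + u * pw b u) u (m + 2)) :=
    ((Rep.C _).mul ((Rep.X.pow _).mul h.rep_sps)).add (h.rep_sps.ch _)
  have hdiff : Differentiable ℂ (fun w : ℂ => s * w + ch w 1 (m + 2)) :=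
    (differentiable_id.const_mul _).add (differentiable_ch _)
  have h1 := h.area_coeff (N := m + 2) hdiff hrep (M := 2 * m + 4) (fun u hu h0 => by
    rw [h.eq_inv hu h0]
    have e1 : ch (u⁻¹ * (1 + u * pw b u)) 1 (m + 2) =
        (u⁻¹) ^ (m + 2) * ch (1 + u * pw b u) u (m + 2) := by
      rw [← ch_homog, inv_mul_cancel₀ h0]
    rw [e1, inv_pow]
    have e2 : (u ^ (m + 2))⁻¹ * u ^ (m + 1) = u⁻¹ := by
      rw [pow_succ u (m + 1)]; field_simp
    rw [mul_add, ← e2]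
    ring) (by omega)
  -- coefficients
  have c1 : ∀ k, k < m + 1 → PowerSeries.coeff k g = cc b (m + 2) k := by
    intro k hk
    rw [hg, map_add, PowerSeries.coeff_C_mul, PowerSeries.coeff_X_pow_mul', if_neg (by omega)]
    simp [cc]
  have c2 : PowerSeries.coeff (m + 1) g = s * 1 + cc b (m + 2) (m + 1) := by
    rw [hg, map_add, PowerSeries.coeff_C_mul, PowerSeries.coeff_X_pow_mul', if_pos le_rfl,
      Nat.sub_self, coeff_sps_zero]
    simp [cc]
  have c3 : ∀ j, PowerSeries.coeff (m + 1 + (j + 1)) g = s * b j + cc b (m + 2) (m + 1 + (j + 1)) := by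
    intro j
    rw [hg, map_add, PowerSeries.coeff_C_mul, PowerSeries.coeff_X_pow_mul', if_pos (by omega),
      Nat.add_sub_cancel_left, coeff_sps_succ]
    simp [cc]
  have c3a := c3 1
  have c3b := c3 (m + 2)
  rw [show m + 1 + (1 + 1) = m + 3 by ring] at c3a
  rw [show m + 1 + (m + 2 + 1) = 2 * m + 4 by ring] at c3b
  -- splitting of the sum
  set f : ℕ → ℝ := fun k => ((k : ℝ) - ((m + 2 : ℕ) : ℝ)) * ‖PowerSeries.coeff k g‖ ^ 2 with hf
  have hsub : insert (m + 3) (insert (2 * m + 4) (Finset.range (m + 2))) ⊆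
      Finset.range (2 * m + 4 + 1) := by
    intro k hk
    simp only [Finset.mem_insert, Finset.mem_range] at hk ⊢
    omega
  have h2 : ∑ k ∈ insert (m + 3) (insert (2 * m + 4) (Finset.range (m + 2))), f k ≤
      ∑ k ∈ Finset.range (2 * m + 4 + 1), f k := by
    apply Finset.sum_le_sum_of_subset_of_nonneg hsub
    intro k _ hk
    simp only [Finset.mem_insert, Finset.mem_range, not_or, not_lt] at hk
    have : ((m + 2 : ℕ) : ℝ) ≤ k := by exact_mod_cast hk.2.2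
    exact mul_nonneg (by linarith) (by positivity)
  rw [Finset.sum_insert (by
      simp only [Finset.mem_insert, Finset.mem_range, not_or, not_lt]; omega),
    Finset.sum_insert (by simp only [Finset.mem_range, not_lt]; omega),
    Finset.sum_range_succ] at h2
  have h3 : -((m + 2) * ∑ k ∈ Finset.range (m + 1), ‖cc b (m + 2) k‖ ^ 2) ≤
      ∑ k ∈ Finset.range (m + 1), f k := by
    rw [Finset.mul_sum, ← Finset.sum_neg_distrib]
    apply Finset.sum_le_sum
    intro k hk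
    simp only [hf]
    rw [c1 k (Finset.mem_range.1 hk)]
    have e0 : 0 ≤ ‖cc b (m + 2) k‖ ^ 2 := by positivity
    have e1 : (0:ℝ) ≤ k := Nat.cast_nonneg k
    push_cast
    nlinarith
  have h4 : f (m + 1) = -‖(s : ℂ) * 1 + cc b (m + 2) (m + 1)‖ ^ 2 := by
    simp only [hf]; rw [c2]; push_cast; ring
  have h5 : f (m + 3) = ‖(s : ℂ) * b 1 + cc b (m + 2) (m + 3)‖ ^ 2 := by
    simp only [hf]; rw [c3a]; push_cast; ring
  have h6 : f (2 * m + 4) =
      (m + 2) * ‖(s : ℂ) * b (m + 2) + cc b (m + 2) (2 * m + 4)‖ ^ 2 := by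
    simp only [hf]; rw [c3b]; push_cast; ring
  rw [h4, h5, h6] at h2
  have h7 : ∑ k ∈ Finset.range (2 * m + 4 + 1), f k ≤ 0 := h1
  linarith

/-- the discriminant inequality -/
theorem Nrm.disc (h : Nrm F b β) (m : ℕ) :
    ((cc b (m + 2) (m + 1)).re - β * (cc b (m + 2) (m + 3)).re -
      (m + 2) * (b (m + 2) * conj (cc b (m + 2) (2 * m + 4))).re) ^ 2 ≤
    (1 - β ^ 2) * (‖cc b (m + 2) (m + 1)‖ ^ 2 +
      (m + 2) * ∑ k ∈ Finset.range (m + 1), ‖cc b (m + 2) k‖ ^ 2 -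
      (m + 2) * ‖cc b (m + 2) (2 * m + 4)‖ ^ 2) := by
  set B := (cc b (m + 2) (m + 1)).re - β * (cc b (m + 2) (m + 3)).re -
      (m + 2) * (b (m + 2) * conj (cc b (m + 2) (2 * m + 4))).re with hB
  set Γ := ‖cc b (m + 2) (m + 1)‖ ^ 2 +
      (m + 2) * ∑ k ∈ Finset.range (m + 1), ‖cc b (m + 2) k‖ ^ 2 -
      (m + 2) * ‖cc b (m + 2) (2 * m + 4)‖ ^ 2 with hΓ
  have key : ∀ s : ℝ, 0 ≤ (1 - β ^ 2) * (s * s) + (2 * B) * s + Γ := by
    intro s
    have h1 := h.sig.quad m s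
    rw [norm_add_sq_re, norm_add_sq_re, norm_add_sq_re, h.b1] at h1
    have e1 : ‖(β : ℂ)‖ ^ 2 = β ^ 2 := by rw [norm_real, Real.norm_eq_abs, sq_abs]
    have e2 : ((β : ℂ) * conj (cc b (m + 2) (m + 3))).re = β * (cc b (m + 2) (m + 3)).re := by
      rw [re_ofReal_mul, conj_re]
    have e3 : ((1 : ℂ) * conj (cc b (m + 2) (m + 1))).re = (cc b (m + 2) (m + 1)).re := by
      rw [one_mul, conj_re]
    rw [e1, e2, e3, norm_one] at h1
    have p1 : 0 ≤ (m + 2 : ℝ) * (s ^ 2 * ‖b (m + 2)‖ ^ 2) := by positivity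
    have p2 : 0 ≤ ‖cc b (m + 2) (m + 3)‖ ^ 2 := by positivity
    rw [hB, hΓ]
    nlinarith
  have h2 := discrim_le_zero key
  unfold discrim at h2
  nlinarith

end Pool.Agent.H15.Sig
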