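import Pool.Agent.H15.Sig.ThrLow

/-!
# The sharp threshold for the derivative
-/

open Complex Set Filter Topology MeasureTheory
open scoped ComplexConjugate Real

namespace Pool.Agent.H15.Sig

theorem half_sq_le_cosh (y : ℝ) : 1 + y ^ 2 / 2 ≤ Real.cosh y := by
  rw [← Real.cosh_abs y, ← sq_abs y]
  set z := |y| / 2 with hz
  have hz0 : 0 ≤ z := by positivity
  have hyz : |y| = 2 * z := by rw [hz]; ring
  rw [hyz, Real.cosh_two_mul, Real.cosh_sq]
  have h1 : z ≤ Real.sinh z := Real.self_le_sinh_iff.2 hz0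
  nlinarith

theorem exp_le_cosh (y : ℝ) : Real.exp (y ^ 2 / 2 - y ^ 4 / 8) ≤ Real.cosh y := by
  have h1 : 1 + y ^ 2 / 2 ≤ Real.cosh y := half_sq_le_cosh y
  refine le_trans ?_ h1
  have hpos : 0 < 1 + y ^ 2 / 2 := by positivity
  rw [← Real.le_log_iff_exp_le hpos]
  have h2 := Real.le_log_one_add_of_nonneg (x := y ^ 2 / 2) (by positivity)
  refine le_trans ?_ h2
  rw [le_div_iff₀ (by positivity)]
  nlinarith [mul_nonneg (sq_nonneg y) (sq_nonneg (y ^ 2))]

theorem cmp_moment_gt {p x ε : ℝ} (hp : 0 < p) (hx0 : 0 < x)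
    (hx : x ≤ 1 / 30000) (hε0 : 0 < ε) (hε : 1100 * x ≤ ε) (hpx : 1 / 4 + ε / 2 ≤ p * x ^ 4) :
    ∃ c : ℝ, 0 ≤ c ∧ c < 1 ∧
      Mo p (x ^ 2) < ∫ t in (-π)..π, ‖deriv (cmp c) ((x : ℂ) * ec t)⁻¹‖ ^ (2 * p) := by
  have hx2 := Pert.sq_le hx0 hx
  have hx20 : 0 < x ^ 2 := by positivity
  have hx21 : x ^ 2 < 1 := by linarith
  have hM := Mo_pos p (sq_nonneg x) hx21
  obtain ⟨a, ha⟩ : ∃ a, a = p * x ^ 4 := ⟨_, rfl⟩
  rw [← ha] at hpx
  rcases le_total a 1 with ha1 | ha1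
  · -- near the threshold
    have hε1 : ε ≤ 3 / 2 := by linarith
    set s := √ε / 4 with hs
    have hs0 : 0 ≤ s := by positivity
    have hss : s ^ 2 = ε / 16 := by
      rw [hs, div_pow, Real.sq_sqrt hε0.le]; norm_num
    have hs1 : s ≤ 1 := by
      have : s ^ 2 ≤ 1 := by rw [hss]; linarith
      nlinarith
    refine ⟨s * x, by positivity, by nlinarith, ?_⟩
    refine lt_of_lt_of_le ?_ (cmp_moment_ge hp hs0 hs1 hx0 hx ha)
    have h1 := exp_le_cosh (4 * a * s)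
    have h2 : Real.exp (-(62 * s * x ^ 2)) ≤ 1 - 31 * s * x ^ 2 := by
      have h3 : 0 ≤ 31 * s * x ^ 2 := by positivity
      have h4 : 31 * s * x ^ 2 ≤ 1 / 2 := by nlinarith
      have h5 := Real.one_sub_inv_le_log_of_pos (x := 1 - 31 * s * x ^ 2) (by linarith)
      rw [← Real.le_log_iff_exp_le (by linarith)]
      refine le_trans ?_ h5
      have h6 : (1 - 31 * s * x ^ 2)⁻¹ ≤ 1 + 62 * s * x ^ 2 := by
        rw [inv_le_iff_one_le_mul₀ (by linarith)]
        nlinarith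
      linarith
    have h3 : 1 < Real.exp (-(2 * a * s ^ 2) - 24 * a * x ^ 2) *
        Real.exp ((4 * a * s) ^ 2 / 2 - (4 * a * s) ^ 4 / 8) * Real.exp (-(62 * s * x ^ 2)) := by
      rw [← Real.exp_add, ← Real.exp_add, Real.one_lt_exp_iff]
      have e1 : -(2 * a * s ^ 2) - 24 * a * x ^ 2 + ((4 * a * s) ^ 2 / 2 - (4 * a * s) ^ 4 / 8) +
          -(62 * s * x ^ 2) = 2 * a * s ^ 2 * (4 * a - 1) - 32 * a ^ 4 * (s ^ 2) ^ 2 -
          24 * a * x ^ 2 - 62 * s * x ^ 2 := by ring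
      rw [e1, hss]
      have ha0 : 1 / 4 ≤ a := by linarith
      have h4 : 2 * a * (ε / 16) * (2 * ε) ≤ 2 * a * (ε / 16) * (4 * a - 1) :=
        mul_le_mul_of_nonneg_left (by linarith) (by positivity)
      have h5 : a ^ 4 ≤ a := by
        have h6 : a ^ 3 ≤ 1 := pow_le_one₀ (by linarith) ha1
        have : a ^ 4 = a * a ^ 3 := by ring
        rw [this]; nlinarith
      have h6 : 32 * a ^ 4 * (ε / 16) ^ 2 ≤ 32 * a * (ε / 16) ^ 2 := by
        apply mul_le_mul_of_nonneg_right _ (by positivity)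
        linarith
      have h7 : x ^ 2 ≤ ε ^ 2 / 1210000 := by
        rw [le_div_iff₀ (by norm_num)]
        have := pow_le_pow_left₀ (by positivity) hε 2
        linarith
      have h8 : 62 * s * x ^ 2 ≤ 62 * 1 * (ε ^ 2 / 1210000) := by
        apply mul_le_mul _ h7 hx20.le (by norm_num)
        linarith
      have h9 : 24 * a * x ^ 2 ≤ 24 * a * (ε ^ 2 / 1210000) :=
        mul_le_mul_of_nonneg_left h7 (by positivity)
      have h10 : 0 < ε ^ 2 := by positivity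
      have h11 : 1 / 4 * ε ^ 2 ≤ a * ε ^ 2 := mul_le_mul_of_nonneg_right ha0 h10.le
      nlinarith
    have h4 : Real.exp (-(2 * a * s ^ 2) - 24 * a * x ^ 2) *
        Real.exp ((4 * a * s) ^ 2 / 2 - (4 * a * s) ^ 4 / 8) * Real.exp (-(62 * s * x ^ 2)) ≤
        Real.exp (-(2 * a * s ^ 2) - 24 * a * x ^ 2) * Real.cosh (4 * a * s) *
          (1 - 31 * s * x ^ 2) := by
      apply mul_le_mul _ h2 (Real.exp_pos _).le
        (mul_pos (Real.exp_pos _) (Real.cosh_pos _)).le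
      exact mul_le_mul_of_nonneg_left h1 (Real.exp_pos _).le
    have h5 := h3.trans_le h4
    nlinarith
  · -- far from the threshold
    refine ⟨1 * x, by positivity, by linarith, ?_⟩
    refine lt_of_lt_of_le ?_ (cmp_moment_ge hp zero_le_one le_rfl hx0 hx ha)
    have h1 : Real.exp (4 * a) / 2 ≤ Real.cosh (4 * a * 1) := by
      rw [mul_one, Real.cosh_eq]
      have := Real.exp_pos (-(4 * a))
      linarith
    have h3 : 2 < Real.exp (-(2 * a * 1 ^ 2) - 24 * a * x ^ 2) * (Real.exp (4 * a) / 2) := by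
      have e1 : Real.exp (-(2 * a * 1 ^ 2) - 24 * a * x ^ 2) * (Real.exp (4 * a) / 2) =
          Real.exp (2 * a - 24 * a * x ^ 2) / 2 := by
        rw [mul_div_assoc', ← Real.exp_add]; congr 2; ring
      rw [e1]
      have h4 : 19 / 10 ≤ 2 * a - 24 * a * x ^ 2 := by nlinarith
      have h5 := Real.exp_le_exp.2 h4
      have h6 : (4:ℝ) < Real.exp (19 / 10) := by
        have h7 := Real.quadratic_le_exp_of_nonneg (x := 19 / 10) (by norm_num)
        have h8 : (19 / 20 : ℝ) + 1 ≤ Real.exp (19 / 20) := Real.add_one_le_exp _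
        have h9 : Real.exp (19 / 10) = Real.exp (19 / 20) ^ 2 := by
          rw [← Real.exp_nat_mul]; congr 1; norm_num
        have h10 := Real.quadratic_le_exp_of_nonneg (x := 19 / 20) (by norm_num)
        rw [h9]; nlinarith
      linarith
    have h4 : (2:ℝ) ≤ Real.exp (-(2 * a * 1 ^ 2) - 24 * a * x ^ 2) * Real.cosh (4 * a * 1) :=
      h3.le.trans (mul_le_mul_of_nonneg_left h1 (Real.exp_pos _).le)
    have h5 : (9 / 10 : ℝ) ≤ 1 - 31 * 1 * x ^ 2 := by linarith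
    have h6 : 9 / 10 * Mo p (x ^ 2) ≤ (1 - 31 * 1 * x ^ 2) * Mo p (x ^ 2) :=
      mul_le_mul_of_nonneg_right h5 hM.le
    have h7 := mul_le_mul h4 h6 (by positivity) (by positivity)
    refine lt_of_lt_of_le ?_ h7
    linarith

/-- beyond the threshold `z + 1/z` is not extremal for the derivative -/
theorem sigma_deriv_beyond {lam r ε : ℝ} (hl : 0 < lam) (hr : 30000 ≤ r) (hε0 : 0 < ε)
    (hε : 1100 ≤ ε * r) (hlr : (1 / 2 + ε) * r ^ 4 ≤ lam) :
    ∃ c : ℝ, 0 ≤ c ∧ c < 1 ∧ ClassSigma (fun z => z - (1 - (c : ℂ) ^ 2) / (z + c)) ∧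
      integralMean lam r (fun z => 1 - (z ^ 2)⁻¹) <
        integralMean lam r (deriv (fun z => z - (1 - (c : ℂ) ^ 2) / (z + c))) := by
  have hr1 : 1 < r := by linarith
  have hr0 : 0 < r := by linarith
  have hx0 : 0 < r⁻¹ := inv_pos.2 hr0
  have hx : r⁻¹ ≤ 1 / 30000 := by
    rw [one_div]; exact inv_anti₀ (by norm_num) hr
  have hpx : 1 / 4 + ε / 2 ≤ lam / 2 * (r⁻¹) ^ 4 := by
    rw [inv_pow, ← div_eq_mul_inv, le_div_iff₀ (by positivity)]
    linarith
  have hεx : 1100 * r⁻¹ ≤ ε := by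
    rw [← div_eq_mul_inv, div_le_iff₀ hr0]; exact hε
  obtain ⟨c, hc0, hc1, hc⟩ := cmp_moment_gt (p := lam / 2) (by positivity) hx0 hx hε0 hεx hpx
  refine ⟨c, hc0, hc1, classSigma_cmp hc0 hc1, ?_⟩
  rw [show (fun z => z - (1 - (c : ℂ) ^ 2) / (z + c)) = cmp c from rfl]
  rw [show 2 * (lam / 2) = lam by ring] at hc
  have hJ0 : integralMean lam r (deriv fun z : ℂ => z + z⁻¹) =
      integralMean lam r (fun z => 1 - (z ^ 2)⁻¹) :=
    integralMean_deriv_rotJ (c := 1) (by simp) (fun z _ => by rw [one_div]) hr1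
  have hJ : integralMean lam r (fun z => 1 - (z ^ 2)⁻¹) =
      ((2 * π)⁻¹ * (Mo (lam / 2) ((r⁻¹) ^ 2))) ^ (1 / lam) := by
    rw [← hJ0, integralMean_eq, J_deriv_moment hr1]
  rw [hJ, integralMean_eq]
  have hM : 0 < Mo (lam / 2) ((r⁻¹) ^ 2) := Mo_pos _ (sq_nonneg _) (by nlinarith)
  apply Real.rpow_lt_rpow (by positivity) _ (by positivity)
  apply mul_lt_mul_of_pos_left _ (by positivity)
  refine hc.trans_le (le_of_eq ?_)
  apply intervalIntegral.integral_congr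
  intro t _
  simp only
  rw [inv_ec, inv_inv]

end Pool.Agent.H15.Sig
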