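import Pool.Agent.H15.Sig.ThrUp2

/-!
# The sharp threshold for the derivative: the competitor
-/

open Complex Set Filter Topology MeasureTheory
open scoped ComplexConjugate Real

namespace Pool.Agent.H15.Sig

/-- the competitor `z - (1 - c ^ 2) / (z + c)` -/
noncomputable def cmp (c : ℝ) (z : ℂ) : ℂ := z - (1 - (c : ℂ) ^ 2) / (z + c)

theorem add_ne_of_one_lt {c : ℝ} (hc0 : 0 ≤ c) (hc1 : c < 1) {z : ℂ} (hz : 1 < ‖z‖) :
    z + c ≠ 0 := by
  intro h
  have h1 : z = -(c : ℂ) := by linear_combination h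
  rw [h1, norm_neg, norm_real, Real.norm_eq_abs, abs_of_nonneg hc0] at hz
  linarith

theorem norm_blaschke {c : ℝ} (hc0 : 0 ≤ c) (hc1 : c < 1) {w : ℂ} (hw : 1 < ‖w‖) :
    ‖1 + c * w‖ ≤ ‖w + c‖ := by
  apply le_of_sq_le_sq _ (norm_nonneg _)
  have h1 : 1 < ‖w‖ ^ 2 := by nlinarith
  rw [Complex.sq_norm, Complex.normSq_apply] at h1
  rw [Complex.sq_norm, Complex.sq_norm, Complex.normSq_apply, Complex.normSq_apply]
  simp only [add_re, one_re, mul_re, ofReal_re, ofReal_im, add_im, one_im, mul_im]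
  have h2 : 0 ≤ (w.re * w.re + w.im * w.im - 1) * (1 - c ^ 2) :=
    mul_nonneg (by linarith) (by nlinarith)
  nlinarith

theorem classSigma_cmp {c : ℝ} (hc0 : 0 ≤ c) (hc1 : c < 1) : ClassSigma (cmp c) := by
  refine ⟨?_, fun n => -(1 - (c : ℂ) ^ 2) * (-c) ^ n, ?_⟩
  · intro z hz w hw h
    have hz' : 1 < ‖z‖ := hz
    have hw' : 1 < ‖w‖ := hw
    have hz0 := add_ne_of_one_lt hc0 hc1 hz'
    have hw0 := add_ne_of_one_lt hc0 hc1 hw'
    have h1 : (z - w) * (z * (w + c) + (1 + c * w)) = 0 := by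
      have : z - (1 - (c : ℂ) ^ 2) / (z + c) = w - (1 - (c : ℂ) ^ 2) / (w + c) := h
      field_simp at this
      linear_combination this
    rcases mul_eq_zero.1 h1 with h2 | h2
    · exact sub_eq_zero.1 h2
    · exfalso
      have h3 : z * (w + c) = -(1 + c * w) := by linear_combination h2
      have h4 : ‖z‖ * ‖w + c‖ = ‖1 + c * w‖ := by rw [← norm_mul, h3, norm_neg]
      have h5 := norm_blaschke hc0 hc1 hw'
      have h6 := norm_pos_iff.2 hw0
      nlinarith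
  · intro z hz
    have hz0 := add_ne_of_one_lt hc0 hc1 hz
    have hz1 := ne_zero_of_one_lt hz
    have hn : ‖-(c : ℂ) * z⁻¹‖ < 1 := by
      rw [norm_mul, norm_neg, norm_real, Real.norm_eq_abs, abs_of_nonneg hc0, norm_inv,
        ← div_eq_mul_inv, div_lt_one (by linarith)]
      linarith
    have h1 := (hasSum_geometric_of_norm_lt_one hn).mul_left (-(1 - (c : ℂ) ^ 2) * z⁻¹)
    have e : cmp c z - z = -(1 - (c : ℂ) ^ 2) * z⁻¹ * (1 - -(c : ℂ) * z⁻¹)⁻¹ := by
      unfold cmp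
      have h2 : 1 - -(c : ℂ) * z⁻¹ = (z + c) * z⁻¹ := by field_simp; ring
      rw [h2]
      field_simp
      ring
    rw [e]
    refine h1.congr_fun ?_ |> fun h => h
    intro n
    rw [mul_pow, pow_succ]; ring

theorem deriv_cmp {c : ℝ} (hc0 : 0 ≤ c) (hc1 : c < 1) {z : ℂ} (hz : 1 < ‖z‖) :
    deriv (cmp c) z = 1 + (1 - (c : ℂ) ^ 2) / (z + c) ^ 2 := by
  have hz0 := add_ne_of_one_lt hc0 hc1 hz
  have h1 : HasDerivAt (fun z : ℂ => z + c) 1 z := (hasDerivAt_id z).add_const _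
  have h2 : HasDerivAt (fun z : ℂ => z - (1 - (c : ℂ) ^ 2) * (z + c)⁻¹)
      (1 - (1 - (c : ℂ) ^ 2) * (-1 / (z + c) ^ 2)) z :=
    (hasDerivAt_id z).sub ((h1.inv hz0).const_mul _)
  have h3 : cmp c = fun z : ℂ => z - (1 - (c : ℂ) ^ 2) * (z + c)⁻¹ := by
    funext w; unfold cmp; rw [div_eq_mul_inv]
  rw [h3, h2.deriv]
  ring

theorem exp_sub_two_sq_le {y : ℝ} (hy : -(1 / 2) ≤ y) : Real.exp (y - 2 * y ^ 2) ≤ 1 + y := by
  have hpos : 0 < 1 + y := by linarith
  rw [← Real.le_log_iff_exp_le hpos]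
  refine le_trans ?_ (Real.one_sub_inv_le_log_of_pos hpos)
  have h1 : (1 + y)⁻¹ ≤ 1 - (y - 2 * y ^ 2) := by
    rw [inv_le_iff_one_le_mul₀ hpos]
    nlinarith [mul_nonneg (sq_nonneg y) (by linarith : 0 ≤ 1 + 2 * y)]
  linarith

theorem cmp_lower {s x : ℝ} (hs0 : 0 ≤ s) (hs1 : s ≤ 1) (hx0 : 0 < x) (hx : x ≤ 1 / 30000)
    {u : ℂ} (hu : ‖u‖ = x) :
    Real.exp ((-(((s * x : ℝ) : ℂ) ^ 2 * u ^ 2 + 2 * ((s * x : ℝ) : ℂ) * u ^ 3)).re - 12 * x ^ 6) *
      ‖1 + u ^ 2‖ ≤ ‖deriv (cmp (s * x)) u⁻¹‖ := by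
  have hx2 := Pert.sq_le hx0 hx
  have hc0 : 0 ≤ s * x := by positivity
  have hcx : s * x ≤ x := by nlinarith
  have hc1 : s * x < 1 := by linarith
  have hu0 : u ≠ 0 := by rw [← norm_pos_iff, hu]; exact hx0
  have hui : 1 < ‖u⁻¹‖ := by
    rw [norm_inv, hu]; exact (one_lt_inv₀ hx0).2 (by linarith)
  rw [deriv_cmp hc0 hc1 hui]
  set c : ℂ := ((s * x : ℝ) : ℂ) with hc
  have hcn : ‖c‖ ≤ x := by
    rw [hc, norm_real, Real.norm_eq_abs, abs_of_nonneg hc0]; exact hcx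
  have hcu : ‖c * u‖ ≤ x ^ 2 := by
    rw [norm_mul, hu, sq]; exact mul_le_mul_of_nonneg_right hcn hx0.le
  have hu2 : ‖u ^ 2‖ = x ^ 2 := by rw [norm_pow, hu]
  have hx20 : 0 < x ^ 2 := by positivity
  set N : ℂ := (c * u) ^ 2 + 2 * (c * u) * u ^ 2 + (c * u) ^ 2 * u ^ 2 with hN
  set D : ℂ := (1 + u ^ 2) * (1 + c * u) ^ 2 with hD
  have hD1 : ‖D - 1‖ ≤ 301 / 100 * x ^ 2 := by
    have e : D - 1 = u ^ 2 + 2 * (c * u) + (c * u) ^ 2 + 2 * (u ^ 2 * (c * u)) +
        u ^ 2 * (c * u) ^ 2 := by rw [hD]; ring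
    rw [e]
    have n1 : ‖2 * (c * u)‖ ≤ 2 * x ^ 2 := by
      rw [norm_mul, Complex.norm_ofNat]; linarith
    have n2 : ‖(c * u) ^ 2‖ ≤ x ^ 2 * x ^ 2 := by
      rw [norm_pow, sq]; exact mul_le_mul hcu hcu (norm_nonneg _) hx20.le
    have n3 : ‖2 * (u ^ 2 * (c * u))‖ ≤ 2 * (x ^ 2 * x ^ 2) := by
      rw [norm_mul, norm_mul, hu2, Complex.norm_ofNat]
      have := mul_le_mul_of_nonneg_left hcu hx20.le
      linarith
    have n4 : ‖u ^ 2 * (c * u) ^ 2‖ ≤ x ^ 2 * (x ^ 2 * x ^ 2) := by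
      rw [norm_mul, hu2]; exact mul_le_mul_of_nonneg_left n2 hx20.le
    have t1 := norm_add_le (u ^ 2 + 2 * (c * u) + (c * u) ^ 2 + 2 * (u ^ 2 * (c * u)))
      (u ^ 2 * (c * u) ^ 2)
    have t2 := norm_add_le (u ^ 2 + 2 * (c * u) + (c * u) ^ 2) (2 * (u ^ 2 * (c * u)))
    have t3 := norm_add_le (u ^ 2 + 2 * (c * u)) ((c * u) ^ 2)
    have t4 := norm_add_le (u ^ 2) (2 * (c * u))
    have s1 : x ^ 2 * x ^ 2 ≤ x ^ 2 * (1 / 900000000) := mul_le_mul_of_nonneg_left hx2 hx20.le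
    have s2 : x ^ 2 * (x ^ 2 * x ^ 2) ≤ x ^ 2 * (x ^ 2 * (1 / 900000000)) :=
      mul_le_mul_of_nonneg_left s1 hx20.le
    rw [hu2] at t4
    nlinarith
  have hN1 : ‖N‖ ≤ 301 / 100 * (x ^ 2 * x ^ 2) := by
    have n2 : ‖(c * u) ^ 2‖ ≤ x ^ 2 * x ^ 2 := by
      rw [norm_pow, sq]; exact mul_le_mul hcu hcu (norm_nonneg _) hx20.le
    have n3 : ‖2 * (c * u) * u ^ 2‖ ≤ 2 * (x ^ 2 * x ^ 2) := by
      rw [norm_mul, norm_mul, hu2, Complex.norm_ofNat]
      have := mul_le_mul_of_nonneg_right hcu hx20.le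
      linarith
    have n4 : ‖(c * u) ^ 2 * u ^ 2‖ ≤ (x ^ 2 * x ^ 2) * x ^ 2 := by
      rw [norm_mul, hu2]; exact mul_le_mul_of_nonneg_right n2 hx20.le
    have t1 := norm_add_le ((c * u) ^ 2 + 2 * (c * u) * u ^ 2) ((c * u) ^ 2 * u ^ 2)
    have t2 := norm_add_le ((c * u) ^ 2) (2 * (c * u) * u ^ 2)
    have s1 : (x ^ 2 * x ^ 2) * x ^ 2 ≤ (x ^ 2 * x ^ 2) * (1 / 900000000) :=
      mul_le_mul_of_nonneg_left hx2 (by positivity)
    nlinarith
  have hD2 : 99 / 100 ≤ ‖D‖ := by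
    have := norm_sub_norm_le (1:ℂ) (-(D - 1))
    rw [norm_one, norm_neg, sub_neg_eq_add, add_sub_cancel] at this
    linarith
  have hD0 : D ≠ 0 := by rw [← norm_pos_iff]; linarith
  have hA0 : 1 + u ^ 2 ≠ 0 := fun h => hD0 (by rw [hD, h, zero_mul])
  have hB0 : (1 + c * u) ≠ 0 := fun h => hD0 (by rw [hD, h]; ring)
  have hfac : 1 + (1 - c ^ 2) / (u⁻¹ + c) ^ 2 = (1 + u ^ 2) * (1 + -(N / D)) := by
    have e1 : u⁻¹ + c = (1 + c * u) / u := by field_simp
    have e2 : -(N / D) = -N / ((1 + u ^ 2) * (1 + c * u) ^ 2) := by rw [hD]; ring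
    rw [e1, e2, hN]
    field_simp
    ring
  rw [hfac, norm_mul, mul_comm]
  apply mul_le_mul_of_nonneg_left _ (norm_nonneg _)
  have hND : ‖N / D‖ ≤ 4 * (x ^ 2 * x ^ 2) := by
    rw [norm_div, div_le_iff₀ (by linarith)]
    have : 0 ≤ x ^ 2 * x ^ 2 := by positivity
    nlinarith
  have hdiff : ‖-(N / D) - (-(c ^ 2 * u ^ 2 + 2 * c * u ^ 3))‖ ≤ 11 * x ^ 6 := by
    have e : -(N / D) - (-(c ^ 2 * u ^ 2 + 2 * c * u ^ 3)) =
        (N / D) * (D - 1) - (c * u) ^ 2 * u ^ 2 := by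
      have e1 : (N / D) * (D - 1) = N - N / D := by field_simp
      rw [e1, hN]; ring
    rw [e]
    have n2 : ‖(c * u) ^ 2‖ ≤ x ^ 2 * x ^ 2 := by
      rw [norm_pow, sq]; exact mul_le_mul hcu hcu (norm_nonneg _) hx20.le
    have n4 : ‖(c * u) ^ 2 * u ^ 2‖ ≤ (x ^ 2 * x ^ 2) * x ^ 2 := by
      rw [norm_mul, hu2]; exact mul_le_mul_of_nonneg_right n2 hx20.le
    have n5 : ‖N / D‖ ≤ 32 / 10 * (x ^ 2 * x ^ 2) := by
      rw [norm_div, div_le_iff₀ (by linarith)]
      have : 0 ≤ x ^ 2 * x ^ 2 := by positivity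
      nlinarith
    have n6 : ‖(N / D) * (D - 1)‖ ≤ (32 / 10 * (x ^ 2 * x ^ 2)) * (301 / 100 * x ^ 2) := by
      rw [norm_mul]
      exact mul_le_mul n5 hD1 (norm_nonneg _) (by positivity)
    have t1 := norm_sub_le ((N / D) * (D - 1)) ((c * u) ^ 2 * u ^ 2)
    have e2 : x ^ 6 = (x ^ 2 * x ^ 2) * x ^ 2 := by ring
    rw [e2]
    have : 0 ≤ (x ^ 2 * x ^ 2) * x ^ 2 := by positivity
    nlinarith
  set y := (-(N / D)).re with hy
  have hyabs : |y| ≤ 4 * (x ^ 2 * x ^ 2) := by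
    refine (Complex.abs_re_le_norm _).trans ?_
    rw [norm_neg]; exact hND
  have hsmall : x ^ 2 * x ^ 2 ≤ 1 / 900000000 * x ^ 2 := mul_le_mul_of_nonneg_right hx2 hx20.le
  have hy2 : 2 * y ^ 2 ≤ x ^ 6 := by
    have h1 : y ^ 2 ≤ (4 * (x ^ 2 * x ^ 2)) ^ 2 := by
      rw [← sq_abs y]; exact pow_le_pow_left₀ (abs_nonneg _) hyabs 2
    have h2 : (4 * (x ^ 2 * x ^ 2)) ^ 2 = 16 * x ^ 6 * x ^ 2 := by ring
    have h3 : 16 * x ^ 6 * x ^ 2 ≤ 16 * x ^ 6 * (1 / 900000000) :=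
      mul_le_mul_of_nonneg_left hx2 (by positivity)
    have h4 : 0 ≤ x ^ 6 := by positivity
    linarith
  have hre : (-(c ^ 2 * u ^ 2 + 2 * c * u ^ 3)).re - 11 * x ^ 6 ≤ y := by
    have h1 := (Complex.abs_re_le_norm _).trans hdiff
    rw [sub_re, ← hy] at h1
    have := (abs_le.1 h1).1
    linarith
  have h1 : Real.exp (y - 2 * y ^ 2) ≤ 1 + y := by
    apply exp_sub_two_sq_le
    have := (abs_le.1 hyabs).1
    linarith
  have h2 : 1 + y ≤ ‖1 + -(N / D)‖ := by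
    have := Complex.re_le_norm (1 + -(N / D))
    rw [add_re, one_re] at this
    exact this
  refine le_trans (Real.exp_le_exp.2 ?_) (h1.trans h2)
  linarith

theorem ec_pow (t : ℝ) (n : ℕ) : ec t ^ n = ec (n * t) := by
  unfold ec
  rw [← exp_nat_mul]; congr 1; push_cast; ring

theorem re_real_mul_ec (a t : ℝ) : ((a : ℂ) * ec t).re = a * Real.cos t := by
  rw [re_ofReal_mul]
  congr 1
  unfold ec
  rw [show -((t : ℂ) * I) = ((-t : ℝ) : ℂ) * I by push_cast; ring, exp_ofReal_mul_I_re,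
    Real.cos_neg]

theorem re_leading (s x t : ℝ) :
    (-(((s * x : ℝ) : ℂ) ^ 2 * ((x : ℂ) * ec t) ^ 2 +
      2 * ((s * x : ℝ) : ℂ) * ((x : ℂ) * ec t) ^ 3)).re =
      -(s ^ 2 * x ^ 4 * Real.cos (2 * t)) - 2 * s * x ^ 4 * Real.cos (3 * t) := by
  have e : -(((s * x : ℝ) : ℂ) ^ 2 * ((x : ℂ) * ec t) ^ 2 +
      2 * ((s * x : ℝ) : ℂ) * ((x : ℂ) * ec t) ^ 3) =
      ((-(s ^ 2 * x ^ 4) : ℝ) : ℂ) * ec (((2:ℕ) : ℝ) * t) +
        ((-(2 * s * x ^ 4) : ℝ) : ℂ) * ec (((3:ℕ) : ℝ) * t) := by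
    rw [← ec_pow, ← ec_pow]; push_cast; ring
  rw [e, add_re, re_real_mul_ec, re_real_mul_ec]
  push_cast; ring

theorem int_shift {f : ℝ → ℝ} (hf : Function.Periodic f (2 * π)) (hc : Continuous f) :
    ∫ t in (-π)..π, f t = ∫ t in (-π)..π, (f t + f (t + π)) / 2 := by
  have h1 : ∫ t in (-π)..π, f (t + π) = ∫ t in (-π)..π, f t := by
    rw [intervalIntegral.integral_comp_add_right]
    have h2 := hf.intervalIntegral_add_eq (-π + π) (-π)
    rw [show -π + π + 2 * π = π + π by ring, show -π + 2 * π = π by ring] at h2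
    exact h2
  have h2 : ∫ t in (-π)..π, (f t + f (t + π)) / 2 =
      ((∫ t in (-π)..π, f t) + ∫ t in (-π)..π, f (t + π)) / 2 := by
    rw [intervalIntegral.integral_div]
    congr 1
    apply intervalIntegral.integral_add
    · exact hc.intervalIntegrable _ _
    · exact (hc.comp (continuous_id.add continuous_const)).intervalIntegrable _ _
  rw [h2, h1]; ring

theorem cosh_drop {X A h : ℝ} (hX : 0 ≤ X) (hA : 0 ≤ A) (hh : 0 ≤ h) (hXA : X ≤ A + h) :
    Real.cosh X * Real.exp (-h) ≤ Real.cosh A := by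
  have h1 : Real.cosh X ≤ Real.cosh (A + h) := by
    rw [Real.cosh_le_cosh, abs_of_nonneg hX, abs_of_nonneg (by positivity)]
    exact hXA
  have h2 : Real.cosh (A + h) ≤ Real.cosh A * Real.exp h := by
    rw [Real.cosh_eq, Real.cosh_eq, Real.exp_add]
    have h3 : Real.exp (-(A + h)) ≤ Real.exp (-A) * Real.exp h := by
      rw [← Real.exp_add]; apply Real.exp_le_exp.2; linarith
    linarith
  have h3 := mul_le_mul_of_nonneg_right (h1.trans h2) (Real.exp_pos (-h)).le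
  rw [mul_assoc, ← Real.exp_add, add_neg_cancel, Real.exp_zero, mul_one] at h3
  exact h3

theorem abs_cos_three_ge (t : ℝ) : 1 - 5 * Real.sin t ^ 2 ≤ |Real.cos (3 * t)| := by
  have hs := Real.sin_sq_add_cos_sq t
  set y := Real.sin t ^ 2 with hy
  have hy0 : 0 ≤ y := sq_nonneg _
  have hy1 : y ≤ 1 := Real.sin_sq_le_one t
  rcases le_total (1 - 5 * y) 0 with h | h
  · exact h.trans (abs_nonneg _)
  apply abs_le_of_sq_le_sq' _ (abs_nonneg _) |>.2
  rw [sq_abs, Real.cos_three_mul]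
  have e : (4 * Real.cos t ^ 3 - 3 * Real.cos t) ^ 2 = (1 - y) * (1 - 4 * y) ^ 2 := by
    have hc : Real.cos t ^ 2 = 1 - y := by linarith
    have e1 : (4 * Real.cos t ^ 3 - 3 * Real.cos t) ^ 2 =
        Real.cos t ^ 2 * (4 * Real.cos t ^ 2 - 3) ^ 2 := by ring
    rw [e1, hc]; ring
  rw [e]
  have h5 : y ≤ 1 / 5 := by linarith
  nlinarith [mul_nonneg hy0 (by linarith : 0 ≤ 1 / 5 - y)]

theorem exp_five_quarters : Real.exp (5 / 4) ≤ 4 := by
  have h1 : Real.exp (5 / 4) ^ 4 ≤ 4 ^ 4 := by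
    rw [← Real.exp_nat_mul]
    have e : ((4:ℕ) : ℝ) * (5 / 4) = ((5:ℕ) : ℝ) * 1 := by norm_num
    rw [e, Real.exp_nat_mul]
    have h2 := Real.exp_one_lt_d9
    have h3 := pow_le_pow_left₀ (Real.exp_pos 1).le (h2.le.trans (by norm_num : _ ≤ (2.72:ℝ))) 5
    refine h3.trans (by norm_num)
  exact le_of_pow_le_pow_left₀ (by norm_num) (by norm_num) h1

theorem int_sin_weight {p x : ℝ} (hp : 0 < p) (hx0 : 0 < x) (hx : x ≤ 1 / 30000) :
    ∫ t in (-π)..π, (Dw (fun t => Real.sin t ^ 2) (x ^ 2) t) ^ p * Real.sin t ^ 2 ≤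
      (151 / 100) / (p * x ^ 2) * Mo p (x ^ 2) := by
  have hx2 := Pert.sq_le hx0 hx
  have hx20 : 0 < x ^ 2 := by positivity
  have hx21 : x ^ 2 < 1 := by linarith
  set κ := 2 * p * x ^ 2 / (1 + x ^ 2) ^ 2 with hκ
  have hκ0 : 0 < κ := by positivity
  have h1 := SF_sin.conc hp hx20 hx21 hκ0.le le_rfl
  rw [← hκ, div_self hκ0.ne', mul_one] at h1
  have hM := Mo_pos p (sq_nonneg x) hx21
  have hDc := SF_sin.cont_Dw (p := p) hx20.le hx21
  have h2 : ∫ t in (-π)..π, (Dw (fun t => Real.sin t ^ 2) (x ^ 2) t) ^ p * (1 + κ * Real.sin t ^ 2) ≤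
      4 * Mo p (x ^ 2) := by
    refine le_trans ?_ (h1.trans (mul_le_mul_of_nonneg_right exp_five_quarters hM.le))
    apply intervalIntegral.integral_mono_on (by linarith [Real.pi_pos])
    · exact (hDc.mul (by fun_prop)).intervalIntegrable _ _
    · exact (hDc.mul (by fun_prop)).intervalIntegrable _ _
    · intro t _
      have h3 : 0 ≤ (Dw (fun t => Real.sin t ^ 2) (x ^ 2) t) ^ p :=
        Real.rpow_nonneg (SF_sin.Dw_pos hx20.le hx21 t).le p
      apply mul_le_mul_of_nonneg_left _ h3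
      have := Real.add_one_le_exp (κ * Real.sin t ^ 2)
      linarith
  have h3 : ∫ t in (-π)..π, (Dw (fun t => Real.sin t ^ 2) (x ^ 2) t) ^ p * (1 + κ * Real.sin t ^ 2) =
      Mo p (x ^ 2) + κ * ∫ t in (-π)..π, (Dw (fun t => Real.sin t ^ 2) (x ^ 2) t) ^ p *
        Real.sin t ^ 2 := by
    rw [← SF_sin.int_Dw (p := p) hx20.le hx21, ← intervalIntegral.integral_const_mul,
      ← intervalIntegral.integral_add]
    · apply intervalIntegral.integral_congr
      intro t _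
      simp only; ring
    · exact hDc.intervalIntegrable _ _
    · exact (continuous_const.mul (hDc.mul (by fun_prop))).intervalIntegrable _ _
  rw [h3] at h2
  set W := ∫ t in (-π)..π, (Dw (fun t => Real.sin t ^ 2) (x ^ 2) t) ^ p * Real.sin t ^ 2
  have h1X : (1 + x ^ 2) ^ 2 ≤ 1.0021 := by nlinarith
  have hκl : 199 / 100 * (p * x ^ 2) ≤ κ := by
    rw [hκ, le_div_iff₀ (by positivity)]
    have : 0 < p * x ^ 2 := by positivity
    nlinarith
  have hpx : 0 < p * x ^ 2 := by positivity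
  have hW0 : 0 ≤ W := by
    apply intervalIntegral.integral_nonneg (by linarith [Real.pi_pos])
    intro t _
    have h3 : 0 ≤ (Dw (fun t => Real.sin t ^ 2) (x ^ 2) t) ^ p :=
      Real.rpow_nonneg (SF_sin.Dw_pos hx20.le hx21 t).le p
    positivity
  rw [div_mul_eq_mul_div, le_div_iff₀ hpx]
  have h4 := mul_le_mul_of_nonneg_right hκl hW0
  nlinarith

/-- lower bound for the competitor -/
theorem cmp_moment_ge {p s x a : ℝ} (hp : 0 < p) (hs0 : 0 ≤ s) (hs1 : s ≤ 1) (hx0 : 0 < x)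
    (hx : x ≤ 1 / 30000) (ha : a = p * x ^ 4) :
    Real.exp (-(2 * a * s ^ 2) - 24 * a * x ^ 2) * Real.cosh (4 * a * s) *
      ((1 - 31 * s * x ^ 2) * Mo p (x ^ 2)) ≤
      ∫ t in (-π)..π, ‖deriv (cmp (s * x)) ((x : ℂ) * ec t)⁻¹‖ ^ (2 * p) := by
  have hx2 := Pert.sq_le hx0 hx
  have hx20 : 0 < x ^ 2 := by positivity
  have hx21 : x ^ 2 < 1 := by linarith
  have ha0 : 0 < a := by rw [ha]; positivity
  have hM := Mo_pos p (sq_nonneg x) hx21
  set W : ℝ → ℝ := fun t => (Dw (fun t => Real.sin t ^ 2) (x ^ 2) t) ^ p with hW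
  have hDc : Continuous W := SF_sin.cont_Dw (p := p) hx20.le hx21
  have hW0 : ∀ t, 0 ≤ W t := fun t => Real.rpow_nonneg (SF_sin.Dw_pos hx20.le hx21 t).le p
  set f : ℝ → ℝ := fun t => W t * Real.exp (-(2 * a * s ^ 2 * Real.cos (2 * t)) -
    4 * a * s * Real.cos (3 * t) - 24 * a * x ^ 2) with hf
  have hfc : Continuous f := hDc.mul (by fun_prop)
  have hWπ : ∀ t, W (t + π) = W t := by
    intro t
    simp only [hW, Dw, Real.sin_add_pi, neg_sq]
  -- step 1 : pointwise lower bound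
  have step1 : ∫ t in (-π)..π, f t ≤
      ∫ t in (-π)..π, ‖deriv (cmp (s * x)) ((x : ℂ) * ec t)⁻¹‖ ^ (2 * p) := by
    have hc0 : 0 ≤ s * x := by positivity
    have hc1 : s * x < 1 := by nlinarith
    have hec := continuous_ec
    have hun : ∀ t, ‖(x : ℂ) * ec t‖ = x := fun t => norm_mul_ec hx0.le t
    have hu0 : ∀ t, (x : ℂ) * ec t ≠ 0 := fun t => by rw [← norm_pos_iff, hun]; exact hx0
    have hui : ∀ t, 1 < ‖((x : ℂ) * ec t)⁻¹‖ := fun t => by
      rw [norm_inv, hun]; exact (one_lt_inv₀ hx0).2 (by linarith)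
    have hcont : Continuous fun t : ℝ => ‖deriv (cmp (s * x)) ((x : ℂ) * ec t)⁻¹‖ ^ (2 * p) := by
      apply Continuous.rpow_const
      · apply Continuous.norm
        have e : (fun t : ℝ => deriv (cmp (s * x)) ((x : ℂ) * ec t)⁻¹) =
            fun t : ℝ => 1 + (1 - ((s * x : ℝ) : ℂ) ^ 2) /
              (((x : ℂ) * ec t)⁻¹ + ((s * x : ℝ) : ℂ)) ^ 2 := by
          funext t; exact deriv_cmp hc0 hc1 (hui t)
        rw [e]
        apply Continuous.add continuous_const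
        apply Continuous.div continuous_const
        · apply Continuous.pow
          apply Continuous.add _ continuous_const
          exact (continuous_const.mul hec).inv₀ hu0
        · intro t
          exact pow_ne_zero _ (add_ne_of_one_lt hc0 hc1 (hui t))
      · intro t; right; positivity
    apply intervalIntegral.integral_mono_on (by linarith [Real.pi_pos])
      (hfc.intervalIntegrable _ _) (hcont.intervalIntegrable _ _)
    intro t _
    have h1 := cmp_lower hs0 hs1 hx0 hx (hun t)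
    rw [re_leading] at h1
    have h2 := Real.rpow_le_rpow (by positivity) h1 (by positivity : 0 ≤ 2 * p)
    refine le_trans (le_of_eq ?_) h2
    rw [Real.mul_rpow (Real.exp_pos _).le (norm_nonneg _), ← Real.exp_mul]
    have hS := S0_sin 1 x t
    rw [one_mul (x ^ 2), ofReal_one, one_mul] at hS
    have e2 : ‖1 + ((x : ℂ) * ec t) ^ 2‖ ^ (2 * p) = W t := by
      simp only [hW]
      rw [← hS, ← Real.rpow_natCast, ← Real.rpow_mul (norm_nonneg _)]
      push_cast; rfl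
    have e3 : f t = W t * Real.exp (-(2 * a * s ^ 2 * Real.cos (2 * t)) -
      4 * a * s * Real.cos (3 * t) - 24 * a * x ^ 2) := rfl
    rw [e2, e3, mul_comm (W t), ha]
    congr 2
    ring
  refine le_trans ?_ step1
  -- step 2 : symmetrisation
  have hper : Function.Periodic f (2 * π) := by
    intro t
    have h1 : W (t + 2 * π) = W t := by
      simp only [hW, Dw, Real.sin_add_two_pi]
    have h2 : Real.cos (2 * (t + 2 * π)) = Real.cos (2 * t) := by
      rw [show 2 * (t + 2 * π) = 2 * t + (2:ℕ) * (2 * π) by push_cast; ring,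
        Real.cos_add_nat_mul_two_pi]
    have h3 : Real.cos (3 * (t + 2 * π)) = Real.cos (3 * t) := by
      rw [show 3 * (t + 2 * π) = 3 * t + (3:ℕ) * (2 * π) by push_cast; ring,
        Real.cos_add_nat_mul_two_pi]
    simp only [hf]
    rw [h1, h2, h3]
  rw [int_shift hper hfc]
  have hsw := int_sin_weight hp hx0 hx
  have h3 : Real.exp (-(2 * a * s ^ 2) - 24 * a * x ^ 2) * Real.cosh (4 * a * s) *
      ((1 - 31 * s * x ^ 2) * Mo p (x ^ 2)) ≤
      Real.exp (-(2 * a * s ^ 2) - 24 * a * x ^ 2) * Real.cosh (4 * a * s) *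
      ∫ t in (-π)..π, W t * (1 - 20 * a * s * Real.sin t ^ 2) := by
    apply mul_le_mul_of_nonneg_left _ (mul_pos (Real.exp_pos _) (Real.cosh_pos _)).le
    have e1 : ∫ t in (-π)..π, W t * (1 - 20 * a * s * Real.sin t ^ 2) =
        Mo p (x ^ 2) - 20 * a * s * ∫ t in (-π)..π, W t * Real.sin t ^ 2 := by
      rw [← SF_sin.int_Dw (p := p) hx20.le hx21, ← intervalIntegral.integral_const_mul,
        ← intervalIntegral.integral_sub]
      · apply intervalIntegral.integral_congr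
        intro t _
        simp only [hW]; ring
      · exact hDc.intervalIntegrable _ _
      · exact (continuous_const.mul (hDc.mul (by fun_prop))).intervalIntegrable _ _
    rw [e1]
    have h4 := mul_le_mul_of_nonneg_left hsw (by positivity : 0 ≤ 20 * a * s)
    have h5 : 20 * a * s * (151 / 100 / (p * x ^ 2) * Mo p (x ^ 2)) =
        302 / 10 * s * x ^ 2 * Mo p (x ^ 2) := by
      rw [ha]; field_simp; ring
    have h6 : 0 ≤ s * x ^ 2 * Mo p (x ^ 2) := by positivity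
    have h7 : ∫ t in (-π)..π, W t * Real.sin t ^ 2 =
      ∫ t in (-π)..π, (Dw (fun t => Real.sin t ^ 2) (x ^ 2) t) ^ p * Real.sin t ^ 2 := rfl
    rw [h7]
    nlinarith
  refine h3.trans ?_
  rw [← intervalIntegral.integral_const_mul]
  apply intervalIntegral.integral_mono_on (by linarith [Real.pi_pos])
  · exact (continuous_const.mul (hDc.mul (by fun_prop))).intervalIntegrable _ _
  · exact ((hfc.add (hfc.comp (continuous_id.add continuous_const))).div_const 2).intervalIntegrable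
      _ _
  · intro t _
    have c2 : Real.cos (2 * (t + π)) = Real.cos (2 * t) := by
      rw [show 2 * (t + π) = 2 * t + 2 * π by ring, Real.cos_add_two_pi]
    have c3 : Real.cos (3 * (t + π)) = -Real.cos (3 * t) := by
      rw [show 3 * (t + π) = (3 * t + π) + 2 * π by ring, Real.cos_add_two_pi, Real.cos_add_pi]
    have e1 : (f t + f (t + π)) / 2 = W t * (Real.exp (-(2 * a * s ^ 2 * Real.cos (2 * t)) -
        24 * a * x ^ 2) * Real.cosh (4 * a * s * Real.cos (3 * t))) := by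
      simp only [hf]
      rw [hWπ, c2, c3, Real.cosh_eq]
      have g1 : Real.exp (-(2 * a * s ^ 2 * Real.cos (2 * t)) - 4 * a * s * Real.cos (3 * t) -
          24 * a * x ^ 2) = Real.exp (-(2 * a * s ^ 2 * Real.cos (2 * t)) - 24 * a * x ^ 2) *
          Real.exp (-(4 * a * s * Real.cos (3 * t))) := by
        rw [← Real.exp_add]; congr 1; ring
      have g2 : Real.exp (-(2 * a * s ^ 2 * Real.cos (2 * t)) - 4 * a * s * -Real.cos (3 * t) -
          24 * a * x ^ 2) = Real.exp (-(2 * a * s ^ 2 * Real.cos (2 * t)) - 24 * a * x ^ 2) *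
          Real.exp (4 * a * s * Real.cos (3 * t)) := by
        rw [← Real.exp_add]; congr 1; ring
      rw [g1, g2]; ring
    rw [e1]
    have e2 : Real.exp (-(2 * a * s ^ 2) - 24 * a * x ^ 2) ≤
        Real.exp (-(2 * a * s ^ 2 * Real.cos (2 * t)) - 24 * a * x ^ 2) := by
      apply Real.exp_le_exp.2
      have h4 := Real.cos_le_one (2 * t)
      have h5 : 0 ≤ 2 * a * s ^ 2 := by positivity
      nlinarith
    have e3 : Real.cosh (4 * a * s) * (1 - 20 * a * s * Real.sin t ^ 2) ≤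
        Real.cosh (4 * a * s * Real.cos (3 * t)) := by
      have h4 := cosh_drop (X := 4 * a * s) (A := 4 * a * s * |Real.cos (3 * t)|)
        (h := 20 * a * s * Real.sin t ^ 2) (by positivity) (by positivity) (by positivity) (by
          have h5 := abs_cos_three_ge t
          have h6 := mul_le_mul_of_nonneg_left h5 (by positivity : 0 ≤ 4 * a * s)
          linarith)
      have h5 : Real.cosh (4 * a * s * |Real.cos (3 * t)|) =
          Real.cosh (4 * a * s * Real.cos (3 * t)) := by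
        rw [← Real.cosh_abs (4 * a * s * Real.cos (3 * t)), abs_mul,
          abs_of_nonneg (by positivity : 0 ≤ 4 * a * s)]
      rw [← h5]
      refine le_trans ?_ h4
      apply mul_le_mul_of_nonneg_left _ (Real.cosh_pos _).le
      have := Real.add_one_le_exp (-(20 * a * s * Real.sin t ^ 2))
      linarith
    have e4 : Real.exp (-(2 * a * s ^ 2) - 24 * a * x ^ 2) *
        (Real.cosh (4 * a * s) * (1 - 20 * a * s * Real.sin t ^ 2)) ≤
        Real.exp (-(2 * a * s ^ 2 * Real.cos (2 * t)) - 24 * a * x ^ 2) *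
          Real.cosh (4 * a * s * Real.cos (3 * t)) := by
      refine (mul_le_mul_of_nonneg_left e3 (Real.exp_pos _).le).trans ?_
      exact mul_le_mul_of_nonneg_right e2 (Real.cosh_pos _).le
    have e5 := mul_le_mul_of_nonneg_left e4 (hW0 t)
    refine le_trans (le_of_eq ?_) e5
    ring

end Pool.Agent.H15.Sig
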