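import Pool.Agent.H15.Sig.Final

/-!
# The sharp threshold for the derivative: upper part
-/

open Complex Set Filter Topology MeasureTheory
open scoped ComplexConjugate Real

namespace Pool.Agent.H15.Sig

variable {s : ℝ → ℝ}

theorem SF.ratio' (hs : SF s) {X y : ℝ} (hy0 : 0 ≤ y) (hyX : y ≤ X) (hX : X ≤ 1 / 1000) (t : ℝ) :
    Dw s y t ≤ Dw s X t * Real.exp ((-(2 * (1 - X)) + 5 * s t) * (X - y)) := by
  have hX0 : 0 ≤ X := hy0.trans hyX
  have hX1 : X < 1 := by linarith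
  have hD := hs.Dw_ge hX0 t
  have hDpos := hs.Dw_pos hX0 hX1 t
  have hs0 := hs.nonneg t
  have hs1 := hs.le_one t
  have e1 : Dw s y t * (1 + X) ^ 2 = Dw s X t * (1 + y) ^ 2 + 4 * s t * (X - y) * (1 - X * y) := by
    unfold Dw; ring
  have hz0 : 0 ≤ (X - y) * s t := mul_nonneg (by linarith) hs0
  have e2 : (1 + y) ≤ (1 + X) * Real.exp (-(1 - X) * (X - y)) := by
    have h1 : 1 - (1 - X) * (X - y) ≤ Real.exp (-(1 - X) * (X - y)) := by
      have := Real.add_one_le_exp (-(1 - X) * (X - y)); linarith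
    have h2 := mul_le_mul_of_nonneg_left h1 (by linarith : 0 ≤ 1 + X)
    nlinarith [mul_nonneg (mul_nonneg hX0 hX0) (sub_nonneg.2 hyX)]
  have e3 : (1 + y) ^ 2 ≤ (1 + X) ^ 2 * Real.exp (-(2 * (1 - X)) * (X - y)) := by
    have h1 := pow_le_pow_left₀ (by linarith) e2 2
    rw [mul_pow, ← Real.exp_nat_mul] at h1
    refine h1.trans (le_of_eq ?_)
    congr 2
    push_cast; ring
  have e4 : 4 * s t * (X - y) * (1 - X * y) ≤
      Dw s X t * (1 + y) ^ 2 * (5 * ((X - y) * s t)) := by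
    have h1 : (1:ℝ) - 1 / 1000 ≤ 1 - X := by linarith
    have h2 : (998 / 1000 : ℝ) ≤ (1 - X) ^ 2 := by nlinarith
    have h3 : (998 / 1000 : ℝ) ≤ Dw s X t * (1 + y) ^ 2 := by
      have : (1:ℝ) ≤ (1 + y) ^ 2 := by nlinarith
      nlinarith
    have h4 : 4 * s t * (X - y) * (1 - X * y) ≤ 4 * ((X - y) * s t) := by
      have : 0 ≤ X * y := mul_nonneg hX0 hy0
      nlinarith
    nlinarith
  have e5 : 1 + 5 * ((X - y) * s t) ≤ Real.exp (5 * ((X - y) * s t)) := by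
    have := Real.add_one_le_exp (5 * ((X - y) * s t)); linarith
  have hb : Dw s y t * (1 + X) ^ 2 ≤
      (Dw s X t * Real.exp ((-(2 * (1 - X)) + 5 * s t) * (X - y))) * (1 + X) ^ 2 := by
    have hexp : Real.exp ((-(2 * (1 - X)) + 5 * s t) * (X - y)) =
        Real.exp (-(2 * (1 - X)) * (X - y)) * Real.exp (5 * ((X - y) * s t)) := by
      rw [← Real.exp_add]; congr 1; ring
    rw [e1, hexp]
    calc Dw s X t * (1 + y) ^ 2 + 4 * s t * (X - y) * (1 - X * y)
        ≤ Dw s X t * (1 + y) ^ 2 * (1 + 5 * ((X - y) * s t)) := by linarith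
      _ ≤ Dw s X t * (1 + y) ^ 2 * Real.exp (5 * ((X - y) * s t)) :=
          mul_le_mul_of_nonneg_left e5 (by positivity)
      _ ≤ Dw s X t * ((1 + X) ^ 2 * Real.exp (-(2 * (1 - X)) * (X - y))) *
            Real.exp (5 * ((X - y) * s t)) := by
          apply mul_le_mul_of_nonneg_right _ (Real.exp_pos _).le
          exact mul_le_mul_of_nonneg_left e3 hDpos.le
      _ = _ := by ring
  exact le_of_mul_le_mul_right hb (by positivity)

/-- third regime, sharp constants -/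
theorem SF.regime_three (hs : SF s) {p x β A : ℝ} (hp : 0 < p) (hx0 : 0 < x)
    (hx : x ≤ 1 / 30000) (hβ0 : 9 / 10 ≤ β) (hβ1 : β ≤ 1) (hpx : 1 / 360 ≤ p * x ^ 4)
    {Y : ℝ → ℝ} (hYc : Continuous Y)
    (he : ∀ t, |Y t + Y (-t)| ≤ 2000 * (1 - β ^ 2) * x ^ 3)
    (hK : ∀ t, Real.cosh (p * Y t - p * Y (-t)) ≤ Real.exp A) :
    ∫ t in (-π)..π, (Dw s (β * x ^ 2) t) ^ p * Real.exp (2 * p * Y t) ≤
      Real.exp (A - (2 - 4001 * x) * (p * x ^ 2 * (1 - β))) * Mo p (x ^ 2) := by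
  set y := β * x ^ 2 with hy
  have hx2 : x ^ 2 ≤ 1 / 900000000 := Pert.sq_le hx0 hx
  have hx20 : 0 < x ^ 2 := by positivity
  have hy0 : 0 ≤ y := mul_nonneg (by linarith) hx20.le
  have hyx : y ≤ x ^ 2 := by rw [hy]; nlinarith [sq_nonneg x]
  have hy1 : y < 1 := by linarith
  have hx21 : x ^ 2 < 1 := by linarith
  set τ := p * x ^ 2 with hτd
  have hτ0 : 0 < τ := by positivity
  have hτx : 1 / 360 ≤ τ * x ^ 2 := by
    refine hpx.trans (le_of_eq ?_); rw [hτd]; ring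
  set ω := τ * (1 - β) with hω
  have hω0 : 0 ≤ ω := mul_nonneg hτ0.le (by linarith)
  have hωe : p * (x ^ 2 - y) = ω := by rw [hy, hω, hτd]; ring
  have hωτ : ω ≤ τ / 10 := by rw [hω]; nlinarith
  have hwc := hs.cont_Dw (p := p) hy0 hy1
  have hcX := hs.cont_Dw (p := p) hx20.le hx21
  have hsc := hs.cont
  have hfc : Continuous fun t => (Dw s y t) ^ p * Real.exp (2 * p * Y t) :=
    hwc.mul (by fun_prop)
  rw [integral_symm hfc]
  have hDe : ∀ t, Dw s y (-t) = Dw s y t := by intro t; unfold Dw; rw [hs.even]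
  have hE : ∀ a : ℝ, Continuous fun t => Real.exp (a * s t) := fun a => by fun_prop
  have h1 : ∫ t in (-π)..π, ((Dw s y t) ^ p * Real.exp (2 * p * Y t) +
      (Dw s y (-t)) ^ p * Real.exp (2 * p * Y (-t))) / 2 ≤
      ∫ t in (-π)..π, Real.exp (4000 * ω * x + A - 2 * (1 - x ^ 2) * ω) *
        ((Dw s (x ^ 2) t) ^ p * Real.exp ((5 * ω) * s t)) := by
    apply intervalIntegral.integral_mono_on (by linarith [Real.pi_pos])
    · apply Continuous.intervalIntegrable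
      exact (hfc.add (hfc.comp continuous_neg)).div_const 2
    · apply Continuous.intervalIntegrable
      exact continuous_const.mul (hcX.mul (hE _))
    · intro t _
      rw [hDe]
      have e1 : ((Dw s y t) ^ p * Real.exp (2 * p * Y t) +
          (Dw s y t) ^ p * Real.exp (2 * p * Y (-t))) / 2 =
          (Dw s y t) ^ p * ((Real.exp (2 * (p * Y t)) + Real.exp (2 * (p * Y (-t)))) / 2) := by
        rw [mul_assoc 2 p, mul_assoc 2 p]; ring
      rw [e1, half_exp_add]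
      have e2 : Real.exp (p * Y t + p * Y (-t)) ≤ Real.exp (4000 * ω * x) := by
        apply Real.exp_le_exp.2
        have h3 := (le_abs_self _).trans (he t)
        have h4 := mul_le_mul_of_nonneg_left h3 hp.le
        have h5 : p * (2000 * (1 - β ^ 2) * x ^ 3) = 2000 * (1 + β) * ω * x := by
          rw [hω, hτd]; ring
        rw [h5] at h4
        have h6 : 2000 * (1 + β) * ω * x ≤ 4000 * ω * x := by
          have : 0 ≤ ω * x := by positivity
          nlinarith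
        linarith
      have e3 := mul_le_mul e2 (hK t) (Real.cosh_pos _).le (Real.exp_pos _).le
      rw [← Real.exp_add (4000 * ω * x)] at e3
      have hD0 : 0 ≤ (Dw s y t) ^ p := Real.rpow_nonneg (hs.Dw_pos hy0 hy1 t).le p
      have e4 : (Dw s y t) ^ p ≤ (Dw s (x ^ 2) t) ^ p *
          Real.exp ((-(2 * (1 - x ^ 2)) + 5 * s t) * ω) := by
        have h3 := Real.rpow_le_rpow (hs.Dw_pos hy0 hy1 t).le
          (hs.ratio' hy0 hyx (by linarith) t) hp.le
        rw [Real.mul_rpow (hs.Dw_pos hx20.le hx21 t).le (Real.exp_pos _).le,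
          ← Real.exp_mul] at h3
        refine h3.trans (le_of_eq ?_)
        rw [← hωe]
        congr 2; ring
      have hX0 : 0 ≤ (Dw s (x ^ 2) t) ^ p := Real.rpow_nonneg (hs.Dw_pos hx20.le hx21 t).le p
      have e5 := mul_le_mul e4 e3 (by positivity) (by positivity)
      refine e5.trans (le_of_eq ?_)
      rw [mul_assoc, ← Real.exp_add,
        show Real.exp (4000 * ω * x + A - 2 * (1 - x ^ 2) * ω) *
          ((Dw s (x ^ 2) t) ^ p * Real.exp ((5 * ω) * s t)) = (Dw s (x ^ 2) t) ^ p *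
          (Real.exp (4000 * ω * x + A - 2 * (1 - x ^ 2) * ω) * Real.exp ((5 * ω) * s t)) by ring,
        ← Real.exp_add]
      congr 2; ring
  rw [intervalIntegral.integral_const_mul] at h1
  have h1X : (1 + x ^ 2) ^ 2 ≤ 1.0021 := by nlinarith
  have hκ : 199 / 100 * τ ≤ 2 * p * x ^ 2 / (1 + x ^ 2) ^ 2 := by
    rw [le_div_iff₀ (by positivity)]
    rw [hτd]; nlinarith
  have hκ0 : 0 < 199 / 100 * τ := by positivity
  have hc := hs.conc hp hx20 hx21 (a := 5 * ω) (by positivity) (by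
    refine le_trans ?_ hκ; linarith)
  have hM0 := hs.Mo_nonneg (p := p) hx20.le hx21
  have h2 := h1.trans (mul_le_mul_of_nonneg_left hc (Real.exp_pos _).le)
  refine h2.trans ?_
  rw [← mul_assoc, ← Real.exp_add]
  apply mul_le_mul_of_nonneg_right _ hM0
  apply Real.exp_le_exp.2
  have h3 : 5 * ω / (2 * p * x ^ 2 / (1 + x ^ 2) ^ 2) ≤ 5 * ω / (199 / 100 * τ) :=
    div_le_div_of_nonneg_left (by positivity) hκ0 hκ
  have h4 : 5 * ω / (199 / 100 * τ) ≤ 910 * (ω * x ^ 2) := by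
    rw [div_le_iff₀ hκ0]
    nlinarith
  have h5 : ω * x ^ 2 ≤ ω * x * (1 / 30000) := by
    have := mul_le_mul_of_nonneg_left hx (by positivity : 0 ≤ ω * x)
    nlinarith
  nlinarith [mul_nonneg hω0 hx0.le]

/-- sharp sup bound for the perturbation of the derivative -/
theorem Nrm.YY_sharp {F : ℂ → ℂ} {b : ℕ → ℂ} {β : ℝ} (h : Nrm F b β) {x : ℝ} (hx0 : 0 < x)
    (hx : x ≤ 1 / 30000) (t : ℝ) :
    |YY (fun u => 1 - u * (deriv (pw b) u * u)) (-β) x t| ≤
      √2 * √(1 - β ^ 2) * x ^ 3 * (1 + 4 * x) := by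
  have hP := h.pertD
  set S : ℂ → ℂ := fun u => 1 - u * (deriv (pw b) u * u) with hS
  rw [hP.log_eq hx0 hx]
  have hu := Pert.norm_u hx0 t
  set u := (x : ℂ) * ec t with hud
  set d := 1 - β ^ 2 with hd
  have hsd := Real.sqrt_nonneg d
  have hs2 := Real.sqrt_nonneg 2
  have hcoef : ∀ k : ℕ, ‖-(((k + 2 : ℕ) : ℂ)) * b (k + 2)‖ ≤ √2 * √d * (3 / 2) ^ k := by
    intro k
    rw [norm_mul, norm_neg, Complex.norm_natCast]
    apply le_of_sq_le_sq _ (by positivity)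
    have h1 := h.sum_le (n := k + 2) (by omega)
    have h2 := lin_le_geom k
    have h3 : ((3:ℝ) / 2) ^ k ≤ ((3 / 2) ^ k) ^ 2 := by
      have := one_le_pow₀ (n := k) (by norm_num : (1:ℝ) ≤ 3 / 2)
      nlinarith
    have h4 : (((k + 2 : ℕ) : ℝ) * ‖b (k + 2)‖) ^ 2 =
        ((k + 2 : ℕ) : ℝ) * (((k + 2 : ℕ) : ℝ) * ‖b (k + 2)‖ ^ 2) := by ring
    rw [h4, mul_pow, mul_pow, Real.sq_sqrt (by norm_num), Real.sq_sqrt hP.hd0]
    push_cast at h1 ⊢
    have h5 : ((k:ℝ) + 2) * (((k:ℝ) + 2) * ‖b (k + 2)‖ ^ 2) ≤ ((k:ℝ) + 2) * d :=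
      mul_le_mul_of_nonneg_left h1 (by positivity)
    have h6 := mul_le_mul_of_nonneg_right h2 hP.hd0
    have h7 := mul_le_mul_of_nonneg_right h3 hP.hd0
    linarith
  have hG : ‖S u - (1 + ((-β : ℝ) : ℂ) * u ^ 2)‖ ≤ √2 * √d * x ^ 3 * (1 + 2 * x) := by
    have hx1 : ‖(3 / 2 * x : ℝ)‖ < 1 := by
      rw [Real.norm_eq_abs, abs_of_nonneg (by positivity)]; linarith
    have h1 : HasSum (fun k : ℕ => √2 * √d * x ^ 3 * (3 / 2 * x) ^ k)
        (√2 * √d * x ^ 3 * (1 - 3 / 2 * x)⁻¹) :=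
      (hasSum_geometric_of_norm_lt_one hx1).mul_left _
    have h2 := (hP.ser u (by linarith)).norm_le_of_bounded h1 (fun k => by
      rw [norm_mul, norm_pow]
      have e2 : ‖u‖ ^ (k + 3) ≤ x ^ (k + 3) := pow_le_pow_left₀ (norm_nonneg _) hu _
      calc ‖-(((k + 2 : ℕ) : ℂ)) * b (k + 2)‖ * ‖u‖ ^ (k + 3)
          ≤ (√2 * √d * (3 / 2) ^ k) * x ^ (k + 3) :=
            mul_le_mul (hcoef k) e2 (by positivity) (by positivity)
        _ = _ := by rw [mul_pow]; ring)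
    refine h2.trans ?_
    have h3 : (1 - 3 / 2 * x)⁻¹ ≤ 1 + 2 * x := by
      rw [inv_le_iff_one_le_mul₀ (by linarith)]; nlinarith
    exact mul_le_mul_of_nonneg_left h3 (by positivity)
  have hx2 := Pert.sq_le hx0 hx
  have hB0 : 0 ≤ √2 * √d * x ^ 3 := by positivity
  have hS0 : 1 - x ^ 2 ≤ ‖1 + ((-β : ℝ) : ℂ) * u ^ 2‖ := by
    have h1 : ‖((-β : ℝ) : ℂ) * u ^ 2‖ ≤ x ^ 2 := by
      rw [norm_mul, norm_pow, norm_real, Real.norm_eq_abs, abs_neg, abs_of_nonneg h.nn]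
      have h2 := pow_le_pow_left₀ (norm_nonneg _) hu 2
      have := mul_le_mul h.beta_le h2 (by positivity) (by norm_num)
      linarith
    have h2 := norm_sub_norm_le (1:ℂ) (-(((-β : ℝ) : ℂ) * u ^ 2))
    rw [norm_one, norm_neg, sub_neg_eq_add] at h2
    linarith
  have hη : ‖eta S (-β) u‖ ≤ √2 * √d * x ^ 3 * (1 + 3 * x) := by
    unfold eta
    have hpos : 0 < ‖1 + ((-β : ℝ) : ℂ) * u ^ 2‖ := by linarith
    rw [norm_div, div_le_iff₀ hpos]
    refine hG.trans ?_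
    have h1 : (1 + 2 * x) ≤ (1 + 3 * x) * (1 - x ^ 2) := by nlinarith
    have h2 : (1 + 3 * x) * (1 - x ^ 2) ≤ (1 + 3 * x) * ‖1 + ((-β : ℝ) : ℂ) * u ^ 2‖ :=
      mul_le_mul_of_nonneg_left hS0 (by positivity)
    have h3 := mul_le_mul_of_nonneg_left (h1.trans h2) hB0
    linarith
  -- logarithm
  have hsmall : √2 * √d * x ^ 3 ≤ x / 100 := by
    have h1 : √d ≤ 1 := h.sqrt_le_one
    have h2 : √2 ≤ 2 := by rw [Real.sqrt_le_left (by norm_num)]; norm_num
    have h3 : √2 * √d ≤ 2 * 1 := mul_le_mul h2 h1 hsd (by norm_num)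
    have h4 : x ^ 3 = x ^ 2 * x := by ring
    have h5 : x ^ 3 ≤ 1 / 900000000 * x := by rw [h4]; exact mul_le_mul_of_nonneg_right hx2 hx0.le
    have h6 := mul_le_mul h3 h5 (by positivity) (by norm_num)
    linarith
  set n0 := ‖eta S (-β) u‖ with hn0
  have hn00 : 0 ≤ n0 := norm_nonneg _
  have hn1 : n0 ≤ x / 50 := by nlinarith
  have hlog : |Real.log ‖1 + eta S (-β) u‖| ≤ n0 * (1 + 2 * n0) := by
    have h1 : ‖1 + eta S (-β) u‖ ≤ 1 + n0 := (norm_add_le _ _).trans (by rw [norm_one])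
    have h2 : 1 - n0 ≤ ‖1 + eta S (-β) u‖ := by
      have := norm_sub_norm_le (1:ℂ) (-(eta S (-β) u))
      rw [norm_one, norm_neg, sub_neg_eq_add] at this
      exact this
    have hpos : 0 < ‖1 + eta S (-β) u‖ := by linarith
    rw [abs_le]
    constructor
    · have h3 := Real.one_sub_inv_le_log_of_pos hpos
      have h4 : ‖1 + eta S (-β) u‖⁻¹ ≤ 1 + n0 * (1 + 2 * n0) := by
        rw [inv_le_iff_one_le_mul₀ hpos]
        have h5 : (1:ℝ) ≤ (1 + n0 * (1 + 2 * n0)) * (1 - n0) := by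
          nlinarith [mul_nonneg hn00 hn00]
        have h6 := mul_le_mul_of_nonneg_left h2 (by positivity : 0 ≤ 1 + n0 * (1 + 2 * n0))
        linarith
      linarith
    · have h3 := Real.log_le_sub_one_of_pos hpos
      nlinarith [mul_nonneg hn00 hn00]
  refine hlog.trans ?_
  have h7 : n0 * (1 + 2 * n0) ≤ (√2 * √d * x ^ 3 * (1 + 3 * x)) * (1 + 2 * (x / 50)) :=
    mul_le_mul hη (by linarith) (by positivity) (by positivity)
  refine h7.trans ?_
  have h8 : (1 + 3 * x) * (1 + 2 * (x / 50)) ≤ 1 + 4 * x := by nlinarith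
  have h9 := mul_le_mul_of_nonneg_left h8 hB0
  linarith

end Pool.Agent.H15.Sig
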