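import Pool.Agent.H15.Sig.ThrUp

/-!
# The sharp threshold for the derivative: the upper bound
-/

open Complex Set Filter Topology MeasureTheory
open scoped ComplexConjugate Real

namespace Pool.Agent.H15.Sig

theorem concl_four {I p x β c : ℝ} (hp : 0 < p) (hx0 : 0 < x) (hx1 : x ^ 2 < 1) (hβ1 : β ≤ 1)
    (hc : 0 < c) (h : I ≤ Real.exp (-c * (p * x ^ 2 * (1 - β))) * Mo p (x ^ 2)) :
    I ≤ Mo p (x ^ 2) ∧ (β < 1 → I < Mo p (x ^ 2)) := by
  have hM := Mo_pos p (sq_nonneg x) hx1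
  have hpx : 0 < p * x ^ 2 := by positivity
  refine ⟨h.trans ?_, fun hβ => lt_of_le_of_lt h ?_⟩
  · have : Real.exp (-c * (p * x ^ 2 * (1 - β))) ≤ 1 := by
      rw [Real.exp_le_one_iff]
      have : 0 ≤ p * x ^ 2 * (1 - β) := mul_nonneg hpx.le (by linarith)
      have := mul_nonneg hc.le this
      linarith
    nlinarith
  · have : Real.exp (-c * (p * x ^ 2 * (1 - β))) < 1 := by
      rw [Real.exp_lt_one_iff]
      have : 0 < p * x ^ 2 * (1 - β) := mul_pos hpx (by linarith)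
      have := mul_pos hc this
      linarith
    nlinarith

theorem Nrm.int_D_sharp {F : ℂ → ℂ} {b : ℕ → ℂ} {β : ℝ} (h : Nrm F b β) {p x ε : ℝ} (hp : 0 < p)
    (hx0 : 0 < x) (hx : x ≤ 1 / 30000) (hε0 : 0 < ε) (hε : 1100 * x ≤ ε)
    (hpx : p * x ^ 4 ≤ 1 / 4 - ε / 2) :
    ∫ t in (-π)..π, ‖1 - (x * ec t) * (deriv (pw b) (x * ec t) * (x * ec t))‖ ^ (2 * p) ≤
      Mo p (x ^ 2) ∧
    (β < 1 →
      ∫ t in (-π)..π, ‖1 - (x * ec t) * (deriv (pw b) (x * ec t) * (x * ec t))‖ ^ (2 * p) <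
      Mo p (x ^ 2)) := by
  have hx1 : x ^ 2 < 1 := by nlinarith
  rcases le_total (p * x ^ 4) (1 / 360) with hs | hs
  · exact h.int_D hp hx0 hx hs
  have hP := h.pertD
  have h1 := hP.int_eq hx0 hx (p := p) (fun t => S0_cos β x t)
  rw [show (∫ t in (-π)..π,
      ‖1 - (x * ec t) * (deriv (pw b) (x * ec t) * (x * ec t))‖ ^ (2 * p)) =
    ∫ t in (-π)..π, ‖(fun u => 1 - u * (deriv (pw b) u * u)) (x * ec t)‖ ^ (2 * p) from rfl, h1]
  have hx2 := Pert.sq_le hx0 hx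
  have hx20 : 0 < x ^ 2 := by positivity
  have hτ : 3 / 2 ≤ p * x ^ 2 := by
    have e : p * x ^ 4 = p * x ^ 2 * x ^ 2 := by ring
    rw [e] at hs
    have h3 : p * x ^ 2 * x ^ 2 ≤ p * x ^ 2 * (1 / 900000000) :=
      mul_le_mul_of_nonneg_left hx2 (by positivity)
    linarith
  rcases le_total β (9 / 10) with hβ9 | hβ9
  · exact concl_three hx1 (SF_cos.regime_two_b hp hx0 hx h.nn hβ9 hτ (hP.cont hx0 hx)
      (hP.hb hx0 hx))
  have hβ1 := h.beta_le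
  have hε1 : ε ≤ 1 / 2 := by
    have : 0 < p * x ^ 4 := by positivity
    linarith
  have hδ0 : 0 ≤ 1 - β ^ 2 := h.del_nonneg
  set ω := p * x ^ 2 * (1 - β) with hω
  have hω0 : 0 ≤ ω := mul_nonneg (by positivity) (by linarith)
  refine concl_four (c := 1 / 3 * ε) hp hx0 hx1 hβ1 (by positivity) ?_
  refine (SF_cos.regime_three hp hx0 hx hβ9 hβ1 hs (hP.cont hx0 hx) (hP.he hx0 hx)
    (A := (2 - 4 * ε) * (1 + 9 * x) * ω) ?_).trans ?_
  · intro t
    refine (Real.cosh_le_exp_half_sq _).trans (Real.exp_le_exp.2 ?_)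
    set Y := YY (fun u => 1 - u * (deriv (pw b) u * u)) (-β) x with hY
    have h1 : |p * Y t - p * Y (-t)| ≤ 2 * p * (√2 * √(1 - β ^ 2) * x ^ 3 * (1 + 4 * x)) := by
      rw [← mul_sub, abs_mul, abs_of_pos hp]
      have h2 := abs_sub (Y t) (Y (-t))
      have h3 := h.YY_sharp hx0 hx t
      have h4 := h.YY_sharp hx0 hx (-t)
      have h5 := mul_le_mul_of_nonneg_left (h2.trans (add_le_add h3 h4)) hp.le
      linarith
    have h2 := pow_le_pow_left₀ (abs_nonneg _) h1 2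
    rw [sq_abs] at h2
    have h3 : (2 * p * (√2 * √(1 - β ^ 2) * x ^ 3 * (1 + 4 * x))) ^ 2 =
        8 * (1 + β) * (p * x ^ 4 * ω) * (1 + 4 * x) ^ 2 := by
      have e1 : (2 * p * (√2 * √(1 - β ^ 2) * x ^ 3 * (1 + 4 * x))) ^ 2 =
          4 * p ^ 2 * (√2 ^ 2 * (√(1 - β ^ 2) ^ 2) * x ^ 6 * (1 + 4 * x) ^ 2) := by ring
      rw [e1, Real.sq_sqrt hδ0, Real.sq_sqrt (by norm_num), hω]; ring
    rw [h3] at h2
    have h4 : (1 + 4 * x) ^ 2 ≤ 1 + 9 * x := by nlinarith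
    have h5 : 8 * (1 + β) * (p * x ^ 4 * ω) ≤ 16 * ((1 / 4 - ε / 2) * ω) := by
      have h6 := mul_le_mul_of_nonneg_right hpx hω0
      have h7 : 0 ≤ p * x ^ 4 * ω := by positivity
      nlinarith
    have h6 : 0 ≤ 16 * ((1 / 4 - ε / 2) * ω) := by
      have : 0 ≤ 1 / 4 - ε / 2 := by linarith
      positivity
    have h7 := mul_le_mul h5 h4 (by positivity) h6
    linarith
  · have hM := Mo_pos p (sq_nonneg x) hx1
    apply mul_le_mul_of_nonneg_right _ hM.le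
    apply Real.exp_le_exp.2
    rw [← hω]
    have h1 : 0 ≤ ω * x := by positivity
    have h2 : ω * (1100 * x) ≤ ω * ε := mul_le_mul_of_nonneg_left hε hω0
    have h3 : 0 ≤ ε * (ω * x) := by positivity
    nlinarith

theorem IsSig.deriv_le_J_sharp {F : ℂ → ℂ} {b : ℕ → ℂ} (h : IsSig F b) {lam r ε : ℝ}
    (hl : 0 < lam) (hr : 30000 ≤ r) (hε0 : 0 < ε) (hε : 1100 ≤ ε * r)
    (hlr : lam ≤ (1 / 2 - ε) * r ^ 4) :
    ∫ t in (-π)..π, ‖deriv F (r * exp (t * I))‖ ^ lam ≤ Mo (lam / 2) ((r⁻¹) ^ 2) ∧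
    (‖b 1‖ < 1 →
      ∫ t in (-π)..π, ‖deriv F (r * exp (t * I))‖ ^ lam < Mo (lam / 2) ((r⁻¹) ^ 2)) := by
  obtain ⟨φ, hN⟩ := exists_rot h
  have hr0 : 0 < r := by linarith
  have hx0 : 0 < r⁻¹ := inv_pos.2 hr0
  have hx : r⁻¹ ≤ 1 / 30000 := by
    rw [one_div]; exact inv_anti₀ (by norm_num) hr
  have hpx : lam / 2 * (r⁻¹) ^ 4 ≤ 1 / 4 - ε / 2 := by
    rw [inv_pow, ← div_eq_mul_inv, div_le_iff₀ (by positivity)]
    linarith
  have hεx : 1100 * r⁻¹ ≤ ε := by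
    rw [← div_eq_mul_inv, div_le_iff₀ hr0]; exact hε
  have h1 := hN.int_D_sharp (p := lam / 2) (by positivity) hx0 hx hε0 hεx hpx
  rw [show 2 * (lam / 2) = lam by ring] at h1
  have h2 : ∀ t : ℝ, ‖deriv F (exp (φ * I) * (r * exp (t * I)))‖ ^ lam =
      ‖1 - ((r⁻¹ : ℝ) * ec t) * (deriv (pw (fun n => b n * ((exp (φ * I))⁻¹) ^ (n + 1)))
        ((r⁻¹ : ℝ) * ec t) * ((r⁻¹ : ℝ) * ec t))‖ ^ lam := by
    intro t
    set z : ℂ := r * exp (t * I) with hz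
    have hzn : ‖z‖ = r := by
      rw [hz, norm_mul, norm_exp_ofReal_mul_I, mul_one, norm_real, Real.norm_eq_abs,
        abs_of_pos hr0]
    have hz1 : 1 < ‖z‖ := by rw [hzn]; linarith
    have hzi : z⁻¹ = (r⁻¹ : ℝ) * ec t := by
      have := inv_ec r⁻¹ t
      rw [inv_inv] at this
      rw [hz, ← this, inv_inv]
    have h3 := (hN.sig.hasDerivAt hz1)
    have h4 : HasDerivAt (fun z => (exp (φ * I))⁻¹ * F (exp (φ * I) * z))
        (deriv F (exp (φ * I) * z)) z := by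
      have hz2 : 1 < ‖exp (φ * I) * z‖ := by
        rw [norm_mul, norm_exp_ofReal_mul_I, one_mul]; exact hz1
      have h5 : HasDerivAt (fun z : ℂ => exp (φ * I) * z) (exp (φ * I) * 1) z :=
        (hasDerivAt_id z).const_mul _
      have h6 := ((h.differentiableAt hz2).hasDerivAt.comp z h5).const_mul ((exp (φ * I))⁻¹)
      refine h6.congr_deriv ?_
      have : exp (φ * I) ≠ 0 := exp_ne_zero _
      field_simp
    rw [h4.unique h3, hzi]
    congr 2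
    have : (z ^ 2)⁻¹ = ((r⁻¹ : ℝ) * ec t) ^ 2 := by rw [← hzi, inv_pow]
    rw [this]; ring
  rw [← integral_rot (g := deriv F) φ]
  simp_rw [h2]
  exact h1

/-- derivative, large radii, up to the threshold -/
theorem sigma_deriv_upto {lam r ε : ℝ} (hl : 0 < lam) (hr : 30000 ≤ r) (hε0 : 0 < ε)
    (hε : 1100 ≤ ε * r) (hlr : lam ≤ (1 / 2 - ε) * r ^ 4) :
    IsGreatest {x : ℝ | ∃ F : ℂ → ℂ, ClassSigma F ∧ x = integralMean lam r (deriv F)}
      (integralMean lam r (fun z => 1 - (z ^ 2)⁻¹)) ∧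
    ∀ F : ℂ → ℂ, ClassSigma F →
      (integralMean lam r (deriv F) = integralMean lam r (fun z => 1 - (z ^ 2)⁻¹) ↔
        ∃ c : ℂ, ‖c‖ = 1 ∧ ∀ z : ℂ, 1 < ‖z‖ → F z = z + c / z) := by
  have hr1 : 1 < r := by linarith
  have hJ0 : integralMean lam r (deriv fun z : ℂ => z + z⁻¹) =
      integralMean lam r (fun z => 1 - (z ^ 2)⁻¹) :=
    integralMean_deriv_rotJ (c := 1) (by simp) (fun z _ => by rw [one_div]) hr1
  have hJ : integralMean lam r (fun z => 1 - (z ^ 2)⁻¹) =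
      ((2 * π)⁻¹ * (Mo (lam / 2) ((r⁻¹) ^ 2))) ^ (1 / lam) := by
    rw [← hJ0, integralMean_eq, J_deriv_moment hr1]
  refine ⟨⟨⟨_, classSigma_J, hJ0.symm⟩, ?_⟩, ?_⟩
  · rintro x ⟨F, hF, rfl⟩
    obtain ⟨b, hb⟩ := hF.isSig
    rw [hJ]
    exact (integralMean_mono hl).1 (hb.deriv_le_J_sharp hl hr hε0 hε hlr).1
  · intro F hF
    obtain ⟨b, hb⟩ := hF.isSig
    constructor
    · intro he
      by_cases h1 : ‖b 1‖ < 1
      · exfalso
        have := (integralMean_mono hl).2 ((hb.deriv_le_J_sharp hl hr hε0 hε hlr).2 h1)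
        rw [← hJ, he] at this
        exact lt_irrefl _ this
      · exact ⟨b 1, hb.eq_of_norm_one h1⟩
    · rintro ⟨c, hc, hFc⟩
      exact integralMean_deriv_rotJ hc hFc hr1

end Pool.Agent.H15.Sig
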